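import Pool.Agent.Lib.MP_2619d0_ag.VeryGeneral

/-!
Row SG6a (MP_2619d0_ag, theorem S_G).
-/

set_option autoImplicit false

namespace Pool.Agent.Lib.MP_2619d0_ag.T

open MvPolynomial

universe u

theorem SG6a_eval {N : ℕ} (F : MvPolynomial (Fin (N + 1)) ℂ) (hF : F.IsHomogeneous 3)
    (w : Fin (N + 1) → ℂ) :
    eval w F = ∑ j : Exp3 (N + 1), coeff j.1 F * ∏ i, w i ^ j.1 i := by
  classical
  rw [eval_eq']
  have h1 : F.support ⊆ (Finset.univ : Finset (Exp3 (N + 1))).image Subtype.val := by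
    intro d hd
    rw [Finset.mem_image]
    have h2 : d.degree = 3 := by
      have h3 := hF (mem_support_iff.mp hd)
      rw [← h3, Finsupp.degree_eq_weight_one]
      rfl
    exact ⟨⟨d, h2⟩, Finset.mem_univ _, rfl⟩
  rw [Finset.sum_subset h1, Finset.sum_image fun x _ y _ h => Subtype.ext h]
  intro d _ hd
  rw [notMem_support_iff.mp hd, zero_mul]

theorem SG6a_line {N : ℕ} (e w : Fin (N + 1) → ℂ) (t : ℂ) (P : MvPolynomial (Fin (N + 1)) ℂ) :
    (aeval (fun i => Polynomial.C (e i) + Polynomial.X * Polynomial.C (w i - e i)) P).eval t =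
      eval (fun i => e i + t * (w i - e i)) P := by
  have h1 : (Polynomial.aeval t).comp
      (aeval (fun i => Polynomial.C (e i) + Polynomial.X * Polynomial.C (w i - e i))) =
      (aeval (fun i => e i + t * (w i - e i)) : MvPolynomial (Fin (N + 1)) ℂ →ₐ[ℂ] ℂ) := by
    rw [comp_aeval]
    congr 1
    funext i
    simp
  have h2 := DFunLike.congr_fun h1 P
  rw [AlgHom.comp_apply, Polynomial.coe_aeval_eq_eval] at h2
  rw [h2]
  rfl

theorem SG6a_lifts {N : ℕ} (k0 : Subfield ℂ) (e w : Fin (N + 1) → ℂ) (he : ∀ i, e i ∈ k0)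
    (hw : ∀ i, w i ∈ k0) (G : MvPolynomial (Fin (N + 1)) ℂ) (hGk : ∀ d, coeff d G ∈ k0) :
    aeval (fun i => Polynomial.C (e i) + Polynomial.X * Polynomial.C (w i - e i)) G ∈
      Polynomial.lifts (algebraMap k0 ℂ) := by
  have hC : ∀ c ∈ k0, (Polynomial.C c : Polynomial ℂ) ∈ Polynomial.lifts (algebraMap k0 ℂ) := by
    intro c hc
    exact Polynomial.C_mem_lifts (algebraMap k0 ℂ) ⟨c, hc⟩
  rw [aeval_def, eval₂_eq']
  refine Subsemiring.sum_mem _ fun d _ => ?_
  refine Subsemiring.mul_mem _ (hC _ (hGk d)) (Subsemiring.prod_mem _ fun i _ => ?_)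
  refine Subsemiring.pow_mem _ ?_ _
  refine Subsemiring.add_mem _ (hC _ (he i)) ?_
  exact Subsemiring.mul_mem _ (Polynomial.X_mem_lifts _) (hC _ (k0.sub_mem (hw i) (he i)))

/-- Suppose `G = F H`. Choose `v : Fin (N + 1) → ℤ` (or `ℕ`) with `v 0 ≠ 0` and `G(v) ≠ 0` (`G * X 0 ≠ 0`,
e.g. `MvPolynomial.funext_set` / `MvPolynomial.exists_eval_ne_zero`-type lemma for the infinite set of
natural numbers), and restrict to the line `v + T e_1` (`e_1 = Pi.single 1 1`, `N ≥ 1`): with
`g(T) = G(v + T e_1) ∈ k0[T]`, `f(T) = F(v + T e_1)` one has `f ∣ g` in `ℂ[T]`, `g ≠ 0` because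
`g(0) = G(v) ≠ 0`. All roots of `f` are roots of `g`, hence algebraic over `k0`. The leading coefficient
of `f` (degree 3) is the coefficient `c111` of `x_1³` in `F` (nonzero), its constant coefficient is
`F(v)`. `ℂ` is algebraically closed, so `F(v) = f(0) = - c111 * (product of the three roots)`; so
`F(v) / c111` is algebraic over `k0`. But `F(v) = c000 v_0³ + (integral combination of the other
coefficients)`, so `c000` would be algebraic over the field generated over `k0` by the other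
coefficients of `F`, contradicting the algebraic independence (for example: `F(v)` and `c111` are
algebraically independent; or apply an evaluation homomorphism). -/
theorem not_dvd_of_indep {N : ℕ} (hN : 1 ≤ N) (k0 : Subfield ℂ)
    (F : MvPolynomial (Fin (N + 1)) ℂ) (hF : F.IsHomogeneous 3)
    (hind : AlgebraicIndependent k0 (fun j : Exp3 (N + 1) => coeff j.1 F))
    (G : MvPolynomial (Fin (N + 1)) ℂ) (hG : G ≠ 0) (hGk : ∀ d, coeff d G ∈ k0) : ¬ F ∣ G := by
  classical
  intro hdvd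
  -- the exponents of `x_0 ^ 3` and `x_1 ^ 3`
  obtain ⟨o, ho⟩ : ∃ o : Fin (N + 1), o ≠ 0 := ⟨⟨1, by omega⟩, by
    intro h
    have := congrArg Fin.val h
    simp at this⟩
  let j0 : Exp3 (N + 1) := ⟨Finsupp.single 0 3, by rw [Finsupp.degree_single]⟩
  let j1 : Exp3 (N + 1) := ⟨Finsupp.single o 3, by rw [Finsupp.degree_single]⟩
  have hj : j1 ≠ j0 := by
    intro h
    have h1 := congrArg (fun j : Exp3 (N + 1) => j.1 0) h
    simp [j0, j1, ho] at h1
  -- a point `w` with natural coordinates, `w 0 ≠ 0`, `G w ≠ 0`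
  obtain ⟨w, hwN, hw0, hGw⟩ : ∃ w : Fin (N + 1) → ℂ, (∀ i, ∃ n : ℕ, w i = n) ∧ w 0 ≠ 0 ∧
      eval w G ≠ 0 := by
    by_contra hcon
    push Not at hcon
    have hinf : ∀ _ : Fin (N + 1), (Set.range (fun n : ℕ => (n : ℂ))).Infinite := fun _ =>
      Set.infinite_range_of_injective Nat.cast_injective
    have h1 : G * X 0 = 0 := by
      apply MvPolynomial.funext_set (fun _ : Fin (N + 1) => Set.range (fun n : ℕ => (n : ℂ)))
        hinf
      intro x hx
      rw [map_mul, eval_X, map_zero]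
      by_cases hx0 : x 0 = 0
      · rw [hx0, mul_zero]
      · rw [hcon x (fun i => by
          obtain ⟨n, hn⟩ := hx i (Set.mem_univ i)
          exact ⟨n, hn.symm⟩) hx0, zero_mul]
    rcases mul_eq_zero.mp h1 with h2 | h2
    · exact hG h2
    · exact X_ne_zero 0 h2
  have hwk : ∀ i, w i ∈ k0 := by
    intro i
    obtain ⟨n, hn⟩ := hwN i
    rw [hn]
    exact natCast_mem k0 n
  let e : Fin (N + 1) → ℂ := Pi.single o 1
  have hek : ∀ i, e i ∈ k0 := by
    intro i
    by_cases h : i = o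
    · rw [h]
      simp only [e, Pi.single_eq_same]
      exact k0.one_mem
    · simp only [e, Pi.single_eq_of_ne h]
      exact k0.zero_mem
  have heF : eval e F = coeff j1.1 F := by
    rw [SG6a_eval F hF, Finset.sum_eq_single j1]
    · rw [Finset.prod_eq_one, mul_one]
      intro i _
      by_cases h : i = o
      · rw [h]
        simp only [e, Pi.single_eq_same, one_pow]
      · simp only [j1, Finsupp.single_apply, if_neg (Ne.symm h), pow_zero]
    · intro j _ hjj
      obtain ⟨i, hi, hji⟩ : ∃ i, i ≠ o ∧ j.1 i ≠ 0 := by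
        by_contra hcon
        push Not at hcon
        apply hjj
        apply Subtype.ext
        have h1 : j.1 = Finsupp.single o (j.1 o) := by
          ext i
          by_cases h : i = o
          · rw [h, Finsupp.single_eq_same]
          · rw [hcon i h, Finsupp.single_apply, if_neg (Ne.symm h)]
        have h2 := j.2
        rw [h1, Finsupp.degree_single] at h2
        rw [h1, h2]
      rw [Finset.prod_eq_zero (Finset.mem_univ i), mul_zero]
      simp only [e, Pi.single_eq_of_ne hi]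
      exact zero_pow hji
    · intro h
      exact absurd (Finset.mem_univ _) h
  have hc0 : ∀ j : Exp3 (N + 1), coeff j.1 F ≠ 0 := fun j => hind.ne_zero j
  -- restriction to the line
  obtain ⟨p, hp⟩ : ∃ p, p = aeval (fun i => Polynomial.C (e i) +
    Polynomial.X * Polynomial.C (w i - e i)) F := ⟨_, rfl⟩
  obtain ⟨q, hq⟩ : ∃ q, q = aeval (fun i => Polynomial.C (e i) +
    Polynomial.X * Polynomial.C (w i - e i)) G := ⟨_, rfl⟩
  have hpq : p ∣ q := by
    rw [hp, hq]
    exact map_dvd _ hdvd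
  have hp0 : p.eval 0 = coeff j1.1 F := by
    rw [hp, SG6a_line, ← heF]
    congr 1
    simp
  have hp1 : p.eval 1 = eval w F := by
    rw [hp, SG6a_line]
    congr 1
    simp
  have hq1 : q.eval 1 ≠ 0 := by
    rw [hq, SG6a_line]
    simpa using hGw
  have hq0 : q ≠ 0 := by
    rintro rfl
    simp at hq1
  have hlift := SG6a_lifts k0 e w hek hwk G hGk
  rw [← hq] at hlift
  obtain ⟨q0, hq0'⟩ := (Polynomial.mem_lifts q).mp hlift
  have hroots : ∀ z ∈ p.roots, IsAlgebraic k0 z := by
    intro z hz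
    refine ⟨q0, ?_, ?_⟩
    · rintro rfl
      apply hq0
      rw [← hq0', Polynomial.map_zero]
    · rw [← Polynomial.eval_map_algebraMap, hq0']
      exact Polynomial.eval_eq_zero_of_dvd_of_eval_eq_zero hpq (Polynomial.isRoot_of_mem_roots hz)
  have hprod : ∀ t ∈ k0, (p.roots.map (fun z => t - z)).prod ∈
      (algebraicClosure k0 ℂ : IntermediateField k0 ℂ) := by
    intro t ht
    refine multiset_prod_mem _ fun y hy => ?_
    obtain ⟨z, hz, rfl⟩ := Multiset.mem_map.mp hy
    refine sub_mem ?_ (mem_algebraicClosure_iff.mpr (hroots z hz))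
    exact (algebraicClosure k0 ℂ).algebraMap_mem ⟨t, ht⟩
  have hsp : p.Splits := IsAlgClosed.splits p
  have e0 := hsp.eval_eq_prod_roots 0
  have e1 := hsp.eval_eq_prod_roots 1
  have hP0 : (p.roots.map (fun z => (0 : ℂ) - z)).prod ≠ 0 := by
    intro h
    rw [h, mul_zero, hp0] at e0
    exact hc0 j1 e0
  obtain ⟨β, hβ⟩ : ∃ β, β = (p.roots.map (fun z => (1 : ℂ) - z)).prod /
    (p.roots.map (fun z => (0 : ℂ) - z)).prod := ⟨_, rfl⟩
  have hβa : IsAlgebraic k0 β := by
    rw [← mem_algebraicClosure_iff, hβ]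
    exact div_mem (hprod 1 k0.one_mem) (hprod 0 k0.zero_mem)
  have hβF : eval w F = β * coeff j1.1 F := by
    rw [← hp1, ← hp0, e1, e0, hβ]
    field_simp
  -- contradiction with the transcendence of the coefficient of `x_0 ^ 3`
  have htr := hind.transcendental_adjoin (s := {j | j ≠ j0}) (i := j0) (fun h => h rfl)
  apply htr
  obtain ⟨A, hA⟩ : ∃ A, A = Algebra.adjoin k0
    ((fun j : Exp3 (N + 1) => coeff j.1 F) '' {j | j ≠ j0}) := ⟨_, rfl⟩
  rw [← hA]
  have hmem : ∀ j : Exp3 (N + 1), j ≠ j0 → coeff j.1 F ∈ A := by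
    intro j hj
    rw [hA]
    exact Algebra.subset_adjoin ⟨j, hj, rfl⟩
  have halg : ∀ y ∈ A, IsAlgebraic A y := fun y hy =>
    isAlgebraic_algebraMap (⟨y, hy⟩ : A)
  have hk : ∀ y ∈ k0, y ∈ A := fun y hy => A.algebraMap_mem ⟨y, hy⟩
  have hβA : IsAlgebraic A β := hβa.extendScalars (FaithfulSMul.algebraMap_injective k0 A)
  have hsum : eval w F = coeff j0.1 F * w 0 ^ 3 +
      ∑ j ∈ Finset.univ.erase j0, coeff j.1 F * ∏ i, w i ^ j.1 i := by
    rw [SG6a_eval F hF, ← Finset.add_sum_erase _ _ (Finset.mem_univ j0)]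
    congr 2
    rw [Finset.prod_eq_single 0]
    · simp [j0]
    · intro i _ hi
      simp only [j0, Finsupp.single_apply, if_neg (Ne.symm hi), pow_zero]
    · intro h
      exact absurd (Finset.mem_univ _) h
  have hfin : coeff j0.1 F = (w 0 ^ 3)⁻¹ * (β * coeff j1.1 F -
      ∑ j ∈ Finset.univ.erase j0, coeff j.1 F * ∏ i, w i ^ j.1 i) := by
    rw [← hβF, hsum]
    field_simp
    ring
  change IsAlgebraic A (coeff j0.1 F)
  rw [hfin]
  have hrest : ∑ j ∈ Finset.univ.erase j0, coeff j.1 F * ∏ i, w i ^ j.1 i ∈ A := by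
    refine sum_mem fun j hj => mul_mem (hmem j (Finset.ne_of_mem_erase hj)) ?_
    exact prod_mem fun i _ => pow_mem (hk _ (hwk i)) _
  have hinv : (w 0 ^ 3)⁻¹ ∈ A := hk _ (k0.inv_mem (k0.pow_mem (hwk 0) 3))
  exact (halg _ hinv).mul ((hβA.mul (halg _ (hmem j1 hj))).sub (halg _ hrest))

end Pool.Agent.Lib.MP_2619d0_ag.T
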