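import Pool.Agent.Lib.MP_2619d0_ag.VeryGeneral

/-!
Row SG7 (MP_2619d0_ag, theorem S_G).
-/

set_option autoImplicit false

namespace Pool.Agent.Lib.MP_2619d0_ag.T

open MvPolynomial

universe u

theorem SG7_countable (k0 : Subfield ℂ) (hk0 : Countable k0) {J : Type} [Finite J] :
    Countable (MvPolynomial J k0) := by
  have : Countable (J →₀ ℕ) := inferInstance
  have h : Function.Injective
      (fun p : MvPolynomial J k0 => (⟨p.support, fun d : p.support => coeff d.1 p⟩ :
        Σ s : Finset (J →₀ ℕ), (s → k0))) := by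
    intro p q hpq
    simp only [Sigma.mk.injEq] at hpq
    obtain ⟨h1, h2⟩ := hpq
    ext1 d
    by_cases hd : d ∈ p.support
    · have hd' : d ∈ q.support := h1 ▸ hd
      have : ∀ (s t : Finset (J →₀ ℕ)) (hst : s = t) (f : s → k0) (g : t → k0) (hfg : HEq f g)
          (hs : d ∈ s) (ht : d ∈ t), f ⟨d, hs⟩ = g ⟨d, ht⟩ := by
        intro s t hst f g hfg hs ht
        subst hst
        rw [eq_of_heq hfg]
      exact this _ _ h1 _ _ h2 hd hd'
    · have hd' : d ∉ q.support := h1 ▸ hd
      rw [notMem_support_iff.mp hd, notMem_support_iff.mp hd']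
  exact h.countable

theorem SG7_aeval (k0 : Subfield ℂ) {J : Type} (p : MvPolynomial J k0) (x : J → k0) :
    algebraMap k0 ℂ (eval x p) = aeval (fun j => algebraMap k0 ℂ (x j)) p := by
  induction p using MvPolynomial.induction_on with
  | C a => rw [eval_C, aeval_C]
  | add p q hp hq => rw [map_add, map_add, map_add, hp, hq]
  | mul_X p i hp => rw [map_mul, map_mul, map_mul, hp, eval_X, aeval_X]

/-- The same proof as `exists_conditions` in VeryGeneral.lean with `ℚ` replaced by a countable
subfield `k0` of `ℂ`. -/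
theorem exists_conditions_over (k0 : Subfield ℂ) (hk0 : Countable k0) (m : ℕ) :
    ∃ P : ℕ → MvPolynomial ((Fin m) →₀ ℕ) ℂ,
      (∀ k, ∃ G : MvPolynomial (Fin m) ℂ, G.IsHomogeneous 3 ∧
        eval (fun d => G.coeff d) (P k) ≠ 0) ∧
      ∀ F : MvPolynomial (Fin m) ℂ, F.IsHomogeneous 3 →
        (∀ k, eval (fun d => F.coeff d) (P k) ≠ 0) →
        AlgebraicIndependent k0 (fun j : Exp3 m => coeff j.1 F) := by
  classical
  have hne : Nonempty {p : MvPolynomial (Exp3 m) k0 // p ≠ 0} := ⟨⟨1, one_ne_zero⟩⟩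
  have hc0 : Countable (MvPolynomial (Exp3 m) k0) := SG7_countable k0 hk0
  have hc : Countable {p : MvPolynomial (Exp3 m) k0 // p ≠ 0} := inferInstance
  obtain ⟨f, hf⟩ := exists_surjective_nat {p : MvPolynomial (Exp3 m) k0 // p ≠ 0}
  have hinf : Infinite k0 := inferInstance
  have hev : ∀ (F : MvPolynomial (Fin m) ℂ) (p : MvPolynomial (Exp3 m) k0),
      eval (fun d => F.coeff d) (rename Subtype.val (map (algebraMap k0 ℂ) p))
        = aeval (fun j : Exp3 m => coeff j.1 F) p := by
    intro F p
    rw [eval_rename, eval_map, aeval_def]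
    rfl
  refine ⟨fun k => rename Subtype.val (map (algebraMap k0 ℂ) (f k).1), ?_, ?_⟩
  · intro k
    have h1 : ∃ x : Exp3 m → k0, eval x (f k).1 ≠ 0 := by
      by_contra hcon
      push Not at hcon
      apply (f k).2
      apply MvPolynomial.funext
      intro x
      rw [hcon x, map_zero]
    obtain ⟨x, hx⟩ := h1
    set G : MvPolynomial (Fin m) ℂ := ∑ j : Exp3 m, monomial j.1 (algebraMap k0 ℂ (x j)) with hG
    have hGc : ∀ j : Exp3 m, coeff j.1 G = algebraMap k0 ℂ (x j) := by
      intro j
      rw [hG, coeff_sum, Finset.sum_eq_single j]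
      · rw [coeff_monomial, if_pos rfl]
      · intro i _ hi
        rw [coeff_monomial, if_neg]
        intro h2
        exact hi (Subtype.ext h2)
      · intro h2
        exact absurd (Finset.mem_univ _) h2
    refine ⟨G, ?_, ?_⟩
    · rw [hG]
      refine IsHomogeneous.sum _ _ _ fun j _ => ?_
      exact isHomogeneous_monomial _ j.2
    · rw [hev]
      have h3 : (fun j : Exp3 m => coeff j.1 G) = fun j => algebraMap k0 ℂ (x j) := by
        funext j
        rw [hGc]
      rw [h3, ← SG7_aeval k0 (f k).1 x, map_ne_zero]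
      exact hx
  · intro F _ hF
    rw [algebraicIndependent_iff]
    intro p hp
    by_contra hp0
    obtain ⟨k, hk⟩ := hf ⟨p, hp0⟩
    apply hF k
    rw [hev, hk]
    exact hp

end Pool.Agent.Lib.MP_2619d0_ag.T
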