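import Pool.Agent.Lib.MP_2619d0_ag.T.SG6
import Pool.Agent.Lib.MP_2619d0_ag.T.SG6a
import Pool.Agent.Lib.MP_2619d0_ag.T.SG7

/-!
Row SG8: the third point theorem for points of a fixed hypersurface section.
-/

set_option autoImplicit false

namespace Pool.Agent.Lib.MP_2619d0_ag.T

open MvPolynomial

universe u

variable {N : ℕ} {F : MvPolynomial (Fin (N + 1)) ℂ} {L : Type u} [Field L] [Algebra ℂ L]

/-- The secant theorem for a point `a` with `G(a) = 0`. -/
theorem secantG (hN : 2 ≤ N) (hF : VG F) (k0 : Subfield ℂ) (hk0 : Countable k0)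
    (hind : AlgebraicIndependent k0 (fun j : Exp3 (N + 1) => coeff j.1 F)) {d : ℕ}
    {G : MvPolynomial (Fin (N + 1)) ℂ} (hG : G.IsHomogeneous d) (hG0 : G ≠ 0)
    (hGk : ∀ e, coeff e G ∈ k0) (y : Fin (N + 1) → L) (hy0 : y 0 = 1)
    (hy : Gp F (ev y)) (hodd : Odd (fd (ev y))) (a : Fin (N + 1) → L) (ha0 : a ≠ 0)
    (hFa : Fc (cL L F) a = 0) (hGa : aeval a G = 0) :
    Dc (cL L F) a y ≠ 0 ∧ third (cL L F) y a 0 ≠ 0 ∧ Gp F (ev (third (cL L F) y a)) ∧
    Odd (fd (ev (third (cL L F) y a))) := by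
  have hng : a 0 ≠ 0 → Gp F (ev a) → False := by
    intro h0 hg
    have h1 : IsGP F a := (isGP_iff hN hF a).mpr ⟨h0, hg⟩
    exact not_dvd_of_indep (by omega) k0 F hF.1 hind G hG0 hGk ((h1 d G hG).mp hGa)
  have hlin : LinearIndependent L ![y, a] := by
    rw [LinearIndependent.pair_iff]
    intro s t hst
    by_cases ht : t = 0
    · subst ht
      rw [zero_smul, add_zero] at hst
      have h1 := congrFun hst 0
      rw [Pi.smul_apply, hy0, Pi.zero_apply, smul_eq_mul, mul_one] at h1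
      exact ⟨h1, rfl⟩
    · exfalso
      have h1 : a = (-(s / t)) • y := by
        funext i
        have h2 := congrFun hst i
        simp only [Pi.add_apply, Pi.smul_apply, Pi.zero_apply, smul_eq_mul] at h2
        rw [Pi.smul_apply, smul_eq_mul]
        field_simp
        linear_combination h2
      have hs : -(s / t) ≠ 0 := by
        intro h0
        rw [h0, zero_smul] at h1
        exact ha0 h1
      have h3 : a 0 = -(s / t) := by
        have h4 := congrFun h1 0
        rw [Pi.smul_apply, hy0, smul_eq_mul, mul_one] at h4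
        exact h4
      refine hng ?_ ?_
      · rw [h3]; exact hs
      · rw [T1b_ev a y _ hs h1]; exact hy
  obtain ⟨hinj, hpar⟩ := parity hN hF y a hy0 hy hodd hlin hFa
  rcases hpar with hpar | ⟨hD, hpar⟩
  · exfalso
    have hu := uu_zero_ne y a hy0
    have hFy := Fc_of_Gp hF.1 y hy0 hy
    set ψ := psi y a with hψ
    have huz : uu y a + (-(sv L)) • (fun i => cM L (a i)) = fun i => cM L (y i) := by
      funext i
      simp only [uu, Pi.add_apply, Pi.smul_apply, smul_eq_mul]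
      ring
    have hFz : Fc (cm (cM L) (cL L F)) ((-(sv L)) • (fun i => cM L (a i))) = 0 := by
      rw [Fc_smul, Fc_cm, hFa, map_zero, mul_zero]
    have hFu : Fc (cm (cM L) (cL L F)) (uu y a + (-(sv L)) • (fun i => cM L (a i))) = 0 := by
      rw [huz, Fc_cm, hFy, map_zero]
    rw [Fc_add, hFz, add_zero] at hFu
    have hGz : eval₂ (ψ.comp C) ((-(sv L)) • (fun i => cM L (a i))) G = 0 := by
      have h1 : ψ.comp C = (cM L).comp (algebraMap ℂ L) := by
        ext c
        rw [hψ, psi, RingHom.comp_apply, eval₂Hom_C]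
      have h2 : ((-(sv L)) • (fun i => cM L (a i))) = fun i => (-(sv L)) * (cM L (a i)) := rfl
      have h3 : eval₂ ((cM L).comp (algebraMap ℂ L)) (fun i => cM L (a i)) G =
          cM L (eval₂ (algebraMap ℂ L) a G) := by
        rw [eval₂_comp_left]
        rfl
      have h4 : eval₂ (algebraMap ℂ L) a G = 0 := by
        rw [← hGa, aeval_def]
      rw [h1, h2, SG6_eval_smul _ hG, h3, h4, map_zero, mul_zero]
    have h := anisoG hF.1 k0 hk0 hind hG hG0 hGk ψ hinj hpar (uu y a 0)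
      ((-(sv L)) • (fun i => cM L (a i))) (by
      rw [hψ, cc_psi, yh_psi y a hu, Fc_smul, Dc_smul_left, Dc_smul_right _ ((uu y a 0)⁻¹)]
      have h5 : (uu y a 0) ^ 2 * ((uu y a 0)⁻¹ ^ 3 * Fc (cm (cM L) (cL L F)) (uu y a)) +
          uu y a 0 * ((uu y a 0)⁻¹ ^ 2 *
            Dc (cm (cM L) (cL L F)) (uu y a) ((-(sv L)) • (fun i => cM L (a i)))) +
          (uu y a 0)⁻¹ * Dc (cm (cM L) (cL L F)) ((-(sv L)) • (fun i => cM L (a i))) (uu y a) =
          (uu y a 0)⁻¹ * (Fc (cm (cM L) (cL L F)) (uu y a) +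
            Dc (cm (cM L) (cL L F)) (uu y a) ((-(sv L)) • (fun i => cM L (a i))) +
            Dc (cm (cM L) (cL L F)) ((-(sv L)) • (fun i => cM L (a i))) (uu y a)) := by
        generalize Fc (cm (cM L) (cL L F)) (uu y a) = X1
        generalize Dc (cm (cM L) (cL L F)) (uu y a) ((-(sv L)) • (fun i => cM L (a i))) = X2
        generalize Dc (cm (cM L) (cL L F)) ((-(sv L)) • (fun i => cM L (a i))) (uu y a) = X3
        generalize uu y a 0 = v at hu
        field_simp
      rw [h5, hFu, mul_zero]) hGz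
    exact hu h.1
  · refine ⟨hD, ?_⟩
    rcases hpar with ⟨h0, hg, _⟩ | h
    · exact (hng h0 hg).elim
    · exact h

/-- The third point theorem in homogeneous coordinates. -/
theorem third_homG (hN : 2 ≤ N) (hF : VG F) (k0 : Subfield ℂ) (hk0 : Countable k0)
    (hind : AlgebraicIndependent k0 (fun j : Exp3 (N + 1) => coeff j.1 F)) {d : ℕ}
    {G : MvPolynomial (Fin (N + 1)) ℂ} (hG : G.IsHomogeneous d) (hG0 : G ≠ 0)
    (hGk : ∀ e, coeff e G ∈ k0) (y : Fin (N + 1) → L) (hy : IsGP F y)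
    (hodd : Odd (Module.finrank (ratioF y) L)) (x : Fin (N + 1) → L) (hx : aeval x F = 0)
    (hxy : ∀ c : L, x ≠ c • y) :
    (∑ j, y j * aeval x (pderiv j F)) ≠ 0 ∧
      ((aeval x G = 0 ∨ ∃ W : Submodule ℂ (Fin (N + 1) → ℂ),
        2 * Module.finrank ℂ W < N + 1 ∧ x ∈ extend L W) →
          IsGP F (fun i => (∑ j, y j * aeval x (pderiv j F)) * y i -
            (∑ j, x j * aeval y (pderiv j F)) * x i) ∧
          Odd (Module.finrank (ratioF (fun i => (∑ j, y j * aeval x (pderiv j F)) * y i -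
            (∑ j, x j * aeval y (pderiv j F)) * x i)) L)) := by
  obtain ⟨h1, h2⟩ := third_hom2 hN hF y hy hodd x hx hxy
  refine ⟨h1, ?_⟩
  rintro (hGx | hW)
  · have hx0 : x ≠ 0 := by
      rintro rfl
      apply hxy 0
      rw [zero_smul]
    have hy00 : y 0 ≠ 0 := ((isGP_iff hN hF y).mp hy).1
    have hinv : (y 0)⁻¹ ≠ 0 := inv_ne_zero hy00
    set y' : Fin (N + 1) → L := (y 0)⁻¹ • y with hy'
    have hy'0 : y' 0 = 1 := by
      rw [hy', Pi.smul_apply, smul_eq_mul, inv_mul_cancel₀ hy00]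
    have hGP' : IsGP F y' := IsGP.smul _ hinv y hy
    have hGp' : Gp F (ev y') := ((isGP_iff hN hF y').mp hGP').2
    have hodd' : Odd (fd (ev y')) := by
      rw [← finrank_ratioF y' (by rw [hy'0]; exact one_ne_zero), hy', ratioF_smul _ hinv y]
      exact hodd
    have hFx : Fc (cL L F) x = 0 := by
      rw [← hx]
      exact (aeval_eq_Fc hF.1 x).symm
    obtain ⟨hD, ht0, htg, hto⟩ := secantG hN hF k0 hk0 hind hG hG0 hGk y' hy'0 hGp' hodd' x hx0
      hFx hGx
    have h3 : (∑ j, y j * aeval x (pderiv j F)) = Dc (cL L F) x y :=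
      (Dc_eq_sum_pderiv hF.1 x y).symm
    have h4 : (∑ j, x j * aeval y (pderiv j F)) = Dc (cL L F) y x :=
      (Dc_eq_sum_pderiv hF.1 y x).symm
    have hk : (y 0) ^ 2 ≠ 0 := pow_ne_zero _ hy00
    have hthird : (fun i => (∑ j, y j * aeval x (pderiv j F)) * y i -
        (∑ j, x j * aeval y (pderiv j F)) * x i) = ((y 0) ^ 2) • third (cL L F) y' x := by
      funext i
      rw [h3, h4, Pi.smul_apply, smul_eq_mul, third, hy', Dc_smul_right, Dc_smul_left,
        Pi.smul_apply, smul_eq_mul]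
      field_simp
    have hGP3 : IsGP F (third (cL L F) y' x) := (isGP_iff hN hF _).mpr ⟨ht0, htg⟩
    rw [hthird]
    refine ⟨IsGP.smul _ hk _ hGP3, ?_⟩
    rw [ratioF_smul _ hk, finrank_ratioF _ ht0]
    exact hto
  · exact h2 (Or.inr hW)

/-- the field generated by the coefficients of `G` is countable -/
theorem coeffField_countable {n : ℕ} (G : MvPolynomial (Fin n) ℂ) :
    Countable (Subfield.closure ((G.coeffs : Finset ℂ) : Set ℂ)) := by
  rw [← Cardinal.mk_le_aleph0_iff]
  refine (Subfield.cardinalMk_closure_le_max _).trans ?_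
  refine max_le ?_ le_rfl
  exact (Cardinal.mk_lt_aleph0_iff.mpr (Finset.finite_toSet _)).le

/-- Very general cubic forms with respect to a fixed form `G`. -/
theorem exists_conditions_G {m : ℕ} (G : MvPolynomial (Fin m) ℂ) :
    ∃ P : ℕ → MvPolynomial ((Fin m) →₀ ℕ) ℂ,
      (∀ k, ∃ H : MvPolynomial (Fin m) ℂ, H.IsHomogeneous 3 ∧
        eval (fun d => H.coeff d) (P k) ≠ 0) ∧
      ∀ F : MvPolynomial (Fin m) ℂ, F.IsHomogeneous 3 →
        (∀ k, eval (fun d => F.coeff d) (P k) ≠ 0) →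
        VG F ∧ ∃ k0 : Subfield ℂ, Countable k0 ∧ (∀ e, coeff e G ∈ k0) ∧
          AlgebraicIndependent k0 (fun j : Exp3 m => coeff j.1 F) := by
  obtain ⟨P, hP1, hP2⟩ := exists_conditions_over _ (coeffField_countable G) m
  refine ⟨P, hP1, ?_⟩
  intro F hF hFP
  have h1 := hP2 F hF hFP
  refine ⟨⟨hF, h1.restrictScalars (algebraMap ℚ _).injective⟩, _, coeffField_countable G, ?_, h1⟩
  intro e
  by_cases he : coeff e G = 0
  · rw [he]; exact zero_mem _
  · exact Subfield.subset_closure (coeff_mem_coeffs e he)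

end Pool.Agent.Lib.MP_2619d0_ag.T
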