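import Pool.Agent.Lib.MP_2619d0_ag.T.B2

/-!
Row B4: `D(x; y)` as a derivative.
-/

set_option autoImplicit false

namespace Pool.Agent.Lib.MP_2619d0_ag.T

open MvPolynomial

/-- From `aeval_eq_Fc` with `R = ℂ`, `A = MvPolynomial (Fin n) ℂ`, `x = X`:
`F = ∑ i j k, C (cub F i j k) * (X i * X j * X k)` (`aeval_X_left`). Both sides are additive in `F`
written in this way; `pderiv l (X i * X j * X k)` by the Leibniz rule (`pderiv_X`, `Pi.single`), then
sum over `l` with `Finset.sum_ite_eq`. -/
theorem Dc_eq_sum_pderiv {n : ℕ} {F : MvPolynomial (Fin n) ℂ} (hF : F.IsHomogeneous 3)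
    {A : Type*} [CommRing A] [Algebra ℂ A] (x y : Fin n → A) :
    Dc (cm (algebraMap ℂ A) (cub F)) x y = ∑ i, y i * aeval x (pderiv i F) := by
  classical
  have hFe : F = ∑ i, ∑ j, ∑ k, C (cub F i j k) * (X i * X j * X k) := by
    have h := aeval_eq_Fc hF (X : Fin n → MvPolynomial (Fin n) ℂ)
    rw [aeval_X_left_apply] at h
    exact h
  have key : ∀ l, aeval x (pderiv l F) = ∑ i, ∑ j, ∑ k, algebraMap ℂ A (cub F i j k) *
      ((if l = i then 1 else 0) * x j * x k + x i * (if l = j then 1 else 0) * x k +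
        x i * x j * (if l = k then 1 else 0)) := by
    intro l
    have h1 : pderiv l F = pderiv l (∑ i, ∑ j, ∑ k, C (cub F i j k) * (X i * X j * X k)) :=
      congrArg _ hFe
    rw [h1]
    simp only [map_sum]
    refine Finset.sum_congr rfl fun i _ => Finset.sum_congr rfl fun j _ =>
      Finset.sum_congr rfl fun k _ => ?_
    rw [pderiv_C_mul, map_mul, aeval_C]
    congr 1
    rw [pderiv_mul, pderiv_mul, pderiv_X, pderiv_X, pderiv_X]
    simp only [Pi.single_apply, map_add, map_mul, aeval_X, apply_ite (aeval x), map_one, map_zero,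
      eq_comm]
    ring
  have key2 : ∀ l, y l * aeval x (pderiv l F) = ∑ i, ∑ j, ∑ k, algebraMap ℂ A (cub F i j k) *
      ((if l = i then y l else 0) * x j * x k + x i * (if l = j then y l else 0) * x k +
        x i * x j * (if l = k then y l else 0)) := by
    intro l
    rw [key l, Finset.mul_sum]
    refine Finset.sum_congr rfl fun i _ => ?_
    rw [Finset.mul_sum]
    refine Finset.sum_congr rfl fun j _ => ?_
    rw [Finset.mul_sum]
    refine Finset.sum_congr rfl fun k _ => ?_
    split_ifs <;> ring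
  rw [Finset.sum_congr rfl fun l _ => key2 l, Finset.sum_comm]
  unfold Dc cm
  refine Finset.sum_congr rfl fun i _ => ?_
  conv_rhs => rw [Finset.sum_comm]
  refine Finset.sum_congr rfl fun j _ => ?_
  conv_rhs => rw [Finset.sum_comm]
  refine Finset.sum_congr rfl fun k _ => ?_
  rw [← Finset.mul_sum]
  congr 1
  simp only [Finset.sum_add_distrib, ← Finset.mul_sum, ← Finset.sum_mul]
  simp only [Finset.sum_ite_eq', Finset.mem_univ, if_true]

end Pool.Agent.Lib.MP_2619d0_ag.T
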