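import Pool.Agent.Lib.MP_2619d0_ag.T.G1

/-!
Row G2: the function field in homogeneous coordinates; lines.
-/

set_option autoImplicit false

namespace Pool.Agent.Lib.MP_2619d0_ag.T

open MvPolynomial

variable {N : ℕ} {F : MvPolynomial (Fin (N + 1)) ℂ} {L : Type*} [Field L] [Algebra ℂ L]

theorem G2_toSubfield (x : Fin (N + 1) → L) (h : x 0 ≠ 0) :
    (ratioF x).toSubfield = cl (ev x) := by
  apply le_antisymm
  · change Subfield.closure (Set.range (algebraMap ℂ L) ∪ {z : L | ∃ i j, z = x i / x j}) ≤ _
    rw [Subfield.closure_le]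
    rintro z (⟨c, rfl⟩ | ⟨i, j, rfl⟩)
    · refine Subfield.subset_closure ⟨C c, ?_⟩
      change aeval (fun i : Fin N => x i.succ / x 0) (C c) = _
      rw [aeval_C]
    · have hi : ∀ i : Fin (N + 1), x i / x 0 ∈ cl (ev x) := by
        intro i
        refine Fin.cases ?_ (fun j => ?_) i
        · rw [div_self h]
          exact one_mem _
        · refine Subfield.subset_closure ⟨X j, ?_⟩
          change aeval (fun i : Fin N => x i.succ / x 0) (X j) = _
          rw [aeval_X]
      have h1 : x i / x j = (x i / x 0) / (x j / x 0) := by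
        rw [div_div_div_cancel_right₀ h]
      rw [h1]
      exact div_mem (hi i) (hi j)
  · rw [cl, Subfield.closure_le]
    rintro _ ⟨G, rfl⟩
    change aeval (fun i : Fin N => x i.succ / x 0) G ∈ ratioF x
    induction G using MvPolynomial.induction_on with
    | C c =>
      rw [aeval_C]
      exact (ratioF x).algebraMap_mem c
    | add p q hp hq =>
      rw [map_add]
      exact add_mem hp hq
    | mul_X p i hp =>
      rw [map_mul, aeval_X]
      exact mul_mem hp (IntermediateField.subset_adjoin _ _ ⟨i.succ, 0, rfl⟩)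

/-- `x i / x j = (x i / x 0) / (x j / x 0)`: the two subfields of `L` have the same elements. -/
theorem finrank_ratioF (x : Fin (N + 1) → L) (h : x 0 ≠ 0) :
    Module.finrank (ratioF x) L = fd (ev x) := by
  rw [fd, ← G2_toSubfield x h]
  rfl

/-- multiples of a vector -/
theorem ratioF_smul (c : L) (hc : c ≠ 0) (x : Fin (N + 1) → L) : ratioF (c • x) = ratioF x := by
  have h : ∀ i j, (c • x) i / (c • x) j = x i / x j := by
    intro i j
    rw [Pi.smul_apply, Pi.smul_apply, smul_eq_mul, smul_eq_mul, mul_div_mul_left _ _ hc]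
  unfold ratioF
  simp only [h]

theorem G2_aeval_smul (c : L) (x : Fin (N + 1) → L) (d : ℕ) (G : MvPolynomial (Fin (N + 1)) ℂ)
    (hG : G.IsHomogeneous d) : aeval (c • x) G = c ^ d * aeval x G := by
  conv_lhs => rw [G.as_sum]
  conv_rhs => rw [G.as_sum]
  rw [map_sum, map_sum, Finset.mul_sum]
  refine Finset.sum_congr rfl fun e he => ?_
  rw [aeval_monomial, aeval_monomial, Finsupp.prod_fintype _ _ (by intro i; simp),
    Finsupp.prod_fintype _ _ (by intro i; simp)]
  have h1 : d = ∑ i, e i := by
    rw [← degree_of_mem hG he, Finsupp.degree_eq_sum]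
  have h2 : ∏ i, (c • x) i ^ e i = c ^ d * ∏ i, x i ^ e i := by
    rw [h1, ← Finset.prod_pow_eq_pow_sum, ← Finset.prod_mul_distrib]
    refine Finset.prod_congr rfl fun i _ => ?_
    rw [Pi.smul_apply, smul_eq_mul, mul_pow]
  rw [h2]
  ring

theorem IsGP.smul (c : L) (hc : c ≠ 0) (x : Fin (N + 1) → L) (h : IsGP F x) : IsGP F (c • x) := by
  intro d G hG
  rw [← h d G hG, G2_aeval_smul c x d G hG, mul_eq_zero, or_iff_right (pow_ne_zero _ hc)]

/-- Rewrite `point_even` (`N = N' + 2`): an odd degree is not zero, so the extension is finite. -/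
theorem line_not_odd (hN : 2 ≤ N) (hF : VG F) {E : Type*} [Field E] [Algebra ℂ E] [Algebra E L]
    [IsScalarTower ℂ E L] (t : L) (ht : Transcendental E t) (a b : Fin (N + 1) → E)
    (x : Fin (N + 1) → L) (hx : ∀ i, x i = algebraMap E L (a i) + algebraMap E L (b i) * t)
    (hg : IsGP F x) : ¬ Odd (Module.finrank (ratioF x) L) := by
  intro hodd
  obtain ⟨N', rfl⟩ : ∃ N', N = N' + 2 := ⟨N - 2, by omega⟩
  have hfin : FiniteDimensional (ratioF x) L := FiniteDimensional.of_finrank_pos hodd.pos
  have h1 := point_even F hF.1 hF.2 t ht a b x hx hg hfin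
  exact (Nat.not_even_iff_odd.2 hodd) h1

end Pool.Agent.Lib.MP_2619d0_ag.T
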