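import Pool.Agent.Lib.MP_2619d0_ag.T.T1
import Pool.Agent.Lib.MP_2619d0_ag.T.B4
import Pool.Agent.Lib.MP_2619d0_ag.T.G2

/-!
Row T2: the tangent theorem in homogeneous coordinates.
-/

set_option autoImplicit false

namespace Pool.Agent.Lib.MP_2619d0_ag.T

open MvPolynomial

variable {N : ℕ} {F : MvPolynomial (Fin (N + 1)) ℂ} {L : Type*} [Field L] [Algebra ℂ L]

/-- `tangentM` for `y' = (y 0)⁻¹ • y` (`isGP_iff`, `finrank_ratioF`, `ratioF_smul`, `IsGP.smul`);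
`Dc_eq_sum_pderiv`, `Dc_smul_right`, `aeval_eq_Fc`. -/
theorem tangent_hom (hN : 2 ≤ N) (hF : VG F) (y : Fin (N + 1) → L) (hy : IsGP F y)
    (hodd : Odd (Module.finrank (ratioF y) L)) (x : Fin (N + 1) → L) (hx : aeval x F = 0)
    (h : ∑ i, y i * aeval x (pderiv i F) = 0) : ∃ c : L, x = c • y := by
  have hy0 : y 0 ≠ 0 := ((isGP_iff hN hF y).mp hy).1
  have hinv : (y 0)⁻¹ ≠ 0 := inv_ne_zero hy0
  set y' : Fin (N + 1) → L := (y 0)⁻¹ • y with hy'
  have hy'0 : y' 0 = 1 := by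
    rw [hy', Pi.smul_apply, smul_eq_mul, inv_mul_cancel₀ hy0]
  have hgp : IsGP F y' := hy.smul _ hinv
  have hgp' := (isGP_iff hN hF y').mp hgp
  have hodd' : Odd (fd (ev y')) := by
    rw [← finrank_ratioF y' hgp'.1, hy', ratioF_smul _ hinv]
    exact hodd
  have hxF : Fc (cL L F) x = 0 := by
    have := aeval_eq_Fc hF.1 x
    rw [hx] at this
    exact this.symm
  have hD : Dc (cL L F) x y' = 0 := by
    rw [hy', Dc_smul_right]
    have := Dc_eq_sum_pderiv hF.1 x y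
    rw [h] at this
    change (y 0)⁻¹ * Dc (cm (algebraMap ℂ L) (cub F)) x y = 0
    rw [this, mul_zero]
  have hfin := tangentM hN hF y' x hy'0 hgp'.2 hodd' hxF hD
  refine ⟨x 0 * (y 0)⁻¹, ?_⟩
  rw [mul_smul]
  exact hfin

end Pool.Agent.Lib.MP_2619d0_ag.T
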