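import Pool.Agent.Lib.MP_2619d0_ag.T.N3

/-!
Row EB: bases of linear subspaces of `X`.
-/

set_option autoImplicit false

namespace Pool.Agent.Lib.MP_2619d0_ag.T

open MvPolynomial

/-- the extension of scalars of a subspace of `ℂ^n` -/
def extend (L : Type*) [Field L] [Algebra ℂ L] {n : ℕ} (W : Submodule ℂ (Fin n → ℂ)) :
    Submodule L (Fin n → L) :=
  Submodule.span L ((fun (w : Fin n → ℂ) (i : Fin n) => algebraMap ℂ L (w i)) '' (W : Set (Fin n → ℂ)))

/-- `W` has a basis `e` (`Module.finBasis`), `w = finrank W`, `2 w < n` (`no_large`), and the elements of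
`extend L W` are the vectors `∑ α_k e_k` (span of the image of a spanning set). -/
theorem extend_basis {n : ℕ} (hn : 5 ≤ n) {F : MvPolynomial (Fin n) ℂ} (hF : VG F)
    (W : Submodule ℂ (Fin n → ℂ)) (hW : ∀ w ∈ W, eval w F = 0) :
    ∃ (w : ℕ) (e : Fin w → Fin n → ℂ), LinearIndependent ℂ e ∧ 2 * w < n ∧
      (∀ l : Fin w → ℂ, Fc (cub F) (fun i => ∑ k, l k * e k i) = 0) ∧
      ∀ (L : Type*) [Field L] [Algebra ℂ L] (a : Fin n → L), a ∈ extend L W →
        ∃ α : Fin w → L, a = fun i => ∑ k, α k * algebraMap ℂ L (e k i) := by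
  classical
  have hFc : ∀ x : Fin n → ℂ, Fc (cub F) x = eval x F := by
    intro x
    have h1 := aeval_eq_Fc (A := ℂ) hF.1 x
    have h2 : cm (algebraMap ℂ ℂ) (cub F) = cub F := by
      funext i j k
      rfl
    rw [h2] at h1
    have h3 : aeval x F = eval x F := DFunLike.congr_fun (coe_aeval_eq_eval x) F
    rw [← h1, h3]
  set b := Module.finBasis ℂ W with hb
  refine ⟨Module.finrank ℂ W, fun k => (b k : Fin n → ℂ), ?_, ?_, ?_, ?_⟩
  · exact b.linearIndependent.map' W.subtype (Submodule.ker_subtype W)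
  · exact no_large hn hF W fun w hw => by rw [hFc]; exact hW w hw
  · intro l
    rw [hFc]
    apply hW
    have h1 : (fun i => ∑ k, l k * (b k : Fin n → ℂ) i) =
        ∑ k, l k • (b k : Fin n → ℂ) := by
      funext i
      simp [Finset.sum_apply]
    rw [h1]
    exact W.sum_mem fun k _ => W.smul_mem _ (b k).2
  · intro L _ _ a ha
    refine Submodule.span_induction (p := fun a _ => ∃ α : Fin (Module.finrank ℂ W) → L,
      a = fun i => ∑ k, α k * algebraMap ℂ L ((b k : Fin n → ℂ) i)) ?_ ?_ ?_ ?_ ha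
    · rintro _ ⟨w, hw, rfl⟩
      refine ⟨fun k => algebraMap ℂ L (b.repr ⟨w, hw⟩ k), ?_⟩
      have h1 : w = ∑ k, b.repr ⟨w, hw⟩ k • (b k : Fin n → ℂ) := by
        have h2 := congrArg (Subtype.val) (b.sum_repr ⟨w, hw⟩)
        rw [Submodule.coe_sum] at h2
        simpa using h2.symm
      funext i
      have h3 := congrArg (algebraMap ℂ L) (congrFun h1 i)
      rw [Finset.sum_apply] at h3
      simp only [Pi.smul_apply, smul_eq_mul, map_sum, map_mul] at h3
      exact h3
    · exact ⟨0, by funext i; simp⟩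
    · rintro x y _ _ ⟨α, rfl⟩ ⟨β, rfl⟩
      refine ⟨α + β, ?_⟩
      funext i
      simp [add_mul, Finset.sum_add_distrib]
    · rintro c x _ ⟨α, rfl⟩
      refine ⟨c • α, ?_⟩
      funext i
      simp [Finset.mul_sum, mul_assoc]

end Pool.Agent.Lib.MP_2619d0_ag.T
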