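import Pool.Agent.Lib.MP_2619d0_ag.T.T1b
import Pool.Agent.Lib.MP_2619d0_ag.T.EB
import Pool.Agent.Lib.MP_2619d0_ag.T.G2

/-!
Row T2b: the secant theorem in homogeneous coordinates.
-/

set_option autoImplicit false

namespace Pool.Agent.Lib.MP_2619d0_ag.T

open MvPolynomial

variable {N : ℕ} {F : MvPolynomial (Fin (N + 1)) ℂ} {L : Type*} [Field L] [Algebra ℂ L]

/-- Let `z - c y = a = ∑ α_k e_k` (`extend_basis`); `c ≠ 0` because `z ∉ extend L W`. If `a = 0` then
`z = c y` (`IsGP.smul`, `ratioF_smul`). Otherwise `α ≠ 0` and `secantM` for `y' = (y 0)⁻¹ • y` gives that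
`b = D(a; y') y' - D(y'; a) a` is an odd generic point and `D(a; y') ≠ 0`. With `c' = c y_0`,
`0 = F(z) = F(c' y' + a) = c'² D(y'; a) + c' D(a; y')` (`Fc_line`, `F(y') = F(a) = 0`), so
`D(y'; a) = -D(a; y') / c'` and `b = (D(a; y') / c') z`. -/
theorem secant_hom (hN : 4 ≤ N) (hF : VG F) (y : Fin (N + 1) → L) (hy : IsGP F y)
    (hodd : Odd (Module.finrank (ratioF y) L)) (W : Submodule ℂ (Fin (N + 1) → ℂ))
    (hW : ∀ w ∈ W, eval w F = 0) (z : Fin (N + 1) → L) (hz : aeval z F = 0)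
    (hzW : z ∉ extend L W) (c : L) (hc : z - c • y ∈ extend L W) :
    IsGP F z ∧ Odd (Module.finrank (ratioF z) L) := by
  obtain ⟨w, e, he, hw, heF, hrep⟩ := extend_basis (n := N + 1) (by omega) hF W hW
  obtain ⟨α, hα⟩ := hrep L (z - c • y) hc
  have hc0 : c ≠ 0 := by
    intro h0
    rw [h0, zero_smul, sub_zero] at hc
    exact hzW hc
  by_cases hα0 : α = 0
  · have hzy : z = c • y := by
      rw [← sub_eq_zero, hα, hα0]
      funext i
      simp
    rw [hzy]
    refine ⟨IsGP.smul c hc0 y hy, ?_⟩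
    rw [ratioF_smul c hc0 y]
    exact hodd
  · have hy00 : y 0 ≠ 0 := ((isGP_iff (by omega) hF y).mp hy).1
    have hinv : (y 0)⁻¹ ≠ 0 := inv_ne_zero hy00
    set y' : Fin (N + 1) → L := (y 0)⁻¹ • y with hy'
    have hy'0 : y' 0 = 1 := by
      rw [hy', Pi.smul_apply, smul_eq_mul, inv_mul_cancel₀ hy00]
    have hGP' : IsGP F y' := IsGP.smul _ hinv y hy
    have hGp' : Gp F (ev y') := ((isGP_iff (by omega) hF y').mp hGP').2
    have hodd' : Odd (fd (ev y')) := by
      rw [← finrank_ratioF y' (by rw [hy'0]; exact one_ne_zero), hy', ratioF_smul _ hinv y]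
      exact hodd
    obtain ⟨hD, ht0, htg, hto⟩ := secantM (by omega) hF y' hy'0 hGp' hodd' e he hw heF α hα0
    have hFa := T1b_Fc e heF α
    have hFy := Fc_of_Gp hF.1 y' hy'0 hGp'
    set a : Fin (N + 1) → L := fun i => ∑ k, α k * algebraMap ℂ L (e k i) with ha
    have hze : z = (c * y 0) • y' + (1 : L) • a := by
      have h1 : z = c • y + a := by rw [← hα]; abel
      rw [h1, one_smul, hy', smul_smul, mul_assoc, mul_inv_cancel₀ hy00, mul_one]
    have hFz : Fc (cL L F) z = 0 := by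
      rw [← hz]
      exact (aeval_eq_Fc hF.1 z).symm
    have hcy : c * y 0 ≠ 0 := mul_ne_zero hc0 hy00
    rw [hze, Fc_line, hFa, hFy] at hFz
    have h2 : Dc (cL L F) y' a = -(Dc (cL L F) a y') / (c * y 0) := by
      rw [eq_div_iff hcy]
      have h3 : (c * y 0) * (Dc (cL L F) y' a * (c * y 0) + Dc (cL L F) a y') = 0 := by
        linear_combination hFz
      have h4 := (mul_eq_zero.mp h3).resolve_left hcy
      linear_combination h4
    have hthird : z = ((c * y 0) / Dc (cL L F) a y') • third (cL L F) y' a := by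
      funext i
      rw [Pi.smul_apply, smul_eq_mul, third, h2, hze]
      simp only [Pi.add_apply, Pi.smul_apply, smul_eq_mul, one_mul]
      field_simp
      ring
    have hk : (c * y 0) / Dc (cL L F) a y' ≠ 0 := div_ne_zero hcy hD
    have hGP3 : IsGP F (third (cL L F) y' a) := (isGP_iff (by omega) hF _).mpr ⟨ht0, htg⟩
    rw [hthird]
    refine ⟨IsGP.smul _ hk _ hGP3, ?_⟩
    rw [ratioF_smul _ hk, finrank_ratioF _ ht0]
    exact hto

end Pool.Agent.Lib.MP_2619d0_ag.T
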