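import Pool.Agent.Lib.MP_2619d0_ag.T.LT1

/-!
Row LT2: the fundamental identity `∑ e f = n` for a discrete valuation ring, in terms of valuation
rings.
-/

set_option autoImplicit false

namespace Pool.Agent.Lib.MP_2619d0_ag.T

/-- the residue degree at a place is the degree of the residue class rings -/
theorem LT2_deg {A M S : Type*} [CommRing A] [Field M] [Algebra A M] [CommRing S] [Algebra A S]
    [Algebra S M] [IsScalarTower A S M] (p : Ideal A) [p.IsMaximal] (P : Ideal S) [P.LiesOver p]
    (O : ValuationSubring M) (h1 : ∀ a, algebraMap S M a ∈ O)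
    (h2 : ∀ a, O.valuation (algebraMap S M a) < 1 ↔ a ∈ P)
    (h3 : ∀ x ∈ O, ∃ a, O.valuation (x - algebraMap S M a) < 1)
    (h : ∀ a, algebraMap A M a ∈ O) :
    Module.finrank (Subfield.closure (Set.range ((IsLocalRing.residue O).comp
      ((algebraMap A M).codRestrict O h)))) (IsLocalRing.ResidueField O) =
      Module.finrank (A ⧸ p) (S ⧸ P) := by
  classical
  let : Field (A ⧸ p) := Ideal.Quotient.field p
  set rS : S →+* IsLocalRing.ResidueField O :=
    (IsLocalRing.residue O).comp ((algebraMap S M).codRestrict O h1) with hrS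
  set rA : A →+* IsLocalRing.ResidueField O :=
    (IsLocalRing.residue O).comp ((algebraMap A M).codRestrict O h) with hrA
  have hres : ∀ x : O, IsLocalRing.residue O x = 0 ↔ O.valuation (x : M) < 1 := by
    intro x
    rw [IsLocalRing.residue_eq_zero_iff]
    exact (ValuationSubring.valuation_lt_one_iff O x)
  have hkS : ∀ a, rS a = 0 ↔ a ∈ P := by
    intro a
    rw [← h2 a]
    exact hres _
  have hAS : ∀ a, rA a = rS (algebraMap A S a) := by
    intro a
    simp only [hrA, hrS, RingHom.comp_apply]
    congr 1
    apply Subtype.ext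
    change algebraMap A M a = algebraMap S M (algebraMap A S a)
    exact IsScalarTower.algebraMap_apply A S M a
  have hsurj : Function.Surjective rS := by
    intro y
    obtain ⟨x, rfl⟩ := IsLocalRing.residue_surjective y
    obtain ⟨a, ha⟩ := h3 x x.2
    refine ⟨a, ?_⟩
    have h4 : IsLocalRing.residue O (x - (algebraMap S M).codRestrict O h1 a) = 0 := by
      rw [hres]
      exact ha
    rw [map_sub, sub_eq_zero] at h4
    exact h4.symm
  have hpP : ∀ a, algebraMap A S a ∈ P ↔ a ∈ p := by
    intro a
    rw [Ideal.over_def P p, Ideal.mem_comap]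
  have hkA : ∀ a ∈ p, rA a = 0 := by
    intro a ha
    rw [hAS, hkS, hpP]
    exact ha
  -- the map on `S / P`
  set φ : S ⧸ P →+* IsLocalRing.ResidueField O :=
    Ideal.Quotient.lift P rS (fun a ha => (hkS a).mpr ha) with hφ
  have hφb : Function.Bijective φ := by
    constructor
    · rw [injective_iff_map_eq_zero]
      intro x hx
      obtain ⟨a, rfl⟩ := Ideal.Quotient.mk_surjective x
      rw [hφ, Ideal.Quotient.lift_mk] at hx
      exact Ideal.Quotient.eq_zero_iff_mem.mpr ((hkS a).mp hx)
    · intro y
      obtain ⟨a, rfl⟩ := hsurj y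
      exact ⟨Ideal.Quotient.mk P a, by rw [hφ, Ideal.Quotient.lift_mk]⟩
  -- the map on `A / p`
  set ψ0 : A ⧸ p →+* IsLocalRing.ResidueField O :=
    Ideal.Quotient.lift p rA hkA with hψ0
  have hcl : ∀ x : A ⧸ p, ψ0 x ∈ Subfield.closure (Set.range rA) := by
    intro x
    obtain ⟨a, rfl⟩ := Ideal.Quotient.mk_surjective x
    rw [hψ0, Ideal.Quotient.lift_mk]
    exact Subfield.subset_closure ⟨a, rfl⟩
  set ψ : A ⧸ p →+* Subfield.closure (Set.range rA) :=
    ψ0.codRestrict (Subfield.closure (Set.range rA)) hcl with hψ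
  have hψb : Function.Bijective ψ := by
    constructor
    · exact ψ.injective
    · rintro ⟨y, hy⟩
      have h5 : Subfield.closure (Set.range rA) ≤ ψ0.fieldRange := by
        rw [Subfield.closure_le]
        rintro _ ⟨a, rfl⟩
        exact ⟨Ideal.Quotient.mk p a, by rw [hψ0, Ideal.Quotient.lift_mk]⟩
      obtain ⟨x, hx⟩ := h5 hy
      exact ⟨x, Subtype.ext hx⟩
  symm
  refine Algebra.finrank_eq_of_equiv_equiv (RingEquiv.ofBijective ψ hψb)
    (RingEquiv.ofBijective φ hφb) ?_
  refine RingHom.ext fun x => ?_
  obtain ⟨a, rfl⟩ := Ideal.Quotient.mk_surjective x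
  change ψ0 (Ideal.Quotient.mk p a) = φ (algebraMap (A ⧸ p) (S ⧸ P) (Ideal.Quotient.mk p a))
  have h6 : algebraMap (A ⧸ p) (S ⧸ P) (Ideal.Quotient.mk p a) =
      Ideal.Quotient.mk P (algebraMap A S a) := rfl
  rw [h6, hψ0, hφ, Ideal.Quotient.lift_mk, Ideal.Quotient.lift_mk, hAS]

/-- elements integral over `A` lie in every valuation ring that contains `A` -/
theorem LT2_integral {A M : Type*} [CommRing A] [Field M] [Algebra A M] (O : ValuationSubring M)
    (h : ∀ a, algebraMap A M a ∈ O) (x : M) (hx : IsIntegral A x) : x ∈ O := by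
  obtain ⟨f, hf, hfx⟩ := hx
  have h1 : IsIntegral O x := by
    refine ⟨f.map ((algebraMap A M).codRestrict O h), hf.map _, ?_⟩
    rw [Polynomial.eval₂_map]
    have h2 : (algebraMap O M).comp ((algebraMap A M).codRestrict O h) = algebraMap A M := by
      ext a
      rfl
    rw [h2]
    exact hfx
  obtain ⟨y, hy⟩ := (IsIntegrallyClosed.isIntegral_iff (R := O) (K := M)).mp h1
  rw [← hy]
  exact y.2

theorem LT2_core {A K M S : Type*} [CommRing A] [IsDomain A] [IsDiscreteValuationRing A] [Field K]
    [Field M] [Algebra A K] [IsFractionRing A K] [Algebra K M] [Algebra A M] [IsScalarTower A K M]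
    [CommRing S] [IsDedekindDomain S] [Algebra A S] [Algebra S M] [IsFractionRing S M]
    [IsScalarTower A S M] [Module.Finite A S] :
    ∃ (s : Finset (ValuationSubring M)) (e d : ValuationSubring M → ℕ),
      (∀ O, O ∈ s ↔ ((∀ a, algebraMap A M a ∈ O) ∧
        ∀ a, O.valuation (algebraMap A M a) < 1 ↔ a ∈ IsLocalRing.maximalIdeal A)) ∧
      (∀ O ∈ s, ∀ ϖ : A, Irreducible ϖ → HasOrd O (algebraMap A M ϖ) (e O)) ∧
      (∀ O ∈ s, ∀ h : ∀ a, algebraMap A M a ∈ O,
        Module.finrank (Subfield.closure (Set.range ((IsLocalRing.residue O).comp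
          ((algebraMap A M).codRestrict O h)))) (IsLocalRing.ResidueField O) = d O) ∧
      ∑ O ∈ s, e O * d O = Module.finrank K M := by
  classical
  set p := IsLocalRing.maximalIdeal A with hp
  have hp0 : p ≠ ⊥ := IsDiscreteValuationRing.not_a_field A
  have hfs : FaithfulSMul A S := FaithfulSMul.of_field_isFractionRing A S K M
  have hinj : Function.Injective (algebraMap A S) := FaithfulSMul.algebraMap_injective A S
  have hmap0 : p.map (algebraMap A S) ≠ ⊥ := by
    rwa [Ne, Ideal.map_eq_bot_iff_of_injective hinj]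
  have hAM : ∀ a, algebraMap A M a = algebraMap S M (algebraMap A S a) :=
    fun a => IsScalarTower.algebraMap_apply A S M a
  have hO : ∀ P : Ideal S, ∃ O : ValuationSubring M, P.IsPrime → P ≠ ⊥ →
      (∀ a, algebraMap S M a ∈ O) ∧
      (∀ a, O.valuation (algebraMap S M a) < 1 ↔ a ∈ P) ∧
      (∀ x ∈ O, ∃ a, O.valuation (x - algebraMap S M a) < 1) ∧
      (∀ (a : S) (e : ℕ), a ∈ P ^ e → a ∉ P ^ (e + 1) → HasOrd O (algebraMap S M a) e) ∧
      ∀ O' : ValuationSubring M, (∀ a, algebraMap S M a ∈ O') →
        (∀ a ∈ P, O'.valuation (algebraMap S M a) < 1) → O' = O := by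
    intro P
    by_cases h : P.IsPrime ∧ P ≠ ⊥
    · obtain ⟨O, hO⟩ := dedekind_place (M := M) P h.1 h.2
      exact ⟨O, fun _ _ => hO⟩
    · exact ⟨⊤, fun h1 h2 => absurd ⟨h1, h2⟩ h⟩
  choose OP hOP using hO
  set T := IsDedekindDomain.primesOverFinset p S with hT
  have hTm : ∀ P, P ∈ T ↔ P.IsPrime ∧ P.LiesOver p := by
    intro P
    rw [hT, IsDedekindDomain.mem_primesOverFinset_iff hp0]
    rfl
  have hT0 : ∀ P ∈ T, P ≠ ⊥ := by
    intro P hP
    have := ((hTm P).mp hP).2
    exact Ideal.ne_bot_of_liesOver_of_ne_bot hp0 P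
  have hP := fun (P : Ideal S) (h : P ∈ T) => hOP P ((hTm P).mp h).1 (hT0 P h)
  have hOinj : Set.InjOn OP T := by
    intro P hPT Q hQT hPQ
    ext a
    rw [← (hP P hPT).2.1 a, ← (hP Q hQT).2.1 a, hPQ]
  have hinv : ∀ P ∈ T, Function.invFunOn OP T (OP P) = P := fun P h =>
    hOinj.leftInvOn_invFunOn h
  refine ⟨T.image OP, fun O => Ideal.ramificationIdx' p (Function.invFunOn OP T O),
    fun O => if h : ∀ a, algebraMap A M a ∈ O then
      Module.finrank (Subfield.closure (Set.range ((IsLocalRing.residue O).comp
          ((algebraMap A M).codRestrict O h)))) (IsLocalRing.ResidueField O) else 0,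
    ?_, ?_, ?_, ?_⟩
  · intro O
    constructor
    · intro hO
      obtain ⟨P, hPT, rfl⟩ := Finset.mem_image.mp hO
      obtain ⟨h1, h2, h3, h4, h5⟩ := hP P hPT
      have hover := ((hTm P).mp hPT).2
      refine ⟨fun a => by rw [hAM]; exact h1 _, fun a => ?_⟩
      rw [hAM, h2, ← Ideal.mem_comap]
      have h6 : p = P.comap (algebraMap A S) := hover.over
      rw [← h6]
    · rintro ⟨h1, h2⟩
      have hS : ∀ a, algebraMap S M a ∈ O := by
        intro a
        refine LT2_integral O h1 _ ?_
        exact (Algebra.IsIntegral.isIntegral (R := A) a).map (IsScalarTower.toAlgHom A S M)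
      set P : Ideal S := (IsLocalRing.maximalIdeal O).comap ((algebraMap S M).codRestrict O hS)
        with hPdef
      have hmem : ∀ a, a ∈ P ↔ O.valuation (algebraMap S M a) < 1 := by
        intro a
        rw [hPdef, Ideal.mem_comap]
        exact (ValuationSubring.valuation_lt_one_iff O _)
      have hPp : P.IsPrime := Ideal.comap_isPrime _ _
      have hPo : P.LiesOver p := by
        refine ⟨?_⟩
        ext a
        rw [Ideal.mem_comap, hmem, ← hAM, h2]
      have hPT : P ∈ T := (hTm P).mpr ⟨hPp, hPo⟩
      refine Finset.mem_image.mpr ⟨P, hPT, ?_⟩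
      exact ((hP P hPT).2.2.2.2 O hS (fun a ha => (hmem a).mp ha)).symm
  · intro O hO ϖ hϖ
    obtain ⟨P, hPT, rfl⟩ := Finset.mem_image.mp hO
    obtain ⟨h1, h2, h3, h4, h5⟩ := hP P hPT
    beta_reduce
    rw [hinv P hPT, hAM]
    have hspan : p.map (algebraMap A S) = Ideal.span {algebraMap A S ϖ} := by
      rw [hp, hϖ.maximalIdeal_eq, Ideal.map_span, Set.image_singleton]
    apply h4
    · have h6 : p.map (algebraMap A S) ≤ P ^ (Ideal.ramificationIdx' p P) :=
        Ideal.le_pow_ramificationIdx'
      rw [hspan, Ideal.span_singleton_le_iff_mem] at h6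
      exact h6
    · intro h6
      have hpr := ((hTm P).mp hPT).1
      have h7 : FiniteMultiplicity P (p.map (algebraMap A S)) :=
        FiniteMultiplicity.of_prime_left (Ideal.prime_of_isPrime (hT0 P hPT) hpr) hmap0
      have h8 := Ideal.IsDedekindDomain.ramificationIdx'_eq_multiplicity hmap0 hpr
      have h9 : ¬ P ^ (Ideal.ramificationIdx' p P + 1) ∣ p.map (algebraMap A S) := by
        rw [h8]
        exact h7.not_pow_dvd_of_multiplicity_lt (Nat.lt_succ_self _)
      apply h9
      rw [Ideal.dvd_iff_le, hspan, Ideal.span_singleton_le_iff_mem]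
      exact h6
  · intro O hO h
    beta_reduce
    rw [dif_pos h]
  · rw [Finset.sum_image (fun P hPT Q hQT h => hOinj hPT hQT h),
      ← Ideal.sum_ramification_inertia S K M hp0]
    refine Finset.sum_congr rfl fun P hPT => ?_
    obtain ⟨h1, h2, h3, h4, h5⟩ := hP P hPT
    have hover := ((hTm P).mp hPT).2
    have h6 : ∀ a, algebraMap A M a ∈ OP P := fun a => by rw [hAM]; exact h1 _
    beta_reduce
    rw [hinv P hPT, dif_pos h6, Ideal.inertiaDeg'_algebraMap,
      LT2_deg p P (OP P) h1 h2 h3 h6]

/-- Make `M` an `A`-algebra by `j`. Let `K = FractionRing A` (with the map `K → M`,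
`IsFractionRing.lift hj`, whose range is the closure of the range of `j`, so
`[M : K] = finrank (closure (range j)) M = n > 0`; `M / K` is separable: characteristic 0), and
`S = integralClosure A M`: a Dedekind domain (`integralClosure.isDedekindDomain A K M`), finite over `A`
(`IsIntegralClosure.finite A K M S`, separable), with fraction field `M`
(`integralClosure.isFractionRing_of_finite_extension K M`). By
`Ideal.sum_ramification_inertia S K M` (or its local version, or the new one in
`RingTheory/RamificationInertia/Basic`), `p` the maximal ideal of `A`,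
`∑ P ∈ primesOverFinset p S, e_P f_P = n`. Let `O_P` be the valuation ring of `dedekind_place P`,
`s` the set of these `O_P` (`P ↦ O_P` is injective by the second item).
* first item: `O_P` lies over `p`; conversely, if `O` lies over `p`, then `S ⊂ O` (`O` is integrally
  closed: `O` contains the integral closure of `A` because valuation rings are integrally closed in
  `M`), `P := {a ∈ S | O.valuation a < 1}` is a prime with `P ∩ A = p`, and `O = O_P` by the last item.
* second item: `ϖ ∈ P ^ e_P`, `ϖ ∉ P ^ (e_P + 1)` (`ramificationIdx`: `map p = (ϖ)`; `p = (ϖ)` because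
  `ϖ` is irreducible), fourth item of `dedekind_place`.
* third item: the map `S → ResidueField O_P` is surjective (third item of `dedekind_place`) with kernel
  `P`, so `S ⧸ P ≃ ResidueField O_P`, and `A ⧸ p` is mapped onto the range of
  `A → ResidueField O_P`, which is a subfield, equal to its closure. -/
theorem fi_dvr {A M : Type*} [CommRing A] [IsDomain A] [IsDiscreteValuationRing A] [Field M]
    [CharZero M] (j : A →+* M) (hj : Function.Injective j)
    (hfin : Module.finrank (Subfield.closure (Set.range j)) M ≠ 0) :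
    ∃ (s : Finset (ValuationSubring M)) (e d : ValuationSubring M → ℕ),
      (∀ O, O ∈ s ↔ ((∀ a, j a ∈ O) ∧
        ∀ a, O.valuation (j a) < 1 ↔ a ∈ IsLocalRing.maximalIdeal A)) ∧
      (∀ O ∈ s, ∀ ϖ : A, Irreducible ϖ → HasOrd O (j ϖ) (e O)) ∧
      (∀ O ∈ s, ∀ h : ∀ a, j a ∈ O,
        Module.finrank (Subfield.closure (Set.range ((IsLocalRing.residue O).comp
          (j.codRestrict O h)))) (IsLocalRing.ResidueField O) = d O) ∧
      ∑ O ∈ s, e O * d O = Module.finrank (Subfield.closure (Set.range j)) M := by
  classical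
  let iAM : Algebra A M := j.toAlgebra
  have hmem : ∀ a, j a ∈ Subfield.closure (Set.range j) := fun a => Subfield.subset_closure ⟨a, rfl⟩
  let iAK : Algebra A (Subfield.closure (Set.range j)) :=
    (j.codRestrict (Subfield.closure (Set.range j)) hmem).toAlgebra
  have htow : IsScalarTower A (Subfield.closure (Set.range j)) M :=
    IsScalarTower.of_algebraMap_eq fun a => rfl
  have hfs : FaithfulSMul A (Subfield.closure (Set.range j)) := by
    rw [faithfulSMul_iff_algebraMap_injective]
    intro a b hab
    exact hj (congrArg Subtype.val hab)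
  have hfrac : IsFractionRing A (Subfield.closure (Set.range j)) := by
    refine IsFractionRing.of_field A _ fun z => ?_
    obtain ⟨z, hz⟩ := z
    have hz' := hz
    rw [Subfield.mem_closure_iff] at hz'
    have hr : Subring.closure (Set.range j) = j.range := by
      rw [← RingHom.coe_range, Subring.closure_eq]
    rw [hr] at hz'
    obtain ⟨_, ⟨x, rfl⟩, _, ⟨y, rfl⟩, hxy⟩ := hz'
    exact ⟨x, y, Subtype.ext hxy.symm⟩
  have hchar : CharZero (Subfield.closure (Set.range j)) := by
    refine ⟨fun a b hab => ?_⟩
    have h3 := congrArg (algebraMap (Subfield.closure (Set.range j)) M) hab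
    rw [map_natCast, map_natCast] at h3
    exact_mod_cast h3
  have hfd : FiniteDimensional (Subfield.closure (Set.range j)) M :=
    Module.finite_of_finrank_pos (Nat.pos_of_ne_zero hfin)
  have hsep : Algebra.IsSeparable (Subfield.closure (Set.range j)) M := inferInstance
  have hded : IsDedekindDomain (integralClosure A M) :=
    integralClosure.isDedekindDomain A (Subfield.closure (Set.range j)) M
  have hfinS : Module.Finite A (integralClosure A M) :=
    IsIntegralClosure.finite A (Subfield.closure (Set.range j)) M (integralClosure A M)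
  have hfracS : IsFractionRing (integralClosure A M) M :=
    integralClosure.isFractionRing_of_finite_extension (Subfield.closure (Set.range j)) M
  exact LT2_core (A := A) (K := Subfield.closure (Set.range j)) (M := M)
    (S := integralClosure A M)

end Pool.Agent.Lib.MP_2619d0_ag.T
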