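import Mathlib
import Pool.Agent.Lib.MP_2619d0_ag.MainPoint

/-!
# Definitions for the secant and tangent theorems (very general cubic hypersurfaces)

`F` is a cubic form over `ℂ` in the variables `X 0, …, X N` (`X = (F = 0) ⊂ ℙ^N`).
-/

set_option autoImplicit false

namespace Pool.Agent.Lib.MP_2619d0_ag.T

open MvPolynomial

section forms

variable {ι R S : Type*} [Fintype ι] [CommRing R] [CommRing S]

/-- the value at `x` of the cubic form with coefficients `c` -/
def Fc (c : ι → ι → ι → R) (x : ι → R) : R :=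
  ∑ i, ∑ j, ∑ k, c i j k * (x i * x j * x k)

/-- `D(x; y)`, quadratic in `x` and linear in `y`: `F(x + y) = F(x) + D(x; y) + D(y; x) + F(y)` -/
def Dc (c : ι → ι → ι → R) (x y : ι → R) : R :=
  ∑ i, ∑ j, ∑ k, c i j k * (y i * x j * x k + x i * y j * x k + x i * x j * y k)

/-- the symmetric trilinear form: `D(x + x'; y) = D(x; y) + T(x, x', y) + D(x'; y)` -/
def Tc (c : ι → ι → ι → R) (x y z : ι → R) : R :=
  ∑ i, ∑ j, ∑ k, c i j k * (x i * y j * z k + x i * z j * y k + y i * x j * z k +
    y i * z j * x k + z i * x j * y k + z i * y j * x k)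

/-- apply a ring homomorphism to the coefficients -/
def cm (φ : R →+* S) (c : ι → ι → ι → R) : ι → ι → ι → S := fun i j k => φ (c i j k)

end forms

/-- the coefficients of a cubic form, as a function of three indices -/
noncomputable def cub {R : Type*} [CommRing R] {n : ℕ} (F : MvPolynomial (Fin n) R) :
    Fin n → Fin n → Fin n → R :=
  fun i j k => if i ≤ j ∧ j ≤ k then
    coeff (Finsupp.single i 1 + Finsupp.single j 1 + Finsupp.single k 1) F else 0

/-- the coefficients of `F` are algebraically independent over `ℚ` -/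
def VG {n : ℕ} (F : MvPolynomial (Fin n) ℂ) : Prop :=
  F.IsHomogeneous 3 ∧ AlgebraicIndependent ℚ (fun j : Exp3 n => coeff j.1 F)

section points

variable {N : ℕ} {κ : Type*} [Field κ]

/-- A ring homomorphism `χ` from the ring of polynomials in the affine coordinates `X i / X 0` to a
field is a point of affine space; this is the vector `(1, χ X_0, …, χ X_{N-1})`. -/
noncomputable def yh (χ : MvPolynomial (Fin N) ℂ →+* κ) : Fin (N + 1) → κ :=
  Fin.cons 1 (fun i => χ (X i))

/-- the coefficients of `F` in `κ` -/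
noncomputable def cc (F : MvPolynomial (Fin (N + 1)) ℂ) (χ : MvPolynomial (Fin N) ℂ →+* κ) :
    Fin (N + 1) → Fin (N + 1) → Fin (N + 1) → κ :=
  cm (χ.comp C) (cub F)

/-- `χ` is a generic point of the hypersurface `F = 0` -/
def Gp (F : MvPolynomial (Fin (N + 1)) ℂ) (χ : MvPolynomial (Fin N) ℂ →+* κ) : Prop :=
  ∀ G, χ G = 0 ↔ dh ℂ N F ∣ G

/-- the subfield generated by the image of `χ` -/
def cl (χ : MvPolynomial (Fin N) ℂ →+* κ) : Subfield κ := Subfield.closure (Set.range χ)

/-- the degree of `κ` over the field generated by `χ` (`0` if it is infinite) -/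
noncomputable def fd (χ : MvPolynomial (Fin N) ℂ →+* κ) : ℕ := Module.finrank (cl χ) κ

/-- the point with homogeneous coordinates `P` (`P 0 ≠ 0`) -/
noncomputable def ev [Algebra ℂ κ] (P : Fin (N + 1) → κ) : MvPolynomial (Fin N) ℂ →+* κ :=
  (aeval (fun i : Fin N => P i.succ / P 0) : MvPolynomial (Fin N) ℂ →ₐ[ℂ] κ).toRingHom

end points

section places

variable {N : ℕ} {M : Type*} [Field M]

/-- The valuation ring `O` of `M` lies over the divisor `f = 0` of affine space. -/
def Over (f : MvPolynomial (Fin N) ℂ) (ψ : MvPolynomial (Fin N) ℂ →+* M)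
    (O : ValuationSubring M) : Prop :=
  (∀ G, ψ G ∈ O) ∧ ∀ G, O.valuation (ψ G) < 1 ↔ f ∣ G

/-- the residue homomorphism -/
noncomputable def rh (ψ : MvPolynomial (Fin N) ℂ →+* M) (O : ValuationSubring M)
    (h : ∀ G, ψ G ∈ O) : MvPolynomial (Fin N) ℂ →+* IsLocalRing.ResidueField O :=
  (IsLocalRing.residue O).comp (ψ.codRestrict O h)

/-- `O` is a discrete valuation ring and `a` has valuation `e` -/
def HasOrd (O : ValuationSubring M) (a : M) (e : ℕ) : Prop :=
  ∃ ϖ : M, ϖ ≠ 0 ∧ O.valuation ϖ < 1 ∧ (∀ b, O.valuation b < 1 → ∃ c ∈ O, b = c * ϖ) ∧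
    ∃ η : M, O.valuation η = 1 ∧ a = η * ϖ ^ e

end places

section line

variable {N : ℕ} {L : Type*} [Field L] [Algebra ℂ L]

/-- the field `L(s)` -/
abbrev MM (L : Type*) [Field L] : Type _ := FractionRing (Polynomial L)

/-- the variable `s` of `L(s)` -/
noncomputable def sv (L : Type*) [Field L] : MM L := algebraMap (Polynomial L) (MM L) Polynomial.X

/-- the inclusion `L → L(s)` -/
noncomputable def cM (L : Type*) [Field L] : L →+* MM L :=
  (algebraMap (Polynomial L) (MM L)).comp Polynomial.C

/-- the generic point `u = y + s x` of the line through `y` and `x` -/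
noncomputable def uu (y x : Fin (N + 1) → L) : Fin (N + 1) → MM L :=
  fun i => cM L (y i) + sv L * cM L (x i)

/-- the generic point of the line as a point of affine space -/
noncomputable def psi (y x : Fin (N + 1) → L) : MvPolynomial (Fin N) ℂ →+* MM L :=
  eval₂Hom ((cM L).comp (algebraMap ℂ L)) (fun i : Fin N => uu y x i.succ / uu y x 0)

/-- the coefficients of `F` in `L` -/
noncomputable def cL (L : Type*) [Field L] [Algebra ℂ L] (F : MvPolynomial (Fin (N + 1)) ℂ) :
    Fin (N + 1) → Fin (N + 1) → Fin (N + 1) → L :=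
  cm (algebraMap ℂ L) (cub F)

end line

end Pool.Agent.Lib.MP_2619d0_ag.T
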