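import Pool.Agent.Lib.MP_2619d0_ag.T.Defs

/-!
Row B1: identities for cubic forms given by coefficients.
-/

set_option autoImplicit false

namespace Pool.Agent.Lib.MP_2619d0_ag.T

open MvPolynomial

section

variable {ι R S : Type*} [Fintype ι] [CommRing R] [CommRing S] (c : ι → ι → ι → R)

theorem Fc_add (x y : ι → R) : Fc c (x + y) = Fc c x + Dc c x y + Dc c y x + Fc c y := by
  simp only [Fc, Dc, ← Finset.sum_add_distrib]
  refine Finset.sum_congr rfl fun i _ => Finset.sum_congr rfl fun j _ =>
    Finset.sum_congr rfl fun k _ => ?_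
  simp only [Pi.add_apply]
  ring

theorem Fc_smul (a : R) (x : ι → R) : Fc c (a • x) = a ^ 3 * Fc c x := by
  simp only [Fc, Finset.mul_sum]
  refine Finset.sum_congr rfl fun i _ => Finset.sum_congr rfl fun j _ =>
    Finset.sum_congr rfl fun k _ => ?_
  simp only [Pi.smul_apply, smul_eq_mul]
  ring

theorem Dc_add_left (x x' y : ι → R) :
    Dc c (x + x') y = Dc c x y + Tc c x x' y + Dc c x' y := by
  simp only [Dc, Tc, ← Finset.sum_add_distrib]
  refine Finset.sum_congr rfl fun i _ => Finset.sum_congr rfl fun j _ =>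
    Finset.sum_congr rfl fun k _ => ?_
  simp only [Pi.add_apply]
  ring

theorem Dc_add_right (x y y' : ι → R) : Dc c x (y + y') = Dc c x y + Dc c x y' := by
  simp only [Dc, ← Finset.sum_add_distrib]
  refine Finset.sum_congr rfl fun i _ => Finset.sum_congr rfl fun j _ =>
    Finset.sum_congr rfl fun k _ => ?_
  simp only [Pi.add_apply]
  ring

theorem Dc_smul_left (a : R) (x y : ι → R) : Dc c (a • x) y = a ^ 2 * Dc c x y := by
  simp only [Dc, Finset.mul_sum]
  refine Finset.sum_congr rfl fun i _ => Finset.sum_congr rfl fun j _ =>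
    Finset.sum_congr rfl fun k _ => ?_
  simp only [Pi.smul_apply, smul_eq_mul]
  ring

theorem Dc_smul_right (a : R) (x y : ι → R) : Dc c x (a • y) = a * Dc c x y := by
  simp only [Dc, Finset.mul_sum]
  refine Finset.sum_congr rfl fun i _ => Finset.sum_congr rfl fun j _ =>
    Finset.sum_congr rfl fun k _ => ?_
  simp only [Pi.smul_apply, smul_eq_mul]
  ring

theorem Dc_self (x : ι → R) : Dc c x x = 3 * Fc c x := by
  simp only [Dc, Fc, Finset.mul_sum]
  refine Finset.sum_congr rfl fun i _ => Finset.sum_congr rfl fun j _ =>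
    Finset.sum_congr rfl fun k _ => ?_
  ring

theorem Tc_self (x y : ι → R) : Tc c x x y = 2 * Dc c x y := by
  simp only [Dc, Tc, Finset.mul_sum]
  refine Finset.sum_congr rfl fun i _ => Finset.sum_congr rfl fun j _ =>
    Finset.sum_congr rfl fun k _ => ?_
  ring

theorem Tc_comm (x y z : ι → R) : Tc c x y z = Tc c y x z := by
  simp only [Tc]
  refine Finset.sum_congr rfl fun i _ => Finset.sum_congr rfl fun j _ =>
    Finset.sum_congr rfl fun k _ => ?_
  ring

theorem Tc_comm' (x y z : ι → R) : Tc c x y z = Tc c x z y := by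
  simp only [Tc]
  refine Finset.sum_congr rfl fun i _ => Finset.sum_congr rfl fun j _ =>
    Finset.sum_congr rfl fun k _ => ?_
  ring

theorem Tc_smul_left (a : R) (x y z : ι → R) : Tc c (a • x) y z = a * Tc c x y z := by
  simp only [Tc, Finset.mul_sum]
  refine Finset.sum_congr rfl fun i _ => Finset.sum_congr rfl fun j _ =>
    Finset.sum_congr rfl fun k _ => ?_
  simp only [Pi.smul_apply, smul_eq_mul]
  ring

theorem Tc_add_left (x x' y z : ι → R) : Tc c (x + x') y z = Tc c x y z + Tc c x' y z := by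
  simp only [Tc, ← Finset.sum_add_distrib]
  refine Finset.sum_congr rfl fun i _ => Finset.sum_congr rfl fun j _ =>
    Finset.sum_congr rfl fun k _ => ?_
  simp only [Pi.add_apply]
  ring

/-- the cubic form on a line -/
theorem Fc_line (a b : R) (x y : ι → R) : Fc c (a • x + b • y) =
    a ^ 3 * Fc c x + a ^ 2 * b * Dc c x y + a * b ^ 2 * Dc c y x + b ^ 3 * Fc c y := by
  rw [Fc_add, Fc_smul, Fc_smul, Dc_smul_left, Dc_smul_left, Dc_smul_right, Dc_smul_right]
  ring

variable {c}

theorem Fc_cm (φ : R →+* S) (x : ι → R) : Fc (cm φ c) (fun i => φ (x i)) = φ (Fc c x) := by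
  simp only [Fc, cm, map_sum, map_mul]

theorem Dc_cm (φ : R →+* S) (x y : ι → R) :
    Dc (cm φ c) (fun i => φ (x i)) (fun i => φ (y i)) = φ (Dc c x y) := by
  simp only [Dc, cm, map_sum, map_mul, map_add]

theorem Tc_cm (φ : R →+* S) (x y z : ι → R) :
    Tc (cm φ c) (fun i => φ (x i)) (fun i => φ (y i)) (fun i => φ (z i)) = φ (Tc c x y z) := by
  simp only [Tc, cm, map_sum, map_mul, map_add]

theorem cm_comp {Q : Type*} [CommRing Q] (φ : R →+* S) (χ : S →+* Q) :
    cm χ (cm φ c) = cm (χ.comp φ) c := rfl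

end

end Pool.Agent.Lib.MP_2619d0_ag.T
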