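import Pool.Agent.Lib.MP_2619d0_ag.T.B1

/-!
Row B2: cubic forms as polynomials and as coefficient functions.
-/

set_option autoImplicit false

namespace Pool.Agent.Lib.MP_2619d0_ag.T

open MvPolynomial

/-- the exponent of the monomial of a triple of indices -/
noncomputable def B2_e {n : ℕ} (t : Fin n × Fin n × Fin n) : Fin n →₀ ℕ :=
  Finsupp.single t.1 1 + Finsupp.single t.2.1 1 + Finsupp.single t.2.2 1

theorem B2_toMultiset {n : ℕ} (t : Fin n × Fin n × Fin n) :
    Finsupp.toMultiset (B2_e t) = (([t.1, t.2.1, t.2.2] : List (Fin n)) : Multiset (Fin n)) := by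
  unfold B2_e
  rw [map_add, map_add, Finsupp.toMultiset_single, Finsupp.toMultiset_single,
    Finsupp.toMultiset_single, one_smul, one_smul, one_smul]
  rfl

theorem B2_pairwise {n : ℕ} {a b c : Fin n} (h : a ≤ b ∧ b ≤ c) :
    List.Pairwise (· ≤ ·) [a, b, c] := by
  simp only [List.pairwise_cons, List.mem_cons, List.not_mem_nil, or_false, forall_eq_or_imp,
    forall_eq, List.Pairwise.nil, and_true, IsEmpty.forall_iff, implies_true]
  exact ⟨⟨h.1, h.1.trans h.2⟩, h.2⟩

theorem B2_inj {n : ℕ} {t s : Fin n × Fin n × Fin n} (ht : t.1 ≤ t.2.1 ∧ t.2.1 ≤ t.2.2)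
    (hs : s.1 ≤ s.2.1 ∧ s.2.1 ≤ s.2.2) (h : B2_e t = B2_e s) : t = s := by
  have h1 : (([t.1, t.2.1, t.2.2] : List (Fin n)) : Multiset (Fin n)) = ([s.1, s.2.1, s.2.2] : List (Fin n)) := by
    rw [← B2_toMultiset, ← B2_toMultiset, h]
  have h2 : List.Perm [t.1, t.2.1, t.2.2] [s.1, s.2.1, s.2.2] := Multiset.coe_eq_coe.mp h1
  have h3 := List.Perm.eq_of_pairwise (fun a b _ _ hab hba => le_antisymm hab hba)
    (B2_pairwise ht) (B2_pairwise hs) h2
  simp only [List.cons.injEq, and_true] at h3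
  exact Prod.ext h3.1 (Prod.ext h3.2.1 h3.2.2)

theorem B2_surj {n : ℕ} {d : Fin n →₀ ℕ} (hd : Finsupp.degree d = 3) :
    ∃ t : Fin n × Fin n × Fin n, (t.1 ≤ t.2.1 ∧ t.2.1 ≤ t.2.2) ∧ B2_e t = d := by
  set l := (Finsupp.toMultiset d).sort (· ≤ ·) with hl
  have hcard : l.length = 3 := by
    rw [hl, Multiset.length_sort, Finsupp.card_toMultiset, ← hd]
    rfl
  obtain ⟨a, b, c, habc⟩ := List.length_eq_three.mp hcard
  have hp : List.Pairwise (· ≤ ·) [a, b, c] := by
    rw [← habc]
    exact Multiset.pairwise_sort _ _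
  simp only [List.pairwise_cons, List.mem_cons, List.not_mem_nil, or_false, forall_eq_or_imp,
    forall_eq, List.Pairwise.nil, and_true, IsEmpty.forall_iff, implies_true] at hp
  refine ⟨(a, b, c), ⟨hp.1.1, hp.2⟩, ?_⟩
  have h1 : ((l : List (Fin n)) : Multiset (Fin n)) = Finsupp.toMultiset d := Multiset.sort_eq _ _
  have h2 : Finsupp.toMultiset (B2_e (a, b, c)) = Finsupp.toMultiset d := by
    rw [B2_toMultiset, ← h1, habc]
  have h3 := congrArg Multiset.toFinsupp h2
  rwa [Finsupp.toMultiset_toFinsupp, Finsupp.toMultiset_toFinsupp] at h3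

theorem B2_prod {n : ℕ} {A : Type*} [CommRing A] (x : Fin n → A) (t : Fin n × Fin n × Fin n) :
    ∏ i, x i ^ (B2_e t) i = x t.1 * x t.2.1 * x t.2.2 := by
  have h1 : ∀ a : Fin n, ∏ i, x i ^ ((Finsupp.single a 1 : Fin n →₀ ℕ) i) = x a := by
    intro a
    rw [Finset.prod_eq_single a]
    · rw [Finsupp.single_eq_same, pow_one]
    · intro b _ hb
      rw [Finsupp.single_eq_of_ne hb, pow_zero]
    · intro h
      exact absurd (Finset.mem_univ _) h
  have h2 : ∀ i, x i ^ (B2_e t) i = x i ^ ((Finsupp.single t.1 1 : Fin n →₀ ℕ) i) *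
      x i ^ ((Finsupp.single t.2.1 1 : Fin n →₀ ℕ) i) * x i ^ ((Finsupp.single t.2.2 1 : Fin n →₀ ℕ) i) := by
    intro i
    rw [← pow_add, ← pow_add]
    rfl
  rw [Finset.prod_congr rfl fun i _ => h2 i, Finset.prod_mul_distrib, Finset.prod_mul_distrib,
    h1, h1, h1]

/-- Both sides are linear in `F`; write `F = ∑ d ∈ F.support, monomial d (coeff d F)`. For every `d`
of degree 3 there is exactly one triple `i ≤ j ≤ k` with `d = single i 1 + single j 1 + single k 1`
(uniqueness: compare the values of `d` at the indices; existence: take `i` = smallest index of the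
support, subtract, and so on). So `∑ i j k, cub F i j k * (x i * x j * x k)` is the sum over `d` of
degree 3 of `coeff d F * ∏ x ^ d`. (`aeval_def, eval₂_eq'`.) -/
theorem aeval_eq_Fc {R A : Type*} [CommRing R] [CommRing A] [Algebra R A] {n : ℕ}
    {F : MvPolynomial (Fin n) R} (hF : F.IsHomogeneous 3) (x : Fin n → A) :
    aeval x F = Fc (cm (algebraMap R A) (cub F)) x := by
  classical
  rw [aeval_def, eval₂_eq']
  set φ : (Fin n →₀ ℕ) → A := fun d => algebraMap R A (coeff d F) * ∏ i, x i ^ d i with hφ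
  set S : Finset (Fin n × Fin n × Fin n) :=
    Finset.univ.filter (fun t => t.1 ≤ t.2.1 ∧ t.2.1 ≤ t.2.2) with hS
  have h1 : Fc (cm (algebraMap R A) (cub F)) x = ∑ t ∈ S, φ (B2_e t) := by
    rw [hS, Finset.sum_filter, Fintype.sum_prod_type]
    unfold Fc
    refine Finset.sum_congr rfl fun i _ => ?_
    rw [Fintype.sum_prod_type]
    refine Finset.sum_congr rfl fun j _ => Finset.sum_congr rfl fun k _ => ?_
    simp only [cm, cub]
    by_cases h : i ≤ j ∧ j ≤ k
    · rw [if_pos h, if_pos h, hφ]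
      simp only
      rw [B2_prod]
      rfl
    · rw [if_neg h, if_neg h, map_zero, zero_mul]
  have h2 : ∑ t ∈ S, φ (B2_e t) = ∑ d ∈ S.image B2_e, φ d := by
    rw [Finset.sum_image]
    intro t ht s hs h
    rw [hS, Finset.mem_coe, Finset.mem_filter] at ht hs
    exact B2_inj ht.2 hs.2 h
  rw [h1, h2]
  apply Finset.sum_subset
  · intro d hd
    have hd' : Finsupp.degree d = 3 := by
      by_contra h
      exact (mem_support_iff.mp hd) (hF.coeff_eq_zero h)
    obtain ⟨t, ht, rfl⟩ := B2_surj hd'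
    exact Finset.mem_image_of_mem _ (Finset.mem_filter.mpr ⟨Finset.mem_univ _, ht⟩)
  · intro d _ hd
    rw [notMem_support_iff.mp hd, map_zero, zero_mul]

/-- `χ ∘ dh` and evaluation at `yh χ` agree (`eval₂` at the point `yh χ` with coefficients
`χ.comp C`); then the same computation as in `aeval_eq_Fc` (use `(χ.comp C).toAlgebra`). -/
theorem chi_dh {N : ℕ} {κ : Type*} [Field κ] {F : MvPolynomial (Fin (N + 1)) ℂ}
    (hF : F.IsHomogeneous 3) (χ : MvPolynomial (Fin N) ℂ →+* κ) :
    χ (dh ℂ N F) = Fc (cc F χ) (yh χ) := by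
  let _ : Algebra ℂ κ := (χ.comp C).toAlgebra
  have h1 : (aeval (yh χ) : MvPolynomial (Fin (N + 1)) ℂ →ₐ[ℂ] κ).toRingHom
      = χ.comp (dh ℂ N).toRingHom := by
    apply MvPolynomial.ringHom_ext
    · intro r
      simp only [AlgHom.toRingHom_eq_coe, RingHom.coe_coe, RingHom.comp_apply]
      rw [aeval_C]
      have : dh ℂ N (C r) = C r := by
        unfold dh
        rw [aeval_C]
        rfl
      rw [this]
      rfl
    · intro i
      simp only [AlgHom.toRingHom_eq_coe, RingHom.coe_coe, RingHom.comp_apply]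
      rw [aeval_X]
      unfold dh
      rw [aeval_X]
      refine Fin.cases ?_ (fun j => ?_) i
      · simp [yh]
      · simp [yh]
  have h2 : aeval (yh χ) F = χ (dh ℂ N F) := RingHom.congr_fun h1 F
  rw [← h2, aeval_eq_Fc hF]
  rfl

end Pool.Agent.Lib.MP_2619d0_ag.T
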