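import Pool.Agent.Lib.MP_2619d0_ag.T.Defs

/-!
Row A1: the key lemma in characteristic two.
-/

set_option autoImplicit false

namespace Pool.Agent.Lib.MP_2619d0_ag.T

open MvPolynomial

/-- the generic vector `(1, X_0, …, X_{N-1})` -/
noncomputable def gv (N : ℕ) (k : Type*) [CommRing k] : Fin (N + 1) → MvPolynomial (Fin N) k :=
  Fin.cons 1 (fun i => X i)

theorem A1_sq {σ k : Type*} [Field k] (h2 : (2 : k) = 0) (p : MvPolynomial σ k)
    (e : σ →₀ ℕ) : coeff e (p ^ 2) = ∑ d ∈ p.support,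
      coeff e (monomial (2 • d) ((coeff d p) ^ 2) : MvPolynomial σ k) := by
  classical
  have hch : CharP k 2 := CharTwo.of_one_ne_zero_of_two_eq_zero one_ne_zero h2
  conv_lhs => rw [p.as_sum]
  rw [sum_pow_char, coeff_sum]
  refine Finset.sum_congr rfl (fun d _ => ?_)
  rw [monomial_pow]

/-- in characteristic two a square has only even exponents -/
theorem coeff_sq_char2 {σ k : Type*} [Field k] (h2 : (2 : k) = 0) (p : MvPolynomial σ k)
    (e : σ →₀ ℕ) (i : σ) (he : Odd (e i)) : coeff e (p ^ 2) = 0 := by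
  classical
  rw [A1_sq h2]
  refine Finset.sum_eq_zero (fun d _ => ?_)
  rw [coeff_monomial, if_neg]
  intro hd
  rw [← hd] at he
  simp only [Finsupp.smul_apply, smul_eq_mul] at he
  rw [Nat.odd_iff] at he
  omega

theorem A1_coeff_two {σ k : Type*} [Field k] (h2 : (2 : k) = 0) (p : MvPolynomial σ k)
    (d : σ →₀ ℕ) : coeff (2 • d) (p ^ 2) = (coeff d p) ^ 2 := by
  classical
  rw [A1_sq h2]
  have h1 : ∀ d' ∈ p.support, coeff (2 • d) (monomial (2 • d') ((coeff d' p) ^ 2) :
      MvPolynomial σ k) = if d' = d then (coeff d p) ^ 2 else 0 := by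
    intro d' _
    rw [coeff_monomial]
    by_cases hd : d' = d
    · rw [hd]; simp
    · rw [if_neg hd, if_neg]
      intro h3
      apply hd
      ext i
      have h4 := DFunLike.congr_fun h3 i
      simp only [Finsupp.smul_apply, smul_eq_mul] at h4
      omega
  rw [Finset.sum_congr rfl h1, Finset.sum_ite_eq']
  split_ifs with h3
  · rfl
  · rw [notMem_support_iff] at h3
    rw [h3]; simp

theorem A1_coeff_mul_C {σ k : Type*} [Field k] (d : σ →₀ ℕ) (p : MvPolynomial σ k) (a : k) :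
    coeff d (p * C a) = coeff d p * a := by
  rw [mul_comm p, coeff_C_mul, mul_comm]

section A1

variable {N : ℕ} {k : Type*} [Field k]

/-- all monomials have degree at least `a` -/
def A1_ord (a : ℕ) (p : MvPolynomial (Fin N) k) : Prop :=
  ∀ d : Fin N →₀ ℕ, d.degree < a → coeff d p = 0

theorem A1_ord_mul {a b : ℕ} {p q : MvPolynomial (Fin N) k} (hp : A1_ord a p) (hq : A1_ord b q) :
    A1_ord (a + b) (p * q) := by
  classical
  intro d hd
  rw [coeff_mul]
  refine Finset.sum_eq_zero ?_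
  rintro ⟨x, y⟩ hxy
  replace hxy : x + y = d := by simpa using hxy
  have hdeg : x.degree + y.degree = d.degree := by rw [← hxy, map_add]
  by_cases h1 : x.degree < a
  · rw [hp x h1, zero_mul]
  · rw [hq y (by omega), mul_zero]

theorem A1_ord_sum {ι : Type*} (t : Finset ι) {a : ℕ} {f : ι → MvPolynomial (Fin N) k}
    (hf : ∀ i ∈ t, A1_ord a (f i)) : A1_ord a (∑ i ∈ t, f i) := by
  intro d hd
  rw [coeff_sum]
  exact Finset.sum_eq_zero (fun i hi => hf i hi d hd)

theorem A1_ord_zero (p : MvPolynomial (Fin N) k) : A1_ord 0 p := by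
  intro d hd; omega

theorem A1_ord_X (i : Fin N) : A1_ord 1 (X i : MvPolynomial (Fin N) k) := by
  classical
  intro d hd
  rw [coeff_X, if_neg]
  intro h
  rw [← h] at hd
  simp at hd

/-- the vector `(0, X_0, …)` -/
noncomputable def A1_Xv (N : ℕ) (k : Type*) [CommRing k] : Fin (N + 1) → MvPolynomial (Fin N) k :=
  Fin.cons 0 (fun i => X i)

theorem A1_ord_Xv (i : Fin (N + 1)) : A1_ord 1 (A1_Xv N k i) := by
  refine Fin.cases ?_ (fun j => ?_) i
  · intro d _; simp [A1_Xv]
  · simp only [A1_Xv, Fin.cons_succ]; exact A1_ord_X j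

/-- The inductive step: the key computation. -/
theorem A1_step (h2 : (2 : k) = 0) (b : Fin (N + 1) → k) (hb0 : b 0 = 1)
    (s : MvPolynomial (Fin N) k) (z x : Fin (N + 1) → MvPolynomial (Fin N) k) (ρ : ℕ)
    (hs : A1_ord ρ s) (hz : ∀ i, A1_ord ρ (z i))
    (h : ∑ i, x i ^ 2 * (C (b i) + A1_Xv N k i) + s ^ 2 * ∑ i, A1_Xv N k i ^ 2 *
      (C (b i) + A1_Xv N k i) + s * ∑ i, A1_Xv N k i ^ 2 * z i = 0) :
    ∀ d : Fin N →₀ ℕ, d.degree = ρ → ∀ i, coeff d (x i) = 0 := by
  classical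
  have ho1 : A1_ord (2 * ρ + 2) (s ^ 2 * ∑ i, A1_Xv N k i ^ 2 * (C (b i) + A1_Xv N k i)) := by
    have h1 : A1_ord (ρ + ρ) (s ^ 2) := by rw [pow_two]; exact A1_ord_mul hs hs
    have h3 : A1_ord 2 (∑ i, A1_Xv N k i ^ 2 * (C (b i) + A1_Xv N k i)) := by
      refine A1_ord_sum _ (fun i _ => ?_)
      have h4 : A1_ord (1 + 1) (A1_Xv N k i ^ 2) := by
        rw [pow_two]; exact A1_ord_mul (A1_ord_Xv i) (A1_ord_Xv i)
      exact A1_ord_mul h4 (A1_ord_zero _)
    have h5 := A1_ord_mul h1 h3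
    have h6 : ρ + ρ + 2 = 2 * ρ + 2 := by ring
    rw [← h6]; exact h5
  have ho2 : A1_ord (2 * ρ + 2) (s * ∑ i, A1_Xv N k i ^ 2 * z i) := by
    have h3 : A1_ord (2 + ρ) (∑ i, A1_Xv N k i ^ 2 * z i) := by
      refine A1_ord_sum _ (fun i _ => ?_)
      have h4 : A1_ord (1 + 1) (A1_Xv N k i ^ 2) := by
        rw [pow_two]; exact A1_ord_mul (A1_ord_Xv i) (A1_ord_Xv i)
      exact A1_ord_mul h4 (hz i)
    have h5 := A1_ord_mul hs h3
    have h6 : ρ + (2 + ρ) = 2 * ρ + 2 := by ring
    rw [← h6]; exact h5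
  -- the coefficient of the first sum
  have hco : ∀ e : Fin N →₀ ℕ, e.degree < 2 * ρ + 2 →
      ∑ i, coeff e (x i ^ 2) * b i + ∑ j : Fin N, coeff e (x j.succ ^ 2 * X j) = 0 := by
    intro e he
    have h1 := congrArg (coeff e) h
    rw [coeff_add, coeff_add, ho1 e he, ho2 e he, add_zero, add_zero, coeff_zero, coeff_sum] at h1
    rw [← h1]
    have h3 : ∀ i, coeff e (x i ^ 2 * (C (b i) + A1_Xv N k i))
        = coeff e (x i ^ 2) * b i + coeff e (x i ^ 2 * A1_Xv N k i) := by
      intro i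
      rw [mul_add, coeff_add, A1_coeff_mul_C]
    rw [Finset.sum_congr rfl (fun i _ => h3 i), Finset.sum_add_distrib]
    congr 1
    rw [Fin.sum_univ_succ]
    simp [A1_Xv]
  -- positive indices
  have hpos : ∀ d : Fin N →₀ ℕ, d.degree = ρ → ∀ j : Fin N, coeff d (x j.succ) = 0 := by
    intro d hd j
    have h1 := hco (2 • d + Finsupp.single j 1) (by
      rw [map_add, map_nsmul, hd, Finsupp.degree_single]
      simp)
    have h3 : ∑ i, coeff (2 • d + Finsupp.single j 1) (x i ^ 2) * b i = 0 := by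
      refine Finset.sum_eq_zero (fun i _ => ?_)
      rw [coeff_sq_char2 h2 (x i) _ j (by simp), zero_mul]
    rw [h3, zero_add, Finset.sum_eq_single j] at h1
    · rw [coeff_mul_X, A1_coeff_two h2] at h1
      exact pow_eq_zero_iff (two_ne_zero) |>.mp h1
    · intro l _ hlj
      rw [coeff_mul_X']
      split_ifs with h4
      · refine coeff_sq_char2 h2 _ _ j ?_
        have : Finsupp.single l 1 j = 0 := Finsupp.single_eq_of_ne (by exact fun h => hlj h.symm)
        simp [this]
      · rfl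
    · intro hj; exact absurd (Finset.mem_univ j) hj
  intro d hd i
  refine Fin.cases ?_ (fun j => hpos d hd j) i
  have h1 := hco (2 • d) (by rw [map_nsmul, hd]; simp)
  have h3 : ∑ j : Fin N, coeff (2 • d) (x j.succ ^ 2 * X j) = 0 := by
    refine Finset.sum_eq_zero (fun j _ => ?_)
    rw [coeff_mul_X']
    split_ifs with h4
    · refine coeff_sq_char2 h2 _ _ j ?_
      rw [Finsupp.mem_support_iff] at h4
      simp only [Finsupp.smul_apply, smul_eq_mul, ne_eq] at h4
      simp only [Finsupp.coe_tsub, Pi.sub_apply, Finsupp.smul_apply, smul_eq_mul,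
        Finsupp.single_eq_same]
      rw [Nat.odd_iff]; omega
    · rfl
  rw [h3, add_zero, Fin.sum_univ_succ] at h1
  have h4 : ∑ j : Fin N, coeff (2 • d) (x j.succ ^ 2) * b j.succ = 0 := by
    refine Finset.sum_eq_zero (fun j _ => ?_)
    rw [A1_coeff_two h2, hpos d hd j]; simp
  rw [h4, add_zero, hb0, mul_one, A1_coeff_two h2] at h1
  exact pow_eq_zero_iff (two_ne_zero) |>.mp h1

/-- translation by `b` -/
noncomputable def A1_T (b : Fin (N + 1) → k) : MvPolynomial (Fin N) k →ₐ[k] MvPolynomial (Fin N) k :=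
  aeval (fun i => X i + C (b i.succ))

theorem A1_TT (h2 : (2 : k) = 0) (b : Fin (N + 1) → k) (p : MvPolynomial (Fin N) k) :
    A1_T b (A1_T b p) = p := by
  have h1 : (A1_T b).comp (A1_T b) = AlgHom.id k _ := by
    apply algHom_ext
    intro i
    simp only [A1_T, AlgHom.comp_apply, aeval_X, map_add, AlgHom.id_apply]
    rw [← algebraMap_eq, AlgHom.commutes, algebraMap_eq, add_assoc, ← C_add]
    have h3 : b i.succ + b i.succ = 0 := by
      rw [← two_mul, h2, zero_mul]
    rw [h3, C_0, add_zero]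
  have h3 := DFunLike.congr_fun h1 p
  simpa using h3

theorem A1_T_mem (b : Fin (N + 1) → k) (W : Submodule k (Fin (N + 1) → k))
    (z : Fin (N + 1) → MvPolynomial (Fin N) k) (hz : ∀ d, (fun i => coeff d (z i)) ∈ W)
    (d : Fin N →₀ ℕ) : (fun i => coeff d (A1_T b (z i))) ∈ W := by
  classical
  let S : Finset (Fin N →₀ ℕ) := Finset.univ.biUnion (fun i => (z i).support)
  have h1 : (fun i => coeff d (A1_T b (z i)))
      = ∑ e ∈ S, coeff d (A1_T b (monomial e 1)) • (fun i => coeff e (z i)) := by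
    funext i
    rw [Finset.sum_apply]
    have h3 : z i = ∑ e ∈ S, coeff e (z i) • monomial e (1 : k) := by
      conv_lhs => rw [(z i).as_sum]
      have h4 : (z i).support ⊆ S := Finset.subset_biUnion_of_mem (fun i => (z i).support)
        (Finset.mem_univ i)
      rw [Finset.sum_subset h4]
      · refine Finset.sum_congr rfl (fun e _ => ?_)
        rw [smul_monomial, smul_eq_mul, mul_one]
      · intro e _ he
        rw [notMem_support_iff] at he
        rw [he]; simp
    conv_lhs => rw [h3]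
    rw [map_sum, coeff_sum]
    refine Finset.sum_congr rfl (fun e _ => ?_)
    rw [map_smul, coeff_smul, Pi.smul_apply, smul_eq_mul, smul_eq_mul, mul_comm]
  rw [h1]
  exact Submodule.sum_mem _ (fun e _ => Submodule.smul_mem _ _ (hz e))

theorem A1_split (W : Submodule k (Fin (N + 1) → k)) (b : Fin (N + 1) → k) (hb : b ∉ W) (a : k)
    (w : Fin (N + 1) → k) (hw : w ∈ W) (h : ∀ i, a * b i + w i = 0) : a = 0 ∧ w = 0 := by
  have ha : a = 0 := by
    by_contra ha
    apply hb
    have h1 : b = (-a⁻¹) • w := by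
      funext i
      have h3 := h i
      simp only [Pi.smul_apply, smul_eq_mul]
      field_simp
      linear_combination h3
    rw [h1]; exact W.smul_mem _ hw
  refine ⟨ha, ?_⟩
  funext i
  have h3 := h i
  rw [ha, zero_mul, zero_add] at h3
  exact h3

end A1

/-- KEY LEMMA (characteristic two). `W` a subspace of `k^{N+1}`, `b ∉ W` with `b 0 = 1` and
`∑ b_i² w_i = 0` for all `w ∈ W`; `s ∈ k[X]`, `z ∈ k[X]^{N+1}` with all coefficient vectors in `W`;
`u = gv`. If `s² ∑ u_i³ + s ∑ u_i² z_i + ∑ z_i² u_i = 0` then `s = 0` and `z = 0`.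
Proof. Translate: apply the automorphism `X_i ↦ X_i + b_{i+1}` (`aeval (fun i => X i + C (b i.succ))`),
which maps `u` to `b + X` with `X := (0, X_0, …, X_{N-1})` and keeps the hypotheses (the coefficient
vectors stay in `W`). So `s² ∑ (b+X)_i³ + s ∑ (b_i² + X_i²) z_i + ∑ z_i² (b+X)_i = 0`. Put
`x = s b + z`. In characteristic 2, `∑ b_i² z_i = 0` (coefficientwise) and
`s² ∑ (b_i + X_i)³ = s² ∑ (b_i² + X_i²)(b_i + X_i)`, the equation becomes
(**) `∑ i, x_i² (b_i + X_i) + s² ∑ X_i² (b_i + X_i) + s ∑ X_i² z_i = 0`.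
Suppose `(s, z) ≠ 0`; then `x ≠ 0` (`b ∉ W`, look at coefficients: `s_d b + z_d = 0` with `z_d ∈ W`
gives `s_d = 0`, `z_d = 0`). Let `ρ` be the smallest degree `|d|` with `x_d := (coeff d (x i))_i ≠ 0`; by
the same argument `s_d = 0` and `z_d = 0` for `|d| < ρ`. Choose `d` with `|d| = ρ` and `i` with
`coeff d (x i) ≠ 0`.
If `i ≥ 1` is possible (`i = j.succ`): take the coefficient of (**) at `2 d + single j 1`: the terms
`x_l² b_l` contribute `0` (`coeff_sq_char2`), the terms `x_l² X_l` contribute `0` for `l ≠ i` (parity of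
the exponents) and `(coeff d (x i))²` for `l = i`; the other two sums have only terms of degree
`≥ 2 ρ + 2`. Contradiction. Otherwise `coeff d (x i) = 0` for all `i ≥ 1` and all `d` of degree `ρ`, so
`coeff d (x 0) ≠ 0` for some `|d| = ρ`: the coefficient of (**) at `2 d` is `(coeff d (x 0))² b_0 ≠ 0`
(the terms `x_l² b_l`, `l ≥ 1`: `coeff (2d) (x_l²) = (coeff d x_l)² = 0`; `x_l² X_l`: odd exponent;
the rest: degree). Contradiction. -/
theorem aniso_char2 {k : Type*} [Field k] (h2 : (2 : k) = 0) {N : ℕ}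
    (W : Submodule k (Fin (N + 1) → k)) (b : Fin (N + 1) → k) (hb : b ∉ W) (hb0 : b 0 = 1)
    (hbW : ∀ w ∈ W, ∑ i, b i ^ 2 * w i = 0) (s : MvPolynomial (Fin N) k)
    (z : Fin (N + 1) → MvPolynomial (Fin N) k) (hz : ∀ d, (fun i => coeff d (z i)) ∈ W)
    (h : s ^ 2 * ∑ i, gv N k i ^ 3 + s * ∑ i, gv N k i ^ 2 * z i + ∑ i, z i ^ 2 * gv N k i = 0) :
    s = 0 ∧ ∀ i, z i = 0 := by
  classical
  have h2' : ∀ p : MvPolynomial (Fin N) k, p + p = 0 := by
    intro p
    rw [← two_mul]
    have : (2 : MvPolynomial (Fin N) k) = C (2 : k) := (map_ofNat C 2).symm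
    rw [this, h2, C_0, zero_mul]
  set s' := A1_T b s with hs'
  set z' : Fin (N + 1) → MvPolynomial (Fin N) k := fun i => A1_T b (z i) with hz'
  have hzW : ∀ d, (fun i => coeff d (z' i)) ∈ W := A1_T_mem b W z hz
  have hgv : ∀ i, A1_T b (gv N k i) = C (b i) + A1_Xv N k i := by
    intro i
    refine Fin.cases ?_ (fun j => ?_) i
    · simp [gv, A1_Xv, hb0]
    · simp only [gv, A1_Xv, Fin.cons_succ, A1_T, aeval_X]
      rw [add_comm]
  have hE : s' ^ 2 * ∑ i, (C (b i) + A1_Xv N k i) ^ 3 + s' * ∑ i, (C (b i) + A1_Xv N k i) ^ 2 * z' i +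
      ∑ i, z' i ^ 2 * (C (b i) + A1_Xv N k i) = 0 := by
    have h1 := congrArg (A1_T b) h
    simp only [map_add, map_mul, map_pow, map_sum, map_zero, hgv] at h1
    exact h1
  have hbz : ∑ i, C (b i) ^ 2 * z' i = 0 := by
    ext d
    rw [coeff_sum, coeff_zero]
    have h1 := hbW _ (hzW d)
    rw [← h1]
    refine Finset.sum_congr rfl (fun i _ => ?_)
    rw [← C_pow, coeff_C_mul]
  set x : Fin (N + 1) → MvPolynomial (Fin N) k := fun i => s' * C (b i) + z' i with hx
  have hE2 : ∑ i, x i ^ 2 * (C (b i) + A1_Xv N k i) + s' ^ 2 * ∑ i, A1_Xv N k i ^ 2 *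
      (C (b i) + A1_Xv N k i) + s' * ∑ i, A1_Xv N k i ^ 2 * z' i = 0 := by
    have h1 : ∑ i, x i ^ 2 * (C (b i) + A1_Xv N k i) + s' ^ 2 * ∑ i, A1_Xv N k i ^ 2 *
        (C (b i) + A1_Xv N k i) + s' * ∑ i, A1_Xv N k i ^ 2 * z' i
        = (s' ^ 2 * ∑ i, (C (b i) + A1_Xv N k i) ^ 3 +
          s' * ∑ i, (C (b i) + A1_Xv N k i) ^ 2 * z' i +
          ∑ i, z' i ^ 2 * (C (b i) + A1_Xv N k i)) - s' * ∑ i, C (b i) ^ 2 * z' i := by
      simp only [Finset.mul_sum, ← Finset.sum_add_distrib, ← Finset.sum_sub_distrib]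
      refine Finset.sum_congr rfl (fun i _ => ?_)
      have h3 : (2 : MvPolynomial (Fin N) k) = 0 := by
        have := h2' 1
        rw [← this]; norm_num
      simp only [hx]
      linear_combination (s' * z' i * C (b i) * (C (b i) + A1_Xv N k i)
        - s' ^ 2 * C (b i) * A1_Xv N k i * (C (b i) + A1_Xv N k i)
        - s' * C (b i) * A1_Xv N k i * z' i) * h3
    rw [h1, hE, hbz, mul_zero, sub_zero]
  have hmain : ∀ ρ : ℕ, ∀ d : Fin N →₀ ℕ, d.degree = ρ → ∀ i, coeff d (x i) = 0 := by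
    intro ρ
    induction ρ using Nat.strong_induction_on with
    | _ ρ ih =>
      have hsp : ∀ d : Fin N →₀ ℕ, d.degree < ρ → coeff d s' = 0 ∧
          (fun i => coeff d (z' i)) = 0 := by
        intro d hd
        refine A1_split W b hb _ _ (hzW d) (fun i => ?_)
        have h1 := ih d.degree hd d rfl i
        rw [hx] at h1
        simp only [coeff_add, A1_coeff_mul_C] at h1
        exact h1
      refine A1_step h2 b hb0 s' z' x ρ (fun d hd => (hsp d hd).1)
        (fun i d hd => congrFun (hsp d hd).2 i) hE2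
  have hall : ∀ d : Fin N →₀ ℕ, coeff d s' = 0 ∧ (fun i => coeff d (z' i)) = 0 := by
    intro d
    refine A1_split W b hb _ _ (hzW d) (fun i => ?_)
    have h1 := hmain d.degree d rfl i
    rw [hx] at h1
    simp only [coeff_add, A1_coeff_mul_C] at h1
    exact h1
  have hs0 : s' = 0 := by
    ext d; rw [(hall d).1, coeff_zero]
  have hz0 : ∀ i, z' i = 0 := by
    intro i
    ext d
    rw [coeff_zero]
    exact congrFun (hall d).2 i
  refine ⟨?_, fun i => ?_⟩
  · rw [← A1_TT h2 b s, ← hs', hs0, map_zero]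
  · rw [← A1_TT h2 b (z i)]
    have := hz0 i
    rw [hz'] at this
    simp only at this
    rw [this, map_zero]

end Pool.Agent.Lib.MP_2619d0_ag.T
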