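import Pool.Agent.Lib.MP_2619d0_ag.T.Defs

/-!
Row A2: reduction of a subspace modulo a valuation ring.
-/

set_option autoImplicit false

namespace Pool.Agent.Lib.MP_2619d0_ag.T

open MvPolynomial

variable {K : Type*} [Field K]

/-- the reduction of a subspace of `K^n` modulo a valuation ring -/
noncomputable def redSub (V : ValuationSubring K) {n : ℕ} (W : Submodule K (Fin n → K)) :
    Submodule (IsLocalRing.ResidueField V) (Fin n → IsLocalRing.ResidueField V) where
  carrier := {w | ∃ x : Fin n → V, (fun i => (x i : K)) ∈ W ∧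
    w = fun i => IsLocalRing.residue V (x i)}
  zero_mem' := ⟨0, W.zero_mem, by funext i; simp⟩
  add_mem' := by
    rintro _ _ ⟨x, hx, rfl⟩ ⟨y, hy, rfl⟩
    exact ⟨x + y, W.add_mem hx hy, by funext i; simp⟩
  smul_mem' := by
    rintro a _ ⟨x, hx, rfl⟩
    obtain ⟨a, rfl⟩ := IsLocalRing.residue_surjective a
    exact ⟨fun i => a * x i, W.smul_mem (a : K) hx, by funext i; simp⟩

/-- Vectors `w_1, …, w_r` of the reduction that are linearly independent lift to vectors `x_j` of `W`
with entries in `V`; they are linearly independent over `K`: divide a nontrivial relation by its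
coefficient of largest valuation (`exists_scale` in `Specialize.lean`) and reduce. -/
theorem finrank_redSub_le (V : ValuationSubring K) {n : ℕ} (W : Submodule K (Fin n → K)) :
    Module.finrank (IsLocalRing.ResidueField V) (redSub V W) ≤ Module.finrank K W := by
  classical
  set r := Module.finrank (IsLocalRing.ResidueField V) (redSub V W) with hr
  have b := Module.finBasis (IsLocalRing.ResidueField V) (redSub V W)
  choose x hxW hxb using fun j => (b j).2
  have hli : LinearIndependent K (fun j => (⟨fun i => (x j i : K), hxW j⟩ : W)) := by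
    rw [Fintype.linearIndependent_iff]
    intro g hg
    by_contra hcon
    push Not at hcon
    obtain ⟨j₀, hj₀⟩ := hcon
    obtain ⟨c, hc, hc0, hcV⟩ := exists_scale V (Finset.univ.image g)
      ⟨g j₀, Finset.mem_image_of_mem g (Finset.mem_univ j₀), hj₀⟩
    obtain ⟨j₁, _, hj₁⟩ := Finset.mem_image.1 hc
    have hmem : ∀ j, c⁻¹ * g j ∈ V := fun j =>
      hcV _ (Finset.mem_image_of_mem g (Finset.mem_univ j))
    have hsum : ∀ i, ∑ j, (⟨c⁻¹ * g j, hmem j⟩ : V) * x j i = 0 := by
      intro i
      apply Subtype.val_injective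
      have h1 := congrFun (congrArg Subtype.val hg) i
      push_cast
      have h2 : (∑ j, g j * (x j i : K)) = 0 := by
        have h0 : ((0 : W) : Fin n → K) i = 0 := rfl
        rw [← h0, ← h1]
        simp [Finset.sum_apply]
      calc ∑ j, c⁻¹ * g j * (x j i : K) = c⁻¹ * ∑ j, g j * (x j i : K) := by
            rw [Finset.mul_sum]
            exact Finset.sum_congr rfl fun j _ => by ring
        _ = 0 := by rw [h2, mul_zero]
    have hres : ∑ j, IsLocalRing.residue V (⟨c⁻¹ * g j, hmem j⟩ : V) • b j = 0 := by
      apply Subtype.val_injective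
      rw [Submodule.coe_sum]
      funext i
      rw [Finset.sum_apply]
      have h3 : ∀ j, ((IsLocalRing.residue V (⟨c⁻¹ * g j, hmem j⟩ : V) • b j : redSub V W) :
          Fin n → IsLocalRing.ResidueField V) i =
          IsLocalRing.residue V ((⟨c⁻¹ * g j, hmem j⟩ : V) * x j i) := by
        intro j
        rw [Submodule.coe_smul, Pi.smul_apply, hxb j, smul_eq_mul, map_mul]
      rw [Finset.sum_congr rfl fun j _ => h3 j, ← map_sum, hsum i, map_zero]
      rfl
    have h4 := Fintype.linearIndependent_iff.1 b.linearIndependent _ hres j₁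
    have h5 : (⟨c⁻¹ * g j₁, hmem j₁⟩ : V) = 1 := by
      apply Subtype.val_injective
      change c⁻¹ * g j₁ = 1
      rw [hj₁, inv_mul_cancel₀ hc0]
    rw [h5, map_one] at h4
    exact one_ne_zero h4
  have h := hli.fintype_card_le_finrank
  rwa [Fintype.card_fin] at h

end Pool.Agent.Lib.MP_2619d0_ag.T
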