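import Mathlib

/-!
Row A3: a vector orthogonal to `W` for the semilinear form `∑ b_i² w_i`.
-/

set_option autoImplicit false

namespace Pool.Agent.Lib.MP_2619d0_ag.T

/-- the orthogonal space has dimension at least `n - dim W` -/
theorem A3_orth {k : Type*} [Field k] {n : ℕ} (W : Submodule k (Fin n → k)) :
    ∃ S : Submodule k (Fin n → k), n ≤ Module.finrank k S + Module.finrank k W ∧
      ∀ c ∈ S, ∀ w ∈ W, ∑ i, c i * w i = 0 := by
  let f : (Fin n → k) →ₗ[k] (W →ₗ[k] k) :=
    { toFun := fun c =>
        { toFun := fun w => ∑ i, c i * (w : Fin n → k) i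
          map_add' := by
            intro x y
            simp only [Submodule.coe_add, Pi.add_apply, mul_add, Finset.sum_add_distrib]
          map_smul' := by
            intro r x
            simp only [Submodule.coe_smul, Pi.smul_apply, smul_eq_mul, RingHom.id_apply,
              Finset.mul_sum]
            exact Finset.sum_congr rfl fun i _ => by ring }
      map_add' := by
        intro x y
        ext w
        simp [add_mul, Finset.sum_add_distrib]
      map_smul' := by
        intro r x
        ext w
        simp [Finset.mul_sum, mul_assoc] }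
  refine ⟨LinearMap.ker f, ?_, ?_⟩
  · have h1 := LinearMap.finrank_range_add_finrank_ker f
    have h2 : Module.finrank k (LinearMap.range f) ≤ Module.finrank k (W →ₗ[k] k) :=
      Submodule.finrank_le _
    have h3 : Module.finrank k (W →ₗ[k] k) = Module.finrank k W := Subspace.dual_finrank_eq
    have h4 : Module.finrank k (Fin n → k) = n := by simp
    omega
  · intro c hc w hw
    have := LinearMap.congr_fun (LinearMap.mem_ker.1 hc) ⟨w, hw⟩
    simpa [f] using this

/-- `S = {c | ∀ w ∈ W, ∑ c_i w_i = 0}` has dimension `N + 1 - dim W > dim W`. Since squaring is additive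
and bijective on `k` (characteristic 2, square roots exist), `B = {b | (b_i²)_i ∈ S}` is a subspace of
the same dimension (if `c_j` is a basis of `S` and `b_j² = c_j` coordinatewise then the `b_j` are
linearly independent: `∑ λ_j b_j = 0` gives `∑ λ_j² c_j = 0`). So `B ⊄ W`. Also `B ⊄ {b | b 0 = 0}`:
otherwise `c 0 = 0` for all `c ∈ S`, so `e_0 = (1, 0, …, 0) ∈ W` (double orthogonal). A subspace that
is contained in neither of two subspaces is not contained in their union. Scale to `b 0 = 1`. -/
theorem exists_b {k : Type*} [Field k] (h2 : (2 : k) = 0) (hsq : ∀ a : k, ∃ b, b ^ 2 = a) {N : ℕ}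
    (W : Submodule k (Fin (N + 1) → k)) (hW : 2 * Module.finrank k W < N + 1)
    (he : (Pi.single 0 1 : Fin (N + 1) → k) ∉ W) :
    ∃ b : Fin (N + 1) → k, b ∉ W ∧ b 0 = 1 ∧ ∀ w ∈ W, ∑ i, b i ^ 2 * w i = 0 := by
  classical
  have : CharP k 2 := CharTwo.of_one_ne_zero_of_two_eq_zero one_ne_zero h2
  have : ExpChar k 2 := ExpChar.prime Nat.prime_two
  choose r hr using hsq
  -- B1 : an element of B outside W
  have hB1 : ∃ b : Fin (N + 1) → k, b ∉ W ∧ ∀ w ∈ W, ∑ i, b i ^ 2 * w i = 0 := by
    by_contra hcon
    push Not at hcon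
    obtain ⟨S, hS, hSo⟩ := A3_orth W
    let e := Module.finBasis k S
    let b : Fin (Module.finrank k S) → (Fin (N + 1) → k) := fun j i => r ((e j : Fin (N + 1) → k) i)
    have hb : ∀ j i, b j i ^ 2 = (e j : Fin (N + 1) → k) i := fun j i => hr _
    have hbW : ∀ j, b j ∈ W := by
      intro j
      by_contra hj
      obtain ⟨w, hw, hne⟩ := hcon (b j) hj
      apply hne
      have := hSo (e j) (e j).2 w hw
      rw [← this]
      exact Finset.sum_congr rfl fun i _ => by rw [hb]
    have hli : LinearIndependent k (fun j => (⟨b j, hbW j⟩ : W)) := by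
      rw [Fintype.linearIndependent_iff]
      intro g hg
      have hg' : ∀ i, ∑ j, g j * b j i = 0 := by
        intro i
        have := congrArg (fun x : W => (x : Fin (N + 1) → k) i) hg
        simpa [Finset.sum_apply] using this
      have hg2 : ∑ j, (g j ^ 2) • (e j) = 0 := by
        apply Subtype.ext
        funext i
        have h : (∑ j, g j * b j i) ^ 2 = 0 ^ 2 := congrArg (fun x => x ^ 2) (hg' i)
        rw [show (∑ j, g j * b j i) ^ 2 = ∑ j, (g j * b j i) ^ 2 from sum_pow_char 2 _ _] at h
        have h' : ∑ j, g j ^ 2 * (e j : Fin (N + 1) → k) i = 0 := by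
          rw [← Finset.sum_congr rfl (fun j _ => by rw [mul_pow, hb] : ∀ j ∈ Finset.univ,
            (g j * b j i) ^ 2 = g j ^ 2 * (e j : Fin (N + 1) → k) i)]
          rw [h]; ring
        simpa [Finset.sum_apply] using h'
      intro j
      have := Fintype.linearIndependent_iff.1 e.linearIndependent (fun j => g j ^ 2) hg2 j
      exact pow_eq_zero_iff (two_ne_zero) |>.1 this
    have hcard := hli.fintype_card_le_finrank
    rw [Fintype.card_fin] at hcard
    omega
  -- B2 : an element of B with nonzero zeroth coordinate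
  have hB2 : ∃ b : Fin (N + 1) → k, b 0 ≠ 0 ∧ ∀ w ∈ W, ∑ i, b i ^ 2 * w i = 0 := by
    obtain ⟨f, hf0, hfW⟩ := Submodule.exists_le_ker_of_notMem he
    refine ⟨fun i => r (f (Pi.single i 1)), ?_, ?_⟩
    · intro h0
      have := hr (f (Pi.single (0 : Fin (N + 1)) 1))
      simp only at h0
      rw [h0] at this
      apply hf0
      rw [← this]; ring
    · intro w hw
      have h1 : f w = 0 := hfW hw
      have h2 : w = ∑ i, w i • (Pi.single i (1 : k) : Fin (N + 1) → k) := by
        funext j
        simp [Finset.sum_apply, Pi.single_apply]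
      rw [h2, map_sum] at h1
      rw [← h1]
      refine Finset.sum_congr rfl fun i _ => ?_
      rw [map_smul, smul_eq_mul, hr]; ring
  have key : ∃ b : Fin (N + 1) → k, b ∉ W ∧ b 0 ≠ 0 ∧ ∀ w ∈ W, ∑ i, b i ^ 2 * w i = 0 := by
    obtain ⟨b1, h1W, h1⟩ := hB1
    obtain ⟨b2, h20, h2⟩ := hB2
    by_cases hb10 : b1 0 = 0
    · by_cases hb2W : b2 ∈ W
      · refine ⟨b1 + b2, ?_, ?_, ?_⟩
        · intro h
          exact h1W (by simpa using W.sub_mem h hb2W)
        · simpa [hb10] using h20
        · intro w hw
          have : ∀ i, (b1 + b2) i ^ 2 * w i = b1 i ^ 2 * w i + b2 i ^ 2 * w i := by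
            intro i
            rw [Pi.add_apply, add_pow_char (R := k) (p := 2), add_mul]
          rw [Finset.sum_congr rfl fun i _ => this i, Finset.sum_add_distrib, h1 w hw, h2 w hw,
            add_zero]
      · exact ⟨b2, hb2W, h20, h2⟩
    · exact ⟨b1, h1W, hb10, h1⟩
  obtain ⟨b, hbW, hb0, hb⟩ := key
  refine ⟨(b 0)⁻¹ • b, ?_, ?_, ?_⟩
  · intro h
    apply hbW
    have := W.smul_mem (b 0) h
    rwa [smul_smul, mul_inv_cancel₀ hb0, one_smul] at this
  · simp [hb0]
  · intro w hw
    have : ∀ i, ((b 0)⁻¹ • b) i ^ 2 * w i = (b 0)⁻¹ ^ 2 * (b i ^ 2 * w i) := by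
      intro i
      simp only [Pi.smul_apply, smul_eq_mul]; ring
    rw [Finset.sum_congr rfl fun i _ => this i, ← Finset.mul_sum, hb w hw, mul_zero]

end Pool.Agent.Lib.MP_2619d0_ag.T
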