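import Pool.Agent.Lib.MP_2619d0_ag.T.Defs

/-!
Row V1: a 2-adic place at which `F` becomes the Fermat cubic.
-/

set_option autoImplicit false

namespace Pool.Agent.Lib.MP_2619d0_ag.T

open MvPolynomial

/-- A specialisation of algebraically independent elements to `ZMod 2` extends to a place. -/
theorem V1_exists_valuation {𝕂 : Type*} [Field 𝕂] {J : Type*} (a : J → 𝕂)
    (ha : AlgebraicIndependent ℤ a) (a0 : J → ZMod 2) :
    ∃ (V : ValuationSubring 𝕂) (α : MvPolynomial J ℤ →+* V),
      (∀ p, (α p : 𝕂) = aeval a p) ∧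
      (∀ p, IsLocalRing.residue V (α p) = 0 ↔ eval₂Hom (Int.castRingHom (ZMod 2)) a0 p = 0) := by
  classical
  set φ : MvPolynomial J ℤ →+* 𝕂 := (aeval a : MvPolynomial J ℤ →ₐ[ℤ] 𝕂).toRingHom with hφ
  have hφinj : Function.Injective φ := ha
  set B : Subring 𝕂 := φ.range with hB
  set e : MvPolynomial J ℤ ≃+* B := RingEquiv.ofBijective φ.rangeRestrict
    ⟨fun x y h => hφinj (congrArg Subtype.val h), φ.rangeRestrict_surjective⟩ with he
  have he_apply : ∀ p, ((e p : B) : 𝕂) = aeval a p := fun p => rfl
  set ε : B →+* ZMod 2 := (eval₂Hom (Int.castRingHom (ZMod 2)) a0).comp e.symm.toRingHom with hε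
  have hε_apply : ∀ p, ε (e p) = eval₂Hom (Int.castRingHom (ZMod 2)) a0 p := by
    intro p
    simp [hε]
  have : Fact (Nat.Prime 2) := ⟨Nat.prime_two⟩
  set P : Ideal B := RingHom.ker ε with hP
  have : P.IsPrime := RingHom.ker_isPrime ε
  obtain ⟨V, hV, hVloc⟩ := LocalSubring.exists_le_valuationSubring (LocalSubring.ofPrime B P)
  set ι : (LocalSubring.ofPrime B P).toSubring →+* V.toLocalSubring.toSubring :=
    Subring.inclusion hV with hι
  set α' : MvPolynomial J ℤ →+* V.toLocalSubring.toSubring :=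
    ι.comp ((algebraMap B (LocalSubring.ofPrime B P).toSubring).comp e.toRingHom) with hα'
  have hα'_apply : ∀ p, ((α' p : V.toLocalSubring.toSubring) : 𝕂) = aeval a p := by
    intro p
    rfl
  have hunit : ∀ p, IsUnit (α' p) ↔ eval₂Hom (Int.castRingHom (ZMod 2)) a0 p ≠ 0 := by
    intro p
    have h1 : IsUnit (α' p) ↔
        IsUnit (algebraMap B (LocalSubring.ofPrime B P).toSubring (e p)) := by
      constructor
      · intro h
        exact hVloc.map_nonunit _ h
      · intro h
        exact h.map ι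
    rw [h1, IsLocalization.AtPrime.isUnit_to_map_iff (LocalSubring.ofPrime B P).toSubring P]
    rw [Ideal.mem_primeCompl_iff, hP, RingHom.mem_ker, hε_apply]
  refine ⟨V, α', hα'_apply, fun p => ?_⟩
  rw [IsLocalRing.residue_eq_zero_iff, IsLocalRing.mem_maximalIdeal, mem_nonunits_iff]
  have := hunit p
  constructor
  · intro h
    by_contra h2
    exact h (this.mpr h2)
  · intro h h2
    exact (this.mp h2) h

theorem V1_sum_single {n : ℕ} (i j k l : Fin n)
    (h : (Finsupp.single i 1 + Finsupp.single j 1 + Finsupp.single k 1 : Fin n →₀ ℕ) =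
      Finsupp.single l 3) : i = j ∧ j = k := by
  classical
  have h1 : ∀ m, (if i = m then 1 else 0) + (if j = m then 1 else 0) + (if k = m then 1 else 0) =
      (if l = m then 3 else 0) := by
    intro m
    have := DFunLike.congr_fun h m
    simpa [Finsupp.single_apply] using this
  have h2 := h1 l
  rw [if_pos rfl] at h2
  by_cases hi : i = l <;> by_cases hj : j = l <;> by_cases hk : k = l <;>
    simp_all

/-- As in `exists_valuation` (file `Valuation.lean`) with `ℤ` and `ZMod 2` instead of `ℚ`: the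
subring `B` of `ℂ` generated by the coefficients `a_j = coeff j.1 F`, `j : Exp3 n`, is isomorphic to
`MvPolynomial (Exp3 n) ℤ` (algebraic independence over `ℚ` implies independence over `ℤ`); let
`ε : B → ZMod 2` send `a_j` to `1` if `j.1 = single i 3` for some `i` and to `0` otherwise; `P = ker ε`
is prime; `LocalSubring.exists_le_valuationSubring (LocalSubring.ofPrime B P)` gives `V`. An element
of `B` is a unit of `V` iff it is not in `P`; in particular `2` is not a unit, `a_j - 1` resp. `a_j`
are not units. `cub F i j k` is `0` or a coefficient; `single i 1 + single j 1 + single k 1` is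
`single l 3` iff `i = j = k = l`. -/
theorem exists_V {n : ℕ} {F : MvPolynomial (Fin n) ℂ} (hF : VG F) :
    ∃ (V : ValuationSubring ℂ) (cV : Fin n → Fin n → Fin n → V),
      (∀ i j k, (cV i j k : ℂ) = cub F i j k) ∧
      (∀ i j k, IsLocalRing.residue V (cV i j k) = if i = j ∧ j = k then 1 else 0) ∧
      (2 : IsLocalRing.ResidueField V) = 0 := by
  classical
  have ha : AlgebraicIndependent ℤ (fun j : Exp3 n => coeff j.1 F) :=
    hF.2.restrictScalars (R := ℤ) (K := ℚ) (by
      intro x y hxy
      simpa using hxy)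
  obtain ⟨V, α, hα1, hα2⟩ := V1_exists_valuation (fun j : Exp3 n => coeff j.1 F) ha
    (fun j => if ∃ i, j.1 = Finsupp.single i 3 then 1 else 0)
  have hdeg : ∀ i j k : Fin n, (Finsupp.single i 1 + Finsupp.single j 1 +
      Finsupp.single k 1 : Fin n →₀ ℕ).degree = 3 := by
    intro i j k
    simp [map_add]
  refine ⟨V, fun i j k => if i ≤ j ∧ j ≤ k then
      α (X (⟨Finsupp.single i 1 + Finsupp.single j 1 + Finsupp.single k 1, hdeg i j k⟩ : Exp3 n))
      else 0, ?_, ?_, ?_⟩
  · intro i j k
    unfold cub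
    beta_reduce
    by_cases h : i ≤ j ∧ j ≤ k
    · rw [if_pos h, if_pos h, hα1, aeval_X]
    · rw [if_neg h, if_neg h]
      rfl
  · intro i j k
    beta_reduce
    by_cases h : i ≤ j ∧ j ≤ k
    · rw [if_pos h]
      by_cases h2 : i = j ∧ j = k
      · -- all equal
        rw [if_pos h2]
        obtain ⟨rfl, rfl⟩ := h2
        have h3 : IsLocalRing.residue V (α (X (⟨Finsupp.single i 1 + Finsupp.single i 1 +
            Finsupp.single i 1, hdeg i i i⟩ : Exp3 n) - 1)) = 0 := by
          rw [hα2, map_sub, map_one, coe_eval₂Hom, eval₂_X, if_pos, sub_self]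
          refine ⟨i, ?_⟩
          change (Finsupp.single i 1 + Finsupp.single i 1 + Finsupp.single i 1 : Fin n →₀ ℕ) = _
          rw [← Finsupp.single_add, ← Finsupp.single_add]
        rw [map_sub, map_sub, map_one, map_one, sub_eq_zero] at h3
        exact h3
      · rw [if_neg h2, hα2, coe_eval₂Hom, eval₂_X, if_neg]
        rintro ⟨l, hl⟩
        exact h2 (V1_sum_single i j k l hl)
    · rw [if_neg h, if_neg, map_zero]
      rintro ⟨rfl, rfl⟩
      exact h ⟨le_refl _, le_refl _⟩
  · have h3 : IsLocalRing.residue V (α 2) = 0 := by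
      rw [hα2]
      rw [map_ofNat]
      rfl
    rw [map_ofNat, map_ofNat] at h3
    exact h3

/-- Square roots exist in the residue field of a valuation ring of `ℂ`: lift `a`, take a square
root in `ℂ` (`IsAlgClosed.exists_pow_nat_eq` or `IsSquare`), it is in `V` (if `b ^ 2 ∈ V` then
`b ∈ V`: otherwise `b⁻¹ ∈ V` is a nonunit and `b = b ^ 2 * b⁻¹ ∈ V`). -/
theorem residue_sqrt (V : ValuationSubring ℂ) (a : IsLocalRing.ResidueField V) :
    ∃ b, b ^ 2 = a := by
  obtain ⟨a', rfl⟩ := IsLocalRing.residue_surjective a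
  obtain ⟨b, hb⟩ := IsAlgClosed.exists_pow_nat_eq (a' : ℂ) (n := 2) (by norm_num)
  have hbV : b ∈ V := by
    rcases V.mem_or_inv_mem b with h | h
    · exact h
    · by_cases hb0 : b = 0
      · rw [hb0]
        exact V.zero_mem
      · have h2 : b = b ^ 2 * b⁻¹ := by
          field_simp
        rw [h2, hb]
        exact V.mul_mem _ _ a'.2 h
  refine ⟨IsLocalRing.residue V ⟨b, hbV⟩, ?_⟩
  rw [← map_pow]
  congr 1
  apply Subtype.ext
  change b ^ 2 = _
  exact hb

end Pool.Agent.Lib.MP_2619d0_ag.T
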