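import Pool.Agent.Lib.MP_2619d0_ag.T.B1
import Pool.Agent.Lib.MP_2619d0_ag.T.V1
import Pool.Agent.Lib.MP_2619d0_ag.T.A1
import Pool.Agent.Lib.MP_2619d0_ag.T.A2
import Pool.Agent.Lib.MP_2619d0_ag.T.A3

/-!
Row A4: anisotropy over the polynomial ring `ℂ[X_0, …, X_{N-1}]`.
-/

set_option autoImplicit false

namespace Pool.Agent.Lib.MP_2619d0_ag.T

open MvPolynomial

/-- divide by a coefficient of largest valuation and lift -/
theorem A4_lift (V : ValuationSubring ℂ) {N : ℕ} {ι : Type*} [Fintype ι]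
    (t : ι → MvPolynomial (Fin N) ℂ) (ht : ∃ i, t i ≠ 0) :
    ∃ (c : ℂ) (T : ι → MvPolynomial (Fin N) V), (∀ i, map V.subtype (T i) = C c * t i) ∧
      ∃ i, map (IsLocalRing.residue V) (T i) ≠ 0 := by
  classical
  set S : Finset ℂ := Finset.univ.biUnion (fun i => (t i).coeffs) with hS
  have hSne : ∃ a ∈ S, a ≠ 0 := by
    obtain ⟨i, hi⟩ := ht
    obtain ⟨d, hd⟩ := MvPolynomial.ne_zero_iff.mp hi
    refine ⟨coeff d (t i), ?_, hd⟩
    rw [hS, Finset.mem_biUnion]
    exact ⟨i, Finset.mem_univ _, coeff_mem_coeffs d hd⟩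
  obtain ⟨c, hcS, hc0, hcV⟩ := exists_scale V S hSne
  have hlift : ∀ i, ∃ s : MvPolynomial (Fin N) V, map V.subtype s = C c⁻¹ * t i := by
    intro i
    have : C c⁻¹ * t i ∈ Set.range (MvPolynomial.map V.subtype) := by
      rw [mem_range_map_iff_coeffs_subset]
      intro x hx
      have hx' : x ∈ (C c⁻¹ * t i).coeffs := hx
      rw [mem_coeffs_iff] at hx'
      obtain ⟨d, hd, rfl⟩ := hx'
      rw [coeff_C_mul]
      have hd' : coeff d (t i) ≠ 0 := by
        intro h0
        rw [mem_support_iff, coeff_C_mul, h0, mul_zero] at hd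
        exact hd rfl
      have hmem : c⁻¹ * coeff d (t i) ∈ V := hcV _ (by
        rw [hS, Finset.mem_biUnion]
        exact ⟨i, Finset.mem_univ _, coeff_mem_coeffs d hd'⟩)
      exact ⟨⟨_, hmem⟩, rfl⟩
    exact this
  choose T hT using hlift
  refine ⟨c⁻¹, T, hT, ?_⟩
  rw [hS, Finset.mem_biUnion] at hcS
  obtain ⟨i, -, hci⟩ := hcS
  rw [mem_coeffs_iff] at hci
  obtain ⟨d, hd, hcd⟩ := hci
  refine ⟨i, fun hz => ?_⟩
  have hcoef : coeff d (T i) = 1 := by
    have h1 := congrArg (coeff d) (hT i)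
    rw [coeff_map, coeff_C_mul, ← hcd, inv_mul_cancel₀ hc0] at h1
    exact V.subtype_injective (by rw [h1, map_one])
  have h6 := congrArg (coeff d) hz
  rw [coeff_map, hcoef, map_one, coeff_zero] at h6
  exact one_ne_zero h6

theorem A4_gv {R S : Type*} [CommRing R] [CommRing S] (φ : R →+* S) (N : ℕ) :
    (fun i => map φ (gv N R i)) = gv N S := by
  funext i
  refine Fin.cases ?_ (fun j => ?_) i
  · simp [gv]
  · simp [gv]

/-- the Fermat coefficients -/
theorem A4_Fc {ι R : Type*} [Fintype ι] [DecidableEq ι] [CommRing R] (c : ι → ι → ι → R)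
    (hc : ∀ i j k, c i j k = if i = j ∧ j = k then 1 else 0) (x : ι → R) :
    Fc c x = ∑ i, x i ^ 3 := by
  rw [Fc]
  refine Finset.sum_congr rfl fun i _ => ?_
  rw [Finset.sum_eq_single i]
  · rw [Finset.sum_eq_single i]
    · rw [hc, if_pos ⟨rfl, rfl⟩]
      ring
    · intro k _ hk
      rw [hc, if_neg (fun h => hk h.2.symm), zero_mul]
    · intro h
      exact absurd (Finset.mem_univ _) h
  · intro j _ hj
    refine Finset.sum_eq_zero fun k _ => ?_
    rw [hc, if_neg (fun h => hj h.1.symm), zero_mul]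
  · intro h
    exact absurd (Finset.mem_univ _) h

theorem A4_Dc {ι R : Type*} [Fintype ι] [DecidableEq ι] [CommRing R] (h2 : (2 : R) = 0)
    (c : ι → ι → ι → R) (hc : ∀ i j k, c i j k = if i = j ∧ j = k then 1 else 0) (x y : ι → R) :
    Dc c x y = ∑ i, x i ^ 2 * y i := by
  have h3 : (3 : R) = 1 := by
    have : (3 : R) = 2 + 1 := by norm_num
    rw [this, h2, zero_add]
  rw [Dc]
  refine Finset.sum_congr rfl fun i _ => ?_
  rw [Finset.sum_eq_single i]
  · rw [Finset.sum_eq_single i]
    · rw [hc, if_pos ⟨rfl, rfl⟩]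
      calc 1 * (y i * x i * x i + x i * y i * x i + x i * x i * y i)
          = 3 * (x i ^ 2 * y i) := by ring
        _ = x i ^ 2 * y i := by rw [h3, one_mul]
    · intro k _ hk
      rw [hc, if_neg (fun h => hk h.2.symm), zero_mul]
    · intro h
      exact absurd (Finset.mem_univ _) h
  · intro j _ hj
    refine Finset.sum_eq_zero fun k _ => ?_
    rw [hc, if_neg (fun h => hj h.1.symm), zero_mul]
  · intro h
    exact absurd (Finset.mem_univ _) h

section

variable {N : ℕ} {F : MvPolynomial (Fin (N + 1)) ℂ} {V : ValuationSubring ℂ}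
  {cV : Fin (N + 1) → Fin (N + 1) → Fin (N + 1) → V}

theorem A4_cm (hcV : ∀ i j k, (cV i j k : ℂ) = cub F i j k) :
    (cm C (cub F) : Fin (N + 1) → Fin (N + 1) → Fin (N + 1) → MvPolynomial (Fin N) ℂ) =
      cm (map V.subtype) (cm C cV) := by
  funext i j k
  simp only [cm, map_C]
  rw [← hcV]
  rfl

theorem A4_res (hres : ∀ i j k, IsLocalRing.residue V (cV i j k) = if i = j ∧ j = k then 1 else 0) :
    ∀ i j k, (cm (map (IsLocalRing.residue V)) (cm C cV) :
      Fin (N + 1) → Fin (N + 1) → Fin (N + 1) → MvPolynomial (Fin N) _) i j k =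
      if i = j ∧ j = k then 1 else 0 := by
  intro i j k
  simp only [cm, map_C, hres]
  split_ifs <;> simp

end

/-- Take `V, cV` from `exists_V`, residue field `κ` (characteristic 2). Suppose `(s, z) ≠ 0`. Divide
`(s, z)` by a coefficient of largest valuation (`exists_scale` in `Specialize.lean`, all coefficients
of `s` and of the `z i`; compare `exists_lift` there): the equation is homogeneous of degree two in
`(s, z)` (`Dc_smul_right`, `Dc_smul_left`), so we may assume that all coefficients are in `V` and one of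
them is `1`; reduce modulo the maximal ideal: `(s̄, z̄) ≠ 0`. The coefficient vectors of `z̄` are in
`redSub V W`. `D(u; z)` reduces to `∑ u_i² z̄_i` (for the Fermat coefficients `Dc c x y = 3 ∑ x_i² y_i`
and `3 = 1`), `D(z; u)` to `∑ z̄_i² u_i`, `F(u)` to `∑ u_i³`. `2 finrank (redSub V W) < N + 1` by
`finrank_redSub_le`; `e_0 ∉ redSub V W`: if `x ∈ W` has entries in `V` and reduces to `e_0` then
`0 = F(x)` reduces to `1`. So `exists_b` (with `residue_sqrt`) and `aniso_char2` give a
contradiction. -/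
theorem aniso_poly {N : ℕ} {F : MvPolynomial (Fin (N + 1)) ℂ} (hF : VG F)
    (W : Submodule ℂ (Fin (N + 1) → ℂ)) (hW : ∀ w ∈ W, Fc (cub F) w = 0)
    (hW2 : 2 * Module.finrank ℂ W < N + 1) (s : MvPolynomial (Fin N) ℂ)
    (z : Fin (N + 1) → MvPolynomial (Fin N) ℂ) (hz : ∀ d, (fun i => coeff d (z i)) ∈ W)
    (h : s ^ 2 * Fc (cm C (cub F)) (gv N ℂ) + s * Dc (cm C (cub F)) (gv N ℂ) z +
      Dc (cm C (cub F)) z (gv N ℂ) = 0) :
    s = 0 ∧ ∀ i, z i = 0 := by
  classical
  obtain ⟨V, cV, hcV, hres, h2⟩ := exists_V hF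
  by_contra hcon
  have hne : ∃ o : Option (Fin (N + 1)), o.elim s z ≠ 0 := by
    by_contra hall
    push Not at hall
    exact hcon ⟨hall none, fun i => hall (some i)⟩
  obtain ⟨c, T, hT, o, ho⟩ := A4_lift V (fun o : Option (Fin (N + 1)) => o.elim s z) hne
  have hTs : map V.subtype (T none) = C c * s := hT none
  have hTz : ∀ i, map V.subtype (T (some i)) = C c * z i := fun i => hT (some i)
  have hTz' : (fun i => map V.subtype (T (some i))) =
      (C c : MvPolynomial (Fin N) ℂ) • z := by
    funext i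
    rw [hTz]
    rfl
  have h2' : (2 : MvPolynomial (Fin N) (IsLocalRing.ResidueField V)) = 0 := by
    have : (2 : MvPolynomial (Fin N) (IsLocalRing.ResidueField V)) =
        C (2 : IsLocalRing.ResidueField V) := (map_ofNat C 2).symm
    rw [this, h2, C_0]
  have e1 : T none ^ 2 * Fc (cm C cV) (gv N V) + T none * Dc (cm C cV) (gv N V)
      (fun i => T (some i)) + Dc (cm C cV) (fun i => T (some i)) (gv N V) = 0 := by
    apply map_injective V.subtype V.subtype_injective
    rw [map_zero, map_add, map_add, map_mul, map_mul, map_pow, ← Fc_cm, ← Dc_cm, ← Dc_cm,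
      A4_gv, ← A4_cm hcV, hTz', hTs, Dc_smul_right, Dc_smul_left]
    calc (C c * s) ^ 2 * Fc (cm C (cub F)) (gv N ℂ) +
          C c * s * (C c * Dc (cm C (cub F)) (gv N ℂ) z) +
          C c ^ 2 * Dc (cm C (cub F)) z (gv N ℂ)
        = C c ^ 2 * (s ^ 2 * Fc (cm C (cub F)) (gv N ℂ) + s * Dc (cm C (cub F)) (gv N ℂ) z +
          Dc (cm C (cub F)) z (gv N ℂ)) := by ring
      _ = 0 := by rw [h, mul_zero]
  have e2 := congrArg (map (IsLocalRing.residue V)) e1
  rw [map_zero, map_add, map_add, map_mul, map_mul, map_pow, ← Fc_cm, ← Dc_cm, ← Dc_cm,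
    A4_gv, A4_Fc _ (A4_res hres), A4_Dc h2' _ (A4_res hres), A4_Dc h2' _ (A4_res hres)] at e2
  have hW' : 2 * Module.finrank (IsLocalRing.ResidueField V) (redSub V W) < N + 1 :=
    lt_of_le_of_lt (Nat.mul_le_mul_left 2 (finrank_redSub_le V W)) hW2
  have he0 : (Pi.single 0 1 : Fin (N + 1) → IsLocalRing.ResidueField V) ∉ redSub V W := by
    rintro ⟨x, hx, hx'⟩
    have h5 := hW _ hx
    have h6 : cub F = cm V.subtype cV := by
      funext i j k
      rw [← hcV]
      rfl
    have h7 : Fc cV x = 0 := by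
      apply V.subtype_injective
      rw [map_zero, ← Fc_cm, ← h6]
      exact h5
    have h8 := congrArg (IsLocalRing.residue V) h7
    have hx'' : ∀ i, IsLocalRing.residue V (x i) =
        (Pi.single 0 1 : Fin (N + 1) → IsLocalRing.ResidueField V) i :=
      fun i => (congrFun hx' i).symm
    rw [map_zero, ← Fc_cm, A4_Fc (cm (IsLocalRing.residue V) cV) hres] at h8
    simp only [hx''] at h8
    rw [Finset.sum_eq_single 0] at h8
    · simp at h8
    · intro i _ hi
      rw [Pi.single_eq_of_ne hi]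
      simp
    · intro hh
      exact absurd (Finset.mem_univ _) hh
  obtain ⟨b, hb, hb0, hbW⟩ := exists_b h2 (residue_sqrt V) (redSub V W) hW' he0
  have hzW : ∀ d, (fun i => coeff d (map (IsLocalRing.residue V) (T (some i)))) ∈
      redSub V W := by
    intro d
    refine ⟨fun i => coeff d (T (some i)), ?_, ?_⟩
    · have h9 : (fun i => ((coeff d (T (some i)) : V) : ℂ)) = c • fun i => coeff d (z i) := by
        funext i
        have h10 := congrArg (coeff d) (hTz i)
        rw [coeff_map, coeff_C_mul] at h10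
        exact h10
      rw [h9]
      exact W.smul_mem c (hz d)
    · funext i
      rw [coeff_map]
  have hfin := aniso_char2 h2 (redSub V W) b hb hb0 hbW (map (IsLocalRing.residue V) (T none))
    (fun i => map (IsLocalRing.residue V) (T (some i))) hzW e2
  cases o with
  | none => exact ho hfin.1
  | some i => exact ho (hfin.2 i)

/-- The same for the polar quadric: `D(z; u) = 0` reduces to `∑ z̄_i² u_i = z̄_0² + ∑ X_i z̄_{i+1}² = 0`,
in characteristic 2 the exponents of `X_i z̄_{i+1}²` are odd exactly at `i` (`coeff_sq_char2`), so all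
`z̄_i` are zero. -/
theorem polar_poly {N : ℕ} {F : MvPolynomial (Fin (N + 1)) ℂ} (hF : VG F)
    (z : Fin (N + 1) → MvPolynomial (Fin N) ℂ)
    (h : Dc (cm C (cub F)) z (gv N ℂ) = 0) : ∀ i, z i = 0 := by
  classical
  obtain ⟨V, cV, hcV, hres, h2⟩ := exists_V hF
  by_contra hcon
  push Not at hcon
  obtain ⟨c, T, hT, o, ho⟩ := A4_lift V z hcon
  have hTz' : (fun i => map V.subtype (T i)) =
      (C c : MvPolynomial (Fin N) ℂ) • z := by
    funext i
    rw [hT]
    rfl
  have h2' : (2 : MvPolynomial (Fin N) (IsLocalRing.ResidueField V)) = 0 := by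
    have : (2 : MvPolynomial (Fin N) (IsLocalRing.ResidueField V)) =
        C (2 : IsLocalRing.ResidueField V) := (map_ofNat C 2).symm
    rw [this, h2, C_0]
  have e1 : Dc (cm C cV) T (gv N V) = 0 := by
    apply map_injective V.subtype V.subtype_injective
    rw [map_zero, ← Dc_cm, A4_gv, ← A4_cm hcV, hTz', Dc_smul_left, h, mul_zero]
  have e2 := congrArg (map (IsLocalRing.residue V)) e1
  rw [map_zero, ← Dc_cm, A4_gv, A4_Dc h2' _ (A4_res hres)] at e2
  set Z := fun i => map (IsLocalRing.residue V) (T i) with hZ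
  rw [Fin.sum_univ_succ] at e2
  simp only [gv, Fin.cons_zero, Fin.cons_succ, mul_one] at e2
  have hd : ∀ (i : Fin N) (p : MvPolynomial (Fin N) (IsLocalRing.ResidueField V)),
      pderiv i (p ^ 2) = 0 := by
    intro i p
    rw [pow_two, Derivation.leibniz]
    simp only [smul_eq_mul]
    rw [← two_mul, h2', zero_mul]
  have hs : ∀ i : Fin N, Z i.succ = 0 := by
    intro i
    have e3 := congrArg (pderiv i) e2
    rw [map_add, hd, map_sum, map_zero, zero_add, Finset.sum_eq_single i] at e3
    · rw [Derivation.leibniz, hd, pderiv_X_self] at e3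
      simp only [smul_eq_mul, mul_zero, mul_one, add_zero] at e3
      exact pow_eq_zero_iff (two_ne_zero) |>.1 e3
    · intro j _ hj
      rw [Derivation.leibniz, hd, pderiv_X_of_ne hj]
      simp
    · intro hh
      exact absurd (Finset.mem_univ _) hh
  have h0 : Z 0 = 0 := by
    have e4 : Z 0 ^ 2 = 0 := by
      have : ∑ i : Fin N, Z i.succ ^ 2 * X i = 0 :=
        Finset.sum_eq_zero fun i _ => by rw [hs i]; ring
      rw [this, add_zero] at e2
      exact e2
    exact pow_eq_zero_iff (two_ne_zero) |>.1 e4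
  refine ho ?_
  change Z o = 0
  refine Fin.cases h0 (fun j => hs j) o

end Pool.Agent.Lib.MP_2619d0_ag.T
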