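import Mathlib

/-!
Row SG2 (MP_2619d0_ag, theorem S_G).
-/

set_option autoImplicit false

namespace Pool.Agent.Lib.MP_2619d0_ag.T

open MvPolynomial

universe u

theorem SG2_aux {k Ω S : Type} [Field k] [IsAlgClosed k] [Field Ω] [CommRing S]
    [IsDedekindDomain S] [Algebra (Polynomial k) S] [Algebra.IsIntegral (Polynomial k) S]
    (hinj : Function.Injective (algebraMap (Polynomial k) S)) (g : S →+* Ω)
    (hg : Function.Injective g) :
    ∃ (A : Type) (_ : CommRing A) (_ : IsDomain A) (_ : IsDiscreteValuationRing A)
      (α : Polynomial k →+* A) (β : A →+* Ω), Function.Injective β ∧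
      (∀ p, β (α p) = g (algebraMap (Polynomial k) S p)) ∧
      α Polynomial.X ∈ IsLocalRing.maximalIdeal A ∧
      (∀ a : A, ∃ c : k, a - α (Polynomial.C c) ∈ IsLocalRing.maximalIdeal A) ∧
      ∀ s : S, ∃ a : A, β a = g s := by
  have hsurj : Function.Surjective (Polynomial.constantCoeff : Polynomial k →+* k) := fun c =>
    ⟨Polynomial.C c, by simp⟩
  have hImax : (RingHom.ker (Polynomial.constantCoeff : Polynomial k →+* k)).IsMaximal :=
    RingHom.ker_isMaximal_of_surjective _ hsurj
  obtain ⟨P, hPmax, hP⟩ := Ideal.exists_ideal_over_maximal_of_isIntegral (S := S)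
    (RingHom.ker (Polynomial.constantCoeff : Polynomial k →+* k)) (by
      rw [(RingHom.injective_iff_ker_eq_bot _).1 hinj]
      exact bot_le)
  have hPp : P.IsPrime := hPmax.isPrime
  have hmem : ∀ p : Polynomial k, p.coeff 0 = 0 → algebraMap (Polynomial k) S p ∈ P := by
    intro p hp
    have h1 : p ∈ RingHom.ker (Polynomial.constantCoeff : Polynomial k →+* k) := by
      rw [RingHom.mem_ker, Polynomial.constantCoeff_apply, hp]
    rw [← hP, Ideal.mem_comap] at h1
    exact h1
  have hXP : algebraMap (Polynomial k) S Polynomial.X ∈ P := hmem _ Polynomial.coeff_X_zero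
  have hPbot : P ≠ ⊥ := by
    intro h
    rw [h, Ideal.mem_bot, map_eq_zero_iff _ hinj] at hXP
    exact Polynomial.X_ne_zero hXP
  have hdom : IsDomain (Localization.AtPrime P) :=
    IsLocalization.isDomain_localization P.primeCompl_le_nonZeroDivisors
  have hdvr : IsDiscreteValuationRing (Localization.AtPrime P) :=
    IsLocalization.AtPrime.isDiscreteValuationRing_of_dedekind_domain S hPbot _
  have hAinj : Function.Injective (algebraMap S (Localization.AtPrime P)) :=
    IsLocalization.injective _ P.primeCompl_le_nonZeroDivisors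
  have hunit : ∀ y : P.primeCompl, IsUnit (g y) := by
    intro y
    refine isUnit_iff_ne_zero.2 fun h => ?_
    rw [map_eq_zero_iff _ hg] at h
    exact y.2 (h ▸ P.zero_mem)
  -- residue field
  have hres : ∀ s : S, ∃ c : k, s - algebraMap (Polynomial k) S (Polynomial.C c) ∈ P := by
    let ψ : k →+* S ⧸ P :=
      ((Ideal.Quotient.mk P).comp (algebraMap (Polynomial k) S)).comp Polynomial.C
    have hψ : ψ.comp (Polynomial.constantCoeff : Polynomial k →+* k) =
        (Ideal.Quotient.mk P).comp (algebraMap (Polynomial k) S) := by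
      refine RingHom.ext fun p => ?_
      change Ideal.Quotient.mk P (algebraMap (Polynomial k) S (Polynomial.C (p.coeff 0))) =
        Ideal.Quotient.mk P (algebraMap (Polynomial k) S p)
      rw [Ideal.Quotient.eq, ← map_sub]
      exact hmem _ (by simp)
    have hint : ψ.IsIntegral := by
      intro x
      obtain ⟨s, rfl⟩ := Ideal.Quotient.mk_surjective x
      obtain ⟨q, hq, hqs⟩ := Algebra.IsIntegral.isIntegral (R := Polynomial k) s
      refine ⟨q.map (Polynomial.constantCoeff : Polynomial k →+* k), hq.map _, ?_⟩
      rw [Polynomial.eval₂_map, hψ, ← Polynomial.hom_eval₂, hqs, map_zero]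
    have hb := IsAlgClosed.ringHom_bijective_of_isIntegral ψ hint
    intro s
    obtain ⟨c, hc⟩ := hb.2 (Ideal.Quotient.mk P s)
    refine ⟨c, ?_⟩
    rw [← Ideal.Quotient.eq]
    exact hc.symm
  refine ⟨Localization.AtPrime P, inferInstance, hdom, hdvr,
    (algebraMap S (Localization.AtPrime P)).comp (algebraMap (Polynomial k) S),
    IsLocalization.lift hunit, ?_, ?_, ?_, ?_, ?_⟩
  · rw [IsLocalization.lift_injective_iff]
    exact fun x y => ⟨fun h => by rw [hAinj h], fun h => by rw [hg h]⟩
  · intro p
    rw [RingHom.comp_apply, IsLocalization.lift_eq]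
  · rw [RingHom.comp_apply]
    exact (IsLocalization.AtPrime.to_map_mem_maximal_iff _ P _).2 hXP
  · intro a
    obtain ⟨⟨s, r⟩, hsr⟩ := IsLocalization.mk'_surjective P.primeCompl a
    obtain ⟨c, hc⟩ := hres s
    obtain ⟨c', hc'⟩ := hres r
    have hc0 : c' ≠ 0 := by
      rintro rfl
      rw [map_zero, map_zero, sub_zero] at hc'
      exact r.2 hc'
    refine ⟨c / c', ?_⟩
    have hra : algebraMap S (Localization.AtPrime P) r * a =
        algebraMap S (Localization.AtPrime P) s := by
      rw [← hsr, mul_comm]
      exact IsLocalization.mk'_spec _ s r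
    have hrn : algebraMap S (Localization.AtPrime P) r ∉
        IsLocalRing.maximalIdeal (Localization.AtPrime P) := by
      rw [IsLocalization.AtPrime.to_map_mem_maximal_iff _ P]
      exact r.2
    have hmul : algebraMap S (Localization.AtPrime P) r *
        (a - (algebraMap S (Localization.AtPrime P)).comp (algebraMap (Polynomial k) S)
          (Polynomial.C (c / c'))) ∈ IsLocalRing.maximalIdeal (Localization.AtPrime P) := by
      rw [mul_sub, hra, RingHom.comp_apply, ← map_mul, ← map_sub,
        IsLocalization.AtPrime.to_map_mem_maximal_iff _ P]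
      have e : s - (r : S) * algebraMap (Polynomial k) S (Polynomial.C (c / c')) =
          (s - algebraMap (Polynomial k) S (Polynomial.C c)) -
          ((r : S) - algebraMap (Polynomial k) S (Polynomial.C c')) *
            algebraMap (Polynomial k) S (Polynomial.C (c / c')) := by
        rw [sub_mul, ← map_mul, ← map_mul, mul_div_cancel₀ c hc0]
        ring
      rw [e]
      exact P.sub_mem hc (P.mul_mem_right _ hc')
    exact ((IsLocalRing.maximalIdeal.isMaximal _).isPrime.mem_or_mem hmul).resolve_left hrn
  · intro s
    exact ⟨algebraMap S (Localization.AtPrime P) s, IsLocalization.lift_eq hunit s⟩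

/-- Let `k` be algebraically closed of characteristic zero, `Ω` algebraic over (the fraction field of)
the polynomial ring `k[X]`, `T` a finite subset of `Ω`. There is a discrete valuation ring `A` between
`k[X]` and `Ω` (maps `α`, `β`) with `X` in the maximal ideal, residue field `k`, whose fraction field
contains `T`.
Proof. Make `Ω` an algebra over `k[X]` (`φ.toAlgebra`) and over `K = FractionRing k[X]`
(`(IsFractionRing.lift hφ).toAlgebra`, `IsScalarTower`). All elements of `Ω` are algebraic over `K`
(`hΩ`), so `K2 = IntermediateField.adjoin K T` is finite over `K` (`IntermediateField.finiteDimensional_adjoin`).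
Let `S = integralClosure k[X] K2`: a Dedekind domain with fraction field `K2`
(`integralClosure.isDedekindDomain`, `integralClosure.isFractionRing_of_finite_extension`; `K2 / K` is
separable in characteristic zero). Let `I = Ideal.span {X}`, a maximal ideal of `k[X]`; choose a maximal
(or prime) ideal `P` of `S` with `P.comap (algebraMap k[X] S) = I`
(`Ideal.exists_ideal_over_maximal_of_isIntegral`, the map `k[X] → S` is injective), `P ≠ ⊥`. Let
`A = Localization.AtPrime P` (`IsLocalization.AtPrime.isDiscreteValuationRing_of_dedekind_domain`),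
`α : k[X] → S → A`, `β : A → K2 → Ω` (`IsLocalization.lift` or `IsLocalization.map`; nonzero elements
of `S` are mapped to units). Residue field: `k → S / P` is bijective: `S / P` is a field (domain), integral over
`k` (an integral equation over `k[X]` of `s ∈ S` reduces modulo `P` to one over `k`), use
`IsAlgClosed.algebraMap_bijective_of_isIntegral`. So for `a = s / r` (`r ∉ P`) choose `c, c'` in `k` with
`s - c ∈ P`, `r - c' ∈ P`, `c' ≠ 0`; then `a - c / c' ∈` maximal ideal. Every `c ∈ T` lies in `K2`, the
fraction field of `S`. -/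
theorem dvr_exists {k Ω : Type} [Field k] [IsAlgClosed k] [CharZero k] [Field Ω]
    (φ : Polynomial k →+* Ω) (hφ : Function.Injective φ)
    (hΩ : ∀ c : Ω, ∃ p : Polynomial (Polynomial k), p ≠ 0 ∧ p.eval₂ φ c = 0) (T : Finset Ω) :
    ∃ (A : Type) (_ : CommRing A) (_ : IsDomain A) (_ : IsDiscreteValuationRing A)
      (α : Polynomial k →+* A) (β : A →+* Ω), Function.Injective β ∧ (∀ p, β (α p) = φ p) ∧
      α Polynomial.X ∈ IsLocalRing.maximalIdeal A ∧
      (∀ a : A, ∃ c : k, a - α (Polynomial.C c) ∈ IsLocalRing.maximalIdeal A) ∧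
      ∀ c ∈ T, ∃ a b : A, β b ≠ 0 ∧ c * β b = β a := by
  classical
  let algΩ : Algebra (Polynomial k) Ω := φ.toAlgebra
  have hinjΩ : Function.Injective (algebraMap (Polynomial k) Ω) := hφ
  let algK : Algebra (FractionRing (Polynomial k)) Ω :=
    (IsFractionRing.lift (K := FractionRing (Polynomial k)) hinjΩ).toAlgebra
  have tower : IsScalarTower (Polynomial k) (FractionRing (Polynomial k)) Ω :=
    IsScalarTower.of_algebraMap_eq fun p => (IsFractionRing.lift_algebraMap hinjΩ p).symm
  have hRK : Function.Injective
      (algebraMap (Polynomial k) (FractionRing (Polynomial k))) :=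
    IsFractionRing.injective _ _
  have halg : ∀ c : Ω, IsAlgebraic (FractionRing (Polynomial k)) c := by
    intro c
    obtain ⟨p, hp, hpc⟩ := hΩ c
    have h1 : IsAlgebraic (Polynomial k) c := ⟨p, hp, hpc⟩
    exact h1.extendScalars hRK
  let K2 : IntermediateField (FractionRing (Polynomial k)) Ω :=
    IntermediateField.adjoin (FractionRing (Polynomial k)) (T : Set Ω)
  have hfin : FiniteDimensional (FractionRing (Polynomial k)) K2 :=
    IntermediateField.finiteDimensional_adjoin fun x _ => (halg x).isIntegral
  have hchar : CharZero (FractionRing (Polynomial k)) :=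
    charZero_of_injective_algebraMap hRK
  have hsep : Algebra.IsSeparable (FractionRing (Polynomial k)) K2 := inferInstance
  have hded : IsDedekindDomain (integralClosure (Polynomial k) K2) :=
    integralClosure.isDedekindDomain (Polynomial k) (FractionRing (Polynomial k)) K2
  have hfrac : IsFractionRing (integralClosure (Polynomial k) K2) K2 :=
    integralClosure.isFractionRing_of_finite_extension (FractionRing (Polynomial k)) K2
  have hinjS : Function.Injective
      (algebraMap (Polynomial k) (integralClosure (Polynomial k) K2)) := by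
    intro a b hab
    have h1 : algebraMap (Polynomial k) Ω a = algebraMap (Polynomial k) Ω b :=
      congrArg (fun z : integralClosure (Polynomial k) K2 => ((z : K2) : Ω)) hab
    exact hinjΩ h1
  obtain ⟨A, i1, i2, i3, α, β, hβ, hαβ, hX, hres, hS⟩ := SG2_aux hinjS
    ((algebraMap K2 Ω).comp (algebraMap (integralClosure (Polynomial k) K2) K2))
    ((algebraMap K2 Ω).injective.comp (IsFractionRing.injective _ _))
  refine ⟨A, i1, i2, i3, α, β, hβ, fun p => hαβ p, hX, hres, ?_⟩
  intro c hc
  have hcK : c ∈ K2 := IntermediateField.subset_adjoin _ _ (Finset.mem_coe.2 hc)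
  obtain ⟨x, y, hy, hxy⟩ := IsFractionRing.div_surjective (integralClosure (Polynomial k) K2)
    (⟨c, hcK⟩ : K2)
  obtain ⟨a, ha⟩ := hS x
  obtain ⟨b, hb⟩ := hS y
  have hy0 : algebraMap (integralClosure (Polynomial k) K2) K2 y ≠ 0 := by
    rw [Ne, map_eq_zero_iff _ (IsFractionRing.injective _ _)]
    exact nonZeroDivisors.ne_zero hy
  refine ⟨a, b, ?_, ?_⟩
  · rw [hb, RingHom.comp_apply, Ne, map_eq_zero]
    exact hy0
  · rw [ha, hb, RingHom.comp_apply, RingHom.comp_apply]
    have h2 : (⟨c, hcK⟩ : K2) * algebraMap (integralClosure (Polynomial k) K2) K2 y =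
        algebraMap (integralClosure (Polynomial k) K2) K2 x := by
      rw [← hxy, div_mul_cancel₀ _ hy0]
    exact congrArg (algebraMap K2 Ω) h2

end Pool.Agent.Lib.MP_2619d0_ag.T
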