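import Mathlib

/-!
Row SG3 (MP_2619d0_ag, theorem S_G).
-/

set_option autoImplicit false

namespace Pool.Agent.Lib.MP_2619d0_ag.T

open MvPolynomial

universe u

/-- every element of the field generated by the image of a ring is a quotient -/
theorem SG3_quot {R : Type} {M : Type u} [CommRing R] [Field M] (ψ : R →+* M) {x : M}
    (hx : x ∈ Subfield.closure (Set.range ψ)) :
    ∃ a b : R, ψ b ≠ 0 ∧ x * ψ b = ψ a := by
  rw [Subfield.mem_closure_iff] at hx
  obtain ⟨y, hy, z, hz, rfl⟩ := hx
  have hr : Subring.closure (Set.range ψ) = ψ.range := by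
    rw [← RingHom.coe_range, Subring.closure_eq]
  rw [hr] at hy hz
  obtain ⟨a, rfl⟩ := hy
  obtain ⟨b, rfl⟩ := hz
  by_cases hb : ψ b = 0
  · exact ⟨0, 1, by simp, by simp [hb]⟩
  · exact ⟨a, b, hb, by field_simp⟩

/-- degree over a subfield which contains the coefficients of the minimal polynomial -/
theorem SG3_deg {M : Type u} [Field M] (E E2 : Subfield M) (hle : E2 ≤ E) (θ : M)
    (hint : IsIntegral E θ) (hco : ∀ n, (((minpoly E θ).coeff n : E) : M) ∈ E2) :
    IsIntegral E2 θ ∧ (minpoly E2 θ).natDegree = (minpoly E θ).natDegree := by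
  have hmem : (minpoly E θ).map (algebraMap E M) ∈ Polynomial.lifts (algebraMap E2 M) := by
    rw [Polynomial.lifts_iff_coeff_lifts]
    intro n
    rw [Polynomial.coeff_map]
    exact ⟨⟨_, hco n⟩, rfl⟩
  obtain ⟨g, hg, hgd, hgm⟩ := Polynomial.lifts_and_natDegree_eq_and_monic hmem
    ((minpoly.monic hint).map _)
  have hroot : Polynomial.aeval θ g = 0 := by
    rw [Polynomial.aeval_def, ← Polynomial.eval_map, hg, Polynomial.eval_map, ← Polynomial.aeval_def,
      minpoly.aeval]
  have hint2 : IsIntegral E2 θ := ⟨g, hgm, hroot⟩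
  refine ⟨hint2, le_antisymm ?_ ?_⟩
  · have h1 := Polynomial.natDegree_le_of_dvd (minpoly.dvd E2 θ hroot) hgm.ne_zero
    rw [hgd, Polynomial.natDegree_map] at h1
    exact h1
  · have h2 : Polynomial.aeval θ ((minpoly E2 θ).map (Subfield.inclusion hle)) = 0 := by
      rw [Polynomial.aeval_def, Polynomial.eval₂_map]
      have h3 : (algebraMap E M).comp (Subfield.inclusion hle) = algebraMap E2 M := rfl
      rw [h3, ← Polynomial.aeval_def, minpoly.aeval]
    have hne : (minpoly E2 θ).map (Subfield.inclusion hle) ≠ 0 :=
      ((minpoly.monic hint2).map _).ne_zero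
    have h1 := Polynomial.natDegree_le_of_dvd (minpoly.dvd E θ h2) hne
    rwa [Polynomial.natDegree_map] at h1

/-- comparison of the degree over the closure computed in a subfield -/
theorem SG3_rank {R0 : Type} {M : Type u} [CommRing R0] [Field M] (φ : R0 →+* M)
    (L : IntermediateField (Subfield.closure (Set.range φ)) M)
    (h : ∀ a, φ a ∈ L.toSubfield) :
    Module.finrank (Subfield.closure (Set.range (φ.codRestrict L.toSubfield h))) L.toSubfield =
      Module.finrank (Subfield.closure (Set.range φ)) L := by
  have h1 : Subfield.closure (Set.range (φ.codRestrict L.toSubfield h)) ≤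
      (Subfield.closure (Set.range φ)).comap L.toSubfield.subtype := by
    rw [Subfield.closure_le]
    rintro _ ⟨a, rfl⟩
    exact Subfield.subset_closure ⟨a, rfl⟩
  have h2 : Subfield.closure (Set.range φ) ≤
      (Subfield.closure (Set.range (φ.codRestrict L.toSubfield h))).map L.toSubfield.subtype := by
    rw [Subfield.closure_le]
    rintro _ ⟨a, rfl⟩
    exact ⟨_, Subfield.subset_closure ⟨a, rfl⟩, rfl⟩
  let i0 : Subfield.closure (Set.range (φ.codRestrict L.toSubfield h)) →+*
      Subfield.closure (Set.range φ) :=
    { toFun := fun k => ⟨((k : L.toSubfield) : M), h1 k.2⟩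
      map_one' := rfl
      map_mul' := fun _ _ => rfl
      map_zero' := rfl
      map_add' := fun _ _ => rfl }
  have hi : Function.Bijective i0 := by
    refine ⟨RingHom.injective i0, ?_⟩
    rintro ⟨y, hy⟩
    obtain ⟨k, hk, hky⟩ := h2 hy
    exact ⟨⟨k, hk⟩, Subtype.ext hky⟩
  let j : L.toSubfield ≃+* L :=
    { toFun := fun x => ⟨x.1, x.2⟩
      invFun := fun x => ⟨x.1, x.2⟩
      left_inv := fun _ => rfl
      right_inv := fun _ => rfl
      map_mul' := fun _ _ => rfl
      map_add' := fun _ _ => rfl }
  exact Algebra.finrank_eq_of_equiv_equiv (RingEquiv.ofBijective i0 hi) j (by ext x; rfl)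

/-- Let `M` be finite over the field `E` generated by the image of `ψ : R → M`, and let `p` be a finite
family in `M`. There is a finite set `T ⊂ R` such that for every ring `β : R0 → R` such that all
`ψ c`, `c ∈ T`, are quotients of elements of the image of `R0`, there is a subfield `M2` of `M`
containing `ψ(β(R0))` and the `p i` whose degree over the field `E2` generated by `ψ(β(R0))` is the degree
of `M` over `E`.
Proof. `E = Subfield.closure (range ψ)`, `M / E` is finite (`Module.finite_of_finrank_pos`) and
separable (`CharZero`); choose a primitive element `θ` (`Field.exists_primitive_element E M`), `f` its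
minimal polynomial over `E` (of degree `n = finrank E M`). Every element of `M` is a polynomial in `θ` with
coefficients in `E`; let `q i ∈ E[X]` with `p i = q i (θ)`. Every element of `E` is a quotient
`ψ a / ψ b` (`Subfield.mem_closure_iff`, see `springer_mv` in A5.lean); `T` = the finite set of all
these `a`, `b` for the coefficients of `f` and of the `q i`. Given `β`, let `E2 = Subfield.closure (range (ψ.comp β))`, a
subfield of `E` which contains the coefficients of `f` and of the `q i`. Let `M2 = E2⟮θ⟯`
(`IntermediateField E2 M`, as a subfield `.toSubfield`). The minimal polynomial of `θ` over `E2` has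
degree `n`: it divides the polynomial `f2 ∈ E2[X]` given by `f`, and its image in `E[X]` is divisible
by `f`. So `finrank E2 E2⟮θ⟯ = n` (`IntermediateField.adjoin.finrank`). Finally
`Subfield.closure (range ((ψ.comp β).codRestrict M2 h))`, a subfield of `M2`, is the preimage of `E2`; compare
the two ranks with `Algebra.finrank_eq_of_equiv_equiv` (see the end of `spec_one` in
/team-store/t13_TSpec.lean for this technique). -/
theorem descend {R : Type} {M : Type u} [CommRing R] [Field M] [CharZero M] (ψ : R →+* M)
    (hfin : Module.finrank (Subfield.closure (Set.range ψ)) M ≠ 0) {ι : Type} [Finite ι]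
    (p : ι → M) :
    ∃ T : Finset R, ∀ (R0 : Type) [CommRing R0] (β : R0 →+* R),
      (∀ c ∈ T, ∃ a b : R0, ψ (β b) ≠ 0 ∧ ψ c * ψ (β b) = ψ (β a)) →
      ∃ (M2 : Subfield M) (h : ∀ a, (ψ.comp β) a ∈ M2), (∀ i, p i ∈ M2) ∧
        Module.finrank (Subfield.closure (Set.range ((ψ.comp β).codRestrict M2 h))) M2 =
          Module.finrank (Subfield.closure (Set.range ψ)) M := by
  classical
  have hfd : FiniteDimensional (Subfield.closure (Set.range ψ)) M :=
    Module.finite_of_finrank_pos (Nat.pos_of_ne_zero hfin)
  have hc0 : CharZero (Subfield.closure (Set.range ψ)) := inferInstance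
  have hsep : Algebra.IsSeparable (Subfield.closure (Set.range ψ)) M := inferInstance
  obtain ⟨θ, hθ⟩ := Field.exists_primitive_element (Subfield.closure (Set.range ψ)) M
  have hint : IsIntegral (Subfield.closure (Set.range ψ)) θ := IsIntegral.of_finite _ _
  have hdeg : (minpoly (Subfield.closure (Set.range ψ)) θ).natDegree =
      Module.finrank (Subfield.closure (Set.range ψ)) M :=
    (Field.primitive_element_iff_minpoly_natDegree_eq _ θ).mp hθ
  have hq : ∀ i, ∃ q : Polynomial (Subfield.closure (Set.range ψ)), Polynomial.aeval θ q = p i := by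
    intro i
    have h1 : p i ∈ (IntermediateField.adjoin (Subfield.closure (Set.range ψ)) {θ}).toSubalgebra := by
      rw [hθ]
      exact Algebra.mem_top
    rw [IntermediateField.adjoin_simple_toSubalgebra_of_isAlgebraic hint.isAlgebraic,
      Algebra.adjoin_singleton_eq_range_aeval] at h1
    exact h1
  choose q hq using hq
  have hab : ∀ c : Subfield.closure (Set.range ψ), ∃ ab : R × R, ψ ab.2 ≠ 0 ∧
      (c : M) * ψ ab.2 = ψ ab.1 := by
    intro c
    obtain ⟨a, b, h1, h2⟩ := SG3_quot ψ c.2
    exact ⟨(a, b), h1, h2⟩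
  choose ab hab0 hab1 using hab
  cases nonempty_fintype ι
  let C : Finset (Subfield.closure (Set.range ψ)) :=
    ((minpoly (Subfield.closure (Set.range ψ)) θ).support.image
      (minpoly (Subfield.closure (Set.range ψ)) θ).coeff) ∪
    Finset.univ.biUnion (fun i => (q i).support.image (q i).coeff)
  refine ⟨C.image (fun c => (ab c).1) ∪ C.image (fun c => (ab c).2), ?_⟩
  intro R0 _ β hT
  have hle : Subfield.closure (Set.range (ψ.comp β)) ≤ Subfield.closure (Set.range ψ) := by
    rw [Subfield.closure_le]
    rintro _ ⟨a, rfl⟩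
    exact Subfield.subset_closure ⟨β a, rfl⟩
  have hmem : ∀ a : R0, ψ (β a) ∈ Subfield.closure (Set.range (ψ.comp β)) := fun a =>
    Subfield.subset_closure ⟨a, rfl⟩
  have hTm : ∀ c ∈ C.image (fun c => (ab c).1) ∪ C.image (fun c => (ab c).2),
      ψ c ∈ Subfield.closure (Set.range (ψ.comp β)) := by
    intro c hc
    obtain ⟨a, b, hb, hab⟩ := hT c hc
    rw [← eq_div_iff hb] at hab
    rw [hab]
    exact Subfield.div_mem _ (hmem a) (hmem b)
  have hCm : ∀ c ∈ C, (c : M) ∈ Subfield.closure (Set.range (ψ.comp β)) := by
    intro c hc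
    have h1 := hTm (ab c).1 (Finset.mem_union_left _ (Finset.mem_image_of_mem _ hc))
    have h2 := hTm (ab c).2 (Finset.mem_union_right _ (Finset.mem_image_of_mem _ hc))
    have h3 := hab1 c
    rw [← eq_div_iff (hab0 c)] at h3
    rw [h3]
    exact Subfield.div_mem _ h1 h2
  obtain ⟨hint2, hdeg2⟩ := SG3_deg (Subfield.closure (Set.range ψ))
    (Subfield.closure (Set.range (ψ.comp β))) hle θ hint (by
      intro n
      by_cases hn : n ∈ (minpoly (Subfield.closure (Set.range ψ)) θ).support
      · exact hCm _ (Finset.mem_union_left _ (Finset.mem_image_of_mem _ hn))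
      · rw [Polynomial.notMem_support_iff.mp hn]
        exact Subfield.zero_mem _)
  refine ⟨(IntermediateField.adjoin (Subfield.closure (Set.range (ψ.comp β))) {θ}).toSubfield,
    fun a => ?_, fun i => ?_, ?_⟩
  · exact (IntermediateField.adjoin (Subfield.closure (Set.range (ψ.comp β))) {θ}).algebraMap_mem
      ⟨ψ (β a), hmem a⟩
  · rw [← hq i, Polynomial.aeval_eq_sum_range]
    refine Subfield.sum_mem _ fun k _ => ?_
    have h1 : (((q i).coeff k : Subfield.closure (Set.range ψ)) : M) ∈
        Subfield.closure (Set.range (ψ.comp β)) := by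
      by_cases hn : k ∈ (q i).support
      · refine hCm _ (Finset.mem_union_right _ ?_)
        exact Finset.mem_biUnion.mpr ⟨i, Finset.mem_univ _, Finset.mem_image_of_mem _ hn⟩
      · rw [Polynomial.notMem_support_iff.mp hn]
        exact Subfield.zero_mem _
    rw [Algebra.smul_def]
    refine Subfield.mul_mem _ ?_ (Subfield.pow_mem _ ?_ _)
    · exact (IntermediateField.adjoin (Subfield.closure (Set.range (ψ.comp β))) {θ}).algebraMap_mem
        ⟨_, h1⟩
    · exact IntermediateField.mem_adjoin_simple_self _ θ
  · exact (SG3_rank (ψ.comp β) _ _).trans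
      ((IntermediateField.adjoin.finrank hint2).trans (hdeg2.trans hdeg))

end Pool.Agent.Lib.MP_2619d0_ag.T
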