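import Pool.Agent.Lib.MP_2619d0_ag.T.SG1
import Pool.Agent.Lib.MP_2619d0_ag.T.SG2
import Pool.Agent.Lib.MP_2619d0_ag.T.SG3

/-!
Row SG4: a place of odd residue degree over the parameter `t`.
-/

set_option autoImplicit false

namespace Pool.Agent.Lib.MP_2619d0_ag.T

open MvPolynomial

universe u

/-- common denominator -/
theorem SG4_den {N : ℕ} {A : Type} [CommRing A] (β : A →+* ℂ) (T : Finset (MvPolynomial (Fin N) ℂ))
    (h : ∀ c ∈ T, ∀ z ∈ c.coeffs, ∃ a b : A, β b ≠ 0 ∧ z * β b = β a) :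
    ∀ c ∈ T, ∃ a b : MvPolynomial (Fin N) A, map β b ≠ 0 ∧ c * map β b = map β a := by
  classical
  intro c hc
  have h' : ∀ z : ℂ, ∃ b : A, β b ≠ 0 ∧ (z ∈ c.coeffs → ∃ a, z * β b = β a) := by
    intro z
    by_cases hz : z ∈ c.coeffs
    · obtain ⟨a, b, hb, hab⟩ := h c hc z hz
      exact ⟨b, hb, fun _ => ⟨a, hab⟩⟩
    · exact ⟨1, by rw [map_one]; exact one_ne_zero, fun h1 => absurd h1 hz⟩
  choose b hb hb2 using h'
  set D : A := ∏ z ∈ c.coeffs, b z with hD
  have hβD : β D ≠ 0 := by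
    rw [hD, map_prod]
    exact Finset.prod_ne_zero_iff.mpr fun z _ => hb z
  have hcoef : ∀ z ∈ c.coeffs, ∃ a, z * β D = β a := by
    intro z hz
    obtain ⟨a, ha⟩ := hb2 z hz
    refine ⟨a * ∏ z' ∈ c.coeffs.erase z, b z', ?_⟩
    rw [hD, ← Finset.mul_prod_erase _ _ hz, map_mul, ← mul_assoc, ha, map_mul]
  have hr : c * C (β D) ∈ Set.range (MvPolynomial.map β) := by
    rw [mem_range_map_iff_coeffs_subset]
    intro x hx
    have hx' : x ∈ (c * C (β D)).coeffs := hx
    rw [mem_coeffs_iff] at hx'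
    obtain ⟨d, hd, rfl⟩ := hx'
    rw [mul_comm, coeff_C_mul]
    by_cases hd0 : coeff d c = 0
    · exact ⟨0, by rw [hd0, mul_zero, map_zero]⟩
    · obtain ⟨a, ha⟩ := hcoef _ (coeff_mem_coeffs d hd0)
      exact ⟨a, by rw [← ha, mul_comm]⟩
  obtain ⟨a, ha⟩ := hr
  refine ⟨a, C D, ?_, ?_⟩
  · rw [map_C]
    exact fun h0 => hβD (C_eq_zero.mp h0)
  · rw [map_C, ha]

/-- Let `ψ : ℂ[X] → M` be injective of odd degree and `p` a finite family in `M`. Let `i : ℂ → ℂ` be an
embedding, `t` transcendental over the image of `i`, `ℂ` algebraic over `i(ℂ)(t)`. There are a subfield `M2` of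
`M` which contains `ψ(i(ℂ)[X])`, `t` and `p` and a valuation ring `O` of `M2` such that `ψ(i(ℂ)[X]) ⊂ O`, `t` is in the
maximal ideal, and the residue field has odd degree over `ℂ(X)`. -/
theorem odd_place {N : ℕ} {M : Type u} [Field M] (i : ℂ →+* ℂ) (t : ℂ)
    (hφ : Function.Injective (Polynomial.eval₂RingHom i t))
    (hΩ : ∀ c : ℂ, ∃ p : Polynomial (Polynomial ℂ), p ≠ 0 ∧
      p.eval₂ (Polynomial.eval₂RingHom i t) c = 0)
    (ψ : MvPolynomial (Fin N) ℂ →+* M) (hψ : Function.Injective ψ) (hodd : Odd (fd ψ))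
    {ι : Type} [Finite ι] (p : ι → M) :
    ∃ (M2 : Subfield M) (ψ2 : MvPolynomial (Fin N) ℂ →+* M2) (O : ValuationSubring M2)
      (h : ∀ G, ψ2 G ∈ O) (t2 : M2), (∀ G, (ψ2 G : M) = ψ (map i G)) ∧ (t2 : M) = ψ (C t) ∧
      (∀ j, p j ∈ M2) ∧ O.valuation t2 < 1 ∧ Function.Injective (rh ψ2 O h) ∧
      Odd (fd (rh ψ2 O h)) := by
  classical
  have hchar : CharZero M := charZero_of_injective_ringHom (f := ψ.comp C) (ψ.comp C).injective
  obtain ⟨T, hT⟩ := descend ψ hodd.pos.ne' p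
  obtain ⟨A, _, _, _, α, β, hβ, hαβ, hαX, hres, hTT⟩ :=
    dvr_exists (Polynomial.eval₂RingHom i t) hφ hΩ (T.biUnion fun c => c.coeffs)
  have hden := SG4_den β T (fun c hc z hz => hTT z (Finset.mem_biUnion.mpr ⟨c, hc, hz⟩))
  obtain ⟨M2, hM2, hp, hfr⟩ := hT (MvPolynomial (Fin N) A) (MvPolynomial.map β) (by
    intro c hc
    obtain ⟨a, b, hb, hab⟩ := hden c hc
    refine ⟨a, b, ?_, ?_⟩
    · intro h0
      exact hb (hψ (by rw [h0, map_zero]))
    · rw [← map_mul, hab])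
  set ψ' : MvPolynomial (Fin N) A →+* M2 := (ψ.comp (MvPolynomial.map β)).codRestrict M2 hM2
    with hψ'
  have hψ'v : ∀ G, (ψ' G : M) = ψ (map β G) := fun G => rfl
  have hψ'inj : Function.Injective ψ' := by
    intro a b hab
    have h1 : ψ (map β a) = ψ (map β b) := by
      rw [← hψ'v, ← hψ'v, hab]
    exact map_injective β hβ (hψ h1)
  obtain ⟨O, hO, hval, hoddO⟩ := gauss_place ψ' hψ'inj (by rw [hfr]; exact hodd)
  set ρ : ℂ →+* A := α.comp Polynomial.C with hρ
  have hβρ : ∀ c, β (ρ c) = i c := by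
    intro c
    rw [hρ, RingHom.comp_apply, hαβ, Polynomial.coe_eval₂RingHom, Polynomial.eval₂_C]
  set ψ2 : MvPolynomial (Fin N) ℂ →+* M2 := ψ'.comp (MvPolynomial.map ρ) with hψ2
  have hψ2v : ∀ G, (ψ2 G : M) = ψ (map i G) := by
    intro G
    have h1 : β.comp ρ = i := RingHom.ext hβρ
    rw [hψ2, RingHom.comp_apply, hψ'v, map_map, h1]
  have h : ∀ G, ψ2 G ∈ O := fun G => hO _
  have hρ0 : ∀ c, ρ c ∈ IsLocalRing.maximalIdeal A → c = 0 := by
    intro c hc
    by_contra hne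
    exact (IsLocalRing.mem_maximalIdeal _).mp hc ((isUnit_iff_ne_zero.mpr hne).map ρ)
  have hcl : Set.range ((IsLocalRing.residue O).comp (ψ'.codRestrict O hO)) =
      Set.range (rh ψ2 O h) := by
    apply Set.Subset.antisymm
    · rintro _ ⟨G, rfl⟩
      choose c hc using hres
      set G0 : MvPolynomial (Fin N) ℂ := ∑ d ∈ G.support, monomial d (c (coeff d G)) with hG0
      refine ⟨G0, ?_⟩
      have hcoef : ∀ d, coeff d (G - map ρ G0) ∈ IsLocalRing.maximalIdeal A := by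
        intro d
        rw [coeff_sub, coeff_map, hG0, coeff_sum]
        simp only [coeff_monomial]
        rw [Finset.sum_ite_eq']
        split_ifs with hd
        · exact hc _
        · rw [notMem_support_iff.mp hd, map_zero, sub_zero]
          exact Ideal.zero_mem _
      have h1 := (hval _).mpr hcoef
      have h2 : (IsLocalRing.residue O) ((ψ'.codRestrict O hO) (G - map ρ G0)) = 0 := by
        rw [IsLocalRing.residue_eq_zero_iff, ValuationSubring.valuation_lt_one_iff]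
        exact h1
      rw [map_sub, map_sub, sub_eq_zero] at h2
      exact h2.symm
    · rintro _ ⟨G, rfl⟩
      exact ⟨map ρ G, rfl⟩
  refine ⟨M2, ψ2, O, h, ψ' (C (α Polynomial.X)), hψ2v, ?_, hp, ?_, ?_, ?_⟩
  · rw [hψ'v, map_C, hαβ, Polynomial.coe_eval₂RingHom, Polynomial.eval₂_X]
  · rw [hval]
    intro d
    rw [coeff_C]
    split_ifs
    · exact hαX
    · exact Ideal.zero_mem _
  · rw [injective_iff_map_eq_zero]
    intro G hG
    have h1 : (IsLocalRing.residue O) ((ψ2.codRestrict O h) G) = 0 := hG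
    rw [IsLocalRing.residue_eq_zero_iff, ValuationSubring.valuation_lt_one_iff] at h1
    have h2 : O.valuation (ψ' (map ρ G)) < 1 := h1
    rw [hval] at h2
    ext d
    rw [coeff_zero]
    apply hρ0
    rw [← coeff_map]
    exact h2 d
  · unfold fd cl
    rw [← hcl]
    exact hoddO

end Pool.Agent.Lib.MP_2619d0_ag.T
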