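import Pool.Agent.Lib.MP_2619d0_ag.T.T1b
import Pool.Agent.Lib.MP_2619d0_ag.T.T2
import Pool.Agent.Lib.MP_2619d0_ag.T.EB
import Pool.Agent.Lib.MP_2619d0_ag.T.G2

/-!
# The third point theorem
-/

set_option autoImplicit false

namespace Pool.Agent.Lib.MP_2619d0_ag.T

open MvPolynomial

variable {N : ℕ} {F : MvPolynomial (Fin (N + 1)) ℂ} {L : Type*} [Field L] [Algebra ℂ L]

theorem extend_basis' {n : ℕ} {F : MvPolynomial (Fin n) ℂ} (hF : VG F)
    (W : Submodule ℂ (Fin n → ℂ)) (hW : ∀ w ∈ W, eval w F = 0) :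
    ∃ (e : Fin (Module.finrank ℂ W) → Fin n → ℂ), LinearIndependent ℂ e ∧
      (∀ l : Fin (Module.finrank ℂ W) → ℂ, Fc (cub F) (fun i => ∑ k, l k * e k i) = 0) ∧
      ∀ (L : Type*) [Field L] [Algebra ℂ L] (a : Fin n → L), a ∈ extend L W →
        ∃ α : Fin (Module.finrank ℂ W) → L, a = fun i => ∑ k, α k * algebraMap ℂ L (e k i) := by
  classical
  have hFc : ∀ x : Fin n → ℂ, Fc (cub F) x = eval x F := by
    intro x
    have h1 := aeval_eq_Fc (A := ℂ) hF.1 x
    have h2 : cm (algebraMap ℂ ℂ) (cub F) = cub F := by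
      funext i j k
      rfl
    rw [h2] at h1
    have h3 : aeval x F = eval x F := DFunLike.congr_fun (coe_aeval_eq_eval x) F
    rw [← h1, h3]
  set b := Module.finBasis ℂ W with hb
  refine ⟨fun k => (b k : Fin n → ℂ), ?_, ?_, ?_⟩
  · exact b.linearIndependent.map' W.subtype (Submodule.ker_subtype W)
  · intro l
    rw [hFc]
    apply hW
    have h1 : (fun i => ∑ k, l k * (b k : Fin n → ℂ) i) =
        ∑ k, l k • (b k : Fin n → ℂ) := by
      funext i
      simp [Finset.sum_apply]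
    rw [h1]
    exact W.sum_mem fun k _ => W.smul_mem _ (b k).2
  · intro L _ _ a ha
    refine Submodule.span_induction (p := fun a _ => ∃ α : Fin (Module.finrank ℂ W) → L,
      a = fun i => ∑ k, α k * algebraMap ℂ L ((b k : Fin n → ℂ) i)) ?_ ?_ ?_ ?_ ha
    · rintro _ ⟨w, hw, rfl⟩
      refine ⟨fun k => algebraMap ℂ L (b.repr ⟨w, hw⟩ k), ?_⟩
      have h1 : w = ∑ k, b.repr ⟨w, hw⟩ k • (b k : Fin n → ℂ) := by
        have h2 := congrArg (Subtype.val) (b.sum_repr ⟨w, hw⟩)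
        rw [Submodule.coe_sum] at h2
        simpa using h2.symm
      funext i
      have h3 := congrArg (algebraMap ℂ L) (congrFun h1 i)
      rw [Finset.sum_apply] at h3
      simp only [Pi.smul_apply, smul_eq_mul, map_sum, map_mul] at h3
      exact h3
    · exact ⟨0, by funext i; simp⟩
    · rintro x y _ _ ⟨α, rfl⟩ ⟨β, rfl⟩
      refine ⟨α + β, ?_⟩
      funext i
      simp [add_mul, Finset.sum_add_distrib]
    · rintro c x _ ⟨α, rfl⟩
      refine ⟨c • α, ?_⟩
      funext i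
      simp [Finset.mul_sum, mul_assoc]

/-- The third point of `X` on the line through an odd generic point `y` and a point `x`. -/
theorem third_hom (hN : 2 ≤ N) (hF : VG F) (y : Fin (N + 1) → L) (hy : IsGP F y)
    (hodd : Odd (Module.finrank (ratioF y) L)) (x : Fin (N + 1) → L) (hx : aeval x F = 0)
    (hxy : ∀ c : L, x ≠ c • y) :
    (∑ j, y j * aeval x (pderiv j F)) ≠ 0 ∧
      ∀ W : Submodule ℂ (Fin (N + 1) → ℂ), (∀ w ∈ W, eval w F = 0) →
        2 * Module.finrank ℂ W < N + 1 → x ∈ extend L W →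
          IsGP F (fun i => (∑ j, y j * aeval x (pderiv j F)) * y i -
            (∑ j, x j * aeval y (pderiv j F)) * x i) ∧
          Odd (Module.finrank (ratioF (fun i => (∑ j, y j * aeval x (pderiv j F)) * y i -
            (∑ j, x j * aeval y (pderiv j F)) * x i)) L) := by
  have hD0 : (∑ j, y j * aeval x (pderiv j F)) ≠ 0 := by
    intro h
    obtain ⟨c, hc⟩ := tangent_hom hN hF y hy hodd x hx h
    exact hxy c hc
  refine ⟨hD0, ?_⟩
  intro W hW hW2 hxW
  obtain ⟨e, he, heF, hrep⟩ := extend_basis' hF W hW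
  obtain ⟨α, hα⟩ := hrep L x hxW
  have hα0 : α ≠ 0 := by
    rintro rfl
    apply hxy 0
    rw [hα, zero_smul]
    funext i
    simp
  have hy00 : y 0 ≠ 0 := ((isGP_iff hN hF y).mp hy).1
  have hinv : (y 0)⁻¹ ≠ 0 := inv_ne_zero hy00
  set y' : Fin (N + 1) → L := (y 0)⁻¹ • y with hy'
  have hy'0 : y' 0 = 1 := by
    rw [hy', Pi.smul_apply, smul_eq_mul, inv_mul_cancel₀ hy00]
  have hGP' : IsGP F y' := IsGP.smul _ hinv y hy
  have hGp' : Gp F (ev y') := ((isGP_iff hN hF y').mp hGP').2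
  have hodd' : Odd (fd (ev y')) := by
    rw [← finrank_ratioF y' (by rw [hy'0]; exact one_ne_zero), hy', ratioF_smul _ hinv y]
    exact hodd
  obtain ⟨hD, ht0, htg, hto⟩ := secantM hN hF y' hy'0 hGp' hodd' e he hW2 heF α hα0
  rw [← hα] at hD ht0 htg hto
  have h1 : (∑ j, y j * aeval x (pderiv j F)) = Dc (cL L F) x y :=
    (Dc_eq_sum_pderiv hF.1 x y).symm
  have h2 : (∑ j, x j * aeval y (pderiv j F)) = Dc (cL L F) y x :=
    (Dc_eq_sum_pderiv hF.1 y x).symm
  have hk : (y 0) ^ 2 ≠ 0 := pow_ne_zero _ hy00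
  have hthird : (fun i => (∑ j, y j * aeval x (pderiv j F)) * y i -
      (∑ j, x j * aeval y (pderiv j F)) * x i) = ((y 0) ^ 2) • third (cL L F) y' x := by
    funext i
    rw [h1, h2, Pi.smul_apply, smul_eq_mul, third, hy', Dc_smul_right, Dc_smul_left,
      Pi.smul_apply, smul_eq_mul]
    field_simp
  have hGP3 : IsGP F (third (cL L F) y' x) := (isGP_iff hN hF _).mpr ⟨ht0, htg⟩
  rw [hthird]
  refine ⟨IsGP.smul _ hk _ hGP3, ?_⟩
  rw [ratioF_smul _ hk, finrank_ratioF _ ht0]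
  exact hto

end Pool.Agent.Lib.MP_2619d0_ag.T
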