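import Pool.Agent.Lib.MP_2619d0_ag.T.T1

/-!
Row T1b: the secant theorem.
-/

set_option autoImplicit false

namespace Pool.Agent.Lib.MP_2619d0_ag.T

open MvPolynomial

variable {N : ℕ} {F : MvPolynomial (Fin (N + 1)) ℂ} {L : Type*} [Field L] [Algebra ℂ L]

/-- left inverse matrix -/
theorem T1b_inv {w : ℕ} (e : Fin w → Fin (N + 1) → ℂ) (he : LinearIndependent ℂ e) :
    ∃ B : Fin w → Fin (N + 1) → ℂ, ∀ j k, ∑ i, B j i * e k i = if j = k then 1 else 0 := by
  have hinj : LinearMap.ker (Fintype.linearCombination ℂ e) = ⊥ := by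
    rw [LinearMap.ker_eq_bot]
    exact linearIndependent_iff_injective_fintypeLinearCombination.mp he
  obtain ⟨g, hg⟩ := LinearMap.exists_leftInverse_of_injective _ hinj
  refine ⟨fun j i => g (Pi.single i 1) j, ?_⟩
  intro j k
  have h1 : g (e k) = Pi.single k 1 := by
    have h2 := LinearMap.congr_fun hg (Pi.single k 1)
    rw [LinearMap.comp_apply, LinearMap.id_apply] at h2
    rw [← h2]
    congr 1
    rw [Fintype.linearCombination_apply]
    rw [Finset.sum_eq_single k]
    · simp
    · intro b _ hb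
      rw [Pi.single_eq_of_ne hb, zero_smul]
    · intro h
      exact absurd (Finset.mem_univ k) h
  have h3 : e k = ∑ i, e k i • (Pi.single i 1 : Fin (N + 1) → ℂ) := by
    ext i
    rw [Finset.sum_apply, Finset.sum_eq_single i]
    · simp
    · intro b _ hb
      simp [Pi.single_eq_of_ne hb.symm]
    · intro h
      exact absurd (Finset.mem_univ i) h
  have h4 : g (e k) j = ∑ i, g (Pi.single i 1) j * e k i := by
    conv_lhs => rw [h3]
    rw [map_sum, Finset.sum_apply]
    apply Finset.sum_congr rfl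
    intro i _
    rw [map_smul, Pi.smul_apply, smul_eq_mul, mul_comm]
  rw [← h4, h1]
  by_cases hjk : j = k
  · subst hjk
    simp
  · rw [Pi.single_eq_of_ne hjk, if_neg hjk]

theorem T1b_rec {w : ℕ} (e : Fin w → Fin (N + 1) → ℂ) (he : LinearIndependent ℂ e)
    (α : Fin w → L) (h : (fun i => ∑ k, α k * algebraMap ℂ L (e k i)) = 0) : α = 0 := by
  obtain ⟨B, hB⟩ := T1b_inv e he
  funext j
  have h1 : ∑ i, algebraMap ℂ L (B j i) * (∑ k, α k * algebraMap ℂ L (e k i)) = α j := by
    have h2 : ∀ i, algebraMap ℂ L (B j i) * (∑ k, α k * algebraMap ℂ L (e k i)) =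
        ∑ k, α k * algebraMap ℂ L (B j i * e k i) := by
      intro i
      rw [Finset.mul_sum]
      apply Finset.sum_congr rfl
      intro k _
      rw [map_mul]
      ring
    simp only [h2]
    rw [Finset.sum_comm]
    have h3 : ∀ k, ∑ i, α k * algebraMap ℂ L (B j i * e k i) =
        if j = k then α k else 0 := by
      intro k
      rw [← Finset.mul_sum, ← map_sum, hB j k]
      split_ifs <;> simp
    simp only [h3]
    simp
  rw [← h1]
  apply Finset.sum_eq_zero
  intro i _
  have h4 := congrFun h i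
  simp only [Pi.zero_apply] at h4
  rw [h4, mul_zero]

theorem T1b_Fc {w : ℕ} (e : Fin w → Fin (N + 1) → ℂ)
    (heF : ∀ l : Fin w → ℂ, Fc (cub F) (fun i => ∑ k, l k * e k i) = 0) (α : Fin w → L) :
    Fc (cL L F) (fun i => ∑ k, α k * algebraMap ℂ L (e k i)) = 0 := by
  set P : MvPolynomial (Fin w) ℂ :=
    Fc (cm C (cub F)) (fun i => ∑ k, X k * C (e k i)) with hP
  have hP0 : P = 0 := by
    apply MvPolynomial.funext
    intro l
    rw [map_zero, hP, ← Fc_cm (eval l)]
    have h1 : cm (eval l) (cm C (cub F)) = cub F := by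
      rw [cm_comp]
      unfold cm
      funext i j k
      simp
    have h2 : (fun i => eval l (∑ k, X k * C (e k i))) = fun i => ∑ k, l k * e k i := by
      funext i
      simp [map_sum]
    rw [h1, h2]
    exact heF l
  have h3 : (aeval α P : L) = Fc (cL L F) (fun i => ∑ k, α k * algebraMap ℂ L (e k i)) := by
    have h4 := Fc_cm (c := cm C (cub F)) (aeval α : MvPolynomial (Fin w) ℂ →ₐ[ℂ] L).toRingHom
      (fun i => ∑ k, X k * C (e k i))
    have h5 : cm (aeval α : MvPolynomial (Fin w) ℂ →ₐ[ℂ] L).toRingHom (cm C (cub F)) =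
        cL L F := by
      rw [cm_comp]
      unfold cm cL cm
      funext i j k
      simp
    have h6 : (fun i => (aeval α : MvPolynomial (Fin w) ℂ →ₐ[ℂ] L).toRingHom
        (∑ k, X k * C (e k i))) = fun i => ∑ k, α k * algebraMap ℂ L (e k i) := by
      funext i
      simp [map_sum]
    rw [h5, h6] at h4
    rw [h4]
    rfl
  rw [← h3, hP0, map_zero]

theorem T1b_ev (P Q : Fin (N + 1) → L) (c : L) (hc : c ≠ 0) (h : P = c • Q) :
    ev P = ev Q := by
  unfold ev
  congr 2
  funext i
  rw [h, Pi.smul_apply, Pi.smul_apply, smul_eq_mul, smul_eq_mul, mul_div_mul_left _ _ hc]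

/-- Let `a = ∑ α_k e_k`. `F(a) = 0` (`heF`: the polynomial `Fc (cub F) (∑ X_k e_k)` in `w` variables over
`ℂ` vanishes on `ℂ^w`, so it is zero). `![y, a]` is linearly independent: otherwise `a = a 0 • y` with
`a 0 ≠ 0` (`a ≠ 0` by `he`, `hα`; linear independence over `ℂ` implies linear independence over `L`), so
`ev a = ev y` and `not_gp_of_linear`. `parity` for `x = a`: suppose `Odd (fd (psi y a))`. With
`u = uu y a`, `u - s a = y`, so in `L(s)`
`0 = F(u - s a) = F(u) + D(u; -s a) + D(-s a; u) + F(-s a)` (`Fc_add`), `F(s a) = 0`. Divide by `u_0`: with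
`yh ψ = u / u_0` this is the hypothesis of `anisoM` for `σ = u_0`, `l k = -s α_k`:
`σ² F(u/u_0) + σ D(u/u_0; z) + D(z; u/u_0) = (F(u) + D(u; z) + D(z; u)) / u_0`. So `u_0 = 0`,
contradiction (`uu_zero_ne`). Hence `D(a; y) ≠ 0` and `a` or the third point is an odd generic point; the
first is excluded by `not_gp_of_linear`. -/
theorem secantM (hN : 2 ≤ N) (hF : VG F) (y : Fin (N + 1) → L) (hy0 : y 0 = 1)
    (hy : Gp F (ev y)) (hodd : Odd (fd (ev y))) {w : ℕ} (e : Fin w → Fin (N + 1) → ℂ)
    (he : LinearIndependent ℂ e) (hw : 2 * w < N + 1)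
    (heF : ∀ l : Fin w → ℂ, Fc (cub F) (fun i => ∑ k, l k * e k i) = 0)
    (α : Fin w → L) (hα : α ≠ 0) :
    Dc (cL L F) (fun i => ∑ k, α k * algebraMap ℂ L (e k i)) y ≠ 0 ∧
    third (cL L F) y (fun i => ∑ k, α k * algebraMap ℂ L (e k i)) 0 ≠ 0 ∧
    Gp F (ev (third (cL L F) y (fun i => ∑ k, α k * algebraMap ℂ L (e k i)))) ∧
    Odd (fd (ev (third (cL L F) y (fun i => ∑ k, α k * algebraMap ℂ L (e k i))))) := by
  have hFa := T1b_Fc e heF α
  have hng := not_gp_of_linear hN hF e (by omega : w < N + 1) α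
  have hane : (fun i => ∑ k, α k * algebraMap ℂ L (e k i)) ≠ 0 := fun h => hα (T1b_rec e he α h)
  set a : Fin (N + 1) → L := fun i => ∑ k, α k * algebraMap ℂ L (e k i) with ha
  have hlin : LinearIndependent L ![y, a] := by
    rw [LinearIndependent.pair_iff]
    intro s t hst
    by_cases ht : t = 0
    · subst ht
      rw [zero_smul, add_zero] at hst
      have h1 := congrFun hst 0
      rw [Pi.smul_apply, hy0, Pi.zero_apply, smul_eq_mul, mul_one] at h1
      exact ⟨h1, rfl⟩
    · exfalso
      have h1 : a = (-(s / t)) • y := by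
        funext i
        have h2 := congrFun hst i
        simp only [Pi.add_apply, Pi.smul_apply, Pi.zero_apply, smul_eq_mul] at h2
        rw [Pi.smul_apply, smul_eq_mul]
        field_simp
        linear_combination h2
      have hs : -(s / t) ≠ 0 := by
        intro h0
        rw [h0, zero_smul] at h1
        exact hane h1
      have h3 : a 0 = -(s / t) := by
        have h4 := congrFun h1 0
        rw [Pi.smul_apply, hy0, smul_eq_mul, mul_one] at h4
        exact h4
      refine hng ?_ ?_
      · rw [h3]; exact hs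
      · rw [T1b_ev a y _ hs h1]; exact hy
  obtain ⟨hinj, hpar⟩ := parity hN hF y a hy0 hy hodd hlin hFa
  rcases hpar with hpar | ⟨hD, hpar⟩
  · exfalso
    have hu := uu_zero_ne y a hy0
    have hFy := Fc_of_Gp hF.1 y hy0 hy
    set ψ := psi y a with hψ
    have hz : (fun i => ∑ k, (-(sv L * cM L (α k))) * ψ (C (e k i))) =
        (-(sv L)) • (fun i => cM L (a i)) := by
      funext i
      rw [Pi.smul_apply, smul_eq_mul, ha]
      simp only
      rw [map_sum, Finset.mul_sum]
      apply Finset.sum_congr rfl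
      intro k _
      rw [hψ, psi, eval₂Hom_C, RingHom.comp_apply, map_mul]
      ring
    have huz : uu y a + (-(sv L)) • (fun i => cM L (a i)) = fun i => cM L (y i) := by
      funext i
      simp only [uu, Pi.add_apply, Pi.smul_apply, smul_eq_mul]
      ring
    have hFz : Fc (cm (cM L) (cL L F)) ((-(sv L)) • (fun i => cM L (a i))) = 0 := by
      rw [Fc_smul, Fc_cm, hFa, map_zero, mul_zero]
    have hFu : Fc (cm (cM L) (cL L F)) (uu y a + (-(sv L)) • (fun i => cM L (a i))) = 0 := by
      rw [huz, Fc_cm, hFy, map_zero]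
    rw [Fc_add, hFz, add_zero] at hFu
    have h := anisoM hF e he hw heF ψ hinj hpar (uu y a 0) (fun k => -(sv L * cM L (α k))) (by
      rw [hz, hψ, cc_psi, yh_psi y a hu, Fc_smul, Dc_smul_left, Dc_smul_right _ ((uu y a 0)⁻¹)]
      have h5 : (uu y a 0) ^ 2 * ((uu y a 0)⁻¹ ^ 3 * Fc (cm (cM L) (cL L F)) (uu y a)) +
          uu y a 0 * ((uu y a 0)⁻¹ ^ 2 *
            Dc (cm (cM L) (cL L F)) (uu y a) ((-(sv L)) • (fun i => cM L (a i)))) +
          (uu y a 0)⁻¹ * Dc (cm (cM L) (cL L F)) ((-(sv L)) • (fun i => cM L (a i))) (uu y a) =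
          (uu y a 0)⁻¹ * (Fc (cm (cM L) (cL L F)) (uu y a) +
            Dc (cm (cM L) (cL L F)) (uu y a) ((-(sv L)) • (fun i => cM L (a i))) +
            Dc (cm (cM L) (cL L F)) ((-(sv L)) • (fun i => cM L (a i))) (uu y a)) := by
        generalize Fc (cm (cM L) (cL L F)) (uu y a) = X1
        generalize Dc (cm (cM L) (cL L F)) (uu y a) ((-(sv L)) • (fun i => cM L (a i))) = X2
        generalize Dc (cm (cM L) (cL L F)) ((-(sv L)) • (fun i => cM L (a i))) (uu y a) = X3
        generalize uu y a 0 = v at hu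
        field_simp
      rw [h5, hFu, mul_zero])
    exact hu h.1
  · refine ⟨hD, ?_⟩
    rcases hpar with ⟨h0, hg, _⟩ | h
    · exact (hng h0 hg).elim
    · exact h

end Pool.Agent.Lib.MP_2619d0_ag.T
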