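import Pool.Agent.Lib.MP_2619d0_ag.T.SH1
import Pool.Agent.Lib.MP_2619d0_ag.T.T1b
import Pool.Agent.Lib.MP_2619d0_ag.T.OP

/-!
The third point theorem for points of a linear subspace of small dimension (not necessarily contained
in the cubic) and for points of the hyperplane `x_0 = 0`.
-/

set_option autoImplicit false

namespace Pool.Agent.Lib.MP_2619d0_ag.T

open MvPolynomial

theorem exists_b' {k : Type*} [Field k] (h2 : (2 : k) = 0) (hsq : ∀ a : k, ∃ b, b ^ 2 = a) {N : ℕ}
    (W : Submodule k (Fin (N + 1) → k)) (hW : 2 * Module.finrank k W < N + 1) :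
    ∃ b : Fin (N + 1) → k, b ∉ W ∧ ∀ w ∈ W, ∑ i, b i ^ 2 * w i = 0 := by
  classical
  have : CharP k 2 := CharTwo.of_one_ne_zero_of_two_eq_zero one_ne_zero h2
  have : ExpChar k 2 := ExpChar.prime Nat.prime_two
  choose r hr using hsq
  by_contra hcon
  push Not at hcon
  obtain ⟨S, hS, hSo⟩ := A3_orth W
  let e := Module.finBasis k S
  let b : Fin (Module.finrank k S) → (Fin (N + 1) → k) := fun j i => r ((e j : Fin (N + 1) → k) i)
  have hb : ∀ j i, b j i ^ 2 = (e j : Fin (N + 1) → k) i := fun j i => hr _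
  have hbW : ∀ j, b j ∈ W := by
    intro j
    by_contra hj
    obtain ⟨w, hw, hne⟩ := hcon (b j) hj
    apply hne
    have := hSo (e j) (e j).2 w hw
    rw [← this]
    exact Finset.sum_congr rfl fun i _ => by rw [hb]
  have hli : LinearIndependent k (fun j => (⟨b j, hbW j⟩ : W)) := by
    rw [Fintype.linearIndependent_iff]
    intro g hg
    have hg' : ∀ i, ∑ j, g j * b j i = 0 := by
      intro i
      have := congrArg (fun x : W => (x : Fin (N + 1) → k) i) hg
      simpa [Finset.sum_apply] using this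
    have hg2 : ∑ j, (g j ^ 2) • (e j) = 0 := by
      apply Subtype.ext
      funext i
      have h : (∑ j, g j * b j i) ^ 2 = 0 ^ 2 := congrArg (fun x => x ^ 2) (hg' i)
      rw [show (∑ j, g j * b j i) ^ 2 = ∑ j, (g j * b j i) ^ 2 from sum_pow_char 2 _ _] at h
      have h' : ∑ j, g j ^ 2 * (e j : Fin (N + 1) → k) i = 0 := by
        rw [← Finset.sum_congr rfl (fun j _ => by rw [mul_pow, hb] : ∀ j ∈ Finset.univ,
          (g j * b j i) ^ 2 = g j ^ 2 * (e j : Fin (N + 1) → k) i)]
        rw [h]; ring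
      simpa [Finset.sum_apply] using h'
    intro j
    have := Fintype.linearIndependent_iff.1 e.linearIndependent (fun j => g j ^ 2) hg2 j
    exact pow_eq_zero_iff (two_ne_zero) |>.1 this
  have hcard := hli.fintype_card_le_finrank
  rw [Fintype.card_fin] at hcard
  omega

/-- for every place of residue characteristic two there is a vector outside of the reduction of `W`
that is orthogonal to it -/
def GoodSub {N : ℕ} (W : Submodule ℂ (Fin (N + 1) → ℂ)) : Prop :=
  ∀ V : ValuationSubring ℂ, (2 : IsLocalRing.ResidueField V) = 0 →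
    ∃ b, b ∉ redSub V W ∧ ∀ w ∈ redSub V W, ∑ i, b i ^ 2 * w i = 0

theorem goodSub_small {N : ℕ} (W : Submodule ℂ (Fin (N + 1) → ℂ))
    (hW : 2 * Module.finrank ℂ W < N + 1) : GoodSub W := by
  intro V h2
  exact exists_b' h2 (residue_sqrt V) (redSub V W)
    (lt_of_le_of_lt (Nat.mul_le_mul_left 2 (finrank_redSub_le V W)) hW)

theorem goodSub_hyperplane {N : ℕ} (W : Submodule ℂ (Fin (N + 1) → ℂ))
    (hW : ∀ w ∈ W, w 0 = 0) : GoodSub W := by
  intro V h2
  have h0 : ∀ w ∈ redSub V W, w 0 = 0 := by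
    rintro _ ⟨x, hx, rfl⟩
    have h1 : ((x 0 : V) : ℂ) = 0 := hW _ hx
    have h3 : x 0 = 0 := Subtype.ext h1
    change IsLocalRing.residue V (x 0) = 0
    rw [h3, map_zero]
  refine ⟨Pi.single 0 1, ?_, ?_⟩
  · intro h
    have h1 := h0 _ h
    rw [Pi.single_eq_same] at h1
    exact one_ne_zero h1
  · intro w hw
    rw [Finset.sum_eq_single 0]
    · rw [h0 w hw, mul_zero]
    · intro i _ hi
      rw [Pi.single_eq_of_ne hi]
      ring
    · intro h
      exact absurd (Finset.mem_univ _) h

theorem aniso_poly2 {N : ℕ} {F : MvPolynomial (Fin (N + 1)) ℂ} (hF : VG F)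
    (W : Submodule ℂ (Fin (N + 1) → ℂ)) (hW : GoodSub W) (s : MvPolynomial (Fin N) ℂ)
    (z : Fin (N + 1) → MvPolynomial (Fin N) ℂ) (hz : ∀ d, (fun i => coeff d (z i)) ∈ W)
    (h : s ^ 2 * Fc (cm C (cub F)) (gv N ℂ) + s * Dc (cm C (cub F)) (gv N ℂ) z +
      Dc (cm C (cub F)) z (gv N ℂ) = 0) :
    s = 0 ∧ ∀ i, z i = 0 := by
  classical
  obtain ⟨V, cV, hcV, hres, h2⟩ := exists_V hF
  by_contra hcon
  have hne : ∃ o : Option (Fin (N + 1)), o.elim s z ≠ 0 := by
    by_contra hall
    push Not at hall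
    exact hcon ⟨hall none, fun i => hall (some i)⟩
  obtain ⟨c, T, hT, o, ho⟩ := A4_lift V (fun o : Option (Fin (N + 1)) => o.elim s z) hne
  have hTs : map V.subtype (T none) = C c * s := hT none
  have hTz : ∀ i, map V.subtype (T (some i)) = C c * z i := fun i => hT (some i)
  have hTz' : (fun i => map V.subtype (T (some i))) =
      (C c : MvPolynomial (Fin N) ℂ) • z := by
    funext i
    rw [hTz]
    rfl
  have h2' : (2 : MvPolynomial (Fin N) (IsLocalRing.ResidueField V)) = 0 := by
    have : (2 : MvPolynomial (Fin N) (IsLocalRing.ResidueField V)) =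
        C (2 : IsLocalRing.ResidueField V) := (map_ofNat C 2).symm
    rw [this, h2, C_0]
  have e1 : T none ^ 2 * Fc (cm C cV) (gv N V) + T none * Dc (cm C cV) (gv N V)
      (fun i => T (some i)) + Dc (cm C cV) (fun i => T (some i)) (gv N V) = 0 := by
    apply map_injective V.subtype V.subtype_injective
    rw [map_zero, map_add, map_add, map_mul, map_mul, map_pow, ← Fc_cm, ← Dc_cm, ← Dc_cm,
      A4_gv, ← A4_cm hcV, hTz', hTs, Dc_smul_right, Dc_smul_left]
    calc (C c * s) ^ 2 * Fc (cm C (cub F)) (gv N ℂ) +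
          C c * s * (C c * Dc (cm C (cub F)) (gv N ℂ) z) +
          C c ^ 2 * Dc (cm C (cub F)) z (gv N ℂ)
        = C c ^ 2 * (s ^ 2 * Fc (cm C (cub F)) (gv N ℂ) + s * Dc (cm C (cub F)) (gv N ℂ) z +
          Dc (cm C (cub F)) z (gv N ℂ)) := by ring
      _ = 0 := by rw [h, mul_zero]
  have e2 := congrArg (map (IsLocalRing.residue V)) e1
  rw [map_zero, map_add, map_add, map_mul, map_mul, map_pow, ← Fc_cm, ← Dc_cm, ← Dc_cm,
    A4_gv, A4_Fc _ (A4_res hres), A4_Dc h2' _ (A4_res hres), A4_Dc h2' _ (A4_res hres)] at e2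
  obtain ⟨b, hb, hbW⟩ := hW V h2
  have hzW : ∀ d, (fun i => coeff d (map (IsLocalRing.residue V) (T (some i)))) ∈
      redSub V W := by
    intro d
    refine ⟨fun i => coeff d (T (some i)), ?_, ?_⟩
    · have h9 : (fun i => ((coeff d (T (some i)) : V) : ℂ)) = c • fun i => coeff d (z i) := by
        funext i
        have h10 := congrArg (coeff d) (hTz i)
        rw [coeff_map, coeff_C_mul] at h10
        exact h10
      rw [h9]
      exact W.smul_mem c (hz d)
    · funext i
      rw [coeff_map]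
  have hfin := aniso_char2' h2 (redSub V W) b hb hbW (map (IsLocalRing.residue V) (T none))
    (fun i => map (IsLocalRing.residue V) (T (some i))) hzW e2
  cases o with
  | none => exact ho hfin.1
  | some i => exact ho (hfin.2 i)


theorem anisoM2 {N w : ℕ} {F : MvPolynomial (Fin (N + 1)) ℂ} (hF : VG F)
    (e : Fin w → Fin (N + 1) → ℂ) (he : LinearIndependent ℂ e)
    (hgood : GoodSub (Submodule.span ℂ (Set.range e)))
    {M : Type*} [Field M] (ψ : MvPolynomial (Fin N) ℂ →+* M) (hψ : Function.Injective ψ)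
    (hodd : Odd (fd ψ)) (σ : M) (l : Fin w → M)
    (h : σ ^ 2 * Fc (cc F ψ) (yh ψ) +
      σ * Dc (cc F ψ) (yh ψ) (fun i => ∑ k, l k * ψ (C (e k i))) +
      Dc (cc F ψ) (fun i => ∑ k, l k * ψ (C (e k i))) (yh ψ) = 0) : σ = 0 ∧ l = 0 := by
  have hpoly : ∀ v : Fin (w + 1) → MvPolynomial (Fin N) ℂ,
      ∑ i, ∑ j, A6_Q (cm C (cub F)) (C (1 / 2)) (gv N ℂ) (fun k i => C (e k i)) i j *
        (v i * v j) = 0 → v = 0 := by
    intro v hv
    rw [A6_quad _ A6_half] at hv
    have hco : ∀ d i, coeff d (∑ k : Fin w, v k.succ * C (e k i)) =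
        ∑ k : Fin w, coeff d (v k.succ) * e k i := by
      intro d i
      rw [coeff_sum]
      refine Finset.sum_congr rfl fun k _ => ?_
      rw [mul_comm, coeff_C_mul, mul_comm]
    have hz : ∀ d, (fun i => coeff d ((fun i => ∑ k : Fin w, v k.succ * C (e k i)) i)) ∈
        Submodule.span ℂ (Set.range e) := by
      intro d
      rw [Submodule.mem_span_range_iff_exists_fun ℂ]
      refine ⟨fun k => coeff d (v k.succ), ?_⟩
      funext i
      simp only [Finset.sum_apply, Pi.smul_apply, smul_eq_mul]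
      rw [hco]
    obtain ⟨h1, h2⟩ := aniso_poly2 hF _ hgood (v 0) _ hz hv
    have h4 : ∀ k : Fin w, v k.succ = 0 := by
      intro k
      ext d
      rw [coeff_zero]
      refine Fintype.linearIndependent_iff.mp he (fun k => coeff d (v k.succ)) ?_ k
      funext i
      simp only [Finset.sum_apply, Pi.smul_apply, smul_eq_mul, Pi.zero_apply]
      rw [← hco, h2 i, coeff_zero]
    funext i
    refine Fin.cases h1 (fun k => h4 k) i
  have hM : ∑ i, ∑ j, ψ (A6_Q (cm C (cub F)) (C (1 / 2)) (gv N ℂ) (fun k i => C (e k i)) i j) *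
      ((Fin.cons σ l : Fin (w + 1) → M) i * (Fin.cons σ l : Fin (w + 1) → M) j) = 0 := by
    simp only [A6_Q_map, A6_yh]
    rw [A6_quad _ (by
      have := congrArg ψ (A6_half (N := N))
      rwa [map_mul, map_ofNat, map_one] at this)]
    simp only [Fin.cons_zero, Fin.cons_succ]
    exact h
  have hfin := springer_mv _ hpoly ψ hψ hodd _ hM
  refine ⟨by simpa using congrFun hfin 0, ?_⟩
  funext k
  simpa using congrFun hfin k.succ


section secant

variable {N : ℕ} {F : MvPolynomial (Fin (N + 1)) ℂ} {L : Type*} [Field L] [Algebra ℂ L]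

theorem secantM2 (hN : 2 ≤ N) (hF : VG F) (y : Fin (N + 1) → L) (hy0 : y 0 = 1)
    (hy : Gp F (ev y)) (hodd : Odd (fd (ev y))) {w : ℕ} (e : Fin w → Fin (N + 1) → ℂ)
    (he : LinearIndependent ℂ e) (hw : w < N + 1)
    (hgood : GoodSub (Submodule.span ℂ (Set.range e)))
    (α : Fin w → L) (hα : α ≠ 0)
    (hFa : Fc (cL L F) (fun i => ∑ k, α k * algebraMap ℂ L (e k i)) = 0) :
    Dc (cL L F) (fun i => ∑ k, α k * algebraMap ℂ L (e k i)) y ≠ 0 ∧
    third (cL L F) y (fun i => ∑ k, α k * algebraMap ℂ L (e k i)) 0 ≠ 0 ∧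
    Gp F (ev (third (cL L F) y (fun i => ∑ k, α k * algebraMap ℂ L (e k i)))) ∧
    Odd (fd (ev (third (cL L F) y (fun i => ∑ k, α k * algebraMap ℂ L (e k i))))) := by
  have hng := not_gp_of_linear hN hF e hw α
  have hane : (fun i => ∑ k, α k * algebraMap ℂ L (e k i)) ≠ 0 := fun h => hα (T1b_rec e he α h)
  set a : Fin (N + 1) → L := fun i => ∑ k, α k * algebraMap ℂ L (e k i) with ha
  have hlin : LinearIndependent L ![y, a] := by
    rw [LinearIndependent.pair_iff]
    intro s t hst
    by_cases ht : t = 0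
    · subst ht
      rw [zero_smul, add_zero] at hst
      have h1 := congrFun hst 0
      rw [Pi.smul_apply, hy0, Pi.zero_apply, smul_eq_mul, mul_one] at h1
      exact ⟨h1, rfl⟩
    · exfalso
      have h1 : a = (-(s / t)) • y := by
        funext i
        have h2 := congrFun hst i
        simp only [Pi.add_apply, Pi.smul_apply, Pi.zero_apply, smul_eq_mul] at h2
        rw [Pi.smul_apply, smul_eq_mul]
        field_simp
        linear_combination h2
      have hs : -(s / t) ≠ 0 := by
        intro h0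
        rw [h0, zero_smul] at h1
        exact hane h1
      have h3 : a 0 = -(s / t) := by
        have h4 := congrFun h1 0
        rw [Pi.smul_apply, hy0, smul_eq_mul, mul_one] at h4
        exact h4
      refine hng ?_ ?_
      · rw [h3]; exact hs
      · rw [T1b_ev a y _ hs h1]; exact hy
  obtain ⟨hinj, hpar⟩ := parity hN hF y a hy0 hy hodd hlin hFa
  rcases hpar with hpar | ⟨hD, hpar⟩
  · exfalso
    have hu := uu_zero_ne y a hy0
    have hFy := Fc_of_Gp hF.1 y hy0 hy
    set ψ := psi y a with hψ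
    have hz : (fun i => ∑ k, (-(sv L * cM L (α k))) * ψ (C (e k i))) =
        (-(sv L)) • (fun i => cM L (a i)) := by
      funext i
      rw [Pi.smul_apply, smul_eq_mul, ha]
      simp only
      rw [map_sum, Finset.mul_sum]
      apply Finset.sum_congr rfl
      intro k _
      rw [hψ, psi, eval₂Hom_C, RingHom.comp_apply, map_mul]
      ring
    have huz : uu y a + (-(sv L)) • (fun i => cM L (a i)) = fun i => cM L (y i) := by
      funext i
      simp only [uu, Pi.add_apply, Pi.smul_apply, smul_eq_mul]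
      ring
    have hFz : Fc (cm (cM L) (cL L F)) ((-(sv L)) • (fun i => cM L (a i))) = 0 := by
      rw [Fc_smul, Fc_cm, hFa, map_zero, mul_zero]
    have hFu : Fc (cm (cM L) (cL L F)) (uu y a + (-(sv L)) • (fun i => cM L (a i))) = 0 := by
      rw [huz, Fc_cm, hFy, map_zero]
    rw [Fc_add, hFz, add_zero] at hFu
    have h := anisoM2 hF e he hgood ψ hinj hpar (uu y a 0) (fun k => -(sv L * cM L (α k))) (by
      rw [hz, hψ, cc_psi, yh_psi y a hu, Fc_smul, Dc_smul_left, Dc_smul_right _ ((uu y a 0)⁻¹)]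
      have h5 : (uu y a 0) ^ 2 * ((uu y a 0)⁻¹ ^ 3 * Fc (cm (cM L) (cL L F)) (uu y a)) +
          uu y a 0 * ((uu y a 0)⁻¹ ^ 2 *
            Dc (cm (cM L) (cL L F)) (uu y a) ((-(sv L)) • (fun i => cM L (a i)))) +
          (uu y a 0)⁻¹ * Dc (cm (cM L) (cL L F)) ((-(sv L)) • (fun i => cM L (a i))) (uu y a) =
          (uu y a 0)⁻¹ * (Fc (cm (cM L) (cL L F)) (uu y a) +
            Dc (cm (cM L) (cL L F)) (uu y a) ((-(sv L)) • (fun i => cM L (a i))) +
            Dc (cm (cM L) (cL L F)) ((-(sv L)) • (fun i => cM L (a i))) (uu y a)) := by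
        generalize Fc (cm (cM L) (cL L F)) (uu y a) = X1
        generalize Dc (cm (cM L) (cL L F)) (uu y a) ((-(sv L)) • (fun i => cM L (a i))) = X2
        generalize Dc (cm (cM L) (cL L F)) ((-(sv L)) • (fun i => cM L (a i))) (uu y a) = X3
        generalize uu y a 0 = v at hu
        field_simp
      rw [h5, hFu, mul_zero])
    exact hu h.1
  · refine ⟨hD, ?_⟩
    rcases hpar with ⟨h0, hg, _⟩ | h
    · exact (hng h0 hg).elim
    · exact h


/-- a basis of `W` -/
theorem SH_basis {n : ℕ} (W : Submodule ℂ (Fin n → ℂ)) :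
    ∃ (e : Fin (Module.finrank ℂ W) → Fin n → ℂ), LinearIndependent ℂ e ∧
      Submodule.span ℂ (Set.range e) = W ∧
      ∀ (L : Type*) [Field L] [Algebra ℂ L] (a : Fin n → L), a ∈ extend L W →
        ∃ α : Fin (Module.finrank ℂ W) → L, a = fun i => ∑ k, α k * algebraMap ℂ L (e k i) := by
  classical
  set b := Module.finBasis ℂ W with hb
  refine ⟨fun k => (b k : Fin n → ℂ), ?_, ?_, ?_⟩
  · exact b.linearIndependent.map' W.subtype (Submodule.ker_subtype W)
  · have h1 : (Set.range fun k => (b k : Fin n → ℂ)) = W.subtype '' (Set.range b) := by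
      rw [← Set.range_comp]
      rfl
    rw [h1, Submodule.span_image, b.span_eq, Submodule.map_top, Submodule.range_subtype]
  · intro L _ _ a ha
    refine Submodule.span_induction (p := fun a _ => ∃ α : Fin (Module.finrank ℂ W) → L,
      a = fun i => ∑ k, α k * algebraMap ℂ L ((b k : Fin n → ℂ) i)) ?_ ?_ ?_ ?_ ha
    · rintro _ ⟨w, hw, rfl⟩
      refine ⟨fun k => algebraMap ℂ L (b.repr ⟨w, hw⟩ k), ?_⟩
      have h1 : w = ∑ k, b.repr ⟨w, hw⟩ k • (b k : Fin n → ℂ) := by
        have h2 := congrArg (Subtype.val) (b.sum_repr ⟨w, hw⟩)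
        rw [Submodule.coe_sum] at h2
        simpa using h2.symm
      funext i
      have h3 := congrArg (algebraMap ℂ L) (congrFun h1 i)
      rw [Finset.sum_apply] at h3
      simp only [Pi.smul_apply, smul_eq_mul, map_sum, map_mul] at h3
      exact h3
    · exact ⟨0, by funext i; simp⟩
    · rintro x y _ _ ⟨α, rfl⟩ ⟨β, rfl⟩
      refine ⟨α + β, ?_⟩
      funext i
      simp [add_mul, Finset.sum_add_distrib]
    · rintro c x _ ⟨α, rfl⟩
      refine ⟨c • α, ?_⟩
      funext i
      simp [Finset.mul_sum, mul_assoc]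

/-- The third point of `X` on the line through an odd generic point `y` and a point `x`. -/
theorem third_hom_good (hN : 2 ≤ N) (hF : VG F) (y : Fin (N + 1) → L) (hy : IsGP F y)
    (hodd : Odd (Module.finrank (ratioF y) L)) (x : Fin (N + 1) → L) (hx : aeval x F = 0)
    (hxy : ∀ c : L, x ≠ c • y) :
    (∑ j, y j * aeval x (pderiv j F)) ≠ 0 ∧
      ∀ W : Submodule ℂ (Fin (N + 1) → ℂ), GoodSub W →
        Module.finrank ℂ W < N + 1 → x ∈ extend L W →
          IsGP F (fun i => (∑ j, y j * aeval x (pderiv j F)) * y i -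
            (∑ j, x j * aeval y (pderiv j F)) * x i) ∧
          Odd (Module.finrank (ratioF (fun i => (∑ j, y j * aeval x (pderiv j F)) * y i -
            (∑ j, x j * aeval y (pderiv j F)) * x i)) L) := by
  have hD0 : (∑ j, y j * aeval x (pderiv j F)) ≠ 0 := by
    intro h
    obtain ⟨c, hc⟩ := tangent_hom hN hF y hy hodd x hx h
    exact hxy c hc
  refine ⟨hD0, ?_⟩
  intro W hW hW2 hxW
  obtain ⟨e, he, hspan, hrep⟩ := SH_basis W
  have hgood : GoodSub (Submodule.span ℂ (Set.range e)) := by rw [hspan]; exact hW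
  have hFx : Fc (cL L F) x = 0 := by
    rw [← hx]
    exact (aeval_eq_Fc hF.1 x).symm
  obtain ⟨α, hα⟩ := hrep L x hxW
  have hα0 : α ≠ 0 := by
    rintro rfl
    apply hxy 0
    rw [hα, zero_smul]
    funext i
    simp
  have hy00 : y 0 ≠ 0 := ((isGP_iff hN hF y).mp hy).1
  have hinv : (y 0)⁻¹ ≠ 0 := inv_ne_zero hy00
  set y' : Fin (N + 1) → L := (y 0)⁻¹ • y with hy'
  have hy'0 : y' 0 = 1 := by
    rw [hy', Pi.smul_apply, smul_eq_mul, inv_mul_cancel₀ hy00]
  have hGP' : IsGP F y' := IsGP.smul _ hinv y hy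
  have hGp' : Gp F (ev y') := ((isGP_iff hN hF y').mp hGP').2
  have hodd' : Odd (fd (ev y')) := by
    rw [← finrank_ratioF y' (by rw [hy'0]; exact one_ne_zero), hy', ratioF_smul _ hinv y]
    exact hodd
  obtain ⟨hD, ht0, htg, hto⟩ := secantM2 hN hF y' hy'0 hGp' hodd' e he hW2
    hgood α hα0 (by rw [← hα]; exact hFx)
  rw [← hα] at hD ht0 htg hto
  have h1 : (∑ j, y j * aeval x (pderiv j F)) = Dc (cL L F) x y :=
    (Dc_eq_sum_pderiv hF.1 x y).symm
  have h2 : (∑ j, x j * aeval y (pderiv j F)) = Dc (cL L F) y x :=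
    (Dc_eq_sum_pderiv hF.1 y x).symm
  have hk : (y 0) ^ 2 ≠ 0 := pow_ne_zero _ hy00
  have hthird : (fun i => (∑ j, y j * aeval x (pderiv j F)) * y i -
      (∑ j, x j * aeval y (pderiv j F)) * x i) = ((y 0) ^ 2) • third (cL L F) y' x := by
    funext i
    rw [h1, h2, Pi.smul_apply, smul_eq_mul, third, hy', Dc_smul_right, Dc_smul_left,
      Pi.smul_apply, smul_eq_mul]
    field_simp
  have hGP3 : IsGP F (third (cL L F) y' x) := (isGP_iff hN hF _).mpr ⟨ht0, htg⟩
  rw [hthird]
  refine ⟨IsGP.smul _ hk _ hGP3, ?_⟩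
  rw [ratioF_smul _ hk, finrank_ratioF _ ht0]
  exact hto


/-- The third point theorem: `x` in a linear subspace of small dimension or in the hyperplane
`x_0 = 0`. -/
theorem third_hom2 (hN : 2 ≤ N) (hF : VG F) (y : Fin (N + 1) → L) (hy : IsGP F y)
    (hodd : Odd (Module.finrank (ratioF y) L)) (x : Fin (N + 1) → L) (hx : aeval x F = 0)
    (hxy : ∀ c : L, x ≠ c • y) :
    (∑ j, y j * aeval x (pderiv j F)) ≠ 0 ∧
      ((x 0 = 0 ∨ ∃ W : Submodule ℂ (Fin (N + 1) → ℂ),
        2 * Module.finrank ℂ W < N + 1 ∧ x ∈ extend L W) →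
          IsGP F (fun i => (∑ j, y j * aeval x (pderiv j F)) * y i -
            (∑ j, x j * aeval y (pderiv j F)) * x i) ∧
          Odd (Module.finrank (ratioF (fun i => (∑ j, y j * aeval x (pderiv j F)) * y i -
            (∑ j, x j * aeval y (pderiv j F)) * x i)) L)) := by
  obtain ⟨h1, h2⟩ := third_hom_good hN hF y hy hodd x hx hxy
  refine ⟨h1, ?_⟩
  rintro (h0 | ⟨W, hW, hxW⟩)
  · set W : Submodule ℂ (Fin (N + 1) → ℂ) := LinearMap.ker (LinearMap.proj 0) with hWdef
    have hW0 : ∀ w ∈ W, w 0 = 0 := fun w hw => by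
      rw [hWdef, LinearMap.mem_ker] at hw
      exact hw
    refine h2 W (goodSub_hyperplane W hW0) ?_ ?_
    · have h3 : W ≠ ⊤ := by
        intro h
        have h4 : (Pi.single 0 1 : Fin (N + 1) → ℂ) ∈ W := by rw [h]; trivial
        have h5 := hW0 _ h4
        rw [Pi.single_eq_same] at h5
        exact one_ne_zero h5
      have h4 := Submodule.finrank_lt h3
      rwa [Module.finrank_fin_fun] at h4
    · have h3 : x = ∑ i, x i • (fun j => algebraMap ℂ L
          ((if i = 0 then (0 : Fin (N + 1) → ℂ) else Pi.single i 1) j)) := by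
        funext j
        rw [Finset.sum_apply, Finset.sum_eq_single j]
        · by_cases hj : j = 0
          · subst hj
            simp [h0]
          · simp [hj]
        · intro i _ hij
          by_cases hi : i = 0
          · simp [hi]
          · simp [hi, Pi.single_eq_of_ne hij.symm]
        · intro h
          exact absurd (Finset.mem_univ _) h
      rw [h3]
      refine Submodule.sum_mem _ fun i _ => Submodule.smul_mem _ _ ?_
      refine Submodule.subset_span ⟨_, ?_, rfl⟩
      change _ ∈ W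
      rw [hWdef, LinearMap.mem_ker]
      by_cases hi : i = 0
      · simp [hi]
      · simp [hi, Pi.single_eq_of_ne (Ne.symm hi)]
  · exact h2 W (goodSub_small W hW) (by omega) hxW

end secant

end Pool.Agent.Lib.MP_2619d0_ag.T
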