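import Pool.Agent.Lib.MP_2619d0_ag.T.Defs

/-!
Row A5: Springer's theorem for forms that are anisotropic over a polynomial ring.
-/

set_option autoImplicit false

namespace Pool.Agent.Lib.MP_2619d0_ag.T

open MvPolynomial

/-- Let `K = cl ψ`; every element of `K` is `ψ p / ψ q` with `ψ q ≠ 0`
(`Subfield.closure` of a subring, or `IsLocalization.exist_integer_multiples_of_finite` with
`IsFractionRing (MvPolynomial (Fin N) ℂ) K`), so a vector of `K` that is isotropic for `ψ ∘ Q` gives
after clearing denominators a polynomial vector, which is zero by `h`. Now use `springer` (file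
`OddDegree.lean`) with `t = 0`, `K ⊂ M` (`CharZero`: `ψ.comp C` is injective on `ℂ`; the extension is
finite because `fd ψ` is odd, hence nonzero: `Module.finite_of_finrank_pos`). -/
theorem springer_mv {N r : ℕ} (Q : Fin r → Fin r → MvPolynomial (Fin N) ℂ)
    (h : ∀ v : Fin r → MvPolynomial (Fin N) ℂ, ∑ i, ∑ j, Q i j * (v i * v j) = 0 → v = 0)
    {M : Type*} [Field M] (ψ : MvPolynomial (Fin N) ℂ →+* M) (hψ : Function.Injective ψ)
    (hodd : Odd (fd ψ)) (v : Fin r → M) (hv : ∑ i, ∑ j, ψ (Q i j) * (v i * v j) = 0) : v = 0 := by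
  classical
  have hmemK : ∀ p, ψ p ∈ cl ψ := fun p => Subfield.subset_closure ⟨p, rfl⟩
  -- every element of K is a quotient
  have hquot : ∀ x : cl ψ, ∃ p q, ψ q ≠ 0 ∧ (x : M) * ψ q = ψ p := by
    rintro ⟨x, hx⟩
    have hx' := hx
    rw [cl, Subfield.mem_closure_iff] at hx'
    have hr : Subring.closure (Set.range ψ) = ψ.range := by
      rw [← RingHom.coe_range, Subring.closure_eq]
    rw [hr] at hx'
    obtain ⟨_, ⟨p, rfl⟩, _, ⟨q, rfl⟩, hpq⟩ := hx'
    by_cases hq : ψ q = 0
    · refine ⟨0, 1, by simp, ?_⟩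
      rw [hq, div_zero] at hpq
      simp [← hpq]
    · refine ⟨p, q, hq, ?_⟩
      change x * ψ q = ψ p
      rw [← hpq, div_mul_cancel₀ _ hq]
  have hchar : CharZero (cl ψ) := by
    have h1 : CharZero M := by
      have : Function.Injective (ψ.comp C) :=
        hψ.comp (C_injective _ _)
      exact charZero_of_injective_ringHom this
    have h2 : Function.Injective (algebraMap (cl ψ) M) := (algebraMap (cl ψ) M).injective
    refine ⟨fun a b hab => ?_⟩
    have h3 := congrArg (algebraMap (cl ψ) M) hab
    rw [map_natCast, map_natCast] at h3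
    exact_mod_cast h3
  have hpos : 0 < Module.finrank (cl ψ) M := hodd.pos
  have hfin : FiniteDimensional (cl ψ) M := Module.finite_of_finrank_pos hpos
  have haniso : ∀ v : Fin r → cl ψ, ∑ i, (0 : cl ψ) * v i = 0 →
      ∑ i, ∑ j, (⟨ψ (Q i j), hmemK _⟩ : cl ψ) * (v i * v j) = 0 → v = 0 := by
    intro v _ hv2
    choose p q hq hpq using fun i => hquot (v i)
    set D : MvPolynomial (Fin N) ℂ := ∏ i, q i with hD
    set w : Fin r → MvPolynomial (Fin N) ℂ := fun i => p i * ∏ j ∈ Finset.univ.erase i, q j with hw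
    have hDw : ∀ i, (v i : M) * ψ D = ψ (w i) := by
      intro i
      have h1 : D = q i * ∏ j ∈ Finset.univ.erase i, q j := by
        rw [hD, Finset.mul_prod_erase _ _ (Finset.mem_univ i)]
      rw [h1, hw]
      simp only [map_mul]
      rw [← mul_assoc, hpq i]
    have hD0 : ψ D ≠ 0 := by
      rw [hD, map_prod]
      exact Finset.prod_ne_zero_iff.mpr fun i _ => hq i
    have hv3 : ∑ i, ∑ j, ψ (Q i j) * ((v i : M) * (v j : M)) = 0 := by
      have := congrArg (fun z : cl ψ => (z : M)) hv2
      simpa using this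
    have hw0 : w = 0 := by
      apply h
      apply hψ
      rw [map_zero, map_sum]
      have h4 : ∀ i, ψ (∑ j, Q i j * (w i * w j)) =
          ψ D ^ 2 * ∑ j, ψ (Q i j) * ((v i : M) * (v j : M)) := by
        intro i
        rw [map_sum, Finset.mul_sum]
        refine Finset.sum_congr rfl fun j _ => ?_
        rw [map_mul, map_mul, ← hDw i, ← hDw j]
        ring
      simp only [h4]
      rw [← Finset.mul_sum, hv3, mul_zero]
    funext i
    have h5 := hDw i
    rw [hw0] at h5
    simp only [Pi.zero_apply, map_zero, mul_eq_zero] at h5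
    rcases h5 with h5 | h5
    · exact_mod_cast h5
    · exact absurd h5 hD0
  refine springer (K := cl ψ) (L := M) hodd (fun _ => 0)
    (fun i j => (⟨ψ (Q i j), hmemK _⟩ : cl ψ)) haniso v (by simp) ?_
  exact hv

end Pool.Agent.Lib.MP_2619d0_ag.T
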