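import Pool.Agent.Lib.MP_2619d0_ag.T.A4
import Pool.Agent.Lib.MP_2619d0_ag.T.A5

/-!
Row A6: anisotropy over odd degree extensions of the function field of projective space.
-/

set_option autoImplicit false

namespace Pool.Agent.Lib.MP_2619d0_ag.T

open MvPolynomial

section A6_aux

variable {ι R S : Type*} [Fintype ι] [CommRing R] [CommRing S]

theorem A6_Tc_zero (c : ι → ι → ι → R) (y z : ι → R) : Tc c 0 y z = 0 := by
  have := Tc_smul_left c 0 0 y z
  simpa using this

theorem A6_Dc_zero (c : ι → ι → ι → R) (x : ι → R) : Dc c x 0 = 0 := by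
  have := Dc_smul_right c 0 x 0
  simpa using this

theorem A6_Tc_sum {w : ℕ} (c : ι → ι → ι → R) (l : Fin w → R) (e : Fin w → ι → R)
    (y z : ι → R) : Tc c (fun i => ∑ k, l k * e k i) y z = ∑ k, l k * Tc c (e k) y z := by
  classical
  have h : ∀ s : Finset (Fin w), Tc c (∑ k ∈ s, l k • e k) y z =
      ∑ k ∈ s, l k * Tc c (e k) y z := by
    intro s
    induction s using Finset.induction_on with
    | empty => simp [A6_Tc_zero]
    | insert a s ha ih =>
      rw [Finset.sum_insert ha, Finset.sum_insert ha, Tc_add_left, ih, Tc_smul_left]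
  have h2 := h Finset.univ
  have h3 : (∑ k, l k • e k) = fun i => ∑ k, l k * e k i := by
    funext i
    simp [Finset.sum_apply]
  rwa [h3] at h2

theorem A6_Dc_sum {w : ℕ} (c : ι → ι → ι → R) (l : Fin w → R) (e : Fin w → ι → R)
    (x : ι → R) : Dc c x (fun i => ∑ k, l k * e k i) = ∑ k, l k * Dc c x (e k) := by
  classical
  have h : ∀ s : Finset (Fin w), Dc c x (∑ k ∈ s, l k • e k) =
      ∑ k ∈ s, l k * Dc c x (e k) := by
    intro s
    induction s using Finset.induction_on with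
    | empty => simp [A6_Dc_zero]
    | insert a s ha ih =>
      rw [Finset.sum_insert ha, Finset.sum_insert ha, Dc_add_right, ih, Dc_smul_right]
  have h2 := h Finset.univ
  have h3 : (∑ k, l k • e k) = fun i => ∑ k, l k * e k i := by
    funext i
    simp [Finset.sum_apply]
  rwa [h3] at h2

theorem A6_Dc_quad {w : ℕ} (c : ι → ι → ι → R) {half : R} (hh : half * 2 = 1) (u : ι → R)
    (e : Fin w → ι → R) (l : Fin w → R) :
    Dc c (fun i => ∑ k, l k * e k i) u =
      ∑ k, ∑ m, (half * Tc c (e k) (e m) u) * (l k * l m) := by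
  set z : ι → R := fun i => ∑ k, l k * e k i with hz
  have h1 : Dc c z u = half * Tc c z z u := by
    rw [Tc_self, ← mul_assoc, hh, one_mul]
  rw [h1, hz, A6_Tc_sum, Finset.mul_sum]
  refine Finset.sum_congr rfl fun k _ => ?_
  rw [Tc_comm, A6_Tc_sum, Finset.mul_sum, Finset.mul_sum]
  refine Finset.sum_congr rfl fun m _ => ?_
  rw [Tc_comm c (e m) (e k) u]
  ring

/-- the matrix of the quadratic form in `(σ, l)` -/
noncomputable def A6_Q {w : ℕ} (c : ι → ι → ι → R) (half : R) (u : ι → R) (e : Fin w → ι → R) :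
    Fin (w + 1) → Fin (w + 1) → R :=
  Fin.cons (Fin.cons (Fc c u) fun k => Dc c u (e k))
    (fun k => Fin.cons 0 fun m => half * Tc c (e k) (e m) u)

theorem A6_quad {w : ℕ} (c : ι → ι → ι → R) {half : R} (hh : half * 2 = 1) (u : ι → R)
    (e : Fin w → ι → R) (v : Fin (w + 1) → R) :
    ∑ i, ∑ j, A6_Q c half u e i j * (v i * v j) =
      v 0 ^ 2 * Fc c u + v 0 * Dc c u (fun i => ∑ k : Fin w, v k.succ * e k i) +
        Dc c (fun i => ∑ k : Fin w, v k.succ * e k i) u := by
  rw [A6_Dc_quad c hh u e (fun k => v k.succ), A6_Dc_sum c (fun k => v k.succ) e u,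
    Fin.sum_univ_succ]
  simp only [Fin.sum_univ_succ, A6_Q, Fin.cons_zero, Fin.cons_succ, zero_mul, zero_add]
  rw [Finset.mul_sum]
  have h1 : ∑ i : Fin w, Dc c u (e i) * (v 0 * v i.succ) =
      ∑ i : Fin w, v 0 * (v i.succ * Dc c u (e i)) :=
    Finset.sum_congr rfl fun i _ => by ring
  rw [h1]
  ring

theorem A6_Q_map {w : ℕ} (φ : R →+* S) (c : ι → ι → ι → R) (half : R) (u : ι → R)
    (e : Fin w → ι → R) (i j : Fin (w + 1)) :
    φ (A6_Q c half u e i j) =
      A6_Q (cm φ c) (φ half) (fun i => φ (u i)) (fun k i => φ (e k i)) i j := by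
  refine Fin.cases ?_ (fun k => ?_) i
  · refine Fin.cases ?_ (fun m => ?_) j
    · simp only [A6_Q, Fin.cons_zero]
      rw [Fc_cm]
    · simp only [A6_Q, Fin.cons_zero, Fin.cons_succ]
      rw [Dc_cm]
  · refine Fin.cases ?_ (fun m => ?_) j
    · simp only [A6_Q, Fin.cons_zero, Fin.cons_succ, map_zero]
    · simp only [A6_Q, Fin.cons_succ, map_mul]
      rw [Tc_cm]

end A6_aux

theorem A6_yh {N : ℕ} {M : Type*} [Field M] (ψ : MvPolynomial (Fin N) ℂ →+* M) :
    (fun i => ψ (gv N ℂ i)) = yh ψ := by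
  funext i
  refine Fin.cases ?_ (fun k => ?_) i
  · simp [gv, yh]
  · simp [gv, yh]

theorem A6_half {N : ℕ} : (C (1 / 2) : MvPolynomial (Fin N) ℂ) * 2 = 1 := by
  have : (2 : MvPolynomial (Fin N) ℂ) = C 2 := (map_ofNat C 2).symm
  rw [this, ← C_mul]
  norm_num

theorem A6_vec {R : Type*} [CommRing R] {n : ℕ} (v : Fin n → R) :
    (fun i => ∑ k : Fin n, v k * (Pi.single k (1 : R) : Fin n → R) i) = v := by
  funext i
  rw [Finset.sum_eq_single i]
  · simp
  · intro b _ hb
    simp [hb.symm]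
  · simp

/-- `springer_mv` with `r = w + 1` and the quadratic form in `(σ, l)`; the coefficient of `σ²` is
`F(u)`, of `σ l_k` is `D(u; e_k)`, of `l_k l_m` is half of `T(e_k, e_m, u)` (`1/2 ∈ ℂ`; for `k = m`:
`D(e_k; u)`). For polynomial vectors: `aniso_poly` with `W = span e` (dimension `w`, `he`) and
`z = ∑ l_k e_k`; `z = 0` implies `l = 0` by `he` (coefficientwise). -/
theorem anisoM {N w : ℕ} {F : MvPolynomial (Fin (N + 1)) ℂ} (hF : VG F)
    (e : Fin w → Fin (N + 1) → ℂ) (he : LinearIndependent ℂ e) (hw : 2 * w < N + 1)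
    (heF : ∀ l : Fin w → ℂ, Fc (cub F) (fun i => ∑ k, l k * e k i) = 0)
    {M : Type*} [Field M] (ψ : MvPolynomial (Fin N) ℂ →+* M) (hψ : Function.Injective ψ)
    (hodd : Odd (fd ψ)) (σ : M) (l : Fin w → M)
    (h : σ ^ 2 * Fc (cc F ψ) (yh ψ) +
      σ * Dc (cc F ψ) (yh ψ) (fun i => ∑ k, l k * ψ (C (e k i))) +
      Dc (cc F ψ) (fun i => ∑ k, l k * ψ (C (e k i))) (yh ψ) = 0) : σ = 0 ∧ l = 0 := by
  have hpoly : ∀ v : Fin (w + 1) → MvPolynomial (Fin N) ℂ,
      ∑ i, ∑ j, A6_Q (cm C (cub F)) (C (1 / 2)) (gv N ℂ) (fun k i => C (e k i)) i j *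
        (v i * v j) = 0 → v = 0 := by
    intro v hv
    rw [A6_quad _ A6_half] at hv
    have hspan : ∀ x ∈ Submodule.span ℂ (Set.range e), Fc (cub F) x = 0 := by
      intro x hx
      obtain ⟨c, rfl⟩ := (Submodule.mem_span_range_iff_exists_fun ℂ).mp hx
      have h3 : (∑ k, c k • e k) = fun i => ∑ k, c k * e k i := by
        funext i
        simp [Finset.sum_apply]
      rw [h3]
      exact heF c
    have hfr : 2 * Module.finrank ℂ (Submodule.span ℂ (Set.range e)) < N + 1 := by
      rw [finrank_span_eq_card he, Fintype.card_fin]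
      exact hw
    have hco : ∀ d i, coeff d (∑ k : Fin w, v k.succ * C (e k i)) =
        ∑ k : Fin w, coeff d (v k.succ) * e k i := by
      intro d i
      rw [coeff_sum]
      refine Finset.sum_congr rfl fun k _ => ?_
      rw [mul_comm, coeff_C_mul, mul_comm]
    have hz : ∀ d, (fun i => coeff d ((fun i => ∑ k : Fin w, v k.succ * C (e k i)) i)) ∈
        Submodule.span ℂ (Set.range e) := by
      intro d
      rw [Submodule.mem_span_range_iff_exists_fun ℂ]
      refine ⟨fun k => coeff d (v k.succ), ?_⟩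
      funext i
      simp only [Finset.sum_apply, Pi.smul_apply, smul_eq_mul]
      rw [hco]
    obtain ⟨h1, h2⟩ := aniso_poly hF _ hspan hfr (v 0) _ hz hv
    have h4 : ∀ k : Fin w, v k.succ = 0 := by
      intro k
      ext d
      rw [coeff_zero]
      refine Fintype.linearIndependent_iff.mp he (fun k => coeff d (v k.succ)) ?_ k
      funext i
      simp only [Finset.sum_apply, Pi.smul_apply, smul_eq_mul, Pi.zero_apply]
      rw [← hco, h2 i, coeff_zero]
    funext i
    refine Fin.cases h1 (fun k => h4 k) i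
  have hM : ∑ i, ∑ j, ψ (A6_Q (cm C (cub F)) (C (1 / 2)) (gv N ℂ) (fun k i => C (e k i)) i j) *
      ((Fin.cons σ l : Fin (w + 1) → M) i * (Fin.cons σ l : Fin (w + 1) → M) j) = 0 := by
    simp only [A6_Q_map, A6_yh]
    rw [A6_quad _ (by
      have := congrArg ψ (A6_half (N := N))
      rwa [map_mul, map_ofNat, map_one] at this)]
    simp only [Fin.cons_zero, Fin.cons_succ]
    exact h
  have hfin := springer_mv _ hpoly ψ hψ hodd _ hM
  refine ⟨by simpa using congrFun hfin 0, ?_⟩
  funext k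
  simpa using congrFun hfin k.succ

/-- `springer_mv` with `r = N + 1` and the quadratic form `D(x; u)` in `x`; polynomial vectors:
`polar_poly`. -/
theorem polarM {N : ℕ} {F : MvPolynomial (Fin (N + 1)) ℂ} (hF : VG F)
    {M : Type*} [Field M] (ψ : MvPolynomial (Fin N) ℂ →+* M) (hψ : Function.Injective ψ)
    (hodd : Odd (fd ψ)) (x : Fin (N + 1) → M) (h : Dc (cc F ψ) x (yh ψ) = 0) : x = 0 := by
  have hpoly : ∀ v : Fin (N + 1) → MvPolynomial (Fin N) ℂ,
      ∑ i, ∑ j, (C (1 / 2) * Tc (cm C (cub F)) (Pi.single i 1) (Pi.single j 1) (gv N ℂ)) *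
        (v i * v j) = 0 → v = 0 := by
    intro v hv
    rw [← A6_Dc_quad _ A6_half (gv N ℂ)
      (fun k => (Pi.single k 1 : Fin (N + 1) → MvPolynomial (Fin N) ℂ)) v, A6_vec] at hv
    funext i
    exact polar_poly hF v hv i
  have hM : ∑ i, ∑ j, ψ (C (1 / 2) * Tc (cm C (cub F)) (Pi.single i 1) (Pi.single j 1)
      (gv N ℂ)) * (x i * x j) = 0 := by
    have hs : ∀ k : Fin (N + 1), (fun i => ψ ((Pi.single k 1 : Fin (N + 1) →
        MvPolynomial (Fin N) ℂ) i)) = (Pi.single k 1 : Fin (N + 1) → M) := by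
      intro k
      funext i
      by_cases hik : i = k
      · subst hik
        simp
      · simp [hik]
    simp only [map_mul, ← Tc_cm, hs, A6_yh]
    rw [← A6_Dc_quad _ (half := ψ (C (1 / 2))) (by
      have := congrArg ψ (A6_half (N := N))
      rwa [map_mul, map_ofNat, map_one] at this) (yh ψ)
      (fun k => (Pi.single k 1 : Fin (N + 1) → M)) x, A6_vec]
    exact h
  exact springer_mv _ hpoly ψ hψ hodd x hM

end Pool.Agent.Lib.MP_2619d0_ag.T
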