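import Pool.Agent.Lib.MP_2619d0_ag.T.B2

/-!
Row B3: first and second derivatives of the affine equation.
-/

set_option autoImplicit false

namespace Pool.Agent.Lib.MP_2619d0_ag.T

open MvPolynomial

section B3_aux

variable {N : ℕ} {κ : Type*} [Field κ] (χ : MvPolynomial (Fin N) ℂ →+* κ) (v : Fin N → κ)

/-- the directional derivative at the point `χ` -/
noncomputable def B3_d (G : MvPolynomial (Fin N) ℂ) : κ := ∑ i, χ (pderiv i G) * v i

/-- the second directional derivative -/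
noncomputable def B3_dd (G : MvPolynomial (Fin N) ℂ) : κ :=
  ∑ i, ∑ j, χ (pderiv i (pderiv j G)) * (v i * v j)

theorem B3_d_sum {ι : Type*} (s : Finset ι) (G : ι → MvPolynomial (Fin N) ℂ) :
    B3_d χ v (∑ a ∈ s, G a) = ∑ a ∈ s, B3_d χ v (G a) := by
  unfold B3_d
  rw [Finset.sum_comm]
  refine Finset.sum_congr rfl fun i _ => ?_
  rw [map_sum, map_sum, Finset.sum_mul]

theorem B3_dd_sum {ι : Type*} (s : Finset ι) (G : ι → MvPolynomial (Fin N) ℂ) :
    B3_dd χ v (∑ a ∈ s, G a) = ∑ a ∈ s, B3_dd χ v (G a) := by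
  unfold B3_dd
  simp only [map_sum, Finset.sum_mul]
  calc ∑ i, ∑ j, ∑ a ∈ s, χ (pderiv i (pderiv j (G a))) * (v i * v j)
      = ∑ i, ∑ a ∈ s, ∑ j, χ (pderiv i (pderiv j (G a))) * (v i * v j) :=
        Finset.sum_congr rfl fun i _ => Finset.sum_comm
    _ = ∑ a ∈ s, ∑ i, ∑ j, χ (pderiv i (pderiv j (G a))) * (v i * v j) := Finset.sum_comm

theorem B3_d_mul (a b : MvPolynomial (Fin N) ℂ) :
    B3_d χ v (a * b) = χ a * B3_d χ v b + B3_d χ v a * χ b := by
  unfold B3_d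
  rw [Finset.mul_sum, Finset.sum_mul, ← Finset.sum_add_distrib]
  refine Finset.sum_congr rfl fun i _ => ?_
  rw [Derivation.leibniz, map_add, smul_eq_mul, smul_eq_mul, map_mul, map_mul]
  ring

theorem B3_dd_mul (a b : MvPolynomial (Fin N) ℂ) :
    B3_dd χ v (a * b) =
      χ a * B3_dd χ v b + 2 * (B3_d χ v a * B3_d χ v b) + B3_dd χ v a * χ b := by
  have h1 : ∀ i j, χ (pderiv i (pderiv j (a * b))) * (v i * v j) =
      χ a * (χ (pderiv i (pderiv j b)) * (v i * v j)) +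
        (χ (pderiv i a) * v i) * (χ (pderiv j b) * v j) +
        (χ (pderiv i b) * v i) * (χ (pderiv j a) * v j) +
        (χ (pderiv i (pderiv j a)) * (v i * v j)) * χ b := by
    intro i j
    rw [Derivation.leibniz, smul_eq_mul, smul_eq_mul, map_add, Derivation.leibniz,
      Derivation.leibniz]
    simp only [smul_eq_mul, map_add, map_mul]
    ring
  unfold B3_dd
  simp_rw [h1, Finset.sum_add_distrib, ← Finset.mul_sum, ← Finset.sum_mul]
  unfold B3_d
  ring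

theorem B3_d_C (c : ℂ) : B3_d χ v (C c) = 0 := by
  unfold B3_d
  refine Finset.sum_eq_zero fun i _ => ?_
  rw [pderiv_C, map_zero, zero_mul]

theorem B3_dd_C (c : ℂ) : B3_dd χ v (C c) = 0 := by
  unfold B3_dd
  refine Finset.sum_eq_zero fun i _ => Finset.sum_eq_zero fun j _ => ?_
  rw [pderiv_C, map_zero, map_zero, zero_mul]

theorem B3_d_X (i : Fin N) : B3_d χ v (X i) = v i := by
  classical
  unfold B3_d
  rw [Finset.sum_eq_single i]
  · rw [pderiv_X_self, map_one, one_mul]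
  · intro j _ hj
    rw [pderiv_X_of_ne (Ne.symm hj), map_zero, zero_mul]
  · intro h; exact absurd (Finset.mem_univ i) h

theorem B3_dd_X (i : Fin N) : B3_dd χ v (X i) = 0 := by
  classical
  unfold B3_dd
  refine Finset.sum_eq_zero fun k _ => Finset.sum_eq_zero fun j _ => ?_
  by_cases hj : j = i
  · subst hj
    rw [pderiv_X_self, ← C_1, pderiv_C, map_zero, zero_mul]
  · rw [pderiv_X_of_ne (Ne.symm hj), map_zero, map_zero, zero_mul]

/-- the affine coordinates -/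
noncomputable def B3_Y (N : ℕ) : Fin (N + 1) → MvPolynomial (Fin N) ℂ :=
  Fin.cases (motive := fun _ => MvPolynomial (Fin N) ℂ) 1 (fun j => X j)

theorem B3_chi_Y (i : Fin (N + 1)) : χ (B3_Y N i) = yh χ i := by
  refine Fin.cases ?_ (fun j => ?_) i
  · simp [B3_Y, yh]
  · simp [B3_Y, yh]

theorem B3_d_Y (i : Fin (N + 1)) :
    B3_d χ v (B3_Y N i) = (Fin.cons 0 v : Fin (N + 1) → κ) i := by
  refine Fin.cases ?_ (fun j => ?_) i
  · have : B3_Y N 0 = C 1 := by simp [B3_Y]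
    rw [this, B3_d_C, Fin.cons_zero]
  · have : B3_Y N j.succ = X j := by simp [B3_Y]
    rw [this, B3_d_X, Fin.cons_succ]

theorem B3_dd_Y (i : Fin (N + 1)) : B3_dd χ v (B3_Y N i) = 0 := by
  refine Fin.cases ?_ (fun j => ?_) i
  · have : B3_Y N 0 = C 1 := by simp [B3_Y]
    rw [this, B3_dd_C]
  · have : B3_Y N j.succ = X j := by simp [B3_Y]
    rw [this, B3_dd_X]

theorem B3_dh {F : MvPolynomial (Fin (N + 1)) ℂ} (hF : F.IsHomogeneous 3) :
    dh ℂ N F = ∑ i, ∑ j, ∑ k, C (cub F i j k) * (B3_Y N i * B3_Y N j * B3_Y N k) := by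
  have h1 : dh ℂ N F = aeval (B3_Y N) F := rfl
  rw [h1, aeval_eq_Fc hF]
  rfl

end B3_aux

/-- Taylor expansion. Let `f = dh ℂ N F`, `y = yh χ`, `w = Fin.cons 0 v` (first coordinate 0).
In `κ[ε]` (polynomials, or for all `ε` in the infinite field `κ`, which has characteristic 0 because
`χ.comp C` embeds `ℂ`) `f(y + ε v) = F(y + ε w) = F(y) + ε D(y; w) + ε² D(w; y) + ε³ F(w)` (`Fc_line`);
the derivative at `ε = 0` is `∑ i, χ(∂_i f) v_i` and the second derivative is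
`∑ i j, χ(∂_i ∂_j f) v_i v_j` (see `derivative_aeval` and the proof of `tangent_asymptotic` in
`Lines.lean`). Alternatively: both sides are linear in `F`, so one may take
`F = X i * X j * X k` (from `aeval_eq_Fc` with `R = MvPolynomial` one has
`F = ∑ i j k, C (cub F i j k) * (X i * X j * X k)`), and compute with `pderiv`. -/
theorem sum_pderiv {N : ℕ} {κ : Type*} [Field κ] {F : MvPolynomial (Fin (N + 1)) ℂ}
    (hF : F.IsHomogeneous 3) (χ : MvPolynomial (Fin N) ℂ →+* κ) (v : Fin N → κ) :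
    ∑ i, χ (pderiv i (dh ℂ N F)) * v i =
      Dc (cc F χ) (yh χ) (Fin.cons 0 v : Fin (N + 1) → κ) := by
  change B3_d χ v (dh ℂ N F) = _
  rw [B3_dh hF]
  unfold Dc
  rw [B3_d_sum]
  refine Finset.sum_congr rfl fun i _ => ?_
  rw [B3_d_sum]
  refine Finset.sum_congr rfl fun j _ => ?_
  rw [B3_d_sum]
  refine Finset.sum_congr rfl fun k _ => ?_
  have hc : cc F χ i j k = χ (C (cub F i j k)) := rfl
  rw [B3_d_mul, B3_d_mul, B3_d_mul, B3_d_C, B3_d_Y, B3_d_Y, B3_d_Y, map_mul, B3_chi_Y, B3_chi_Y,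
    hc, map_mul, B3_chi_Y]
  ring

theorem sum_pderiv2 {N : ℕ} {κ : Type*} [Field κ] {F : MvPolynomial (Fin (N + 1)) ℂ}
    (hF : F.IsHomogeneous 3) (χ : MvPolynomial (Fin N) ℂ →+* κ) (v : Fin N → κ) :
    ∑ i, ∑ j, χ (pderiv i (pderiv j (dh ℂ N F))) * (v i * v j) =
      2 * Dc (cc F χ) (Fin.cons 0 v : Fin (N + 1) → κ) (yh χ) := by
  change B3_dd χ v (dh ℂ N F) = _
  rw [B3_dh hF]
  unfold Dc
  rw [B3_dd_sum, Finset.mul_sum]
  refine Finset.sum_congr rfl fun i _ => ?_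
  rw [B3_dd_sum, Finset.mul_sum]
  refine Finset.sum_congr rfl fun j _ => ?_
  rw [B3_dd_sum, Finset.mul_sum]
  refine Finset.sum_congr rfl fun k _ => ?_
  have hc : cc F χ i j k = χ (C (cub F i j k)) := rfl
  rw [B3_dd_mul, B3_dd_mul, B3_dd_mul, B3_d_mul, B3_d_mul, B3_d_C, B3_dd_C, B3_dd_Y, B3_dd_Y,
    B3_dd_Y, B3_d_Y, B3_d_Y, B3_d_Y, map_mul, B3_chi_Y, B3_chi_Y, hc, map_mul, B3_chi_Y]
  ring

end Pool.Agent.Lib.MP_2619d0_ag.T
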