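import Pool.Agent.Lib.MP_2619d0_ag.T.CE0
import Pool.Agent.Lib.MP_2619d0_ag.T.T2b

/-!
Row CE: conics through points of a linear subspace.
-/

set_option autoImplicit false

namespace Pool.Agent.Lib.MP_2619d0_ag.T

open MvPolynomial

theorem CE_right {ι R : Type*} [Fintype ι] [CommRing R] (c : ι → ι → ι → R) (t : R)
    (A B D : ι → R) : Dc c A (fun i => t ^ 2 * A i + t * B i + D i) =
      t ^ 2 * Dc c A A + t * Dc c A B + Dc c A D := by
  simp only [Dc, Finset.mul_sum, ← Finset.sum_add_distrib]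
  refine Finset.sum_congr rfl fun i _ => Finset.sum_congr rfl fun j _ =>
    Finset.sum_congr rfl fun k _ => ?_
  ring

theorem CE_left {ι R : Type*} [Fintype ι] [CommRing R] (c : ι → ι → ι → R) (t : R)
    (A B D : ι → R) : Dc c (fun i => t ^ 2 * A i + t * B i + D i) A =
      t ^ 4 * Dc c A A + t ^ 3 * Tc c A A B + t ^ 2 * (Tc c A A D + Dc c B A) +
        t * Tc c A B D + Dc c D A := by
  simp only [Dc, Tc, Finset.mul_sum, ← Finset.sum_add_distrib]
  refine Finset.sum_congr rfl fun i _ => Finset.sum_congr rfl fun j _ =>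
    Finset.sum_congr rfl fun k _ => ?_
  ring

/-- Conics `t² a + t b + d` with `a` in a linear subspace of `X`. Suppose the degree is odd.
If `a = 0`: `line_not_odd` (`y = d + b t`). Let `a ≠ 0`. `a ∈ extend E W`, so its image in `L` is
in `extend L W`, and `z := third c_L y a = D(a; y) y - D(y; a) a` (`c_L = cL L F`).
By `secantM` (for `y' = (y 0)⁻¹ • y`, `e, α` from `extend_basis`; `third` is homogeneous) `z` is generic
with odd degree. With `conic_coeffs` (over `E`):
`D(a; y) = D(a; d) = α`, `D(y; a) = α t² + β t + γ`, `β = T(a, b, d)`, `γ = D(d; a)` (use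
`T(a, b, a) = 2 D(a; b) = 0`, `T(a, d, a) = 2 α`, `D(b; a) = -α`, `D(a; a) = 3 F(a) = 0`), so
`z = α (t² a + t b + d) - (α t² + β t + γ) a = (α d - γ a) + (α b - β a) t`:
`line_not_odd` gives a contradiction. -/
theorem conic_even {N : ℕ} (hN : 4 ≤ N) {F : MvPolynomial (Fin (N + 1)) ℂ} (hF : VG F)
    {E L : Type*} [Field E] [Field L] [Algebra ℂ E] [Algebra ℂ L] [Algebra E L]
    [IsScalarTower ℂ E L] (t : L) (ht : Transcendental E t) (W : Submodule ℂ (Fin (N + 1) → ℂ))
    (hW : ∀ w ∈ W, eval w F = 0) (a b d : Fin (N + 1) → E) (ha : a ∈ extend E W)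
    (y : Fin (N + 1) → L) (hy : ∀ i, y i = t ^ 2 * algebraMap E L (a i) +
      t * algebraMap E L (b i) + algebraMap E L (d i))
    (hg : IsGP F y) : ¬ Odd (Module.finrank (ratioF y) L) := by
  intro hodd
  have hN2 : 2 ≤ N := by omega
  by_cases ha0 : a = 0
  · refine line_not_odd hN2 hF t ht d b y (fun i => ?_) hg hodd
    rw [hy, ha0, Pi.zero_apply, map_zero]
    ring
  obtain ⟨w, e, he, hw, heF, hext⟩ := extend_basis (n := N + 1) (by omega) hF W hW
  obtain ⟨α, hα⟩ := hext E a ha
  have hα0 : α ≠ 0 := by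
    rintro rfl
    apply ha0
    rw [hα]
    funext i
    simp
  set A : Fin (N + 1) → L := fun i => algebraMap E L (a i) with hA
  set B : Fin (N + 1) → L := fun i => algebraMap E L (b i) with hB
  set D : Fin (N + 1) → L := fun i => algebraMap E L (d i) with hD
  have hAe : A = fun i => ∑ k, algebraMap E L (α k) * algebraMap ℂ L (e k i) := by
    funext i
    rw [hA]
    simp only
    rw [hα]
    simp only [map_sum, map_mul, ← IsScalarTower.algebraMap_apply]
  have hαL : (fun k => algebraMap E L (α k)) ≠ 0 := by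
    intro h0
    apply hα0
    funext k
    have := congrFun h0 k
    simpa using this
  have hyeq : y = fun i => t ^ 2 * A i + t * B i + D i := funext hy
  -- normalise
  have hy0 : y 0 ≠ 0 := ((isGP_iff hN2 hF y).1 hg).1
  have hyi : (y 0)⁻¹ ≠ 0 := inv_ne_zero hy0
  have hg' : IsGP F ((y 0)⁻¹ • y) := IsGP.smul _ hyi y hg
  have hy1 : ((y 0)⁻¹ • y) 0 = 1 := by
    rw [Pi.smul_apply, smul_eq_mul, inv_mul_cancel₀ hy0]
  have hGp := ((isGP_iff hN2 hF _).1 hg')
  have hodd' : Odd (fd (ev ((y 0)⁻¹ • y))) := by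
    rw [← finrank_ratioF _ hGp.1, ratioF_smul _ hyi]
    exact hodd
  obtain ⟨h1, h2, h3, h4⟩ := secantM hN2 hF ((y 0)⁻¹ • y) hy1 hGp.2 hodd' e he hw heF
    (fun k => algebraMap E L (α k)) hαL
  rw [← hAe] at h1 h2 h3 h4
  have hthird : third (cL L F) y A = (y 0) ^ 2 • third (cL L F) ((y 0)⁻¹ • y) A := by
    have e1 : y = (y 0) • ((y 0)⁻¹ • y) := by
      rw [smul_smul, mul_inv_cancel₀ hy0, one_smul]
    have e2 : third (cL L F) ((y 0) • ((y 0)⁻¹ • y)) A =
        (y 0) ^ 2 • third (cL L F) ((y 0)⁻¹ • y) A := by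
      unfold third
      rw [Dc_smul_right, Dc_smul_left]
      funext i
      simp only [Pi.smul_apply, smul_eq_mul]
      ring
    rw [← e2, ← e1]
  have hz : IsGP F (third (cL L F) y A) := by
    rw [hthird]
    exact IsGP.smul _ (pow_ne_zero 2 hy0) _ ((isGP_iff hN2 hF _).2 ⟨h2, h3⟩)
  have hzodd : Odd (Module.finrank (ratioF (third (cL L F) y A)) L) := by
    rw [hthird, ratioF_smul _ (pow_ne_zero 2 hy0), finrank_ratioF _ h2]
    exact h4
  -- the coefficients
  have hc : cL L F = cm (algebraMap E L) (cL E F) := by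
    unfold cL
    rw [cm_comp, ← IsScalarTower.algebraMap_eq]
  have hFy : Fc (cm (algebraMap E L) (cL E F))
      (fun i => t ^ 2 * algebraMap E L (a i) + t * algebraMap E L (b i) +
        algebraMap E L (d i)) = 0 := by
    have e1 : aeval y F = 0 := (hg 3 F hF.1).2 dvd_rfl
    rw [aeval_eq_Fc hF.1] at e1
    rw [← hc]
    have e2 : (fun i => t ^ 2 * algebraMap E L (a i) + t * algebraMap E L (b i) +
        algebraMap E L (d i)) = y := (funext hy).symm
    rw [e2]
    exact e1
  obtain ⟨c6, c5, c4, -, -, -, -⟩ := conic_coeffs (cL E F) t ht a b d hFy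
  have cAA : Dc (cL L F) A A = 0 := by
    rw [hc, hA, Dc_cm, Dc_self, c6, mul_zero, map_zero]
  have cAB : Dc (cL L F) A B = 0 := by
    rw [hc, hA, hB, Dc_cm, c5, map_zero]
  have cAD : Dc (cL L F) A D = algebraMap E L (Dc (cL E F) a d) := by
    rw [hc, hA, hD, Dc_cm]
  have cBA : Dc (cL L F) B A = -algebraMap E L (Dc (cL E F) a d) := by
    rw [hc, hA, hB, Dc_cm, ← map_neg]
    congr 1
    exact (neg_eq_of_add_eq_zero_right c4).symm
  have cDA : Dc (cL L F) D A = algebraMap E L (Dc (cL E F) d a) := by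
    rw [hc, hA, hD, Dc_cm]
  have cT : Tc (cL L F) A B D = algebraMap E L (Tc (cL E F) a b d) := by
    rw [hc, hA, hB, hD, Tc_cm]
  have hzl : ∀ i, third (cL L F) y A i =
      algebraMap E L (Dc (cL E F) a d * d i - Dc (cL E F) d a * a i) +
      algebraMap E L (Dc (cL E F) a d * b i - Tc (cL E F) a b d * a i) * t := by
    intro i
    unfold third
    rw [hyeq, CE_right, CE_left, Tc_self, Tc_self, cAA, cAB, cAD, cBA, cDA, cT]
    simp only [map_sub, map_mul, hA, hB, hD]
    ring
  exact line_not_odd hN2 hF t ht _ _ _ hzl hz hzodd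

end Pool.Agent.Lib.MP_2619d0_ag.T
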