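import Pool.Agent.Lib.MP_2619d0_ag.T.B1

/-!
Row CE0: the cubic form on a conic.
-/

set_option autoImplicit false

namespace Pool.Agent.Lib.MP_2619d0_ag.T

open MvPolynomial

/-- expansion of a cubic form along a conic -/
theorem CE0_expand {ι S : Type*} [Fintype ι] [CommRing S] (c : ι → ι → ι → S) (t : S)
    (a b d : ι → S) :
    Fc c (t ^ 2 • a + t • b + d) =
      t ^ 6 * Fc c a + t ^ 5 * Dc c a b + t ^ 4 * (Dc c a d + Dc c b a) +
        t ^ 3 * (Fc c b + Tc c a b d) + t ^ 2 * (Dc c b d + Dc c d a) + t * Dc c d b + Fc c d := by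
  have hT : Tc c (t ^ 2 • a) (t • b) d = t ^ 3 * Tc c a b d := by
    rw [Tc_smul_left, Tc_comm, Tc_smul_left, Tc_comm]
    ring
  rw [Fc_add, Fc_line, Dc_add_left, Dc_smul_left, Dc_smul_left, hT, Dc_add_right, Dc_smul_right,
    Dc_smul_right]
  ring

/-- `F(t² a + t b + d) = ∑ c_k t ^ k` with `c_6 = F(a)`, `c_5 = D(a; b)`, `c_4 = D(a; d) + D(b; a)`,
`c_3 = F(b) + T(a, b, d)`, `c_2 = D(b; d) + D(d; a)`, `c_1 = D(d; b)`, `c_0 = F(d)` (`Fc_add`, `Dc_add_left`,
`Dc_add_right`, `Fc_cm`, …); a polynomial over `R` which vanishes at the transcendental element `t` is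
zero. -/
theorem conic_coeffs {ι R S : Type*} [Fintype ι] [Field R] [Field S] [Algebra R S]
    (c : ι → ι → ι → R) (t : S) (ht : Transcendental R t) (a b d : ι → R)
    (h : Fc (cm (algebraMap R S) c)
      (fun i => t ^ 2 * algebraMap R S (a i) + t * algebraMap R S (b i) + algebraMap R S (d i)) = 0) :
    Fc c a = 0 ∧ Dc c a b = 0 ∧ Dc c a d + Dc c b a = 0 ∧ Fc c b + Tc c a b d = 0 ∧
      Dc c b d + Dc c d a = 0 ∧ Dc c d b = 0 ∧ Fc c d = 0 := by
  have h1 : (fun i => t ^ 2 * algebraMap R S (a i) + t * algebraMap R S (b i) +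
      algebraMap R S (d i)) = t ^ 2 • (fun i => algebraMap R S (a i)) +
        t • (fun i => algebraMap R S (b i)) + (fun i => algebraMap R S (d i)) := by
    funext i
    simp [smul_eq_mul]
  rw [h1, CE0_expand] at h
  simp only [Fc_cm, Dc_cm, Tc_cm, ← map_add] at h
  set P : Polynomial R := Polynomial.C (Fc c a) * Polynomial.X ^ 6 +
    Polynomial.C (Dc c a b) * Polynomial.X ^ 5 +
    Polynomial.C (Dc c a d + Dc c b a) * Polynomial.X ^ 4 +
    Polynomial.C (Fc c b + Tc c a b d) * Polynomial.X ^ 3 +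
    Polynomial.C (Dc c b d + Dc c d a) * Polynomial.X ^ 2 +
    Polynomial.C (Dc c d b) * Polynomial.X + Polynomial.C (Fc c d) with hP
  have hP0 : P = 0 := by
    refine transcendental_iff.mp ht P ?_
    rw [hP]
    simp only [map_add, map_mul, map_pow, Polynomial.aeval_C, Polynomial.aeval_X] at h ⊢
    linear_combination h
  have hc : ∀ k, P.coeff k = 0 := fun k => by rw [hP0, Polynomial.coeff_zero]
  have h6 := hc 6
  have h5 := hc 5
  have h4 := hc 4
  have h3 := hc 3
  have h2 := hc 2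
  have h1' := hc 1
  have h0 := hc 0
  rw [hP] at h6 h5 h4 h3 h2 h1' h0
  simp only [Polynomial.coeff_add, Polynomial.coeff_C_mul, Polynomial.coeff_X_pow,
    Polynomial.coeff_X, Polynomial.coeff_C] at h6 h5 h4 h3 h2 h1' h0
  norm_num at h6 h5 h4 h3 h2 h1' h0
  exact ⟨h6, h5, h4, h3, h2, h1', h0⟩

end Pool.Agent.Lib.MP_2619d0_ag.T
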