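import Pool.Agent.Lib.MP_2619d0_ag.T.S1

/-!
Row G1: generic points in homogeneous coordinates.
-/

set_option autoImplicit false

namespace Pool.Agent.Lib.MP_2619d0_ag.T

open MvPolynomial

/-- `x` is a generic point of the projective hypersurface `F = 0` -/
def IsGP {m : ℕ} {L : Type*} [Field L] [Algebra ℂ L] (F : MvPolynomial (Fin m) ℂ)
    (x : Fin m → L) : Prop :=
  ∀ (d : ℕ) (G : MvPolynomial (Fin m) ℂ), G.IsHomogeneous d → (aeval x G = 0 ↔ F ∣ G)

/-- the field `ℂ(x_i / x_j)` -/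
noncomputable def ratioF {m : ℕ} {L : Type*} [Field L] [Algebra ℂ L] (x : Fin m → L) :
    IntermediateField ℂ L :=
  IntermediateField.adjoin ℂ {z : L | ∃ i j, z = x i / x j}

variable {N : ℕ} {F : MvPolynomial (Fin (N + 1)) ℂ} {L : Type*} [Field L] [Algebra ℂ L]

/-- a form is determined by its dehomogenisation -/
theorem G1_inj {d : ℕ} {P : MvPolynomial (Fin (N + 1)) ℂ} (hP : P.IsHomogeneous d)
    (h : dh ℂ N P = 0) : P = 0 := by
  let K := FractionRing (MvPolynomial (Fin (N + 1)) ℂ)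
  let x : Fin (N + 1) → K := fun i => algebraMap (MvPolynomial (Fin (N + 1)) ℂ) K (X i)
  have hinj : Function.Injective (algebraMap (MvPolynomial (Fin (N + 1)) ℂ) K) :=
    IsFractionRing.injective _ _
  have hx0 : x 0 ≠ 0 := by
    intro h0
    have h1 : (X 0 : MvPolynomial (Fin (N + 1)) ℂ) = 0 := by
      apply hinj
      rw [map_zero]
      exact h0
    exact X_ne_zero 0 h1
  have h2 := aeval_eq_dh (L := K) x hx0 hP
  rw [h, map_zero, mul_zero] at h2
  have h3 : aeval x P = algebraMap (MvPolynomial (Fin (N + 1)) ℂ) K P := by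
    have h4 := MvPolynomial.aeval_algebraMap_apply (A := MvPolynomial (Fin (N + 1)) ℂ) K
      (X : Fin (N + 1) → MvPolynomial (Fin (N + 1)) ℂ) P
    rw [aeval_X_left_apply] at h4
    exact h4
  apply hinj
  rw [map_zero, ← h3, h2]

theorem G1_coeff (hF : VG F) : coeff (Finsupp.single 1 3) F ≠ 0 := by
  have h := hF.2.ne_zero (⟨Finsupp.single 1 3, by simp⟩ : Exp3 (N + 1))
  exact h

theorem G1_X0 (hN : 2 ≤ N) (hF : VG F) : ¬ (X 0 : MvPolynomial (Fin (N + 1)) ℂ) ∣ F := by
  classical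
  rintro ⟨Q, hQ⟩
  apply G1_coeff hF
  rw [hQ, coeff_X_mul', if_neg]
  have h1 : (1 : Fin (N + 1)) ≠ 0 := by
    intro h
    have h2 := congrArg Fin.val h
    rw [Fin.val_one', Fin.val_zero, Nat.mod_eq_of_lt (by omega)] at h2
    omega
  rw [Finsupp.mem_support_iff, not_not]
  exact Finsupp.single_eq_of_ne h1.symm

theorem G1_dvd (hN : 2 ≤ N) (hF : VG F) {d : ℕ} {G : MvPolynomial (Fin (N + 1)) ℂ}
    (hG : G.IsHomogeneous d) (h : dh ℂ N F ∣ dh ℂ N G) : F ∣ G := by
  obtain ⟨H, hH⟩ := h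
  have h1 : X 0 ^ (3 + H.totalDegree) * G - X 0 ^ d * (F * homog H) = 0 := by
    apply G1_inj (d := 3 + H.totalDegree + d)
    · apply IsHomogeneous.sub
      · have h2 := (isHomogeneous_X ℂ (0 : Fin (N + 1))).pow (3 + H.totalDegree)
        have h3 := h2.mul hG
        simpa using h3
      · have h2 := (isHomogeneous_X ℂ (0 : Fin (N + 1))).pow d
        have h3 := h2.mul (hF.1.mul (homog_homogeneous H))
        have e : 1 * d + (3 + H.totalDegree) = 3 + H.totalDegree + d := by ring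
        rw [e] at h3
        exact h3
    · rw [map_sub, map_mul, map_mul, map_mul, map_pow, map_pow, dh_X_zero, one_pow, one_pow,
        one_mul, one_mul, dh_homog, hH, sub_self]
  have h2 : X 0 ^ (3 + H.totalDegree) * G = F * (X 0 ^ d * homog H) := by
    rw [sub_eq_zero] at h1
    rw [h1]
    ring
  have hX : Prime (X 0 : MvPolynomial (Fin (N + 1)) ℂ) := X_prime
  obtain ⟨Q, hQ⟩ := hX.pow_dvd_of_dvd_mul_left (3 + H.totalDegree) (G1_X0 hN hF)
    (Dvd.intro _ h2)
  rw [hQ] at h2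
  refine ⟨Q, ?_⟩
  apply mul_left_cancel₀ (pow_ne_zero (3 + H.totalDegree) (X_ne_zero (R := ℂ) (0 : Fin (N + 1))))
  rw [h2]
  ring

/-- See `point_even` in `MainPoint.lean` (`hx0`, `aeval_eq_dh`, `homog`, `dh_homog`).
`→`: `x 0 ≠ 0` because `F ∤ X 0` (`dh` of it would be a unit). For a polynomial `G` in the affine
coordinates let `H = homog G`, a form with `dh H = G`; `aeval x H = x_0 ^ d * ev x G`
(`aeval_eq_dh`), so `ev x G = 0 ↔ F ∣ H`, and `F ∣ H → dh F ∣ G`; conversely, if `G = dh F * G'` then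
`ev x G = 0` since `ev x (dh F) = 0` (`F ∣ F`).
`←`: for a form `G` of degree `d`: `aeval x G = x_0 ^ d * ev x (dh G)`, so `aeval x G = 0` iff
`dh F ∣ dh G`, which follows from `F ∣ G`; conversely `dh G = dh F * H'`: `homog H'` and `G`:
`X 0 ^ a * G = X 0 ^ b * F * homog H'` for some `a b` (two forms with the same dehomogenisation differ by a
power of `X 0`; compare coefficients, `coeff_dh…`), and `F` is prime (it is irreducible, or: `X 0` is prime,
`X 0 ∤ F` because `coeff (single 1 3) F ≠ 0`, so `X 0 ^ a` divides `X 0 ^ b * homog H'`). -/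
theorem isGP_iff (hN : 2 ≤ N) (hF : VG F) (x : Fin (N + 1) → L) :
    IsGP F x ↔ (x 0 ≠ 0 ∧ Gp F (ev x)) := by
  have hev : ∀ g, ev x g = aeval (fun j : Fin N => x j.succ / x 0) g := fun g => rfl
  constructor
  · intro hpt
    have hx0 : x 0 ≠ 0 := by
      intro h0
      obtain ⟨H, hH⟩ := (hpt 1 (X 0) (isHomogeneous_X _ _)).mp (by rw [aeval_X, h0])
      apply (prime_dh hN hF).not_isUnit
      refine IsUnit.of_mul_eq_one (dh ℂ N H) ?_
      rw [← map_mul, ← hH, dh_X_zero]
    refine ⟨hx0, fun g => ?_⟩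
    rw [hev]
    constructor
    · intro hg
      have h1 : aeval x (homog g) = 0 := by
        rw [aeval_eq_dh x hx0 (homog_homogeneous g), dh_homog, hg, mul_zero]
      obtain ⟨H, hH⟩ := (hpt _ _ (homog_homogeneous g)).mp h1
      refine ⟨dh ℂ N H, ?_⟩
      rw [← map_mul, ← hH, dh_homog]
    · rintro ⟨h, rfl⟩
      have h1 := (hpt 3 F hF.1).mpr (dvd_refl F)
      rw [aeval_eq_dh x hx0 hF.1] at h1
      have h2 := (mul_eq_zero.mp h1).resolve_left (pow_ne_zero _ hx0)
      rw [map_mul, h2, zero_mul]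
  · rintro ⟨hx0, hgp⟩ d G hG
    rw [aeval_eq_dh x hx0 hG, mul_eq_zero, or_iff_right (pow_ne_zero _ hx0), ← hev, hgp]
    constructor
    · exact G1_dvd hN hF hG
    · rintro ⟨Q, rfl⟩
      rw [map_mul]
      exact dvd_mul_right _ _

end Pool.Agent.Lib.MP_2619d0_ag.T
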