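import Pool.Agent.Lib.MP_2619d0_ag.T.OP
import Pool.Agent.Lib.MP_2619d0_ag.VeryGeneral

/-!
# Linear changes of coordinates
-/

set_option autoImplicit false

namespace Pool.Agent.Lib.MP_2619d0_ag.T

open MvPolynomial

variable {n : ℕ}

/-- the linear change of coordinates `F ↦ F(g x)` -/
noncomputable def lc (g : Matrix (Fin n) (Fin n) ℂ) :
    MvPolynomial (Fin n) ℂ →ₐ[ℂ] MvPolynomial (Fin n) ℂ :=
  aeval (fun i => ∑ j, C (g i j) * X j)

/-- the action on points -/
def mv {L : Type*} [Field L] [Algebra ℂ L] (g : Matrix (Fin n) (Fin n) ℂ) (v : Fin n → L) :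
    Fin n → L :=
  fun i => ∑ j, algebraMap ℂ L (g i j) * v j

section

variable {L : Type*} [Field L] [Algebra ℂ L] (g h : Matrix (Fin n) (Fin n) ℂ)

theorem aeval_lc (v : Fin n → L) (G : MvPolynomial (Fin n) ℂ) :
    aeval v (lc g G) = aeval (mv g v) G := by
  have h1 : (aeval v : MvPolynomial (Fin n) ℂ →ₐ[ℂ] L).comp (lc g) = aeval (mv g v) := by
    apply MvPolynomial.algHom_ext
    intro i
    simp [lc, mv]
  exact DFunLike.congr_fun h1 G

theorem lc_lc (G : MvPolynomial (Fin n) ℂ) : lc g (lc h G) = lc (h * g) G := by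
  have h1 : (lc g).comp (lc h) = lc (h * g) := by
    apply MvPolynomial.algHom_ext
    intro i
    simp only [lc, AlgHom.comp_apply, aeval_X, map_sum, map_mul, algHom_C, algebraMap_eq,
      Matrix.mul_apply, Finset.sum_mul, Finset.mul_sum]
    rw [Finset.sum_comm]
    refine Finset.sum_congr rfl fun j _ => Finset.sum_congr rfl fun k _ => ?_
    ring
  exact DFunLike.congr_fun h1 G

theorem lc_one (G : MvPolynomial (Fin n) ℂ) : lc (1 : Matrix (Fin n) (Fin n) ℂ) G = G := by
  have h1 : lc (1 : Matrix (Fin n) (Fin n) ℂ) = AlgHom.id ℂ _ := by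
    apply MvPolynomial.algHom_ext
    intro i
    simp [lc, Matrix.one_apply]
  rw [h1]
  rfl

theorem mv_mv (v : Fin n → L) : mv g (mv h v) = mv (g * h) v := by
  funext i
  simp only [mv, Matrix.mul_apply, map_sum, map_mul, Finset.sum_mul, Finset.mul_sum]
  rw [Finset.sum_comm]
  refine Finset.sum_congr rfl fun j _ => Finset.sum_congr rfl fun k _ => ?_
  ring

theorem mv_one (v : Fin n → L) : mv (1 : Matrix (Fin n) (Fin n) ℂ) v = v := by
  funext i
  simp [mv, Matrix.one_apply]

theorem mv_smul (c : L) (v : Fin n → L) : mv g (c • v) = c • mv g v := by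
  funext i
  simp only [mv, Pi.smul_apply, smul_eq_mul, Finset.mul_sum]
  refine Finset.sum_congr rfl fun j _ => ?_
  ring

theorem lc_isHomogeneous {G : MvPolynomial (Fin n) ℂ} {d : ℕ} (hG : G.IsHomogeneous d) :
    (lc g G).IsHomogeneous d := by
  have h := hG.aeval (fun i => ∑ j, C (g i j) * X j) (n := 1) (fun i =>
    IsHomogeneous.sum _ _ _ fun j _ => by
      simpa using (isHomogeneous_C (Fin n) (g i j)).mul (isHomogeneous_X ℂ j))
  simpa [lc] using h


theorem lc_inj (hg : g * h = 1) (F G : MvPolynomial (Fin n) ℂ) :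
    lc g F ∣ lc g G ↔ F ∣ G := by
  constructor
  · rintro ⟨Q, hQ⟩
    refine ⟨lc h Q, ?_⟩
    have h1 := congrArg (lc h) hQ
    rw [map_mul, lc_lc, lc_lc, hg, lc_one, lc_one] at h1
    exact h1
  · exact fun hd => map_dvd _ hd

theorem isGP_lc (hg : g * h = 1) (hh : h * g = 1) (F : MvPolynomial (Fin n) ℂ) (v : Fin n → L) :
    IsGP (lc g F) v ↔ IsGP F (mv g v) := by
  constructor
  · intro hv d G hG
    rw [← aeval_lc, hv d _ (lc_isHomogeneous g hG), lc_inj g h hg]
  · intro hv d G hG
    have h1 := hv d _ (lc_isHomogeneous h hG)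
    rw [← aeval_lc, lc_lc, hh, lc_one] at h1
    rw [h1, ← lc_inj g h hg F (lc h G), lc_lc, hh, lc_one]

theorem ratioF_mv_le (v : Fin n → L) : ratioF (mv g v) ≤ ratioF v := by
  refine IntermediateField.adjoin_le_iff.mpr ?_
  rintro z ⟨i, k, rfl⟩
  by_cases hv : v = 0
  · subst hv
    have h0 : mv g (0 : Fin n → L) i = 0 := by simp [mv]
    rw [h0, zero_div]
    exact zero_mem _
  · obtain ⟨l, hl⟩ := Function.ne_iff.mp hv
    have hl' : v l ≠ 0 := hl
    have hmem : ∀ i, mv g v i / v l ∈ ratioF v := by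
      intro i
      have h1 : mv g v i / v l = ∑ j, algebraMap ℂ L (g i j) * (v j / v l) := by
        simp only [mv, Finset.sum_div, mul_div_assoc]
      rw [h1]
      refine sum_mem fun j _ => mul_mem ((ratioF v).algebraMap_mem _) ?_
      exact IntermediateField.subset_adjoin _ _ ⟨j, l, rfl⟩
    have h2 : mv g v i / mv g v k = (mv g v i / v l) / (mv g v k / v l) := by
      rw [div_div_div_cancel_right₀ hl']
    rw [h2]
    exact div_mem (hmem i) (hmem k)

theorem ratioF_mv (hh : h * g = 1) (v : Fin n → L) :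
    ratioF (mv g v) = ratioF v := by
  refine le_antisymm (ratioF_mv_le g v) ?_
  have h1 := ratioF_mv_le h (mv g v)
  rwa [mv_mv, hh, mv_one] at h1

/-- the polar form -/
noncomputable def pol (F : MvPolynomial (Fin n) ℂ) (x y : Fin n → L) : L :=
  ∑ j, y j * aeval x (pderiv j F)

theorem pderiv_lc (F : MvPolynomial (Fin n) ℂ) (j : Fin n) :
    pderiv j (lc g F) = ∑ i, C (g i j) * lc g (pderiv i F) := by
  induction F using MvPolynomial.induction_on with
  | C a => simp [lc]
  | add p q hp hq => 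
    rw [map_add, map_add, hp, hq, ← Finset.sum_add_distrib]
    refine Finset.sum_congr rfl fun i _ => ?_
    rw [map_add, map_add]
    ring
  | mul_X p i hp =>
    have h1 : lc g (X i : MvPolynomial (Fin n) ℂ) = ∑ j, C (g i j) * X j := by simp [lc]
    have h2 : pderiv j (∑ j, C (g i j) * X j : MvPolynomial (Fin n) ℂ) = C (g i j) := by
      rw [map_sum]
      simp only [pderiv_C_mul, pderiv_X, Pi.single_apply]
      rw [Finset.sum_eq_single j]
      · simp
      · intro b _ hb
        simp [hb]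
      · simp
    rw [map_mul, h1, Derivation.leibniz, h2, hp]
    have h3 : ∀ i', pderiv i' (p * X i) = p * (if i' = i then 1 else 0) + X i * pderiv i' p := by
      intro i'
      rw [Derivation.leibniz, pderiv_X, Pi.single_apply]
      simp only [smul_eq_mul]
      congr 2
      simp [eq_comm]
    simp only [h3, map_add, map_mul, h1, smul_eq_mul, mul_add, Finset.sum_add_distrib]
    congr 1
    · rw [Finset.sum_eq_single i]
      · simp [mul_comm]
      · intro b _ hb
        simp [hb]
      · simp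
    · rw [Finset.mul_sum]
      refine Finset.sum_congr rfl fun k _ => ?_
      ring

theorem pol_lc (F : MvPolynomial (Fin n) ℂ) (x y : Fin n → L) :
    pol (lc g F) x y = pol F (mv g x) (mv g y) := by
  have h1 : ∀ j, aeval x (pderiv j (lc g F)) =
      ∑ i, algebraMap ℂ L (g i j) * aeval (mv g x) (pderiv i F) := by
    intro j
    rw [pderiv_lc, map_sum]
    refine Finset.sum_congr rfl fun i _ => ?_
    rw [map_mul, aeval_lc, algHom_C]
  simp only [pol, h1, mv, Finset.sum_mul, Finset.mul_sum]
  rw [Finset.sum_comm]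
  refine Finset.sum_congr rfl fun i _ => Finset.sum_congr rfl fun j _ => ?_
  ring

theorem third_lc (F : MvPolynomial (Fin n) ℂ) (x y : Fin n → L) :
    mv g (fun i => pol (lc g F) x y * y i - pol (lc g F) y x * x i) =
      fun i => pol F (mv g x) (mv g y) * mv g y i - pol F (mv g y) (mv g x) * mv g x i := by
  funext i
  simp only [pol_lc]
  simp only [mv, Finset.mul_sum]
  rw [← Finset.sum_sub_distrib]
  refine Finset.sum_congr rfl fun j _ => ?_
  ring

end

/-- the coefficients of `F(g x)` as linear forms in the coefficients of `F` (cubic forms) -/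
noncomputable def lcCoeff (g : Matrix (Fin n) (Fin n) ℂ) (d : Fin n →₀ ℕ) :
    MvPolynomial (Fin n →₀ ℕ) ℂ :=
  ∑ e : Exp3 n, C (coeff d (lc g (monomial e.1 1))) * X e.1

theorem eval_lcCoeff (g : Matrix (Fin n) (Fin n) ℂ) {F : MvPolynomial (Fin n) ℂ}
    (hF : F.IsHomogeneous 3) (d : Fin n →₀ ℕ) :
    eval (fun d => coeff d F) (lcCoeff g d) = coeff d (lc g F) := by
  have h1 : F = ∑ e : Exp3 n, C (coeff e.1 F) * monomial e.1 1 := by
    classical
    ext d
    rw [coeff_sum]
    simp only [coeff_C_mul, coeff_monomial]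
    by_cases h : d.degree = 3
    · rw [Finset.sum_eq_single (⟨d, h⟩ : Exp3 n)]
      · simp
      · intro b _ hb
        have h2 : b.1 ≠ d := fun h3 => hb (Subtype.ext h3)
        simp [h2]
      · simp
    · have h0 : coeff d F = 0 := by
        by_contra hne
        apply h
        exact degree_of_mem hF (mem_support_iff.mpr hne)
      rw [h0]
      symm
      refine Finset.sum_eq_zero fun b _ => ?_
      have h2 : b.1 ≠ d := fun h3 => h (h3 ▸ b.2)
      simp [h2]
  conv_rhs => rw [h1]
  rw [map_sum, coeff_sum, lcCoeff, map_sum]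
  refine Finset.sum_congr rfl fun e _ => ?_
  rw [map_mul, eval_C, eval_X, map_mul, lc, algHom_C, algebraMap_eq, coeff_C_mul]
  ring

theorem exists_conditions_lin (m : ℕ) (g h : Matrix (Fin m) (Fin m) ℂ)
    (hh : h * g = 1) : ∃ P : ℕ → MvPolynomial ((Fin m) →₀ ℕ) ℂ,
    (∀ k, ∃ G : MvPolynomial (Fin m) ℂ, G.IsHomogeneous 3 ∧
      MvPolynomial.eval (fun d => G.coeff d) (P k) ≠ 0) ∧
    ∀ F : MvPolynomial (Fin m) ℂ, F.IsHomogeneous 3 →
      (∀ k, MvPolynomial.eval (fun d => F.coeff d) (P k) ≠ 0) → VG F ∧ VG (lc g F) := by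
  obtain ⟨P, hP1, hP2⟩ := Pool.Agent.Lib.MP_2619d0_ag.exists_conditions m
  have hev : ∀ k (F : MvPolynomial (Fin m) ℂ), F.IsHomogeneous 3 →
      eval (fun d => coeff d F) (bind₁ (lcCoeff g) (P k)) =
        eval (fun d => coeff d (lc g F)) (P k) := by
    intro k F hF
    have h1 : (fun d => coeff d (lc g F)) = fun d => eval (fun d => coeff d F) (lcCoeff g d) :=
      funext fun d => (eval_lcCoeff g hF d).symm
    rw [h1]
    have h2 := aeval_bind₁ (R := ℂ) (f := fun d => coeff d F) (g := lcCoeff g) (φ := P k)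
    simpa only [aeval_eq_eval] using h2
  refine ⟨fun k => if k % 2 = 0 then P (k / 2) else bind₁ (lcCoeff g) (P (k / 2)), ?_, ?_⟩
  · intro k
    obtain ⟨G, hG, hGe⟩ := hP1 (k / 2)
    by_cases hk : k % 2 = 0
    · refine ⟨G, hG, ?_⟩
      simp only [hk, if_true]
      exact hGe
    · refine ⟨lc h G, lc_isHomogeneous h hG, ?_⟩
      simp only [hk, if_false]
      rw [hev _ _ (lc_isHomogeneous h hG), lc_lc, hh, lc_one]
      exact hGe
  · intro F hF hFP
    refine ⟨⟨hF, hP2 F hF ?_⟩, ⟨lc_isHomogeneous g hF, hP2 _ (lc_isHomogeneous g hF) ?_⟩⟩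
    · intro k
      have h1 := hFP (2 * k)
      have h2 : (2 * k) % 2 = 0 := by omega
      have h3 : (2 * k) / 2 = k := by omega
      simp only [h2, if_true, h3] at h1
      exact h1
    · intro k
      have h1 := hFP (2 * k + 1)
      have h2 : ¬ (2 * k + 1) % 2 = 0 := by omega
      have h3 : (2 * k + 1) / 2 = k := by omega
      simp only [h2, if_false, h3] at h1
      rw [hev k F hF] at h1
      exact h1

/-- every nonzero linear form is a coordinate after a linear change of coordinates -/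
theorem exists_matrix {m : ℕ} (l : Fin (m + 1) → ℂ) (hl : l ≠ 0) :
    ∃ g h : Matrix (Fin (m + 1)) (Fin (m + 1)) ℂ, g * h = 1 ∧ h * g = 1 ∧
      ∀ (L : Type*) [Field L] [Algebra ℂ L] (v : Fin (m + 1) → L),
        mv h v 0 = ∑ i, algebraMap ℂ L (l i) * v i := by
  classical
  obtain ⟨j, hj⟩ := Function.ne_iff.mp hl
  have hj' : l j ≠ 0 := hj
  set h : Matrix (Fin (m + 1)) (Fin (m + 1)) ℂ :=
    fun i k => if i = 0 then l k else if k = Equiv.swap 0 j i then 1 else 0 with hh
  have hdet : h.det ≠ 0 := by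
    intro h0
    obtain ⟨v, hv0, hv⟩ := Matrix.exists_mulVec_eq_zero_iff.mpr h0
    apply hv0
    have h1 : ∀ k, k ≠ j → v k = 0 := by
      intro k hk
      have h2 := congrFun hv (Equiv.swap 0 j k)
      have h3 : Equiv.swap 0 j k ≠ 0 := by
        intro h4
        apply hk
        have h5 := congrArg (Equiv.swap 0 j) h4
        rw [Equiv.swap_apply_self] at h5
        rw [h5, Equiv.swap_apply_left]
      simp only [Matrix.mulVec, dotProduct, hh, h3, if_false, Equiv.swap_apply_self,
        ite_mul, one_mul, zero_mul, Finset.sum_ite_eq', Finset.mem_univ, if_true,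
        Pi.zero_apply] at h2
      exact h2
    have h6 := congrFun hv 0
    simp only [Matrix.mulVec, dotProduct, hh, if_true, Pi.zero_apply] at h6
    rw [Finset.sum_eq_single j] at h6
    · have h7 := (mul_eq_zero.mp h6).resolve_left hj'
      funext k
      by_cases hk : k = j
      · rw [hk, h7, Pi.zero_apply]
      · rw [h1 k hk, Pi.zero_apply]
    · intro b _ hb
      rw [h1 b hb, mul_zero]
    · simp
  have hu : IsUnit h.det := isUnit_iff_ne_zero.mpr hdet
  refine ⟨h⁻¹, h, Matrix.nonsing_inv_mul h hu, Matrix.mul_nonsing_inv h hu, ?_⟩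
  intro L _ _ v
  simp only [mv, hh, if_true]

end Pool.Agent.Lib.MP_2619d0_ag.T
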