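import Pool.Agent.Lib.MP_2619d0_ag.T.Defs

/-!
Row LT1: the valuation ring of a prime of a Dedekind domain.
-/

set_option autoImplicit false

namespace Pool.Agent.Lib.MP_2619d0_ag.T

/-- `O` is the localisation `S_P` (a discrete valuation ring) as a subring of `M`; for instance
`O = (v.valuation M).valuationSubring` with `v : IsDedekindDomain.HeightOneSpectrum S` the prime `P`
(`v.valuation M`; `v.valuation_le_one`, `v.valuation_lt_one_iff_mem`, `v.valuation_le_pow_iff_mem`-type
lemmas), or the range of `Localization.AtPrime P → M`. (Note that `O.valuation` and `v.valuation M`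
are equivalent: `Valuation.isEquiv_valuation_valuationSubring`.)
* Third item: `x = a / b` with `b ∉ P` (`IsLocalization.AtPrime`; for the valuation of a height one
  prime: `exists a b` with `b ∉ P`), `P` is maximal, so `b c - 1 ∈ P` for some `c`, and
  `x - a c = (a / b) (1 - b c)` has valuation `< 1`.
* Fourth item: let `ϖ ∈ P`, `ϖ ∉ P ^ 2` (its valuation is the largest one `< 1`, the value group is
  `ℤ`); `a ∈ P ^ e`, `a ∉ P ^ (e + 1)` has the same valuation as `ϖ ^ e`.
* Last item: `{a | O'.valuation a < 1}` is a prime ideal of `S` that contains the maximal ideal `P`, so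
  it is `P`, and elements of `S` outside `P` are units of `O'`, hence `O ≤ O'`. If `x ∈ O'`,
  `x ∉ O` then `x⁻¹` has `O`-valuation `< 1`, so `x⁻¹ = a / b` with `a ∈ P`, `b ∉ P`, whose
  `O'`-valuation is `< 1`, so `x ∉ O'`. -/
theorem dedekind_place {S M : Type*} [CommRing S] [IsDedekindDomain S] [Field M] [Algebra S M]
    [IsFractionRing S M] (P : Ideal S) (hPp : P.IsPrime) (hP : P ≠ ⊥) :
    ∃ O : ValuationSubring M,
      (∀ a, algebraMap S M a ∈ O) ∧
      (∀ a, O.valuation (algebraMap S M a) < 1 ↔ a ∈ P) ∧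
      (∀ x ∈ O, ∃ a, O.valuation (x - algebraMap S M a) < 1) ∧
      (∀ (a : S) (e : ℕ), a ∈ P ^ e → a ∉ P ^ (e + 1) → HasOrd O (algebraMap S M a) e) ∧
      ∀ O' : ValuationSubring M, (∀ a, algebraMap S M a ∈ O') →
        (∀ a ∈ P, O'.valuation (algebraMap S M a) < 1) → O' = O := by
  classical
  let v : IsDedekindDomain.HeightOneSpectrum S := ⟨P, hPp, hP⟩
  have hmax : P.IsMaximal := v.isMaximal
  set V := v.valuation M with hV
  have hE : V.IsEquiv V.valuationSubring.valuation :=
    Valuation.isEquiv_valuation_valuationSubring V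
  have hlt : ∀ x, V.valuationSubring.valuation x < 1 ↔ V x < 1 := fun x =>
    (Valuation.isEquiv_iff_val_lt_one.mp hE).symm
  have heq : ∀ x, V.valuationSubring.valuation x = 1 ↔ V x = 1 := fun x =>
    (Valuation.isEquiv_iff_val_eq_one.mp hE).symm
  have hPmem : ∀ a : S, V (algebraMap S M a) < 1 ↔ a ∈ P := fun a =>
    v.valuation_lt_one_iff_mem a
  have hle1 : ∀ a : S, V (algebraMap S M a) ≤ 1 := fun a => v.valuation_le_one a
  have hquot : ∀ x : M, V x ≤ 1 → ∃ (n d : S), d ∉ P ∧ x * algebraMap S M d = algebraMap S M n := by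
    intro x hx
    obtain ⟨n, d, h⟩ := v.exists_primeCompl_mul_eq_of_integer (K := M) x hx
    exact ⟨n, d, d.2, h⟩
  have hval1 : ∀ d : S, d ∉ P → V (algebraMap S M d) = 1 := by
    intro d hd
    refine le_antisymm (hle1 d) ?_
    by_contra h
    exact hd ((hPmem d).mp (not_le.mp h))
  obtain ⟨π, hπ⟩ := v.valuation_exists_uniformizer' M
  rw [← hV] at hπ
  change V (algebraMap S M π) = WithZero.exp (-1) at hπ
  have hπ0 : algebraMap S M π ≠ 0 := by
    intro h
    rw [h, map_zero] at hπ
    exact absurd hπ.symm WithZero.exp_ne_zero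
  have hpow : ∀ (a : S) (n : ℕ), V (algebraMap S M a) ≤ WithZero.exp (-(n : ℤ)) ↔ a ∈ P ^ n := by
    intro a n
    rw [hV, v.valuation_of_algebraMap]
    exact v.intValuation_le_pow_iff_mem a n
  refine ⟨V.valuationSubring, fun a => hle1 a, fun a => ?_, fun x hx => ?_, fun a e h1 h2 => ?_,
    fun O' h1 h2 => ?_⟩
  · rw [hlt]
    exact hPmem a
  · obtain ⟨a, ha⟩ := v.exists_valuation_sub_lt_of_integer (K := M) (x := x) hx 1
    refine ⟨a, ?_⟩
    rw [hlt, Valuation.map_sub_swap]
    simpa using ha
  · refine ⟨algebraMap S M π, hπ0, ?_, fun b hb => ?_, algebraMap S M a / algebraMap S M π ^ e,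
      ?_, ?_⟩
    · rw [hlt, hπ, ← WithZero.exp_zero, WithZero.exp_lt_exp]
      norm_num
    · refine ⟨b / algebraMap S M π, ?_, (div_mul_cancel₀ b hπ0).symm⟩
      rw [hlt] at hb
      change V (b / algebraMap S M π) ≤ 1
      rw [map_div₀, hπ]
      rcases eq_or_ne (V b) 0 with h0 | h0
      · rw [h0, zero_div]
        exact zero_le_one
      · obtain ⟨k, hk⟩ : ∃ k : ℤ, V b = WithZero.exp k := ⟨_, (WithZero.exp_log h0).symm⟩
        rw [hk, ← WithZero.exp_zero, WithZero.exp_lt_exp] at hb
        rw [hk, ← WithZero.exp_sub, ← WithZero.exp_zero, WithZero.exp_le_exp]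
        omega
    · rw [heq, map_div₀, map_pow, hπ]
      have h3 := (hpow a e).mpr h1
      have h4 := (hpow a (e + 1)).not.mpr h2
      have h0 : V (algebraMap S M a) ≠ 0 := by
        intro h
        rw [h] at h4
        exact h4 zero_le
      obtain ⟨k, hk⟩ : ∃ k : ℤ, V (algebraMap S M a) = WithZero.exp k :=
        ⟨_, (WithZero.exp_log h0).symm⟩
      rw [hk, WithZero.exp_le_exp] at h3 h4
      have : k = -(e : ℤ) := by
        push_cast at h4
        omega
      rw [hk, this, ← WithZero.exp_nsmul, ← WithZero.exp_sub, ← WithZero.exp_zero]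
      congr 1
      simp
    · rw [div_mul_cancel₀ _ (pow_ne_zero _ hπ0)]
  · have hunit : ∀ d : S, d ∉ P → O'.valuation (algebraMap S M d) = 1 := by
      intro d hd
      obtain ⟨c, i, hi, hc⟩ := hmax.exists_inv hd
      have e1 : algebraMap S M c * algebraMap S M d = 1 - algebraMap S M i := by
        rw [← map_mul, ← map_one (algebraMap S M), ← map_sub]
        congr 1
        linear_combination hc
      have h3 : O'.valuation (1 - algebraMap S M i) = 1 := by
        rw [Valuation.map_sub_eq_of_lt_left]
        · exact map_one _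
        · rw [map_one]
          exact h2 i hi
      have h4 : O'.valuation (algebraMap S M c) * O'.valuation (algebraMap S M d) = 1 := by
        rw [← map_mul, e1, h3]
      have h5 := (O'.valuation_le_one_iff _).mpr (h1 c)
      have h6 := (O'.valuation_le_one_iff _).mpr (h1 d)
      refine le_antisymm h6 ?_
      rw [← h4]
      exact mul_le_of_le_one_left' h5
    ext x
    change x ∈ O' ↔ V x ≤ 1
    constructor
    · intro hx
      by_contra hcon
      rw [not_le] at hcon
      have hx0 : x ≠ 0 := by
        rintro rfl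
        rw [map_zero] at hcon
        exact not_lt_zero hcon
      have h3 : V x⁻¹ < 1 := by
        rw [map_inv₀]
        exact inv_lt_one_of_one_lt₀ hcon
      obtain ⟨n, d, hd, hnd⟩ := hquot x⁻¹ h3.le
      have h4 : n ∈ P := by
        rw [← hPmem, ← hnd, map_mul, hval1 d hd, mul_one]
        exact h3
      have h5 := h2 n h4
      rw [← hnd, map_mul, hunit d hd, mul_one, map_inv₀] at h5
      have h6 := (O'.valuation_le_one_iff x).mpr hx
      have h8 : O'.valuation x ≠ 0 := (Valuation.ne_zero_iff _).mpr hx0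
      have h7 : (O'.valuation x)⁻¹ * O'.valuation x < 1 := mul_lt_one_of_lt_of_le h5 h6
      rw [inv_mul_cancel₀ h8] at h7
      exact lt_irrefl _ h7
    · intro hx
      obtain ⟨n, d, hd, hnd⟩ := hquot x hx
      rw [← O'.valuation_le_one_iff]
      have h3 : O'.valuation (x * algebraMap S M d) ≤ 1 := by
        rw [hnd]
        exact (O'.valuation_le_one_iff _).mpr (h1 n)
      rwa [map_mul, hunit d hd, mul_one] at h3

end Pool.Agent.Lib.MP_2619d0_ag.T
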