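import Pool.Agent.Lib.MP_2619d0_ag.T.LT2

/-!
Row LT3: the fundamental identity for the divisor `f = 0` of affine space.
-/

set_option autoImplicit false

namespace Pool.Agent.Lib.MP_2619d0_ag.T

open MvPolynomial

/-- an element of the closure: quotient -/
theorem LT3_div_mem {K R : Type*} [Field K] [CommRing R] (χ : R →+* K) (a b : R) (x : K)
    (hb : χ b ≠ 0) (h : x * χ b = χ a) : x ∈ Subfield.closure (Set.range χ) := by
  have h1 : x = χ a / χ b := by rw [eq_div_iff hb]; exact h
  rw [h1]
  exact Subfield.div_mem _ (Subfield.subset_closure ⟨a, rfl⟩) (Subfield.subset_closure ⟨b, rfl⟩)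

/-- Apply `fi_dvr` to `A = Localization.AtPrime (Ideal.span {f})` (a discrete valuation ring: noetherian
local domain, the maximal ideal is generated by `f ≠ 0`; e.g.
`((IsDiscreteValuationRing.TFAE A _).out ..)` or
`IsDiscreteValuationRing.ofHasUnitMulPowIrreducibleFactorization`) and `j` = the extension of `ψ`
(`IsLocalization.lift`: the images of the polynomials not divisible by `f` are nonzero, hence units).
Characteristic zero: `ψ.comp C` embeds `ℂ`. `Subfield.closure (range j) = cl ψ`, since
`j (G / H) = ψ G / ψ H`. For a valuation ring `O` of `M`: `O` is `Over f ψ` iff the condition of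
`fi_dvr` holds (`O.valuation (ψ H) = 1` for `H` not divisible by `f`), `f` is irreducible in `A`, and the
closures of the ranges of `rh ψ O h` and of `A → ResidueField O` are equal. -/
theorem places {N : ℕ} {M : Type*} [Field M] (ψ : MvPolynomial (Fin N) ℂ →+* M)
    (hψ : Function.Injective ψ) (hfd : fd ψ ≠ 0) (f : MvPolynomial (Fin N) ℂ) (hf : Prime f) :
    ∃ (s : Finset (ValuationSubring M)) (e d : ValuationSubring M → ℕ),
      (∀ O, O ∈ s ↔ Over f ψ O) ∧ (∀ O ∈ s, HasOrd O (ψ f) (e O)) ∧
      (∀ O ∈ s, ∀ h : ∀ G, ψ G ∈ O, fd (rh ψ O h) = d O) ∧ ∑ O ∈ s, e O * d O = fd ψ := by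
  have hp : (Ideal.span {f}).IsPrime := (Ideal.span_singleton_prime hf.ne_zero).mpr hf
  let A := Localization.AtPrime (Ideal.span {f})
  have hle : (Ideal.span {f}).primeCompl ≤ nonZeroDivisors (MvPolynomial (Fin N) ℂ) :=
    Ideal.primeCompl_le_nonZeroDivisors (Ideal.span {f})
  have hdom : IsDomain A := IsLocalization.isDomain_localization hle
  have hnoeth : IsNoetherianRing A := IsLocalization.isNoetherianRing (Ideal.span {f}).primeCompl A inferInstance
  have hinjA : Function.Injective (algebraMap (MvPolynomial (Fin N) ℂ) A) :=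
    IsLocalization.injective A hle
  have hmax : IsLocalRing.maximalIdeal A = Ideal.span {algebraMap (MvPolynomial (Fin N) ℂ) A f} := by
    rw [← IsLocalization.AtPrime.map_eq_maximalIdeal (Ideal.span {f}) A, Ideal.map_span,
      Set.image_singleton]
  have hfA : algebraMap (MvPolynomial (Fin N) ℂ) A f ≠ 0 := by
    intro h
    exact hf.ne_zero (hinjA (by rw [h, map_zero]))
  have hnf : ¬ IsField A := by
    intro h
    rw [IsLocalRing.isField_iff_maximalIdeal_eq, hmax, Ideal.span_singleton_eq_bot] at h
    exact hfA h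
  have hdvr : IsDiscreteValuationRing A := by
    refine ((IsDiscreteValuationRing.TFAE A hnf).out 0 4).mpr ?_
    rw [hmax]
    exact ⟨⟨_, rfl⟩⟩
  have hirr : Irreducible (algebraMap (MvPolynomial (Fin N) ℂ) A f) :=
    (IsDiscreteValuationRing.irreducible_iff_uniformizer _).mpr hmax
  have hunit : ∀ y : (Ideal.span {f}).primeCompl, IsUnit (ψ y) := by
    intro y
    rw [isUnit_iff_ne_zero]
    intro h
    have h0 : (y : MvPolynomial (Fin N) ℂ) = 0 := hψ (by rw [h, map_zero])
    apply y.2
    rw [h0]
    exact Ideal.zero_mem _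
  let j : A →+* M := IsLocalization.lift hunit
  have hj1 : ∀ G, j (algebraMap (MvPolynomial (Fin N) ℂ) A G) = ψ G := fun G =>
    IsLocalization.lift_eq hunit G
  have hjmul : ∀ (G : MvPolynomial (Fin N) ℂ) (H : (Ideal.span {f}).primeCompl),
      j (IsLocalization.mk' A G H) * ψ H = ψ G := by
    intro G H
    rw [← hj1, ← hj1, ← map_mul, IsLocalization.mk'_spec]
  have hψne : ∀ H : (Ideal.span {f}).primeCompl, ψ H ≠ 0 := fun H => (hunit H).ne_zero
  have hj : Function.Injective j := by
    rw [injective_iff_map_eq_zero]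
    intro a ha
    obtain ⟨G, H, rfl⟩ := IsLocalization.exists_mk'_eq (Ideal.span {f}).primeCompl a
    have h1 := hjmul G H
    rw [ha, zero_mul] at h1
    have h2 : G = 0 := hψ (by rw [← h1, map_zero])
    rw [h2, IsLocalization.mk'_zero]
  have hchar : CharZero M := charZero_of_injective_ringHom (f := ψ.comp C) (ψ.comp C).injective
  have hcl : Subfield.closure (Set.range j) = cl ψ := by
    apply le_antisymm
    · rw [Subfield.closure_le]
      rintro _ ⟨a, rfl⟩
      obtain ⟨G, H, rfl⟩ := IsLocalization.exists_mk'_eq (Ideal.span {f}).primeCompl a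
      exact LT3_div_mem ψ G H _ (hψne H) (hjmul G H)
    · unfold cl
      rw [Subfield.closure_le]
      rintro _ ⟨G, rfl⟩
      exact Subfield.subset_closure ⟨_, hj1 G⟩
  have hfin : Module.finrank (Subfield.closure (Set.range j)) M = fd ψ := by
    rw [hcl]; rfl
  obtain ⟨s, e, d, h1, h2, h3, h4⟩ := fi_dvr j hj (by rw [hfin]; exact hfd)
  have hmem : ∀ G, algebraMap (MvPolynomial (Fin N) ℂ) A G ∈ IsLocalRing.maximalIdeal A ↔ f ∣ G := by
    intro G
    rw [IsLocalization.AtPrime.to_map_mem_maximal_iff A (Ideal.span {f}), Ideal.mem_span_singleton]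
  refine ⟨s, e, d, ?_, ?_, ?_, ?_⟩
  · intro O
    rw [h1]
    constructor
    · rintro ⟨ha, hb⟩
      refine ⟨fun G => ?_, fun G => ?_⟩
      · rw [← hj1]; exact ha _
      · rw [← hj1, hb, hmem]
    · rintro ⟨ha, hb⟩
      have hH : ∀ H : (Ideal.span {f}).primeCompl, O.valuation (ψ H) = 1 := by
        intro H
        apply le_antisymm ((O.valuation_le_one_iff _).mpr (ha _))
        rw [← not_lt]
        intro hlt
        rw [hb, ← Ideal.mem_span_singleton] at hlt
        exact H.2 hlt
      have hval : ∀ (G : MvPolynomial (Fin N) ℂ) (H : (Ideal.span {f}).primeCompl),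
          O.valuation (j (IsLocalization.mk' A G H)) = O.valuation (ψ G) := by
        intro G H
        rw [← hjmul G H, map_mul, hH, mul_one]
      refine ⟨fun a => ?_, fun a => ?_⟩
      · obtain ⟨G, H, rfl⟩ := IsLocalization.exists_mk'_eq (Ideal.span {f}).primeCompl a
        rw [← O.valuation_le_one_iff, hval, O.valuation_le_one_iff]
        exact ha G
      · obtain ⟨G, H, rfl⟩ := IsLocalization.exists_mk'_eq (Ideal.span {f}).primeCompl a
        rw [hval, hb, IsLocalization.AtPrime.mk'_mem_maximal_iff A (Ideal.span {f}),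
          Ideal.mem_span_singleton]
  · intro O hO
    rw [← hj1]
    exact h2 O hO _ hirr
  · intro O hO h
    have hO1 := (h1 O).mp hO
    rw [← h3 O hO hO1.1]
    have hcl2 : Subfield.closure (Set.range ((IsLocalRing.residue O).comp
        (j.codRestrict O hO1.1))) = cl (rh ψ O h) := by
      apply le_antisymm
      · rw [Subfield.closure_le]
        rintro _ ⟨a, rfl⟩
        obtain ⟨G, H, rfl⟩ := IsLocalization.exists_mk'_eq (Ideal.span {f}).primeCompl a
        refine LT3_div_mem (rh ψ O h) G H _ ?_ ?_
        · intro h0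
          have h5 : (ψ.codRestrict O h) (H : MvPolynomial (Fin N) ℂ) ∈ IsLocalRing.maximalIdeal O := by
            rw [← IsLocalRing.residue_eq_zero_iff]
            exact h0
          rw [ValuationSubring.valuation_lt_one_iff] at h5
          have h6 : O.valuation (ψ H) < 1 := h5
          rw [← hj1, hO1.2, hmem, ← Ideal.mem_span_singleton] at h6
          exact H.2 h6
        · have h7 : (j.codRestrict O hO1.1) (IsLocalization.mk' A G H) * (ψ.codRestrict O h) H =
              (ψ.codRestrict O h) G := Subtype.ext (hjmul G H)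
          have h8 := congrArg (IsLocalRing.residue O) h7
          rw [map_mul] at h8
          exact h8
      · unfold cl
        rw [Subfield.closure_le]
        rintro _ ⟨G, rfl⟩
        refine Subfield.subset_closure ⟨algebraMap (MvPolynomial (Fin N) ℂ) A G, ?_⟩
        have h7 : (j.codRestrict O hO1.1) (algebraMap (MvPolynomial (Fin N) ℂ) A G) =
              (ψ.codRestrict O h) G := Subtype.ext (hj1 G)
        exact congrArg (IsLocalRing.residue O) h7
    unfold fd
    rw [← hcl2]
  · rw [h4, hfin]

end Pool.Agent.Lib.MP_2619d0_ag.T
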