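import Pool.Agent.Lib.MP_2619d0_ag.T.B1

/-!
Row N1: a very general cubic contains no linear subspaces of half dimension (transcendence degree).
-/

set_option autoImplicit false

namespace Pool.Agent.Lib.MP_2619d0_ag.T

open MvPolynomial

/-- A subspace of dimension at least `w` contains the image of a matrix `A` with an identity block in
the rows `J`. Take `w` linearly independent vectors of `W` as the columns of a matrix, choose `w`
independent rows `J` (for example the row rank equals the column rank), multiply by the inverse of the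
square block. -/
theorem exists_echelon {n w : ℕ} (W : Submodule ℂ (Fin n → ℂ)) (hw : w ≤ Module.finrank ℂ W) :
    ∃ (J : Fin w → Fin n) (A : Fin n → Fin w → ℂ), Function.Injective J ∧
      (∀ a b, A (J a) b = if a = b then 1 else 0) ∧
      ∀ t : Fin w → ℂ, (fun i => ∑ b, A i b * t b) ∈ W := by
  classical
  -- the vectors
  let e := Module.finBasis ℂ W
  let v : Fin w → W := fun a => e (Fin.castLE hw a)
  have hv : LinearIndependent ℂ v := e.linearIndependent.comp _ (Fin.castLE_injective hw)
  have hv' : LinearIndependent ℂ (fun a => (v a : Fin n → ℂ)) := by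
    have := hv.map' W.subtype (Submodule.ker_subtype W)
    exact this
  let M : Matrix (Fin n) (Fin w) ℂ := Matrix.of fun i b => (v b : Fin n → ℂ) i
  have hMr : M.rank = w := by
    have h1 : LinearIndependent ℂ (M.transpose).row := hv'
    have h2 := h1.rank_matrix
    rw [Matrix.rank_transpose, Fintype.card_fin] at h2
    exact h2
  have hspan : Submodule.span ℂ (Set.range M.row) = ⊤ := by
    apply Submodule.eq_top_of_finrank_eq
    rw [← Matrix.rank_eq_finrank_span_row, hMr]
    simp
  obtain ⟨κ, a, ha, hsp, hli⟩ := exists_linearIndependent' ℂ M.row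
  rw [hspan] at hsp
  haveI : Finite κ := Finite.of_injective a ha
  haveI := Fintype.ofFinite κ
  have hcard : Fintype.card κ = w := by
    let B := Module.Basis.mk hli (by rw [hsp])
    have := Module.finrank_eq_card_basis B
    simpa using this.symm
  let E : Fin w ≃ κ := (Fintype.equivFinOfCardEq hcard).symm
  let J : Fin w → Fin n := fun b => a (E b)
  let Q : Matrix (Fin w) (Fin w) ℂ := Matrix.of fun i j => M (J i) j
  have hQ : IsUnit Q := by
    rw [← Matrix.linearIndependent_rows_iff_isUnit]
    have := hli.comp E E.injective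
    exact this
  have hQdet : IsUnit Q.det := (Matrix.isUnit_iff_isUnit_det Q).1 hQ
  refine ⟨J, fun i b => (M * Q⁻¹) i b, fun x y hxy => E.injective (ha hxy), ?_, ?_⟩
  · intro i b
    have h1 : Q * Q⁻¹ = 1 := Matrix.mul_nonsing_inv Q hQdet
    have h2 := congrFun (congrFun h1 i) b
    rw [Matrix.one_apply] at h2
    rw [← h2]
    rfl
  · intro t
    have : (fun i => ∑ b, (M * Q⁻¹) i b * t b) = ∑ b, (Q⁻¹.mulVec t) b • (v b : Fin n → ℂ) := by
      funext i
      have h1 : (∑ b, (M * Q⁻¹) i b * t b) = ((M * Q⁻¹).mulVec t) i := rfl
      rw [h1, ← Matrix.mulVec_mulVec, Finset.sum_apply]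
      simp only [Matrix.mulVec, dotProduct, Pi.smul_apply, smul_eq_mul]
      exact Finset.sum_congr rfl fun b _ => by simp only [M, Matrix.of_apply]; ring
    rw [this]
    exact W.sum_mem fun b _ => W.smul_mem _ (v b).2

end Pool.Agent.Lib.MP_2619d0_ag.T
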