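import Pool.Agent.Lib.MP_2619d0_ag.T.N1

/-!
Row N2: a very general cubic contains no linear subspaces of half dimension (transcendence degree).
-/

set_option autoImplicit false

namespace Pool.Agent.Lib.MP_2619d0_ag.T

open MvPolynomial

theorem N2_card {ι κ : Type} [Fintype ι] [Fintype κ] {x : ι → ℂ} (hx : AlgebraicIndependent ℚ x)
    (y : κ → ℂ) (h : ∀ i, x i ∈ (aeval y : MvPolynomial κ ℚ →ₐ[ℚ] ℂ).range) :
    Fintype.card ι ≤ Fintype.card κ := by
  set B := (aeval y : MvPolynomial κ ℚ →ₐ[ℚ] ℂ).range with hB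
  have h1 : AlgebraicIndependent ℚ (fun i => (⟨x i, h i⟩ : B)) :=
    AlgebraicIndependent.of_comp B.val (by exact hx)
  have h2 := h1.cardinalMk_le_trdeg
  have h3 := trdeg_le_of_surjective (aeval y : MvPolynomial κ ℚ →ₐ[ℚ] ℂ).rangeRestrict
    (AlgHom.rangeRestrict_surjective _)
  rw [MvPolynomial.trdeg_of_isDomain] at h3
  have h4 := h2.trans h3
  rw [Cardinal.mk_fintype, Cardinal.mk_fintype, Cardinal.lift_natCast] at h4
  exact_mod_cast h4

theorem N2_exp3 (w : ℕ) : Fintype.card (Exp3 w) = (w + 2).choose 3 := by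
  have h1 : Fintype.card (Exp3 w) = Fintype.card (Sym (Fin w) 3) := by
    refine Fintype.card_congr ?_
    refine (Equiv.subtypeEquivRight ?_).trans (Sym.equivNatSum (Fin w) 3).symm
    intro d
    rfl
  rw [h1, Sym.card_sym_eq_choose, Fintype.card_fin]
  rfl

/-- exponents supported in the range of `J` -/
theorem N2_exists_map {n w : ℕ} {J : Fin w → Fin n} (hJ : Function.Injective J) (d : Fin n →₀ ℕ)
    (hd : (d.support : Set (Fin n)) ⊆ Set.range J) :
    ∃ d' : Fin w →₀ ℕ, Finsupp.mapDomain J d' = d := by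
  refine ⟨d.comapDomain J hJ.injOn, ?_⟩
  exact Finsupp.mapDomain_comapDomain J hJ d hd

theorem N2_degree_map {n w : ℕ} (J : Fin w → Fin n) (d' : Fin w →₀ ℕ) :
    (Finsupp.mapDomain J d').degree = d'.degree := by
  rw [Finsupp.degree_apply, Finsupp.degree_apply]
  exact Finsupp.sum_mapDomain_index (h := fun _ m => m) (fun _ => rfl) (fun _ _ _ => rfl)

theorem N2_count {n w : ℕ} {J : Fin w → Fin n} (hJ : Function.Injective J)
    [Fintype {d : Exp3 n // (d.1.support : Set (Fin n)) ⊆ Set.range J}] :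
    (w + 2).choose 3 ≤ Fintype.card {d : Exp3 n // (d.1.support : Set (Fin n)) ⊆ Set.range J} := by
  classical
  rw [← N2_exp3]
  refine Fintype.card_le_of_injective (fun d' : Exp3 w =>
    (⟨⟨Finsupp.mapDomain J d'.1, by rw [N2_degree_map, d'.2]⟩, ?_⟩ :
      {d : Exp3 n // (d.1.support : Set (Fin n)) ⊆ Set.range J})) ?_
  · intro i hi
    have := Finsupp.mapDomain_support hi
    rw [Finset.mem_image] at this
    obtain ⟨a, _, ha⟩ := this
    exact ⟨a, ha⟩
  · intro a b hab
    have h1 := congrArg (fun q => q.1.1) hab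
    exact Subtype.ext (Finsupp.mapDomain_injective hJ h1)

/-- the substitution of linear forms -/
noncomputable def N2_lin {R : Type*} [CommRing R] {n w : ℕ} (A : Fin n → Fin w → R) (i : Fin n) :
    MvPolynomial (Fin w) R := ∑ b, C (A i b) * X b

theorem N2_lin_map {R S : Type*} [CommRing R] [CommRing S] (φ : R →+* S) {n w : ℕ}
    (A : Fin n → Fin w → R) (i : Fin n) :
    map φ (N2_lin A i) = N2_lin (fun i b => φ (A i b)) i := by
  simp [N2_lin]

theorem N2_lin_J {n w : ℕ} {J : Fin w → Fin n} {A : Fin n → Fin w → ℂ}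
    (hA : ∀ a b, A (J a) b = if a = b then 1 else 0) (a : Fin w) : N2_lin A (J a) = X a := by
  unfold N2_lin
  rw [Finset.sum_eq_single a]
  · rw [hA, if_pos rfl, C_1, one_mul]
  · intro b _ hb
    rw [hA, if_neg hb.symm, C_0, zero_mul]
  · intro h
    exact absurd (Finset.mem_univ a) h

/-- a subspace of dimension at least ... -/
theorem N2_mono_J {n w : ℕ} {J : Fin w → Fin n} (hJ : Function.Injective J)
    {A : Fin n → Fin w → ℂ} (hA : ∀ a b, A (J a) b = if a = b then 1 else 0)
    (d' : Fin w →₀ ℕ) :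
    ∏ i, N2_lin A i ^ (Finsupp.mapDomain J d') i = monomial d' 1 := by
  classical
  have h1 : ∏ i, N2_lin A i ^ (Finsupp.mapDomain J d') i =
      (Finsupp.mapDomain J d').prod fun i k => N2_lin A i ^ k := by
    rw [Finsupp.prod_fintype]
    intro i
    exact pow_zero _
  rw [h1, Finsupp.prod_mapDomain_index_inj hJ]
  simp only [N2_lin_J hA]
  rw [monomial_eq, C_1, one_mul]

theorem N2_coeff {n w : ℕ} {F : MvPolynomial (Fin n) ℂ} {J : Fin w → Fin n}
    (hJ : Function.Injective J) {A : Fin n → Fin w → ℂ}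
    (hA : ∀ a b, A (J a) b = if a = b then 1 else 0)
    (hFA : ∀ t : Fin w → ℂ, aeval (fun i => ∑ b, A i b * t b) F = 0) (B : Subalgebra ℚ ℂ)
    (hAB : ∀ i b, A i b ∈ B)
    (hFB : ∀ d : Fin n →₀ ℕ, ¬ (d.support : Set (Fin n)) ⊆ Set.range J → coeff d F ∈ B)
    (d : Fin n →₀ ℕ) (hd : (d.support : Set (Fin n)) ⊆ Set.range J) : coeff d F ∈ B := by
  classical
  obtain ⟨d', rfl⟩ := N2_exists_map hJ d hd
  have hG : aeval (N2_lin A) F = 0 := by
    apply MvPolynomial.funext
    intro t
    rw [map_zero]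
    have h1 : eval t (aeval (N2_lin A) F) = aeval (fun i => ∑ b, A i b * t b) F := by
      rw [← coe_aeval_eq_eval]
      have h2 : (aeval t : MvPolynomial (Fin w) ℂ →ₐ[ℂ] ℂ) (aeval (N2_lin A) F) =
          ((aeval t : MvPolynomial (Fin w) ℂ →ₐ[ℂ] ℂ).comp (aeval (N2_lin A))) F := rfl
      rw [RingHom.coe_coe, h2, comp_aeval]
      congr 2
      funext i
      simp [N2_lin]
    rw [h1, hFA]
  have hsum : aeval (N2_lin A) F = ∑ e ∈ F.support, C (coeff e F) * ∏ i, N2_lin A i ^ e i := by
    rw [aeval_def, eval₂_eq']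
    rfl
  rw [hsum] at hG
  have hco := congrArg (coeff d') hG
  rw [coeff_zero, coeff_sum] at hco
  simp only [coeff_C_mul] at hco
  have hmem : ∀ e ∈ F.support, e ≠ Finsupp.mapDomain J d' →
      coeff e F * coeff d' (∏ i, N2_lin A i ^ e i) ∈ B := by
    intro e _ hne
    by_cases hsub : (e.support : Set (Fin n)) ⊆ Set.range J
    · obtain ⟨e', rfl⟩ := N2_exists_map hJ e hsub
      rw [N2_mono_J hJ hA, coeff_monomial, if_neg, mul_zero]
      · exact B.zero_mem
      · intro h
        exact hne (by rw [h])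
    · refine B.mul_mem (hFB e hsub) ?_
      have h1 : ∏ i, N2_lin A i ^ e i = map (B.val : B →+* ℂ)
          (∏ i, N2_lin (fun i b => (⟨A i b, hAB i b⟩ : B)) i ^ e i) := by
        rw [map_prod]
        refine Finset.prod_congr rfl fun i _ => ?_
        rw [map_pow, N2_lin_map]
        rfl
      rw [h1, coeff_map]
      exact (coeff d' _ : B).2
  have hself : coeff (Finsupp.mapDomain J d') F *
      coeff d' (∏ i, N2_lin A i ^ (Finsupp.mapDomain J d') i) =
        coeff (Finsupp.mapDomain J d') F := by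
    rw [N2_mono_J hJ hA, coeff_monomial, if_pos rfl, mul_one]
  by_cases hin : Finsupp.mapDomain J d' ∈ F.support
  · rw [← Finset.add_sum_erase _ _ hin, hself] at hco
    have h2 : coeff (Finsupp.mapDomain J d') F = -∑ e ∈ F.support.erase (Finsupp.mapDomain J d'),
        coeff e F * coeff d' (∏ i, N2_lin A i ^ e i) := by
      linear_combination hco
    rw [h2]
    refine B.neg_mem (B.sum_mem fun e he => ?_)
    rw [Finset.mem_erase] at he
    exact hmem e he.2 he.1
  · rw [notMem_support_iff] at hin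
    rw [hin]
    exact B.zero_mem

/-- Suppose `F` vanishes on the image of `A`. Let `E_J` be the exponents `d : Exp3 n` supported in
`range J` (there are `(w + 2).choose 3` of them) and `S` the set of all coefficients of `F` at the other
exponents and all `A i b` with `i ∉ range J`; `|S| ≤ |Exp3 n| - (w + 2).choose 3 + (n - w) w`. For
`d ∈ E_J` the coefficient of the monomial `t^{d ∘ J}` in the polynomial
`Fc (cub F) (fun i => ∑ b, A i b t_b)` (which vanishes at all `t`, so is the zero polynomial: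
`MvPolynomial.funext`) is `coeff d F` + an integral polynomial in the elements of `S` (the monomials of
`F` supported in `range J` contribute only to their own monomial because of the identity block). So
all coefficients of `F` are in the field `ℚ(S)`, whose transcendence degree over `ℚ` is at most `|S|`;
they are algebraically independent, so `|Exp3 n| ≤ |S|` (`AlgebraicIndependent` and `Algebra.trdeg`).
It may help to work with `aeval (fun i => ∑ b, C (A i b) * X b) F` and the monomials of `F`. -/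
theorem echelon_false {n w : ℕ} {F : MvPolynomial (Fin n) ℂ} (hF : VG F)
    (hnum : (n - w) * w < (w + 2).choose 3) (J : Fin w → Fin n) (hJ : Function.Injective J)
    (A : Fin n → Fin w → ℂ) (hA : ∀ a b, A (J a) b = if a = b then 1 else 0)
    (hFA : ∀ t : Fin w → ℂ, aeval (fun i => ∑ b, A i b * t b) F = 0) : False := by
  classical
  let P : Exp3 n → Prop := fun d => (d.1.support : Set (Fin n)) ⊆ Set.range J
  let y : {d : Exp3 n // ¬ P d} ⊕ ({i : Fin n // ¬ i ∈ Set.range J} × Fin w) → ℂ :=
    Sum.elim (fun d => coeff d.1.1 F) (fun q => A q.1.1 q.2)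
  have hyB : ∀ s, y s ∈ (aeval y : MvPolynomial _ ℚ →ₐ[ℚ] ℂ).range := by
    intro s
    exact ⟨X s, by simp⟩
  have hAB : ∀ i b, A i b ∈ (aeval y : MvPolynomial _ ℚ →ₐ[ℚ] ℂ).range := by
    intro i b
    by_cases hi : i ∈ Set.range J
    · obtain ⟨a, rfl⟩ := hi
      rw [hA]
      split_ifs
      · exact Subalgebra.one_mem _
      · exact Subalgebra.zero_mem _
    · exact hyB (Sum.inr (⟨i, hi⟩, b))
  have hFB : ∀ d : Fin n →₀ ℕ, ¬ (d.support : Set (Fin n)) ⊆ Set.range J →
      coeff d F ∈ (aeval y : MvPolynomial _ ℚ →ₐ[ℚ] ℂ).range := by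
    intro d hd
    by_cases hdeg : d.degree = 3
    · exact hyB (Sum.inl ⟨⟨d, hdeg⟩, hd⟩)
    · rw [hF.1.coeff_eq_zero hdeg]
      exact Subalgebra.zero_mem _
  have hall : ∀ d : Exp3 n, coeff d.1 F ∈ (aeval y : MvPolynomial _ ℚ →ₐ[ℚ] ℂ).range := by
    intro d
    by_cases hd : (d.1.support : Set (Fin n)) ⊆ Set.range J
    · exact N2_coeff hJ hA hFA _ hAB hFB d.1 hd
    · exact hFB d.1 hd
  have hcard := N2_card hF.2 y hall
  haveI : Fintype {d : Exp3 n // (d.1.support : Set (Fin n)) ⊆ Set.range J} :=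
    inferInstanceAs (Fintype {d : Exp3 n // P d})
  have hc1 := N2_count hJ
  have hc2 : Fintype.card {d : Exp3 n // P d} + Fintype.card {d : Exp3 n // ¬ P d} =
      Fintype.card (Exp3 n) := by
    rw [Fintype.card_subtype_compl]
    have := Fintype.card_subtype_le P
    omega
  have hc3 : Fintype.card {i : Fin n // ¬ i ∈ Set.range J} = n - w := by
    rw [Fintype.card_subtype_compl, Fintype.card_fin]
    congr 1
    rw [show Fintype.card {x // x ∈ Set.range J} = Fintype.card (Set.range J) from rfl,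
      Set.card_range_of_injective hJ, Fintype.card_fin]
  rw [Fintype.card_sum, Fintype.card_prod, hc3, Fintype.card_fin] at hcard
  have hc4 : Fintype.card {d : Exp3 n // (d.1.support : Set (Fin n)) ⊆ Set.range J} =
    Fintype.card {d : Exp3 n // P d} := Fintype.card_congr (Equiv.refl _)
  omega

end Pool.Agent.Lib.MP_2619d0_ag.T
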