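import Pool.Agent.Lib.MP_2619d0_ag.T.N2
import Pool.Agent.Lib.MP_2619d0_ag.T.B2

/-!
Row N3: a very general cubic contains no linear subspaces of half dimension.
-/

set_option autoImplicit false

namespace Pool.Agent.Lib.MP_2619d0_ag.T

open MvPolynomial

theorem N3_sq (w : ℕ) (hw : 3 ≤ w) : w * w < (w + 2).choose 3 := by
  induction w, hw using Nat.le_induction with
  | base => decide
  | succ w hw ih =>
    have h1 : (w + 1 + 2).choose 3 = (w + 2).choose 2 + (w + 2).choose 3 :=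
      Nat.choose_succ_succ (w + 2) 2
    have h2 : 2 * w + 1 ≤ (w + 2).choose 2 := by
      rw [Nat.choose_two_right, Nat.le_div_iff_mul_le (by norm_num)]
      have : w + 2 - 1 = w + 1 := rfl
      rw [this]
      nlinarith
    rw [h1]
    nlinarith

/-- Suppose `n ≤ 2 finrank W` and take `w = (n + 1) / 2 ≤ finrank W`; `exists_echelon`,
`echelon_false`. The inequality: `(n - w) * w ≤ w * w`, resp. `(w - 1) * w` for odd `n = 2 w - 1`, and
`6 * (w + 2).choose 3 = (w + 2) (w + 1) w`; `w ≥ 3`: `6 w < (w + 2) (w + 1)`. -/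
theorem no_large {n : ℕ} (hn : 5 ≤ n) {F : MvPolynomial (Fin n) ℂ} (hF : VG F)
    (W : Submodule ℂ (Fin n → ℂ)) (hW : ∀ w ∈ W, Fc (cub F) w = 0) :
    2 * Module.finrank ℂ W < n := by
  by_contra hlt
  push Not at hlt
  obtain ⟨J, A, hJ, hA, hAW⟩ := exists_echelon W (show (n + 1) / 2 ≤ Module.finrank ℂ W by omega)
  have hnum : (n - (n + 1) / 2) * ((n + 1) / 2) < ((n + 1) / 2 + 2).choose 3 := by
    refine lt_of_le_of_lt (Nat.mul_le_mul_right _ (by omega)) (N3_sq ((n + 1) / 2) (by omega))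
  refine echelon_false hF hnum J hJ A hA (fun t => ?_)
  rw [aeval_eq_Fc hF.1]
  exact hW _ (hAW t)

end Pool.Agent.Lib.MP_2619d0_ag.T
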