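import Pool.Agent.Lib.MP_2619d0_ag.T.LT1

/-!
Row P1: the places `s = c` and `s = ∞` of `L(s)`.
-/

set_option autoImplicit false

namespace Pool.Agent.Lib.MP_2619d0_ag.T

theorem P1_lt {M : Type*} [Field M] (O : ValuationSubring M) (b : M) :
    O.valuation b < 1 ↔ b = 0 ∨ b⁻¹ ∉ O := by
  by_cases hb : b = 0
  · simp [hb]
  · have hb' : 0 < O.valuation b := by
      rw [zero_lt_iff]
      rwa [Ne, map_eq_zero]
    rw [← O.valuation_le_one_iff b⁻¹, map_inv₀, inv_le_one₀ hb', not_le]
    simp [hb]

theorem P1_comap {M : Type*} [Field M] (O : ValuationSubring M) (σ : M ≃+* M) (b : M) :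
    (O.comap (σ : M →+* M)).valuation b < 1 ↔ O.valuation (σ b) < 1 := by
  rw [P1_lt, P1_lt, ValuationSubring.mem_comap]
  simp only [RingHom.coe_coe, map_inv₀, EmbeddingLike.map_eq_zero_iff]

theorem P1_eval₂ {L : Type*} [Field L] (p : Polynomial L) :
    Polynomial.eval₂ (cM L) (sv L) p = algebraMap (Polynomial L) (MM L) p := by
  induction p using Polynomial.induction_on' with
  | add p q hp hq => rw [Polynomial.eval₂_add, hp, hq, map_add]
  | monomial n a =>
    rw [Polynomial.eval₂_monomial, ← Polynomial.C_mul_X_pow_eq_monomial, map_mul, map_pow]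
    rfl

/-- `sv L` is transcendental -/
theorem P1_sv {L : Type*} [Field L] (p : Polynomial L)
    (h : Polynomial.eval₂ (cM L) (sv L) p = 0) : p = 0 := by
  rw [P1_eval₂] at h
  exact (IsFractionRing.injective (Polynomial L) (MM L)) (by rw [h, map_zero])

/-- the automorphism `s ↦ τ` -/
theorem P1_aut {L : Type*} [Field L] (τ : MM L)
    (hτ : (∃ c : L, τ = sv L - cM L c) ∨ τ = (sv L)⁻¹) :
    ∃ σ : MM L ≃+* MM L, (∀ a, σ (cM L a) = cM L a) ∧ σ (sv L) = τ := by
  -- injectivity
  have hs0 : sv L ≠ 0 := by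
    intro h
    have := P1_sv (L := L) Polynomial.X (by rw [Polynomial.eval₂_X, h])
    exact Polynomial.X_ne_zero this
  have hinj : Function.Injective (Polynomial.eval₂RingHom (cM L) τ) := by
    rw [injective_iff_map_eq_zero]
    intro p hp
    rw [Polynomial.coe_eval₂RingHom] at hp
    rcases hτ with ⟨c, hc⟩ | hc
    · have h1 : Polynomial.eval₂ (cM L) (sv L) (p.comp (Polynomial.X - Polynomial.C c)) = 0 := by
        rw [Polynomial.eval₂_comp, Polynomial.eval₂_sub, Polynomial.eval₂_X, Polynomial.eval₂_C,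
          ← hc, hp]
      have h2 := P1_sv _ h1
      have h3 := congrArg (fun r : Polynomial L => r.comp (Polynomial.X + Polynomial.C c)) h2
      simpa [Polynomial.comp_assoc] using h3
    · have h1 : Polynomial.eval₂ (cM L) (sv L) p.reverse = 0 := by
        have : Invertible ((sv L)⁻¹) := invertibleOfNonzero (inv_ne_zero hs0)
        have h4 := (Polynomial.eval₂_reverse_eq_zero_iff (cM L) (sv L)⁻¹ p).mpr (by
          rw [← hc]
          exact hp)
        rwa [invOf_eq_inv, inv_inv] at h4
      have h2 := P1_sv _ h1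
      rwa [Polynomial.reverse_eq_zero] at h2
  set σ0 : MM L →+* MM L := IsFractionRing.lift (A := Polynomial L) (K := MM L) hinj with hσ0
  have hσp : ∀ p, σ0 (algebraMap (Polynomial L) (MM L) p) = Polynomial.eval₂ (cM L) τ p := by
    intro p
    rw [hσ0, IsFractionRing.lift_algebraMap]
    rfl
  have hσC : ∀ a, σ0 (cM L a) = cM L a := by
    intro a
    rw [cM, RingHom.comp_apply, hσp, Polynomial.eval₂_C]
    rfl
  have hσs : σ0 (sv L) = τ := by
    rw [sv, hσp, Polynomial.eval₂_X]
  have hsurj : Function.Surjective σ0 := by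
    have hmem : sv L ∈ σ0.fieldRange := by
      have h1 : τ ∈ σ0.fieldRange := RingHom.mem_fieldRange.mpr ⟨_, hσs⟩
      rcases hτ with ⟨c, hc⟩ | hc
      · have h2 : sv L = τ + cM L c := by rw [hc]; ring
        rw [h2]
        exact add_mem h1 (RingHom.mem_fieldRange.mpr ⟨_, hσC c⟩)
      · have h2 : sv L = τ⁻¹ := by rw [hc, inv_inv]
        rw [h2]
        exact inv_mem h1
    have hpol : ∀ p, algebraMap (Polynomial L) (MM L) p ∈ σ0.fieldRange := by
      intro p
      induction p using Polynomial.induction_on' with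
      | add p q hp hq => rw [map_add]; exact add_mem hp hq
      | monomial n a =>
        rw [← Polynomial.C_mul_X_pow_eq_monomial, map_mul, map_pow]
        exact mul_mem (RingHom.mem_fieldRange.mpr ⟨_, hσC a⟩) (pow_mem hmem n)
    intro b
    obtain ⟨p, q, hq, rfl⟩ := IsFractionRing.div_surjective (A := Polynomial L) b
    exact RingHom.mem_fieldRange.mp (div_mem (hpol p) (hpol q))
  refine ⟨RingEquiv.ofBijective σ0 ⟨σ0.injective, hsurj⟩, fun a => ?_, ?_⟩
  · exact hσC a
  · exact hσs

/-- `S = L[X]` with the map `φ : S → L(s)`, `φ = eval₂ (cM L) τ`. Since `s = τ + c` or `s = τ⁻¹`, the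
element `τ` is transcendental over `L` and every element of `L(s)` is a quotient `φ p / φ q`: with
`φ.toAlgebra`, `L(s)` is a fraction field of `S` (`IsFractionRing`; alternatively compose with the
automorphism of `L(s)` which sends `s` to `τ`). Apply `dedekind_place` with `P = (X)`: `O` contains
`cM L a = φ (C a)`; `τ = φ X` has valuation `< 1` and order 1, so it generates the maximal ideal;
every `b ∈ O` is congruent to some `φ p`, hence to `φ (C (p.eval 0))`; uniqueness from the last
item. -/
theorem place_at {L : Type*} [Field L] (τ : MM L)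
    (hτ : (∃ c : L, τ = sv L - cM L c) ∨ τ = (sv L)⁻¹) :
    τ ≠ 0 ∧ ∃ O : ValuationSubring (MM L),
      (∀ a, cM L a ∈ O) ∧ O.valuation τ < 1 ∧
      (∀ b, O.valuation b < 1 → ∃ c ∈ O, b = c * τ) ∧
      (∀ b ∈ O, ∃ a, O.valuation (b - cM L a) < 1) ∧
      ∀ O' : ValuationSubring (MM L), (∀ a, cM L a ∈ O') → O'.valuation τ < 1 → O' = O := by
  obtain ⟨σ, hσC, hσs⟩ := P1_aut τ hτ
  have hs0 : sv L ≠ 0 := by
    intro h
    have := P1_sv (L := L) Polynomial.X (by rw [Polynomial.eval₂_X, h])
    exact Polynomial.X_ne_zero this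
  have hτ0 : τ ≠ 0 := by
    rw [← hσs]
    intro h
    exact hs0 ((map_eq_zero_iff σ σ.injective).mp h)
  have hP : (Ideal.span {(Polynomial.X : Polynomial L)}).IsPrime :=
    (Ideal.span_singleton_prime Polynomial.X_ne_zero).mpr Polynomial.prime_X
  have hPbot : Ideal.span {(Polynomial.X : Polynomial L)} ≠ ⊥ := by
    rw [Ne, Ideal.span_singleton_eq_bot]
    exact Polynomial.X_ne_zero
  obtain ⟨O0, h1, h2, h3, h4, h5⟩ := dedekind_place (S := Polynomial L) (M := MM L)
    (Ideal.span {Polynomial.X}) hP hPbot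
  have hord := h4 Polynomial.X 1 (by rw [pow_one]; exact Ideal.mem_span_singleton_self _) (by
    rw [one_add_one_eq_two, Ideal.span_singleton_pow, Ideal.mem_span_singleton]
    intro hdvd
    have h6 := Polynomial.natDegree_le_of_dvd hdvd Polynomial.X_ne_zero
    rw [Polynomial.natDegree_X_pow, Polynomial.natDegree_X] at h6
    omega)
  obtain ⟨ϖ, hϖ0, hϖ1, hϖ2, η, hη1, hη2⟩ := hord
  rw [pow_one] at hη2
  change sv L = η * ϖ at hη2
  have hη0 : η ≠ 0 := by
    rintro rfl
    rw [map_zero] at hη1
    exact zero_ne_one hη1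
  have hηinv : η⁻¹ ∈ O0 := by
    rw [← O0.valuation_le_one_iff, map_inv₀, hη1, inv_one]
  have hs1 : O0.valuation (sv L) < 1 := by
    have := (h2 Polynomial.X).mpr (Ideal.mem_span_singleton_self _)
    exact this
  set O : ValuationSubring (MM L) := O0.comap (σ.symm : MM L →+* MM L) with hO
  have hval : ∀ b, O.valuation b < 1 ↔ O0.valuation (σ.symm b) < 1 := fun b =>
    P1_comap O0 σ.symm b
  have hmem : ∀ b, b ∈ O ↔ σ.symm b ∈ O0 := fun b => Iff.rfl
  have hσC' : ∀ a, σ.symm (cM L a) = cM L a := by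
    intro a
    rw [RingEquiv.symm_apply_eq, hσC]
  have hσs' : σ.symm τ = sv L := by
    rw [RingEquiv.symm_apply_eq, hσs]
  have hCO : ∀ a, cM L a ∈ O0 := fun a => h1 (Polynomial.C a)
  refine ⟨hτ0, O, fun a => ?_, ?_, fun b hb => ?_, fun b hb => ?_, fun O' hO'1 hO'2 => ?_⟩
  · rw [hmem, hσC']
    exact hCO a
  · rw [hval, hσs']
    exact hs1
  · rw [hval] at hb
    obtain ⟨c, hc, hc2⟩ := hϖ2 _ hb
    refine ⟨σ (c * η⁻¹), ?_, ?_⟩
    · rw [hmem, RingEquiv.symm_apply_apply]
      exact O0.mul_mem _ _ hc hηinv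
    · rw [← hσs, ← map_mul, ← RingEquiv.symm_apply_eq, hc2, hη2]
      field_simp
  · rw [hmem] at hb
    obtain ⟨p, hp⟩ := h3 _ hb
    refine ⟨p.coeff 0, ?_⟩
    rw [hval, map_sub, hσC']
    have h6 : algebraMap (Polynomial L) (MM L) p
        = cM L (p.coeff 0) + sv L * algebraMap (Polynomial L) (MM L) p.divX := by
      conv_lhs => rw [← Polynomial.X_mul_divX_add p]
      rw [map_add, map_mul, add_comm]
      rfl
    have h7 : σ.symm b - cM L (p.coeff 0) = (σ.symm b - algebraMap (Polynomial L) (MM L) p)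
        + sv L * algebraMap (Polynomial L) (MM L) p.divX := by
      rw [h6]
      ring
    rw [h7]
    refine lt_of_le_of_lt (Valuation.map_add _ _ _) (max_lt hp ?_)
    rw [map_mul]
    have h8 : O0.valuation (algebraMap (Polynomial L) (MM L) p.divX) ≤ 1 :=
      (O0.valuation_le_one_iff _).mpr (h1 _)
    calc O0.valuation (sv L) * O0.valuation (algebraMap (Polynomial L) (MM L) p.divX)
        ≤ O0.valuation (sv L) * 1 := mul_le_mul_right h8 _
      _ < 1 := by rw [mul_one]; exact hs1
  · -- uniqueness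
    have hval' : ∀ b, (O'.comap (σ : MM L →+* MM L)).valuation b < 1 ↔ O'.valuation (σ b) < 1 :=
      fun b => P1_comap O' σ b
    have hs' : (O'.comap (σ : MM L →+* MM L)).valuation (sv L) < 1 := by
      rw [hval', hσs]
      exact hO'2
    have hsO' : τ ∈ O' := (O'.valuation_le_one_iff _).mp hO'2.le
    have hpolmem : ∀ p, algebraMap (Polynomial L) (MM L) p ∈ O'.comap (σ : MM L →+* MM L) := by
      intro p
      rw [ValuationSubring.mem_comap]
      induction p using Polynomial.induction_on' with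
      | add p q hp hq => rw [map_add, map_add]; exact O'.add_mem _ _ hp hq
      | monomial n a =>
        rw [← Polynomial.C_mul_X_pow_eq_monomial, map_mul, map_pow, map_mul, map_pow]
        refine O'.mul_mem _ _ ?_ (pow_mem ?_ n)
        · change σ (cM L a) ∈ O'
          rw [hσC]
          exact hO'1 a
        · change σ (sv L) ∈ O'
          rw [hσs]
          exact hsO'
    have h9 := h5 (O'.comap (σ : MM L →+* MM L)) hpolmem (by
      intro a ha
      rw [Ideal.mem_span_singleton] at ha
      obtain ⟨q, rfl⟩ := ha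
      rw [map_mul, map_mul]
      have h10 : (O'.comap (σ : MM L →+* MM L)).valuation (algebraMap (Polynomial L) (MM L) q) ≤ 1 :=
        (ValuationSubring.valuation_le_one_iff _ _).mpr (hpolmem q)
      calc (O'.comap (σ : MM L →+* MM L)).valuation (sv L) *
          (O'.comap (σ : MM L →+* MM L)).valuation (algebraMap (Polynomial L) (MM L) q)
          ≤ (O'.comap (σ : MM L →+* MM L)).valuation (sv L) * 1 := mul_le_mul_right h10 _
        _ < 1 := by rw [mul_one]; exact hs')
    ext b
    rw [hmem, ← h9, ValuationSubring.mem_comap]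
    rw [RingHom.coe_coe, RingEquiv.apply_symm_apply]

end Pool.Agent.Lib.MP_2619d0_ag.T
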