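import Pool.Agent.Lib.MP_2619d0_ag.T.Defs

/-!
Row P1b: uniqueness of the order.
-/

set_option autoImplicit false

namespace Pool.Agent.Lib.MP_2619d0_ag.T

theorem P1b_le {M : Type*} [Field M] {O : ValuationSubring M} {ϖ ϖ' : M}
    (h1 : O.valuation ϖ < 1) (h2' : ∀ b, O.valuation b < 1 → ∃ c ∈ O, b = c * ϖ') :
    O.valuation ϖ ≤ O.valuation ϖ' := by
  obtain ⟨c, hc, he⟩ := h2' ϖ h1
  rw [he, map_mul]
  exact mul_le_of_le_one_left' ((O.valuation_le_one_iff c).mpr hc)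

/-- The order is unique: if `η ϖ ^ e = η' ϖ' ^ e'` then, as `ϖ = c ϖ'`, `ϖ' = c' ϖ` with
`c, c' ∈ O` (`c c' = 1`, so these are units), `ϖ ^ (e - e')` would be a unit if `e' < e`. -/
theorem hasOrd_unique {M : Type*} [Field M] {O : ValuationSubring M} {a : M} {e e' : ℕ}
    (h : HasOrd O a e) (h' : HasOrd O a e') : e = e' := by
  obtain ⟨ϖ, h0, h1, h2, η, hη, ha⟩ := h
  obtain ⟨ϖ', h0', h1', h2', η', hη', ha'⟩ := h'
  have hv : O.valuation ϖ = O.valuation ϖ' := le_antisymm (P1b_le h1 h2') (P1b_le h1' h2)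
  have e1 : O.valuation a = O.valuation ϖ ^ e := by rw [ha, map_mul, map_pow, hη, one_mul]
  have e2 : O.valuation a = O.valuation ϖ ^ e' := by
    rw [ha', map_mul, map_pow, hη', one_mul, hv]
  have hpos : 0 < O.valuation ϖ := by
    rw [zero_lt_iff]
    exact (Valuation.ne_zero_iff _).mpr h0
  rw [e1] at e2
  rcases lt_trichotomy e e' with h | h | h
  · exact absurd e2 (pow_lt_pow_right_of_lt_one₀ hpos h1 h).ne'
  · exact h
  · exact absurd e2 (pow_lt_pow_right_of_lt_one₀ hpos h1 h).ne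

end Pool.Agent.Lib.MP_2619d0_ag.T
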