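import Pool.Agent.Lib.MP_2619d0_ag.T.Defs

/-!
Row P2: the place of `L(s)` at which `u` specialises to `P`.
-/

set_option autoImplicit false

namespace Pool.Agent.Lib.MP_2619d0_ag.T

open MvPolynomial

section

variable {N : ℕ} {L : Type*} [Field L]

theorem P2_val_cM (O : ValuationSubring (MM L)) (hL : ∀ a, cM L a ∈ O) {a : L} (ha : a ≠ 0) :
    O.valuation (cM L a) = 1 := by
  have h1 : O.valuation (cM L a) ≤ 1 := (O.valuation_le_one_iff _).mpr (hL a)
  have h2 : O.valuation (cM L a⁻¹) ≤ 1 := (O.valuation_le_one_iff _).mpr (hL a⁻¹)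
  have h3 : O.valuation (cM L a) * O.valuation (cM L a⁻¹) = 1 := by
    rw [← map_mul, ← map_mul, mul_inv_cancel₀ ha, map_one, map_one]
  refine le_antisymm h1 ?_
  rw [← h3]
  exact mul_le_of_le_one_right' h2

theorem P2_val_le (O : ValuationSubring (MM L)) (hL : ∀ a, cM L a ∈ O) (a : L) :
    O.valuation (cM L a) ≤ 1 := (O.valuation_le_one_iff _).mpr (hL a)

theorem P2_mem (O : ValuationSubring (MM L)) (hL : ∀ a, cM L a ∈ O) {b : MM L} {a : L}
    (h : O.valuation (b - cM L a) < 1) : b ∈ O := by
  have h1 : b - cM L a ∈ O := (O.valuation_le_one_iff _).mp h.le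
  have : b = (b - cM L a) + cM L a := by ring
  rw [this]
  exact O.add_mem _ _ h1 (hL a)

theorem P2_lt_iff (O : ValuationSubring (MM L)) (hL : ∀ a, cM L a ∈ O) {b : MM L} {a : L}
    (h : O.valuation (b - cM L a) < 1) : O.valuation b < 1 ↔ a = 0 := by
  constructor
  · intro hb
    by_contra ha
    have h1 := P2_val_cM O hL ha
    have h2 : cM L a = b - (b - cM L a) := by ring
    have h3 : O.valuation (cM L a) < 1 := by
      rw [h2]
      exact lt_of_le_of_lt (Valuation.map_sub _ _ _) (max_lt hb h)
    exact absurd h1 h3.ne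
  · rintro rfl
    rw [map_zero, sub_zero] at h
    exact h

theorem P2_add (O : ValuationSubring (MM L)) {b b' : MM L} {a a' : L}
    (h : O.valuation (b - cM L a) < 1) (h' : O.valuation (b' - cM L a') < 1) :
    O.valuation ((b + b') - cM L (a + a')) < 1 := by
  have : (b + b') - cM L (a + a') = (b - cM L a) + (b' - cM L a') := by
    rw [map_add]
    ring
  rw [this]
  exact lt_of_le_of_lt (Valuation.map_add _ _ _) (max_lt h h')

theorem P2_mul_lt (O : ValuationSubring (MM L)) {b c : MM L} (h : O.valuation b < 1)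
    (hc : O.valuation c ≤ 1) : O.valuation (b * c) < 1 := by
  rw [map_mul]
  exact mul_lt_one_of_lt_of_le h hc

theorem P2_mul (O : ValuationSubring (MM L)) (hL : ∀ a, cM L a ∈ O) {b b' : MM L} {a a' : L}
    (h : O.valuation (b - cM L a) < 1) (h' : O.valuation (b' - cM L a') < 1) :
    O.valuation ((b * b') - cM L (a * a')) < 1 := by
  have hb' : O.valuation b' ≤ 1 := (O.valuation_le_one_iff _).mpr (P2_mem O hL h')
  have : (b * b') - cM L (a * a') = (b - cM L a) * b' + (b' - cM L a') * cM L a := by
    rw [map_mul]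
    ring
  rw [this]
  exact lt_of_le_of_lt (Valuation.map_add _ _ _)
    (max_lt (P2_mul_lt O h hb') (P2_mul_lt O h' (P2_val_le O hL a)))

/-- the values of polynomials -/
theorem P2_congr [Algebra ℂ L] (O : ValuationSubring (MM L)) (hL : ∀ a, cM L a ∈ O)
    (y x : Fin (N + 1) → L) (hu : uu y x 0 ≠ 0) (l : MM L) (P : Fin (N + 1) → L) (hP0 : P 0 ≠ 0)
    (hl : ∀ i, O.valuation (l * uu y x i - cM L (P i)) < 1) (G : MvPolynomial (Fin N) ℂ) :
    O.valuation (psi y x G - cM L (ev P G)) < 1 := by
  induction G using MvPolynomial.induction_on with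
  | C c =>
    have h1 : psi y x (C c) = cM L (algebraMap ℂ L c) := by simp [psi]
    have h2 : ev P (C c) = algebraMap ℂ L c := by simp [ev]
    rw [h1, h2, sub_self, map_zero]
    exact zero_lt_one
  | add p q hp hq =>
    rw [map_add, map_add]
    exact P2_add O hp hq
  | mul_X p j hp =>
    rw [map_mul, map_mul]
    refine P2_mul O hL hp ?_
    have h1 : psi y x (X j) = uu y x j.succ / uu y x 0 := by simp [psi]
    have h2 : ev P (X j) = P j.succ / P 0 := by simp [ev]
    have hv0 : O.valuation (l * uu y x 0) = 1 := by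
      refine le_antisymm ((O.valuation_le_one_iff _).mpr (P2_mem O hL (hl 0))) ?_
      by_contra hlt
      exact hP0 ((P2_lt_iff O hL (hl 0)).mp (not_le.mp hlt))
    have hl0 : l ≠ 0 := by
      rintro rfl
      rw [zero_mul, map_zero] at hv0
      exact zero_ne_one hv0
    have hvP := P2_val_cM O hL hP0
    have hcP : cM L (P 0) ≠ 0 := by
      intro h
      rw [h, map_zero] at hvP
      exact zero_ne_one hvP
    have e1 : psi y x (X j) - cM L (ev P (X j)) =
        ((l * uu y x j.succ - cM L (P j.succ)) * cM L (P 0) -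
          (l * uu y x 0 - cM L (P 0)) * cM L (P j.succ)) * (l * uu y x 0 * cM L (P 0))⁻¹ := by
      rw [h1, h2, map_div₀]
      field_simp
      ring
    rw [e1]
    refine P2_mul_lt O ?_ ?_
    · exact lt_of_le_of_lt (Valuation.map_sub _ _ _)
        (max_lt (P2_mul_lt O (hl _) (P2_val_le O hL _)) (P2_mul_lt O (hl _) (P2_val_le O hL _)))
    · rw [map_inv₀, map_mul, hv0, hvP, one_mul, inv_one]

theorem P2_fd_comp {κ κ' : Type*} [Field κ] [Field κ'] (χ : MvPolynomial (Fin N) ℂ →+* κ)
    (e : κ ≃+* κ') : fd ((e : κ →+* κ').comp χ) = fd χ := by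
  have hcl : cl ((e : κ →+* κ').comp χ) = (cl χ).map (e : κ →+* κ') := by
    unfold cl
    rw [RingHom.map_field_closure]
    congr 1
    ext z
    simp
  unfold fd
  rw [hcl]
  symm
  let i : cl χ ≃+* (cl χ).map (e : κ →+* κ') :=
    { toFun := fun a => ⟨e a, Subfield.mem_map.mpr ⟨a, a.2, rfl⟩⟩
      invFun := fun b => ⟨e.symm b, by
        obtain ⟨a, ha, hab⟩ := Subfield.mem_map.mp b.2
        have : e.symm (b : κ') = a := by
          rw [← hab]
          exact e.symm_apply_apply a
        rw [this]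
        exact ha⟩
      left_inv := fun a => by
        ext
        exact e.symm_apply_apply (a : κ)
      right_inv := fun b => by
        ext
        exact e.apply_symm_apply (b : κ')
      map_mul' := fun a b => by
        ext
        exact map_mul e (a : κ) (b : κ)
      map_add' := fun a b => by
        ext
        exact map_add e (a : κ) (b : κ) }
  exact Algebra.finrank_eq_of_equiv_equiv i e (by ext a; rfl)

end

/-- `r : L → ResidueField O`, `a ↦ residue (cM L a)`, is bijective (`hres`). Suppose `P 0 ≠ 0`. Then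
`l * u 0` has valuation 1, `u i / u 0 = (l * u i) / (l * u 0) ∈ O` and its residue is `r (P i / P 0)`, so
`psi y x G ∈ O` for all `G` and its residue is `r (ev P G)` (two ring homomorphisms on
`MvPolynomial (Fin N) ℂ` which agree on `C c` and on the variables). So
`O.valuation (psi y x G) < 1 ↔ ev P G = 0`, which gives `←`, and also `Gp F (ev P)` if `O` is over
`dh ℂ N F`; and `rh (psi y x) O h = r ∘ ev P` with `r` bijective gives the equality of degrees
(`Subfield.closure` of the range of `r ∘ ev P` is the image of `cl (ev P)`; compare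
`Algebra.finrank_eq_of_equiv_equiv`).
`→`: suppose `psi y x G ∈ O` for all `G` and `P 0 = 0`; take `i` with `P i ≠ 0`; `l * u i` is a unit
and `l * u 0` has valuation `< 1` (and is nonzero, `hu`; `l ≠ 0`), `i = j.succ`; then
`u i / u 0 = psi y x (X j)` has valuation `> 1`, contradiction. -/
theorem place_over {N : ℕ} {F : MvPolynomial (Fin (N + 1)) ℂ} {L : Type*} [Field L] [Algebra ℂ L]
    (O : ValuationSubring (MM L)) (hL : ∀ a, cM L a ∈ O)
    (hres : ∀ b ∈ O, ∃ a, O.valuation (b - cM L a) < 1)
    (y x : Fin (N + 1) → L) (hu : uu y x 0 ≠ 0) (l : MM L) (P : Fin (N + 1) → L) (hP : P ≠ 0)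
    (hl : ∀ i, O.valuation (l * uu y x i - cM L (P i)) < 1) :
    (Over (dh ℂ N F) (psi y x) O ↔ P 0 ≠ 0 ∧ Gp F (ev P)) ∧
      ∀ h : ∀ G, psi y x G ∈ O, P 0 ≠ 0 → fd (rh (psi y x) O h) = fd (ev P) := by
  have main : P 0 ≠ 0 → ∀ G, O.valuation (psi y x G - cM L (ev P G)) < 1 := fun h0 G =>
    P2_congr O hL y x hu l P h0 hl G
  have hP0 : (∀ G, psi y x G ∈ O) → P 0 ≠ 0 := by
    intro hO h0
    obtain ⟨i, hi⟩ : ∃ i, P i ≠ 0 := by
      by_contra hcon
      push Not at hcon
      exact hP (funext hcon)
    have hv0 : O.valuation (l * uu y x 0) < 1 := (P2_lt_iff O hL (hl 0)).mpr h0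
    have hvi : O.valuation (l * uu y x i) = 1 := by
      refine le_antisymm ((O.valuation_le_one_iff _).mpr (P2_mem O hL (hl i))) ?_
      by_contra hlt
      exact hi ((P2_lt_iff O hL (hl i)).mp (not_le.mp hlt))
    have hl0 : l ≠ 0 := by
      rintro rfl
      rw [zero_mul, map_zero] at hvi
      exact zero_ne_one hvi
    obtain ⟨j, rfl⟩ : ∃ j : Fin N, i = j.succ := by
      refine Fin.cases ?_ (fun j _ => ⟨j, rfl⟩) i hi
      intro h
      exact absurd h0 h
    have h1 : psi y x (X j) = uu y x j.succ / uu y x 0 := by simp [psi]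
    have h2 : l * uu y x j.succ = psi y x (X j) * (l * uu y x 0) := by
      rw [h1]
      field_simp
    have h3 : O.valuation (l * uu y x j.succ) < 1 := by
      rw [h2, mul_comm]
      exact P2_mul_lt O hv0 ((O.valuation_le_one_iff _).mpr (hO _))
    exact absurd hvi h3.ne
  refine ⟨⟨fun h => ?_, fun h => ?_⟩, fun h h0 => ?_⟩
  · have h0 := hP0 h.1
    refine ⟨h0, fun G => ?_⟩
    rw [← h.2 G]
    exact (P2_lt_iff O hL (main h0 G)).symm
  · refine ⟨fun G => P2_mem O hL (main h.1 G), fun G => ?_⟩
    rw [P2_lt_iff O hL (main h.1 G)]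
    exact h.2 G
  · let r : L →+* IsLocalRing.ResidueField O :=
      (IsLocalRing.residue O).comp ((cM L).codRestrict O hL)
    have hrinj : Function.Injective r := r.injective
    have hrsurj : Function.Surjective r := by
      intro z
      obtain ⟨b, rfl⟩ := IsLocalRing.residue_surjective z
      obtain ⟨a, ha⟩ := hres b b.2
      refine ⟨a, ?_⟩
      symm
      rw [← sub_eq_zero]
      change IsLocalRing.residue O b - IsLocalRing.residue O ⟨cM L a, hL a⟩ = 0
      rw [← map_sub, IsLocalRing.residue_eq_zero_iff, O.valuation_lt_one_iff]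
      exact ha
    let e : L ≃+* IsLocalRing.ResidueField O := RingEquiv.ofBijective r ⟨hrinj, hrsurj⟩
    have : rh (psi y x) O h = (e : L →+* IsLocalRing.ResidueField O).comp (ev P) := by
      refine RingHom.ext fun G => ?_
      rw [← sub_eq_zero]
      change IsLocalRing.residue O ⟨psi y x G, h G⟩ - IsLocalRing.residue O ⟨cM L (ev P G), hL _⟩ = 0
      rw [← map_sub, IsLocalRing.residue_eq_zero_iff, O.valuation_lt_one_iff]
      exact main h0 G
    rw [this]
    exact P2_fd_comp _ _

end Pool.Agent.Lib.MP_2619d0_ag.T
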