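import Mathlib

/-!
Row P3: bases of a lattice of rank two over a valuation ring.
-/

set_option autoImplicit false

namespace Pool.Agent.Lib.MP_2619d0_ag.T

/-- a nonzero vector has an entry of largest valuation; dividing by it the entries lie in `V` -/
theorem P3_pivot {L : Type*} [Field L] (V : ValuationSubring L) {n : ℕ} (y : Fin n → L)
    (h : y ≠ 0) : ∃ i0, y i0 ≠ 0 ∧ ∀ i, (y i0)⁻¹ * y i ∈ V := by
  classical
  obtain ⟨i1, hi1⟩ := Function.ne_iff.mp h
  obtain ⟨i0, -, hi0⟩ := (Finset.univ : Finset (Fin n)).exists_max_image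
    (fun i => V.valuation (y i)) ⟨i1, Finset.mem_univ _⟩
  have hne : y i0 ≠ 0 := by
    intro h0
    have h1 := hi0 i1 (Finset.mem_univ _)
    rw [h0, map_zero, le_zero_iff, map_eq_zero] at h1
    exact hi1 h1
  refine ⟨i0, hne, fun i => ?_⟩
  apply V.mem_of_valuation_le_one
  rw [map_mul, map_inv₀]
  have h1 := hi0 i (Finset.mem_univ _)
  have h2 : V.valuation (y i0) ≠ 0 := by
    rwa [Ne, map_eq_zero]
  calc (V.valuation (y i0))⁻¹ * V.valuation (y i) ≤ (V.valuation (y i0))⁻¹ * V.valuation (y i0) :=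
        mul_le_mul_right h1 _
    _ = 1 := inv_mul_cancel₀ h2

/-- Let `y i0` be an entry of `y` of largest valuation (`y ≠ 0`), `g1 = y / y i0` (entries in `V`,
entry 1 at `i0`); `x' = x - x i0 • g1` is nonzero with entry 0 at `i0`; `g2 = x' / x' i1` where `x' i1`
has largest valuation. The rows `i0, i1` show that the residues are linearly independent. -/
theorem lattice2 {L : Type*} [Field L] (V : ValuationSubring L) {n : ℕ} (y x : Fin n → L)
    (h : LinearIndependent L ![y, x]) :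
    ∃ (p q r s : L) (g1 g2 : Fin n → V), p * s - q * r ≠ 0 ∧
      (∀ i, (g1 i : L) = p * y i + q * x i) ∧ (∀ i, (g2 i : L) = r * y i + s * x i) ∧
      LinearIndependent (IsLocalRing.ResidueField V)
        ![fun i => IsLocalRing.residue V (g1 i), fun i => IsLocalRing.residue V (g2 i)] := by
  classical
  rw [LinearIndependent.pair_iff] at h
  have hy : y ≠ 0 := by
    rintro rfl
    have := h 1 0 (by simp)
    exact one_ne_zero this.1
  obtain ⟨i0, hi0, hV0⟩ := P3_pivot V y hy
  set x' : Fin n → L := fun i => x i - (x i0 * (y i0)⁻¹) * y i with hx'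
  have hx'0 : x' ≠ 0 := by
    intro h0
    have h1 := h (-(x i0 * (y i0)⁻¹)) 1 (by
      funext i
      have h2 := congrFun h0 i
      simp only [hx', Pi.zero_apply] at h2
      simp only [Pi.add_apply, Pi.smul_apply, smul_eq_mul, Pi.zero_apply]
      linear_combination h2)
    exact one_ne_zero h1.2
  have hx'i0 : x' i0 = 0 := by
    simp only [hx']
    field_simp
    ring
  obtain ⟨i1, hi1, hV1⟩ := P3_pivot V x' hx'0
  refine ⟨(y i0)⁻¹, 0, -((x' i1)⁻¹ * (x i0 * (y i0)⁻¹)), (x' i1)⁻¹,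
    fun i => ⟨(y i0)⁻¹ * y i, hV0 i⟩, fun i => ⟨(x' i1)⁻¹ * x' i, hV1 i⟩, ?_, ?_, ?_, ?_⟩
  · rw [zero_mul, sub_zero]
    exact mul_ne_zero (inv_ne_zero hi0) (inv_ne_zero hi1)
  · intro i
    change (y i0)⁻¹ * y i = _
    ring
  · intro i
    change (x' i1)⁻¹ * x' i = _
    simp only [hx']
    ring
  · rw [LinearIndependent.pair_iff]
    intro a b hab
    have e0 := congrFun hab i0
    have e1 := congrFun hab i1
    simp only [Pi.add_apply, Pi.smul_apply, smul_eq_mul, Pi.zero_apply] at e0 e1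
    have k1 : (⟨(y i0)⁻¹ * y i0, hV0 i0⟩ : V) = 1 := by
      apply Subtype.ext
      exact inv_mul_cancel₀ hi0
    have k2 : (⟨(x' i1)⁻¹ * x' i0, hV1 i0⟩ : V) = 0 := by
      apply Subtype.ext
      change (x' i1)⁻¹ * x' i0 = 0
      rw [hx'i0, mul_zero]
    have k3 : (⟨(x' i1)⁻¹ * x' i1, hV1 i1⟩ : V) = 1 := by
      apply Subtype.ext
      exact inv_mul_cancel₀ hi1
    rw [k1, k2, map_one, map_zero, mul_one, mul_zero, add_zero] at e0
    rw [k3, map_one, mul_one, e0, zero_mul, zero_add] at e1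
    exact ⟨e0, e1⟩

end Pool.Agent.Lib.MP_2619d0_ag.T
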