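import Pool.Agent.Lib.MP_2619d0_ag.T.Defs

/-!
Row P4: a nontrivial valuation ring has a residue field of smaller transcendence degree.
-/

set_option autoImplicit false

namespace Pool.Agent.Lib.MP_2619d0_ag.T

open MvPolynomial

universe u v

section aux

variable {k L : Type*} [Field k] [Field L] [Algebra k L] (V : ValuationSubring L) [Algebra k V]
  [IsScalarTower k V L]

omit [Algebra k V] [IsScalarTower k V L] in
/-- an element of the maximal ideal is transcendental over a ring of units -/
theorem P4_transc (S : Subalgebra k L) (hadj : ∀ a : S, a ≠ 0 →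
      ∃ v : V, (v : L) = a ∧ IsLocalRing.residue V v ≠ 0) (π : V)
    (hπ : (π : L) ≠ 0) (hπ1 : π ∈ IsLocalRing.maximalIdeal V) : Transcendental S (π : L) := by
  have hmem : ∀ q : Polynomial S, ∃ w : V, (w : L) = Polynomial.aeval (π : L) q := by
    intro q
    have h1 : Polynomial.aeval (π : L) q ∈ V := by
      rw [Polynomial.aeval_eq_sum_range]
      apply sum_mem
      intro i _
      rw [Algebra.smul_def]
      apply mul_mem
      · by_cases h0 : q.coeff i = 0
        · rw [h0, map_zero]
          exact zero_mem _
        · obtain ⟨v, hv, _⟩ := hadj _ h0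
          have : algebraMap S L (q.coeff i) = (v : L) := hv.symm
          rw [this]
          exact v.2
      · exact pow_mem π.2 i
    exact ⟨⟨_, h1⟩, rfl⟩
  have key : ∀ n : ℕ, ∀ q : Polynomial S,
      q.natDegree ≤ n → Polynomial.aeval (π : L) q = 0 → q = 0 := by
    intro n
    induction n with
    | zero =>
      intro q hq h
      rw [Polynomial.eq_C_of_natDegree_le_zero hq] at h ⊢
      rw [Polynomial.aeval_C] at h
      have : q.coeff 0 = 0 := Subtype.ext h
      rw [this, Polynomial.C_0]
    | succ n ih =>
      intro q hq h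
      have hc : q.coeff 0 = 0 := by
        by_contra hc
        obtain ⟨v, hv, hv1⟩ := hadj _ hc
        obtain ⟨w, hw⟩ := hmem q.divX
        rw [← Polynomial.divX_mul_X_add q, map_add, map_mul, Polynomial.aeval_X,
          Polynomial.aeval_C, ← hw] at h
        have h2 : algebraMap S L (q.coeff 0) = (v : L) := hv.symm
        rw [h2] at h
        have h3 : w * π + v = 0 := Subtype.ext h
        have h4 : v = - (w * π) := by
          rw [eq_neg_iff_add_eq_zero, add_comm]
          exact h3
        apply hv1
        rw [IsLocalRing.residue_eq_zero_iff, h4]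
        exact neg_mem (Ideal.mul_mem_left _ _ hπ1)
      have hd : Polynomial.aeval (π : L) q.divX = 0 := by
        rw [← Polynomial.divX_mul_X_add q, hc, map_add, map_mul, Polynomial.aeval_X,
          Polynomial.C_0, map_zero, add_zero] at h
        exact (mul_eq_zero.1 h).resolve_right hπ
      have hd0 := ih q.divX (by rw [Polynomial.natDegree_divX_eq_natDegree_tsub_one]; omega) hd
      rw [← Polynomial.divX_mul_X_add q, hc, hd0]
      simp
  intro hπalg
  obtain ⟨p, hp, hp0⟩ := hπalg
  exact hp (key _ p le_rfl hp0)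

/-- lifts of algebraically independent residues together with an element of the maximal ideal are
algebraically independent -/
theorem P4_option {ι : Type*} (R : ι → V)
    (hR : AlgebraicIndependent k (fun i => IsLocalRing.residue V (R i))) (π : V)
    (hπ : (π : L) ≠ 0) (hπ1 : π ∈ IsLocalRing.maximalIdeal V) :
    AlgebraicIndependent k (fun o : Option ι => o.elim (π : L) (fun i => (R i : L))) := by
  have hR1 : AlgebraicIndependent k R :=
    AlgebraicIndependent.of_comp (IsScalarTower.toAlgHom k V (IsLocalRing.ResidueField V)) hR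
  have hinj : Function.Injective (IsScalarTower.toAlgHom k V L) := Subtype.val_injective
  have hR3 := hR1.map' hinj
  have e0 : (IsScalarTower.toAlgHom k V L) ∘ R = fun i => (R i : L) := by
    funext i
    exact rfl
  rw [e0] at hR3
  refine AlgebraicIndependent.option_iff.2 ⟨hR3, ?_⟩
  refine P4_transc V _ ?_ π hπ hπ1
  intro a ha
  have e := Algebra.adjoin_range_eq_range_aeval k (fun i => (R i : L))
  have h1 := (SetLike.ext_iff.1 e (a : L)).1 a.2
  obtain ⟨P, hP⟩ := h1
  have hP' : aeval (fun i => (R i : L)) P = (a : L) := hP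
  refine ⟨aeval R P, ?_, ?_⟩
  · rw [← hP']
    have h2 := MvPolynomial.comp_aeval_apply (f := R) (IsScalarTower.toAlgHom k V L) P
    exact h2
  · intro h0
    have h2 := MvPolynomial.comp_aeval_apply (f := R)
      (IsScalarTower.toAlgHom k V (IsLocalRing.ResidueField V)) P
    have h3 : aeval (fun i => IsLocalRing.residue V (R i)) P = 0 := h2.symm.trans h0
    have h4 : P = 0 := (algebraicIndependent_iff.1 hR) P h3
    apply ha
    apply Subtype.ext
    rw [← hP', h4, map_zero]
    rfl

end aux

open Cardinal in
/-- the main counting argument -/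
theorem P4_main {k : Type*} {L : Type u} {κ : Type v} [Field k] [Field L] [Algebra k L]
    (V : ValuationSubring L) [Algebra k V] [IsScalarTower k V L] [Field κ] [Algebra k κ]
    [Algebra (IsLocalRing.ResidueField V) κ] [IsScalarTower k (IsLocalRing.ResidueField V) κ]
    {N : ℕ} (x : Fin N → L) (x' : Fin N → κ)
    (halg : Algebra.IsAlgebraic (Algebra.adjoin k (Set.range x)) L)
    (hind : ∀ (ι : Type u) (g : ι → Fin N), AlgebraicIndependent k (fun i => x (g i)) →
      AlgebraicIndependent k (fun i => x' (g i)))
    (hV : V ≠ ⊤) (hx' : ∀ i, IsAlgebraic (IsLocalRing.ResidueField V) (x' i)) : False := by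
  obtain ⟨s, hs⟩ := exists_isTranscendenceBasis k (IsLocalRing.ResidueField V)
  have hlift : ∀ r : s, ∃ v : V, IsLocalRing.residue V v = r := fun r =>
    IsLocalRing.residue_surjective r.1
  choose R hR using hlift
  have hRind : AlgebraicIndependent k (fun i => IsLocalRing.residue V (R i)) := by
    have h1 : (fun i => IsLocalRing.residue V (R i)) =
        (fun i : s => (i : IsLocalRing.ResidueField V)) := funext hR
    rw [h1]
    exact hs.1
  have hπ : ∃ π : V, (π : L) ≠ 0 ∧ π ∈ IsLocalRing.maximalIdeal V := by
    have h1 : ∃ a : L, a ∉ V := by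
      by_contra h
      push Not at h
      exact hV (top_le_iff.1 (fun a _ => h a))
    obtain ⟨a, ha⟩ := h1
    have ha0 : a ≠ 0 := by
      intro h0
      rw [h0] at ha
      exact ha (zero_mem _)
    have hai : a⁻¹ ∈ V := (V.mem_or_inv_mem a).resolve_left ha
    refine ⟨⟨a⁻¹, hai⟩, inv_ne_zero ha0, ?_⟩
    rw [IsLocalRing.mem_maximalIdeal, mem_nonunits_iff]
    intro hu
    obtain ⟨u, hu⟩ := hu
    have h2 : a = ((u⁻¹ : Vˣ) : V) := by
      have h3 : ((u : V) : L) * (((u⁻¹ : Vˣ) : V) : L) = 1 := by
        rw [← MulMemClass.coe_mul, Units.mul_inv]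
        rfl
      rw [hu] at h3
      field_simp at h3
      exact h3.symm
    rw [h2] at ha
    exact ha (((u⁻¹ : Vˣ) : V).2)
  obtain ⟨π, hπ0, hπ1⟩ := hπ
  have hopt := P4_option V R hRind π hπ0 hπ1
  obtain ⟨t, hts, ht⟩ := exists_isTranscendenceBasis_subset (R := k) (Set.range x)
  have hidx : ∀ a : t, ∃ i : Fin N, x i = a := fun a => hts a.2
  choose g hg using hidx
  have h1 : AlgebraicIndependent k (fun a : t => x (g a)) := by
    have h2 : (fun a : t => x (g a)) = (fun a : t => (a : L)) := funext hg
    rw [h2]
    exact ht.1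
  have h2 := hind t g h1
  have hginj : Function.Injective g := by
    intro a b hab
    apply Subtype.ext
    rw [← hg a, ← hg b, hab]
  have hfin : #t < ℵ₀ := by
    have : Finite t := Finite.of_injective g hginj
    exact Cardinal.lt_aleph0_of_finite t
  have hL : #(Option s) ≤ #t := by
    rw [ht.cardinalMk_eq_trdeg]
    exact hopt.cardinalMk_le_trdeg
  set E := algebraicClosure (IsLocalRing.ResidueField V) κ with hE
  have hmem : ∀ i, x' i ∈ E := fun i => by
    rw [hE, mem_algebraicClosure_iff]
    exact hx' i
  have : IsScalarTower k E κ := IsScalarTower.of_algebraMap_eq (fun _ => rfl)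
  have h3 : AlgebraicIndependent k (fun a : t => (⟨x' (g a), hmem _⟩ : E)) :=
    AlgebraicIndependent.of_comp (IsScalarTower.toAlgHom k E κ) h2
  have h4 : lift.{v} #t ≤ lift.{u} (Algebra.trdeg k E) := h3.lift_cardinalMk_le_trdeg
  have h5 : lift.{v} (Algebra.trdeg k (IsLocalRing.ResidueField V)) +
      lift.{u} (Algebra.trdeg (IsLocalRing.ResidueField V) E) = lift.{u} (Algebra.trdeg k E) :=
    lift_trdeg_add_eq k (IsLocalRing.ResidueField V) E
  have h6 : Algebra.trdeg (IsLocalRing.ResidueField V) E = 0 := trdeg_eq_zero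
  rw [h6, Cardinal.lift_zero, add_zero, ← hs.cardinalMk_eq_trdeg] at h5
  rw [← h5, Cardinal.lift_le] at h4
  rw [Cardinal.mk_option] at hL
  have hsfin : #s < ℵ₀ := lt_of_le_of_lt ((self_le_add_right _ _).trans hL) hfin
  obtain ⟨n, hn⟩ := Cardinal.lt_aleph0.1 hsfin
  rw [hn] at hL h4
  have h7 := hL.trans h4
  have h8 : n + 1 ≤ n := by exact_mod_cast h7
  omega

open scoped IntermediateField.algebraAdjoinAdjoin in
/-- `L` is algebraic over the ring generated by the coordinates -/
theorem P4_alg {N : ℕ} {L : Type*} [Field L] [Algebra ℂ L] (χ : MvPolynomial (Fin N) ℂ →+* L)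
    (hC : ∀ c, χ (C c) = algebraMap ℂ L c) (hfd : fd χ ≠ 0) :
    Algebra.IsAlgebraic (Algebra.adjoin ℂ (Set.range fun i => χ (X i))) L := by
  have h1 : cl χ = (IntermediateField.adjoin ℂ (Set.range fun i => χ (X i))).toSubfield := by
    apply le_antisymm
    · unfold cl
      rw [Subfield.closure_le]
      rintro _ ⟨G, rfl⟩
      change χ G ∈ IntermediateField.adjoin ℂ (Set.range fun i => χ (X i))
      induction G using MvPolynomial.induction_on with
      | C c =>
        rw [hC]
        exact IntermediateField.algebraMap_mem _ c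
      | add p q hp hq =>
        rw [map_add]
        exact add_mem hp hq
      | mul_X p i hp =>
        rw [map_mul]
        exact mul_mem hp (IntermediateField.subset_adjoin _ _ ⟨i, rfl⟩)
    · unfold cl IntermediateField.adjoin
      change Subfield.closure _ ≤ _
      rw [Subfield.closure_le]
      rintro _ (⟨c, rfl⟩ | ⟨i, rfl⟩)
      · rw [← hC]
        exact Subfield.subset_closure ⟨_, rfl⟩
      · exact Subfield.subset_closure ⟨_, rfl⟩
  have h2 : Module.finrank (IntermediateField.adjoin ℂ (Set.range fun i => χ (X i))) L ≠ 0 := by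
    intro h0
    apply hfd
    unfold fd
    rw [h1]
    exact h0
  have h3 : FiniteDimensional (IntermediateField.adjoin ℂ (Set.range fun i => χ (X i))) L :=
    FiniteDimensional.of_finrank_pos (Nat.pos_of_ne_zero h2)
  have h4 : Algebra.IsAlgebraic (IntermediateField.adjoin ℂ (Set.range fun i => χ (X i))) L :=
    Algebra.IsAlgebraic.of_finite _ _
  exact (IsFractionRing.comap_isAlgebraic_iff
    (K := IntermediateField.adjoin ℂ (Set.range fun i => χ (X i)))).2 h4

/-- Make `L` a `ℂ`-algebra by `χ.comp C`; `V` contains `ℂ`. `V ≠ ⊤`: there is `π ∈ V`, `π ≠ 0`, with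
`V.valuation π < 1`. If `r_1, …, r_k` are elements of the residue field that are algebraically
independent over `ℂ`, then lifts `R_1, …, R_k` and `π` are algebraically independent over `ℂ`: let
`∑ c_j(R) π ^ j = 0` be a nontrivial relation, divided by the largest possible power of `π`, so that
`c_0 ≠ 0`; then `c_0(R)` has valuation `< 1`, but its residue `c_0(r)` is not zero. Hence
`trdeg (residue field) + 1 ≤ trdeg L`, and `trdeg L = trdeg (cl χ) = d` (`L` is finite over `cl χ`,
`hfd`), `d ≤ N`. `cl χ` and `cl χ'` are isomorphic over `ℂ` (both are fraction fields of the ring of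
polynomials modulo `f`), so `cl χ'` contains `d` algebraically independent elements, for instance among
the `χ' (X i)`; if all `χ' G` were algebraic over the residue field then
`d ≤ trdeg (residue field) ≤ d - 1`. (A version with families: let `I ⊂ Fin N` be such that
`χ (X i)`, `i ∈ I`, is a transcendence basis of `cl χ`, so the `χ' (X i)` are algebraically independent,
because the kernels of `χ` and `χ'` are equal.) -/
theorem typeB_trdeg {N : ℕ} (f : MvPolynomial (Fin N) ℂ) (hf : Prime f) {L : Type*} [Field L]
    (χ : MvPolynomial (Fin N) ℂ →+* L) (hχ : ∀ G, χ G = 0 ↔ f ∣ G) (hfd : fd χ ≠ 0)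
    (V : ValuationSubring L) (hV : V ≠ ⊤) (hC : ∀ c : ℂ, χ (C c) ∈ V)
    {κ : Type*} [Field κ] (φ : IsLocalRing.ResidueField V →+* κ)
    (χ' : MvPolynomial (Fin N) ℂ →+* κ) (hχ' : ∀ G, χ' G = 0 ↔ f ∣ G)
    (hc : ∀ c : ℂ, χ' (C c) = φ (IsLocalRing.residue V ⟨χ (C c), hC c⟩)) :
    ∃ G, ¬ IsAlgebraic φ.fieldRange (χ' G) := by
  by_contra hcon
  push Not at hcon
  let _ : Algebra ℂ L := (χ.comp C).toAlgebra
  let _ : Algebra ℂ V := ((χ.comp C).codRestrict V hC).toAlgebra
  have : IsScalarTower ℂ V L := IsScalarTower.of_algebraMap_eq (fun c => rfl)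
  let _ : Algebra ℂ κ := (χ'.comp C).toAlgebra
  let _ : Algebra (IsLocalRing.ResidueField V) κ := φ.toAlgebra
  have : IsScalarTower ℂ (IsLocalRing.ResidueField V) κ :=
    IsScalarTower.of_algebraMap_eq (fun c => hc c)
  have halg := P4_alg χ (fun c => rfl) hfd
  refine P4_main V (fun i => χ (X i)) (fun i => χ' (X i)) halg ?_ hV ?_
  · intro ι g hg
    have e1 : ∀ P : MvPolynomial ι ℂ, aeval (fun i => χ (X (g i))) P = χ (rename g P) := by
      intro P
      induction P using MvPolynomial.induction_on with
      | C c => rw [aeval_C, rename_C]; rfl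
      | add p q hp hq => rw [map_add, hp, hq, map_add, map_add]
      | mul_X p i hp => rw [map_mul, hp, aeval_X, map_mul, rename_X, map_mul]
    have e2 : ∀ P : MvPolynomial ι ℂ, aeval (fun i => χ' (X (g i))) P = χ' (rename g P) := by
      intro P
      induction P using MvPolynomial.induction_on with
      | C c => rw [aeval_C, rename_C]; rfl
      | add p q hp hq => rw [map_add, hp, hq, map_add, map_add]
      | mul_X p i hp => rw [map_mul, hp, aeval_X, map_mul, rename_X, map_mul]
    rw [algebraicIndependent_iff] at hg ⊢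
    intro P hP
    apply hg
    rw [e1, hχ]
    rw [e2, hχ'] at hP
    exact hP
  · intro i
    have h1 := hcon (X i)
    refine IsAlgebraic.of_ringHom_of_comp_eq (S := φ.fieldRange) (B := κ) φ.rangeRestrictField
      (RingHom.id κ) (a := χ' (X i)) h1 φ.rangeRestrictField_bijective.2 Function.injective_id ?_
    ext a
    rfl

end Pool.Agent.Lib.MP_2619d0_ag.T
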