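import Pool.Agent.Lib.MP_2619d0_ag.T.S1

/-!
Row P5: the equation at the generic point of a line; `psi` is injective.
-/

set_option autoImplicit false

namespace Pool.Agent.Lib.MP_2619d0_ag.T

open MvPolynomial

variable {N : ℕ} {F : MvPolynomial (Fin (N + 1)) ℂ} {L : Type*} [Field L] [Algebra ℂ L]

theorem P5_uu (y x : Fin (N + 1) → L) :
    uu y x = (1 : MM L) • (fun i => cM L (y i)) + sv L • (fun i => cM L (x i)) := by
  funext i
  simp only [uu, Pi.add_apply, Pi.smul_apply, smul_eq_mul, one_mul]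

/-- `u = y + s x`: `Fc_line` with `a = 1`, `b = s`, `Fc_cm`, `Dc_cm` for `cM L`. -/
theorem Fc_uu (y x : Fin (N + 1) → L) (hy : Fc (cL L F) y = 0) (hx : Fc (cL L F) x = 0) :
    Fc (cm (cM L) (cL L F)) (uu y x) =
      sv L * cM L (Dc (cL L F) y x) + sv L ^ 2 * cM L (Dc (cL L F) x y) := by
  rw [P5_uu, Fc_line, Fc_cm, Dc_cm, Dc_cm, Fc_cm, hy, hx, map_zero]
  ring

/-- the affine coordinates of `u` -/
theorem yh_psi (y x : Fin (N + 1) → L) (hu : uu y x 0 ≠ 0) :
    yh (psi y x) = (uu y x 0)⁻¹ • uu y x := by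
  funext i
  refine Fin.cases ?_ (fun j => ?_) i
  · simp only [yh, Fin.cons_zero, Pi.smul_apply, smul_eq_mul]
    rw [inv_mul_cancel₀ hu]
  · simp only [yh, Fin.cons_succ, Pi.smul_apply, smul_eq_mul]
    rw [psi, eval₂Hom_X', div_eq_inv_mul]

/-- the coefficients of `F` in `L(s)` -/
theorem cc_psi (y x : Fin (N + 1) → L) : cc F (psi y x) = cm (cM L) (cL L F) := by
  have h : (psi y x).comp C = (cM L).comp (algebraMap ℂ L) := by
    ext c
    rw [RingHom.comp_apply, psi, coe_eval₂Hom, eval₂_C]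
  rw [cc, cL, cm_comp, h]

/-- `chi_dh`, `yh_psi`, `cc_psi`, `Fc_smul` -/
theorem psi_dh (hF : F.IsHomogeneous 3) (y x : Fin (N + 1) → L) (hu : uu y x 0 ≠ 0) :
    psi y x (dh ℂ N F) * uu y x 0 ^ 3 = Fc (cm (cM L) (cL L F)) (uu y x) := by
  rw [chi_dh hF, cc_psi, yh_psi y x hu, Fc_smul]
  have h1 : (uu y x 0)⁻¹ ^ 3 * uu y x 0 ^ 3 = 1 := by
    rw [← mul_pow, inv_mul_cancel₀ hu, one_pow]
  linear_combination (Fc (cm (cM L) (cL L F)) (uu y x)) * h1

/-- `u 0 = 1 + s x_0` -/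
theorem uu_zero_ne (y x : Fin (N + 1) → L) (hy0 : y 0 = 1) : uu y x 0 ≠ 0 := by
  intro h
  have h1 : algebraMap (Polynomial L) (MM L)
      (Polynomial.C (y 0) + Polynomial.X * Polynomial.C (x 0)) = 0 := by
    rw [map_add, map_mul]
    exact h
  have h2 : Polynomial.C (y 0) + Polynomial.X * Polynomial.C (x 0) = 0 :=
    (IsFractionRing.injective (Polynomial L) (MM L)) (by rw [h1, map_zero])
  have h3 := congrArg (Polynomial.eval 0) h2
  simp [hy0] at h3

/-- for a generic point `y` with `y 0 = 1`: `F(y) = 0` (`chi_dh` and `yh (ev y) = y`) -/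
theorem Fc_of_Gp (hF : F.IsHomogeneous 3) (y : Fin (N + 1) → L) (hy0 : y 0 = 1)
    (hy : Gp F (ev y)) : Fc (cL L F) y = 0 := by
  have h1 : ev y (dh ℂ N F) = 0 := (hy _).mpr (dvd_refl _)
  rw [chi_dh hF] at h1
  have h2 : yh (ev y) = y := by
    funext i
    refine Fin.cases ?_ (fun j => ?_) i
    · simp only [yh, Fin.cons_zero, hy0]
    · simp only [yh, Fin.cons_succ]
      change (aeval (fun i : Fin N => y i.succ / y 0) : MvPolynomial (Fin N) ℂ →ₐ[ℂ] L) (X j) = _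
      rw [aeval_X, hy0, div_one]
  have h3 : cc F (ev y) = cL L F := by
    have h : (ev y).comp C = algebraMap ℂ L := by
      ext c
      change (aeval (fun i : Fin N => y i.succ / y 0) : MvPolynomial (Fin N) ℂ →ₐ[ℂ] L) (C c) = _
      rw [aeval_C]
    rw [cc, cL, h]
  rwa [h2, h3] at h1

end Pool.Agent.Lib.MP_2619d0_ag.T
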