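import Pool.Agent.Lib.MP_2619d0_ag.T.P5

/-!
Row P5b: `psi` is injective.
-/

set_option autoImplicit false

namespace Pool.Agent.Lib.MP_2619d0_ag.T

open MvPolynomial

variable {N : ℕ} {F : MvPolynomial (Fin (N + 1)) ℂ} {L : Type*} [Field L] [Algebra ℂ L]

theorem P5b_algebraMap (z : ℂ) : algebraMap ℂ (MM L) z = cM L (algebraMap ℂ L z) := by
  rw [IsScalarTower.algebraMap_apply ℂ (Polynomial L) (MM L),
    IsScalarTower.algebraMap_apply ℂ L (Polynomial L)]
  rfl

theorem P5b_psi (y x : Fin (N + 1) → L) (G : MvPolynomial (Fin N) ℂ) :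
    psi y x G = aeval (fun i : Fin N => uu y x i.succ / uu y x 0) G := by
  unfold psi
  rw [aeval_def, coe_eval₂Hom]
  congr 1

omit [Algebra ℂ L] in
theorem P5b_uu (y x : Fin (N + 1) → L) (i : Fin (N + 1)) :
    uu y x i = algebraMap (Polynomial L) (MM L)
      (Polynomial.C (y i) + Polynomial.X * Polynomial.C (x i)) := by
  unfold uu cM sv
  rw [map_add, map_mul]
  rfl

theorem P5b_dvd (y x : Fin (N + 1) → L) (hy0 : y 0 = 1)
    (hy : Gp F (ev y)) (G : MvPolynomial (Fin N) ℂ) (hG : psi y x G = 0) :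
    dh ℂ N F ∣ G := by
  have hu : uu y x 0 ≠ 0 := uu_zero_ne y x hy0
  have h1 := aeval_eq_dh (L := MM L) (uu y x) hu (homog_homogeneous G)
  rw [dh_homog, ← P5b_psi, hG, mul_zero] at h1
  set U : Fin (N + 1) → Polynomial L :=
    fun i => Polynomial.C (y i) + Polynomial.X * Polynomial.C (x i) with hU
  have h2 : algebraMap (Polynomial L) (MM L) (aeval U (homog G)) = aeval (uu y x) (homog G) := by
    have h3 : (uu y x) = fun i => algebraMap (Polynomial L) (MM L) (U i) := by
      funext i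
      exact P5b_uu y x i
    rw [h3]
    exact (aeval_algebraMap_apply (MM L) U (homog G)).symm
  rw [h1] at h2
  have h4 : aeval U (homog G) = 0 :=
    (IsFractionRing.injective (Polynomial L) (MM L)) (by rw [h2, map_zero])
  have h5 : aeval y (homog G) = 0 := by
    have h6 := congrArg (Polynomial.evalRingHom (0 : L)) h4
    rw [map_zero] at h6
    rw [← h6, aeval_def, aeval_def, eval₂_comp_left]
    congr 1
    · ext z
      simp [Polynomial.algebraMap_apply]
    · funext i
      simp [hU]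
  have h7 := aeval_eq_dh (L := L) y (by rw [hy0]; exact one_ne_zero) (homog_homogeneous G)
  rw [h5, dh_homog, hy0, one_pow, one_mul] at h7
  apply (hy G).mp
  change aeval (fun i : Fin N => y i.succ / y 0) G = 0
  rw [hy0]
  exact h7.symm

/-- First: `ψ G = 0` implies `f ∣ G`, where `f = dh ℂ N F`. `ψ G = G(u / u_0)` with
`u_0 = 1 + s x_0`; multiply by `u_0 ^ k`, `k` the degree of `G`, to get a polynomial in `s` over `L`
whose value at `s = 0` is `G(y) = ev y G` (`y 0 = 1`). (Alternatively use the subring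
`{p / q | q(0) ≠ 0}` of `L(s)` and the homomorphism `p / q ↦ p(0) / q(0)`, e.g. with
`IsLocalization.lift` on `Localization.AtPrime (X)`.) Hence `ev y G = 0`, `f ∣ G` by `Gp`.
Second: let `ψ G = 0` with `G ≠ 0`, write `G = f ^ k * H` with `f ∤ H` (`f` prime;
`exists_eq_pow_mul_and_not_dvd` with finite multiplicity). Then `ψ f ^ k * ψ H = 0` and `ψ H ≠ 0`, so
`ψ f = 0`, `F(u) = 0` by `psi_dh`, and by `Fc_uu` `s δ1 + s² δ2 = 0` in `L(s)`, so
`δ1 = δ2 = 0`, a contradiction. -/
theorem psi_injective (hN : 2 ≤ N) (hF : VG F) (y x : Fin (N + 1) → L) (hy0 : y 0 = 1)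
    (hy : Gp F (ev y)) (hx : Fc (cL L F) x = 0)
    (hd : Dc (cL L F) y x ≠ 0 ∨ Dc (cL L F) x y ≠ 0) : Function.Injective (psi y x) := by
  have hu : uu y x 0 ≠ 0 := uu_zero_ne y x hy0
  have hprime := prime_dh hN hF
  rw [injective_iff_map_eq_zero]
  intro G hG
  by_contra hG0
  have hfm : FiniteMultiplicity (dh ℂ N F) G := FiniteMultiplicity.of_prime_left hprime hG0
  obtain ⟨H, hH1, hH2⟩ := hfm.exists_eq_pow_mul_and_not_dvd
  rw [hH1, map_mul, map_pow, mul_eq_zero] at hG
  rcases hG with h1 | h1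
  · have h2 : psi y x (dh ℂ N F) = 0 := by
      by_contra h3
      exact pow_ne_zero _ h3 h1
    have h3 := psi_dh hF.1 y x hu
    rw [h2, zero_mul, Fc_uu y x (Fc_of_Gp hF.1 y hy0 hy) hx] at h3
    have h4 : algebraMap (Polynomial L) (MM L)
        (Polynomial.X * Polynomial.C (Dc (cL L F) y x) +
          Polynomial.X ^ 2 * Polynomial.C (Dc (cL L F) x y)) = 0 := by
      rw [h3, map_add, map_mul, map_mul, map_pow]
      rfl
    have h5 : Polynomial.X * Polynomial.C (Dc (cL L F) y x) +
          Polynomial.X ^ 2 * Polynomial.C (Dc (cL L F) x y) = 0 :=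
      (IsFractionRing.injective (Polynomial L) (MM L)) (by rw [h4, map_zero])
    have h6 := congrArg (fun p => Polynomial.coeff p 1) h5
    have h7 := congrArg (fun p => Polynomial.coeff p 2) h5
    simp [Polynomial.coeff_X_pow] at h6 h7
    rcases hd with h | h
    · exact h h6
    · exact h h7
  · exact hH2 (P5b_dvd y x hy0 hy H h1)

end Pool.Agent.Lib.MP_2619d0_ag.T
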