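import Pool.Agent.Lib.MP_2619d0_ag.T.Defs

/-!
Row P6: `L(s)` is finite over the field generated by the ratios `u i / u 0`.
-/

set_option autoImplicit false

namespace Pool.Agent.Lib.MP_2619d0_ag.T

open MvPolynomial

theorem P6_cl {N : ℕ} {κ : Type*} [Field κ] [Algebra ℂ κ] (φ : MvPolynomial (Fin N) ℂ →+* κ)
    (hφ : ∀ c, φ (C c) = algebraMap ℂ κ c) :
    cl φ = (IntermediateField.adjoin ℂ (Set.range fun i => φ (X i))).toSubfield := by
  apply le_antisymm
  · unfold cl
    rw [Subfield.closure_le]
    rintro _ ⟨G, rfl⟩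
    change φ G ∈ IntermediateField.adjoin ℂ (Set.range fun i => φ (X i))
    induction G using MvPolynomial.induction_on with
    | C c =>
      rw [hφ]
      exact IntermediateField.algebraMap_mem _ c
    | add p q hp hq =>
      rw [map_add]
      exact add_mem hp hq
    | mul_X p i hp =>
      rw [map_mul]
      exact mul_mem hp (IntermediateField.subset_adjoin _ _ ⟨i, rfl⟩)
  · have halg : ∀ c : ℂ, algebraMap ℂ κ c ∈ cl φ := by
      intro c
      rw [← hφ]
      exact Subfield.subset_closure ⟨C c, rfl⟩
    have h1 : IntermediateField.adjoin ℂ (Set.range fun i => φ (X i)) ≤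
        (cl φ).toIntermediateField halg := by
      rw [IntermediateField.adjoin_le_iff]
      rintro _ ⟨i, rfl⟩
      exact Subfield.subset_closure ⟨X i, rfl⟩
    exact h1

theorem P6_fin_of_fd {N : ℕ} {κ : Type*} [Field κ] [Algebra ℂ κ]
    (φ : MvPolynomial (Fin N) ℂ →+* κ) (hφ : ∀ c, φ (C c) = algebraMap ℂ κ c) (h : fd φ ≠ 0) :
    FiniteDimensional (IntermediateField.adjoin ℂ (Set.range fun i => φ (X i))) κ := by
  have h1 : Module.finrank (IntermediateField.adjoin ℂ (Set.range fun i => φ (X i))).toSubfield κ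
      ≠ 0 := by
    unfold fd at h
    rw [P6_cl φ hφ] at h
    exact h
  exact Module.finite_of_finrank_pos (Nat.pos_of_ne_zero h1)

theorem P6_fd_of_fin {N : ℕ} {κ : Type*} [Field κ] [Algebra ℂ κ]
    (φ : MvPolynomial (Fin N) ℂ →+* κ) (hφ : ∀ c, φ (C c) = algebraMap ℂ κ c)
    (h : FiniteDimensional (IntermediateField.adjoin ℂ (Set.range fun i => φ (X i))) κ) :
    fd φ ≠ 0 := by
  have h1 : Module.finrank (IntermediateField.adjoin ℂ (Set.range fun i => φ (X i))).toSubfield κ
      ≠ 0 := by
    have h2 : Module.finrank (IntermediateField.adjoin ℂ (Set.range fun i => φ (X i))) κ ≠ 0 :=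
      Module.finrank_pos.ne'
    exact h2
  unfold fd
  rw [P6_cl φ hφ]
  exact h1

theorem P6_finite {K E : Type*} [Field K] [Field E] [Algebra K E] [Algebra.EssFiniteType K E]
    [Algebra.IsAlgebraic K E] : FiniteDimensional K E := by
  obtain ⟨s, hs⟩ := IntermediateField.fg_top K E
  have h1 : FiniteDimensional K (IntermediateField.adjoin K (s : Set E)) :=
    IntermediateField.finiteDimensional_adjoin fun x _ =>
      (Algebra.IsAlgebraic.isAlgebraic x).isIntegral
  rw [hs] at h1
  exact IntermediateField.topEquiv.toLinearEquiv.finiteDimensional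

open IntermediateField.algebraAdjoinAdjoin in
theorem P6_trdeg {N : ℕ} {L : Type*} [Field L] [Algebra ℂ L] (a : Fin N → L)
    (hdep : ∃ G : MvPolynomial (Fin N) ℂ, G ≠ 0 ∧ aeval a G = 0)
    [FiniteDimensional (IntermediateField.adjoin ℂ (Set.range a)) L] :
    Algebra.trdeg ℂ L + 1 ≤ N := by
  have h0 : Algebra.IsAlgebraic (IntermediateField.adjoin ℂ (Set.range a)) L := inferInstance
  have h1 : Algebra.IsAlgebraic (Algebra.adjoin ℂ (Set.range a)) L :=
    (IsFractionRing.comap_isAlgebraic_iff (A := Algebra.adjoin ℂ (Set.range a))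
      (K := IntermediateField.adjoin ℂ (Set.range a)) (C := L)).mpr h0
  have h2 : Algebra.EssFiniteType ℂ (IntermediateField.adjoin ℂ (Set.range a)) :=
    IntermediateField.essFiniteType_iff.mpr
      (IntermediateField.fg_adjoin_of_finite (Set.finite_range a))
  have h3 : Algebra.EssFiniteType ℂ L :=
    Algebra.EssFiniteType.comp ℂ (IntermediateField.adjoin ℂ (Set.range a)) L
  have h4 := trdeg_lt_aleph0 ℂ L
  obtain ⟨n, hn⟩ := Cardinal.lt_aleph0.mp h4
  rw [hn]
  have h5 : ¬ (N ≤ n) := by
    intro hle
    have h6 := Algebra.IsAlgebraic.isTranscendenceBasis_of_lift_le_trdeg_of_finite ℂ a (by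
      rw [hn, Cardinal.mk_fin, Cardinal.lift_natCast, Cardinal.lift_natCast]
      exact_mod_cast hle)
    obtain ⟨G, hG, hG0⟩ := hdep
    have h7 := h6.1
    rw [algebraicIndependent_iff_injective_aeval] at h7
    exact hG (h7 (by rw [hG0, map_zero]))
  have h8 : n + 1 ≤ N := by omega
  exact_mod_cast h8

/-- `L` is finite over `cl (ev y)`, a field generated over `ℂ` by the `N` elements `y i / y 0` which are
algebraically dependent (`hdep`), so the transcendence degree of `L` over `ℂ` is at most `N - 1` and
that of `L(s)` at most `N`. `ψ = psi y x` is injective, so the `N` elements `ψ (X i)` of `L(s)` are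
algebraically independent over `ℂ`, hence a transcendence basis: `L(s)` is algebraic over
`cl ψ`. Moreover `L(s)` is generated over `ℂ` by `s`, the `y i / y 0` and a finite basis of `L` over
`cl (ev y)`; so it is generated over `cl ψ` by finitely many algebraic elements: it is finite over
`cl ψ` (`finrank ≠ 0`). (Mathlib: `Algebra.trdeg`, `IsTranscendenceBasis`,
`AlgebraicIndependent.isTranscendenceBasis_of_trdeg_le`-like lemmas, `Algebra.EssFiniteType` and
`Algebra.IsAlgebraic`, `IntermediateField.finiteDimensional_adjoin`, …) -/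
theorem psi_finite {N : ℕ} {L : Type*} [Field L] [Algebra ℂ L] (y x : Fin (N + 1) → L)
    (hdep : ∃ G, G ≠ 0 ∧ ev y G = 0) (hfd : fd (ev y) ≠ 0)
    (hinj : Function.Injective (psi y x)) : fd (psi y x) ≠ 0 := by
  have hcM : ∀ c : ℂ, cM L (algebraMap ℂ L c) = algebraMap ℂ (MM L) c := fun c => rfl
  have hψC : ∀ c : ℂ, psi y x (C c) = algebraMap ℂ (MM L) c := by
    intro c
    unfold psi
    rw [eval₂Hom_C]
    exact hcM c
  have hevC : ∀ c : ℂ, ev y (C c) = algebraMap ℂ L c := by
    intro c
    unfold ev
    exact aeval_C _ _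
  have hevX : ∀ i : Fin N, ev y (X i) = y i.succ / y 0 := by
    intro i
    unfold ev
    exact aeval_X _ _
  have hfin := P6_fin_of_fd (ev y) hevC hfd
  obtain ⟨G, hG, hG0⟩ := hdep
  have htr := P6_trdeg (fun i : Fin N => ev y (X i)) ⟨G, hG, by
    have h1 : (fun i : Fin N => ev y (X i)) = fun i : Fin N => y i.succ / y 0 := funext hevX
    rw [h1]
    exact hG0⟩
  -- the transcendence degree of the rational function field
  have htower : IsScalarTower ℂ L (MM L) := IsScalarTower.of_algebraMap_eq fun c => rfl
  have htower2 : IsScalarTower L (Polynomial L) (MM L) := inferInstance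
  have h1 : Algebra.trdeg L (MM L) = 1 := by
    have h2 := _root_.trdeg_add_eq L (Polynomial L) (A := MM L)
    have h3 : Algebra.IsAlgebraic (Polynomial L) (MM L) :=
      IsLocalization.isAlgebraic _ (nonZeroDivisors (Polynomial L))
    rw [_root_.trdeg_eq_zero (R := Polynomial L) (A := MM L), add_zero,
      Polynomial.trdeg_of_isDomain] at h2
    exact h2.symm
  have h2 : Algebra.trdeg ℂ (MM L) ≤ N := by
    have h3 := _root_.trdeg_add_eq ℂ L (A := MM L)
    rw [h1] at h3
    rw [← h3]
    exact htr
  have hind : AlgebraicIndependent ℂ (fun i : Fin N => psi y x (X i)) := by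
    rw [algebraicIndependent_iff_injective_aeval]
    have h3 : ∀ p, aeval (fun i : Fin N => psi y x (X i)) p = psi y x p := by
      intro p
      induction p using MvPolynomial.induction_on with
      | C c => rw [aeval_C, hψC]
      | add p q hp hq => rw [map_add, map_add, hp, hq]
      | mul_X p i hp => rw [map_mul, map_mul, hp, aeval_X]
    intro p q hpq
    apply hinj
    rw [← h3, ← h3]
    exact hpq
  have hbasis := hind.isTranscendenceBasis_of_lift_trdeg_le_of_finite (by
    rw [Cardinal.mk_fin, Cardinal.lift_natCast]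
    calc Cardinal.lift.{0} (Algebra.trdeg ℂ (MM L)) ≤ Cardinal.lift.{0} (N : Cardinal) :=
          Cardinal.lift_le.mpr h2
      _ = N := by simp)
  have halg := hbasis.isAlgebraic_field
  have hess0 : Algebra.EssFiniteType ℂ (IntermediateField.adjoin ℂ
      (Set.range fun i : Fin N => ev y (X i))) :=
    IntermediateField.essFiniteType_iff.mpr
      (IntermediateField.fg_adjoin_of_finite (Set.finite_range _))
  have hess1 : Algebra.EssFiniteType ℂ L :=
    Algebra.EssFiniteType.comp ℂ (IntermediateField.adjoin ℂ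
      (Set.range fun i : Fin N => ev y (X i))) L
  have hess2 : Algebra.EssFiniteType L (MM L) := inferInstance
  have hess3 : Algebra.EssFiniteType ℂ (MM L) := Algebra.EssFiniteType.comp ℂ L (MM L)
  have hess4 : Algebra.EssFiniteType (IntermediateField.adjoin ℂ
      (Set.range fun i : Fin N => psi y x (X i))) (MM L) :=
    Algebra.EssFiniteType.of_comp ℂ _ (MM L)
  exact P6_fd_of_fin (psi y x) hψC P6_finite

end Pool.Agent.Lib.MP_2619d0_ag.T
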