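import Pool.Agent.Lib.MP_2619d0_ag.T.P5
import Pool.Agent.Lib.MP_2619d0_ag.T.P1

/-!
Row P7: the places over `f` whose valuation ring contains `L`.
-/

set_option autoImplicit false

namespace Pool.Agent.Lib.MP_2619d0_ag.T

open MvPolynomial

variable {N : ℕ} {F : MvPolynomial (Fin (N + 1)) ℂ} {L : Type*} [Field L] [Algebra ℂ L]

/-- If `s ∉ O` then `s⁻¹` has valuation `< 1`. If `s ∈ O` then `u 0 ∈ O` and by `psi_dh`, `Fc_uu`
`s (δ1 + s δ2) = ψ f * u_0 ^ 3` has valuation `< 1` (`ψ f` has valuation `< 1` because `f ∣ f`), so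
`s` or `δ1 + s δ2` has valuation `< 1` (`δ1 = D(y; x)`, `δ2 = D(x; y)`). In the second case, if
`δ2 = 0` then `δ1 ≠ 0` is a unit of `O` (`hL` for `δ1⁻¹`), contradiction; if `δ2 ≠ 0` divide by the
unit `δ2` of `O`. -/
theorem trichotomy (hF : F.IsHomogeneous 3) (y x : Fin (N + 1) → L) (hy0 : y 0 = 1)
    (hy : Fc (cL L F) y = 0) (hx : Fc (cL L F) x = 0)
    (hd : Dc (cL L F) y x ≠ 0 ∨ Dc (cL L F) x y ≠ 0) (O : ValuationSubring (MM L))
    (hO : Over (dh ℂ N F) (psi y x) O) (hL : ∀ a, cM L a ∈ O) :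
    O.valuation (sv L) < 1 ∨ O.valuation (sv L)⁻¹ < 1 ∨
      (Dc (cL L F) x y ≠ 0 ∧
        O.valuation (sv L - cM L (-(Dc (cL L F) y x) / Dc (cL L F) x y)) < 1) := by
  set A := Dc (cL L F) y x with hA
  set B := Dc (cL L F) x y with hB
  have hunit : ∀ a : L, a ≠ 0 → O.valuation (cM L a) = 1 := by
    intro a ha
    have h1 : O.valuation (cM L a) ≤ 1 := O.valuation_le_one ⟨_, hL a⟩
    have h2 : O.valuation (cM L a⁻¹) ≤ 1 := O.valuation_le_one ⟨_, hL a⁻¹⟩
    have h3 : O.valuation (cM L a) * O.valuation (cM L a⁻¹) = 1 := by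
      rw [← map_mul, ← map_mul, mul_inv_cancel₀ ha, map_one, map_one]
    rcases lt_or_eq_of_le h1 with h4 | h4
    · exfalso
      have h5 : O.valuation (cM L a) * O.valuation (cM L a⁻¹) < 1 := by
        calc _ ≤ O.valuation (cM L a) * 1 := mul_le_mul_right h2 _
          _ < 1 := by rw [mul_one]; exact h4
      rw [h3] at h5
      exact lt_irrefl _ h5
    · exact h4
  by_cases hs : sv L ∈ O
  · have hsle : O.valuation (sv L) ≤ 1 := (O.valuation_le_one_iff _).2 hs
    have hu0 : uu y x 0 ∈ O := by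
      unfold uu
      exact O.add_mem _ _ (hL _) (O.mul_mem _ _ hs (hL _))
    have hu0le : O.valuation (uu y x 0) ≤ 1 := (O.valuation_le_one_iff _).2 hu0
    have hf : O.valuation (psi y x (dh ℂ N F)) < 1 := (hO.2 _).2 dvd_rfl
    have h1 : O.valuation (sv L * (cM L A + sv L * cM L B)) < 1 := by
      have h2 : sv L * (cM L A + sv L * cM L B) = psi y x (dh ℂ N F) * uu y x 0 ^ 3 := by
        rw [psi_dh hF y x (uu_zero_ne y x hy0), Fc_uu y x hy hx]
        ring
      rw [h2, map_mul, map_pow]
      calc _ ≤ O.valuation (psi y x (dh ℂ N F)) * 1 :=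
            mul_le_mul_right (pow_le_one' hu0le 3) _
        _ < 1 := by rw [mul_one]; exact hf
    by_cases hs1 : O.valuation (sv L) < 1
    · exact Or.inl hs1
    · right; right
      have hs2 : O.valuation (sv L) = 1 := le_antisymm hsle (not_lt.1 hs1)
      rw [map_mul, hs2, one_mul] at h1
      by_cases hB0 : B = 0
      · exfalso
        have hA0 : A ≠ 0 := by
          rcases hd with h | h
          · exact h
          · exact absurd hB0 h
        rw [hB0, map_zero, mul_zero, add_zero, hunit A hA0] at h1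
        exact lt_irrefl _ h1
      · refine ⟨hB0, ?_⟩
        have h3 : sv L - cM L (-A / B) = (cM L A + sv L * cM L B) * cM L B⁻¹ := by
          have h4 : cM L B * cM L B⁻¹ = 1 := by
            rw [← map_mul, mul_inv_cancel₀ hB0, map_one]
          have h5 : cM L (-A / B) = - (cM L A * cM L B⁻¹) := by
            rw [← map_mul, ← map_neg]
            congr 1
            ring
          rw [h5]
          linear_combination - sv L * h4
        rw [h3, map_mul, hunit B⁻¹ (inv_ne_zero hB0), mul_one]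
        exact h1
  · right; left
    rcases O.mem_or_inv_mem (sv L) with h | h
    · exact absurd h hs
    · have h1 : O.valuation (sv L)⁻¹ ≤ 1 := (O.valuation_le_one_iff _).2 h
      rcases lt_or_eq_of_le h1 with h2 | h2
      · exact h2
      · exfalso
        apply hs
        rw [← O.valuation_le_one_iff]
        rw [map_inv₀, inv_eq_one] at h2
        exact le_of_eq h2

end Pool.Agent.Lib.MP_2619d0_ag.T
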