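import Pool.Agent.Lib.MP_2619d0_ag.T.P5

/-!
Row P7b: the order of `ψ f` at the places `s = 0` and `s = ∞`.
-/

set_option autoImplicit false

namespace Pool.Agent.Lib.MP_2619d0_ag.T

open MvPolynomial

variable {N : ℕ} {F : MvPolynomial (Fin (N + 1)) ℂ} {L : Type*} [Field L] [Algebra ℂ L]

omit [Algebra ℂ L] in
theorem P7b_unit (O : ValuationSubring (MM L)) (hL : ∀ a, cM L a ∈ O) {a : L} (ha : a ≠ 0) :
    O.valuation (cM L a) = 1 := by
  have h1 : O.valuation (cM L a) ≤ 1 := (O.valuation_le_one_iff _).mpr (hL a)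
  have h2 : O.valuation (cM L a⁻¹) ≤ 1 := (O.valuation_le_one_iff _).mpr (hL _)
  rw [map_inv₀, map_inv₀] at h2
  have h3 : O.valuation (cM L a) ≠ 0 := by
    rw [Valuation.ne_zero_iff]
    exact (map_ne_zero (cM L)).mpr ha
  refine le_antisymm h1 ?_
  exact (inv_le_one₀ (zero_lt_iff.mpr h3)).mp h2

omit [Algebra ℂ L] in
theorem P7b_sv_ne : sv L ≠ 0 := by
  unfold sv
  rw [Ne, map_eq_zero_iff _ (IsFractionRing.injective (Polynomial L) (MM L))]
  exact Polynomial.X_ne_zero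

omit [Algebra ℂ L] in
theorem P7b_uu (y x : Fin (N + 1) → L) (hy0 : y 0 = 1) :
    uu y x 0 = 1 + sv L * cM L (x 0) := by
  unfold uu
  rw [hy0, map_one]

/-- The place `s = 0`: `ψ f = s * ((δ1 + s δ2) / u_0 ^ 3)` and the second factor has valuation 1
(`δ1 ≠ 0`; `s δ2` has valuation `< 1`; `u_0 = 1 + s x_0`). -/
theorem ord_zero (hF : F.IsHomogeneous 3) (y x : Fin (N + 1) → L) (hy0 : y 0 = 1)
    (hy : Fc (cL L F) y = 0) (hx : Fc (cL L F) x = 0) (hd : Dc (cL L F) y x ≠ 0)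
    (O : ValuationSubring (MM L)) (hL : ∀ a, cM L a ∈ O) (h1 : O.valuation (sv L) < 1)
    (h2 : ∀ b, O.valuation b < 1 → ∃ c ∈ O, b = c * sv L) :
    HasOrd O (psi y x (dh ℂ N F)) 1 := by
  have hu := uu_zero_ne y x hy0
  have hsmall : ∀ a : L, O.valuation (sv L * cM L a) < 1 := by
    intro a
    rw [map_mul]
    exact mul_lt_of_lt_of_le_one h1 ((O.valuation_le_one_iff _).mpr (hL a))
  have hvu : O.valuation (uu y x 0) = 1 := by
    rw [P7b_uu y x hy0, Valuation.map_add_eq_of_lt_left]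
    · exact Valuation.map_one _
    · rw [Valuation.map_one]
      exact hsmall _
  have hnum : O.valuation (cM L (Dc (cL L F) y x) + sv L * cM L (Dc (cL L F) x y)) = 1 := by
    rw [Valuation.map_add_eq_of_lt_left]
    · exact P7b_unit O hL hd
    · rw [P7b_unit O hL hd]
      exact hsmall _
  refine ⟨sv L, P7b_sv_ne, h1, h2, (cM L (Dc (cL L F) y x) + sv L * cM L (Dc (cL L F) x y)) /
    uu y x 0 ^ 3, ?_, ?_⟩
  · rw [map_div₀, map_pow, hnum, hvu, one_pow, div_one]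
  · have h3 := psi_dh hF y x hu
    rw [Fc_uu y x hy hx] at h3
    rw [pow_one, div_mul_eq_mul_div, eq_div_iff (pow_ne_zero 3 hu), h3]
    ring

/-- The place `s = ∞` in the case `δ2 = 0`: with `τ = s⁻¹`, `u_0 = s (x_0 + τ)` and
`ψ f = s δ1 / u_0 ^ 3 = τ ^ 2 * (δ1 / (x_0 + τ) ^ 3)`. -/
theorem ord_infty (hF : F.IsHomogeneous 3) (y x : Fin (N + 1) → L) (hy0 : y 0 = 1)
    (hy : Fc (cL L F) y = 0) (hx : Fc (cL L F) x = 0) (hd : Dc (cL L F) y x ≠ 0)
    (hd2 : Dc (cL L F) x y = 0) (hx0 : x 0 ≠ 0)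
    (O : ValuationSubring (MM L)) (hL : ∀ a, cM L a ∈ O) (h1 : O.valuation (sv L)⁻¹ < 1)
    (h2 : ∀ b, O.valuation b < 1 → ∃ c ∈ O, b = c * (sv L)⁻¹) :
    HasOrd O (psi y x (dh ℂ N F)) 2 := by
  have hu := uu_zero_ne y x hy0
  have hs : sv L ≠ 0 := P7b_sv_ne
  have hv : O.valuation (cM L (x 0) + (sv L)⁻¹) = 1 := by
    rw [Valuation.map_add_eq_of_lt_left]
    · exact P7b_unit O hL hx0
    · rw [P7b_unit O hL hx0]
      exact h1
  have hne : cM L (x 0) + (sv L)⁻¹ ≠ 0 := by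
    intro h0
    rw [h0, map_zero] at hv
    exact zero_ne_one hv
  have hue : uu y x 0 = sv L * (cM L (x 0) + (sv L)⁻¹) := by
    rw [P7b_uu y x hy0]
    field_simp
    ring
  refine ⟨(sv L)⁻¹, inv_ne_zero hs, h1, h2, cM L (Dc (cL L F) y x) /
    (cM L (x 0) + (sv L)⁻¹) ^ 3, ?_, ?_⟩
  · rw [map_div₀, map_pow, P7b_unit O hL hd, hv, one_pow, div_one]
  · have h3 := psi_dh hF y x hu
    rw [Fc_uu y x hy hx, hd2, map_zero, mul_zero, add_zero, hue] at h3
    have h4 : (sv L * (cM L (x 0) + (sv L)⁻¹)) ^ 3 ≠ 0 := pow_ne_zero 3 (mul_ne_zero hs hne)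
    rw [← mul_left_inj' h4, h3]
    generalize cM L (x 0) + (sv L)⁻¹ = w at hne
    generalize cM L (Dc (cL L F) y x) = δ
    generalize sv L = s at hs
    field_simp

end Pool.Agent.Lib.MP_2619d0_ag.T
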