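import Pool.Agent.Lib.MP_2619d0_ag.T.P3
import Pool.Agent.Lib.MP_2619d0_ag.T.P5

/-!
Row P8: places over `f` whose valuation ring does not contain `L` have even residue degree.
-/

set_option autoImplicit false

namespace Pool.Agent.Lib.MP_2619d0_ag.T

open MvPolynomial

theorem P8_minor {K : Type*} [Field K] {n : ℕ} (v w : Fin n → K)
    (h : LinearIndependent K ![v, w]) : ∃ i j, v i * w j - v j * w i ≠ 0 := by
  by_contra hc
  push Not at hc
  have hv : v ≠ 0 := by
    intro h0
    exact h.ne_zero (0 : Fin 2) (by simpa using h0)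
  obtain ⟨i, hi⟩ := Function.ne_iff.mp hv
  rw [LinearIndependent.pair_iff] at h
  have := h (w i) (-(v i)) (by
    funext j
    have := hc i j
    simp only [Pi.add_apply, Pi.smul_apply, smul_eq_mul, Pi.zero_apply]
    linear_combination -this)
  exact hi (neg_eq_zero.mp this.2)

theorem P8_of_minor {K : Type*} [Field K] {n : ℕ} (v w : Fin n → K) {i j : Fin n}
    (h : v i * w j - v j * w i ≠ 0) : LinearIndependent K ![v, w] := by
  rw [LinearIndependent.pair_iff]
  intro a b hab
  have h1 := congrFun hab i
  have h2 := congrFun hab j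
  simp only [Pi.add_apply, Pi.smul_apply, smul_eq_mul, Pi.zero_apply] at h1 h2
  have ha : a * (v i * w j - v j * w i) = 0 := by linear_combination w j * h1 - w i * h2
  have hb : b * (v i * w j - v j * w i) = 0 := by linear_combination v i * h2 - v j * h1
  exact ⟨(mul_eq_zero.mp ha).resolve_right h, (mul_eq_zero.mp hb).resolve_right h⟩

theorem P8_map {K K' : Type*} [Field K] [Field K'] (φ : K →+* K') {n : ℕ} (v w : Fin n → K)
    (h : LinearIndependent K ![v, w]) :
    LinearIndependent K' ![fun i => φ (v i), fun i => φ (w i)] := by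
  obtain ⟨i, j, hij⟩ := P8_minor v w h
  refine P8_of_minor (i := i) (j := j) _ _ ?_
  have : φ (v i) * φ (w j) - φ (v j) * φ (w i) = φ (v i * w j - v j * w i) := by
    simp only [map_sub, map_mul]
  show φ (v i) * φ (w j) - φ (v j) * φ (w i) ≠ 0
  rw [this]
  exact (map_ne_zero φ).mpr hij

theorem P8_indep {L : Type*} [Field L] (a b : L) (h : cM L a + sv L * cM L b = 0) :
    a = 0 ∧ b = 0 := by
  have h1 : algebraMap (Polynomial L) (MM L) (Polynomial.C a + Polynomial.X * Polynomial.C b) = 0 := by
    rw [map_add, map_mul]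
    exact h
  have h2 : Polynomial.C a + Polynomial.X * Polynomial.C b = (0 : Polynomial L) := by
    rw [← (algebraMap (Polynomial L) (MM L)).map_zero] at h1
    exact IsFractionRing.injective (Polynomial L) (MM L) h1
  constructor
  · have := congrArg (fun P => Polynomial.coeff P 0) h2
    simpa using this
  · have := congrArg (fun P => Polynomial.coeff P 1) h2
    simpa [Polynomial.coeff_C] using this

/-- Step 1 (reduction of the line). Let `V = O.comap (cM L)` (a valuation ring of `L`), with residue
field `λ`, and `φ : λ → ResidueField O` the induced map (`IsLocalRing.ResidueField.map` of the local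
homomorphism `V → O`). Take `p q r t g1 g2` from `lattice2`. Then
`y = (t g1 - q g2) / (p t - q r)`, `x = (-r g1 + p g2) / (p t - q r)`, so `u = y + s x` is proportional
to `A g1 + B g2`, `A = t - r s`, `B = -q + p s` in `L(s)`, not both zero. If `B ≠ 0` and
`T = A / B ∈ O`, then `u` is proportional to `T g1 + g2` (entries in `O`); if `A ≠ 0` and
`T = B / A ∈ O`, then `u` is proportional to `g1 + T g2` (one of the two cases holds). By symmetry (swap
`g1, g2`) we get: vectors `g1, g2` over `V` with linearly independent residues, `T ∈ O`, `l ≠ 0` in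
`L(s)` with `l * u i = g1 i + T * g2 i` for all `i`. Some entry of the residue
`v := ḡ1 + T̄ ḡ2` (over `ResidueField O`; the `φ`-images of the residues stay linearly independent) is not
zero; as `u i / u 0 ∈ O` for all `i` (`psi` of the variables, `hO.1`), `v 0 ≠ 0`. With
`χ = rh (psi y x) O hO.1`: `yh χ = v / v 0`; `χ` is a generic point (`Gp F χ`, from `hO.2`: an element
of `O` has residue 0 iff its valuation is `< 1`), so `F(v) = 0` (`chi_dh`).
The coefficients `cc F χ` are the `φ`-images of coefficients in `λ`. -/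
theorem reduce_line {N : ℕ} (hN : 2 ≤ N) {F : MvPolynomial (Fin (N + 1)) ℂ} (hF : VG F)
    {L : Type*} [Field L] [Algebra ℂ L] (y x : Fin (N + 1) → L) (hy0 : y 0 = 1)
    (hlin : LinearIndependent L ![y, x]) (O : ValuationSubring (MM L))
    (hO : Over (dh ℂ N F) (psi y x) O) :
    ∃ (g1 g2 : Fin (N + 1) → O.comap (cM L))
      (φ : IsLocalRing.ResidueField (O.comap (cM L)) →+* IsLocalRing.ResidueField O)
      (T : IsLocalRing.ResidueField O),
      (∀ (a : O.comap (cM L)) (ha : cM L (a : L) ∈ O), φ (IsLocalRing.residue _ a) =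
        IsLocalRing.residue O ⟨cM L (a : L), ha⟩) ∧
      LinearIndependent (IsLocalRing.ResidueField O)
        ![fun i => φ (IsLocalRing.residue _ (g1 i)), fun i => φ (IsLocalRing.residue _ (g2 i))] ∧
      Gp F (rh (psi y x) O hO.1) ∧
      ∃ m : IsLocalRing.ResidueField O, m ≠ 0 ∧ ∀ i, m * yh (rh (psi y x) O hO.1) i =
        φ (IsLocalRing.residue _ (g1 i)) + T * φ (IsLocalRing.residue _ (g2 i)) := by
  classical
  -- the local homomorphism `V → O`
  have hmem : ∀ a : O.comap (cM L), cM L (a : L) ∈ O := fun a => ValuationSubring.mem_comap.mp a.2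
  let ι : (O.comap (cM L)) →+* O :=
    ((cM L).comp (O.comap (cM L)).subtype).codRestrict O.toSubring (fun a => hmem a)
  have hιv : ∀ a : O.comap (cM L), ((ι a : O) : MM L) = cM L (a : L) := fun a => rfl
  have hloc : IsLocalHom ι := by
    constructor
    intro a ha
    have hval : O.valuation (cM L (a : L)) = 1 := by
      have := (O.valuation_eq_one_iff (ι a)).mp ha
      rwa [hιv] at this
    have hne : (a : L) ≠ 0 := by
      intro h0
      rw [h0, map_zero, map_zero] at hval
      exact zero_ne_one hval
    have hinv : (a : L)⁻¹ ∈ O.comap (cM L) := by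
      rw [ValuationSubring.mem_comap, map_inv₀, ← O.valuation_le_one_iff, map_inv₀, hval, inv_one]
    rw [isUnit_iff_exists_inv]
    exact ⟨⟨(a : L)⁻¹, hinv⟩, Subtype.ext (mul_inv_cancel₀ hne)⟩
  let φ := IsLocalRing.ResidueField.map ι
  have hφ : ∀ (a : O.comap (cM L)) (ha : cM L (a : L) ∈ O), φ (IsLocalRing.residue _ a) =
        IsLocalRing.residue O ⟨cM L (a : L), ha⟩ := by
    intro a ha
    rfl
  have hu0 : uu y x 0 ≠ 0 := uu_zero_ne y x hy0
  -- the lattice
  obtain ⟨p, q, r, t, g1, g2, hD, hg1, hg2, hli⟩ := lattice2 (O.comap (cM L)) y x hlin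
  have hy : ∀ i, (p * t - q * r) * y i = t * (g1 i : L) - q * (g2 i : L) := by
    intro i; rw [hg1, hg2]; ring
  have hx : ∀ i, (p * t - q * r) * x i = -r * (g1 i : L) + p * (g2 i : L) := by
    intro i; rw [hg1, hg2]; ring
  have huAB : ∀ i, cM L (p * t - q * r) * uu y x i =
      (cM L t - sv L * cM L r) * cM L (g1 i : L) + (-cM L q + sv L * cM L p) * cM L (g2 i : L) := by
    intro i
    have h1 := congrArg (cM L) (hy i)
    have h2 := congrArg (cM L) (hx i)
    simp only [map_mul, map_sub, map_add, map_neg] at h1 h2 ⊢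
    simp only [uu]
    linear_combination h1 + sv L * h2
  have hDM : cM L (p * t - q * r) ≠ 0 := (map_ne_zero (cM L)).mpr hD
  -- the normalised form
  obtain ⟨h1, h2, T, l, hli', hlu⟩ : ∃ (h1 h2 : Fin (N + 1) → O.comap (cM L)) (T : O) (l : MM L),
      LinearIndependent (IsLocalRing.ResidueField (O.comap (cM L)))
        ![fun i => IsLocalRing.residue (O.comap (cM L)) (h1 i),
          fun i => IsLocalRing.residue (O.comap (cM L)) (h2 i)] ∧
      ∀ i, l * uu y x i = cM L (h1 i : L) + (T : MM L) * cM L (h2 i : L) := by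
    set A := cM L t - sv L * cM L r with hA
    set B := -cM L q + sv L * cM L p with hB
    have hAB : A ≠ 0 ∨ B ≠ 0 := by
      by_contra hc
      push Not at hc
      have e1 := P8_indep t (-r) (by rw [map_neg]; linear_combination hc.1)
      have e2 := P8_indep (-q) p (by rw [map_neg]; exact hc.2)
      apply hD
      rw [e1.1, e2.2]
      have : r = 0 := neg_eq_zero.mp e1.2
      rw [this]; ring
    by_cases hBz : B ≠ 0 ∧ A / B ∈ O
    · refine ⟨g2, g1, ⟨A / B, hBz.2⟩, cM L (p * t - q * r) / B, ?_, fun i => ?_⟩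
      · rw [LinearIndependent.pair_iff] at hli ⊢
        intro a b hab
        have := hli b a ((add_comm _ _).trans hab)
        exact ⟨this.2, this.1⟩
      · have := huAB i
        have hB0 := hBz.1
        show cM L (p * t - q * r) / B * uu y x i = cM L (g2 i : L) + A / B * cM L (g1 i : L)
        field_simp
        linear_combination this
    · have hAne : A ≠ 0 := by
        intro h0
        apply hBz
        refine ⟨hAB.resolve_left (fun h => h h0), ?_⟩
        rw [h0, zero_div]
        exact O.zero_mem
      have hBA : B / A ∈ O := by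
        by_cases hB0 : B = 0
        · rw [hB0, zero_div]; exact O.zero_mem
        · rcases O.mem_or_inv_mem (A / B) with h | h
          · exact absurd ⟨hB0, h⟩ hBz
          · rwa [inv_div] at h
      refine ⟨g1, g2, ⟨B / A, hBA⟩, cM L (p * t - q * r) / A, hli, fun i => ?_⟩
      have := huAB i
      show cM L (p * t - q * r) / A * uu y x i = cM L (g1 i : L) + B / A * cM L (g2 i : L)
      field_simp
      linear_combination this
  have hlin' := P8_map φ _ _ hli'
  refine ⟨h1, h2, φ, IsLocalRing.residue O T, hφ, hlin', ?_, ?_⟩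
  · intro G
    rw [← hO.2 G]
    have : rh (psi y x) O hO.1 G = IsLocalRing.residue O ⟨psi y x G, hO.1 G⟩ := rfl
    rw [this, IsLocalRing.residue_eq_zero_iff, O.valuation_lt_one_iff]
  · have hw : ∀ i, cM L (h1 i : L) + (T : MM L) * cM L (h2 i : L) ∈ O := fun i =>
      O.add_mem _ _ (hmem _) (O.mul_mem _ _ T.2 (hmem _))
    have hres : ∀ i, IsLocalRing.residue O ⟨cM L (h1 i : L) + (T : MM L) * cM L (h2 i : L), hw i⟩ =
        φ (IsLocalRing.residue _ (h1 i)) + IsLocalRing.residue O T * φ (IsLocalRing.residue _ (h2 i)) := by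
      intro i
      rw [hφ _ (hmem _), hφ _ (hmem _), ← map_mul, ← map_add]
      rfl
    have hfac : ∀ j : Fin N, (⟨cM L (h1 j.succ : L) + (T : MM L) * cM L (h2 j.succ : L), hw _⟩ : O) =
        ⟨cM L (h1 0 : L) + (T : MM L) * cM L (h2 0 : L), hw 0⟩ * ⟨psi y x (X j), hO.1 _⟩ := by
      intro j
      apply Subtype.ext
      show cM L (h1 j.succ : L) + (T : MM L) * cM L (h2 j.succ : L) =
        (cM L (h1 0 : L) + (T : MM L) * cM L (h2 0 : L)) * psi y x (X j)
      rw [← hlu, ← hlu]
      have : psi y x (X j) = uu y x j.succ / uu y x 0 := by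
        simp only [psi, coe_eval₂Hom, eval₂_X]
      rw [this]
      field_simp
    refine ⟨φ (IsLocalRing.residue _ (h1 0)) +
      IsLocalRing.residue O T * φ (IsLocalRing.residue _ (h2 0)), ?_, ?_⟩
    · intro h0
      rw [LinearIndependent.pair_iff] at hlin'
      have := (hlin' 1 (IsLocalRing.residue O T) (by
        funext i
        simp only [Pi.add_apply, Pi.smul_apply, smul_eq_mul, one_mul, Pi.zero_apply]
        refine Fin.cases h0 (fun j => ?_) i
        rw [← hres, hfac, map_mul, hres, h0, zero_mul])).1
      exact one_ne_zero this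
    · intro i
      refine Fin.cases ?_ (fun j => ?_) i
      · simp only [yh, Fin.cons_zero, mul_one]
      · rw [← hres, ← hres, hfac, map_mul]
        rfl

end Pool.Agent.Lib.MP_2619d0_ag.T
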