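import Pool.Agent.Lib.MP_2619d0_ag.T.P8
import Pool.Agent.Lib.MP_2619d0_ag.T.P4

/-!
Row P8b: places over `f` whose valuation ring does not contain `L` have even residue degree.
-/

set_option autoImplicit false

namespace Pool.Agent.Lib.MP_2619d0_ag.T

open MvPolynomial

/-- a cubic polynomial with coefficients in a subfield that vanishes at a transcendental element -/
theorem P8b_coeffs {κ : Type*} [Field κ] (K : Subfield κ) (T : κ) (hT : ¬ IsAlgebraic K T)
    (a b c d : K) (h : (a : κ) + T * b + T ^ 2 * c + T ^ 3 * d = 0) :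
    a = 0 ∧ b = 0 ∧ c = 0 ∧ d = 0 := by
  have h1 : Polynomial.aeval T (Polynomial.C a + Polynomial.C b * Polynomial.X
      + Polynomial.C c * Polynomial.X ^ 2 + Polynomial.C d * Polynomial.X ^ 3 : Polynomial K)
      = 0 := by
    simp only [map_add, map_mul, map_pow, Polynomial.aeval_C, Polynomial.aeval_X]
    rw [← h]
    change (a : κ) + b * T + c * T ^ 2 + d * T ^ 3 = _
    ring
  have h2 : (Polynomial.C a + Polynomial.C b * Polynomial.X
      + Polynomial.C c * Polynomial.X ^ 2 + Polynomial.C d * Polynomial.X ^ 3 : Polynomial K)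
      = 0 := by
    by_contra hne
    exact hT ⟨_, hne, h1⟩
  have e0 := congrArg (fun p => Polynomial.coeff p 0) h2
  have e1 := congrArg (fun p => Polynomial.coeff p 1) h2
  have e2 := congrArg (fun p => Polynomial.coeff p 2) h2
  have e3 := congrArg (fun p => Polynomial.coeff p 3) h2
  simp [Polynomial.coeff_C, Polynomial.coeff_X, Polynomial.coeff_X_pow] at e0 e1 e2 e3
  exact ⟨e0, e1, e2, e3⟩

/-- Step 2. Suppose `Odd (fd χ)`, `χ = rh (psi y x) O hO.1`, and take `reduce_line`, `V = O.comap (cM L)`,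
`V ≠ ⊤` by `ha`. `T` is transcendental over `φ.fieldRange`: otherwise all entries of `yh χ`, hence
all `χ G`, are algebraic over it (`m⁻¹ * (…)` with `m = m * yh χ 0` also algebraic), contradicting
`typeB_trdeg` (for `ev y : MvPolynomial (Fin N) ℂ → L`, `hy`, `hfd`). Let `v = g1 + T g2` (over the
residue field), `0 = F(v) = F(g1) + T D(g1; g2) + T² D(g2; g1) + T³ F(g2)`; the four coefficients
(with `cc F χ`) are in `φ.fieldRange`, so they are zero. Hence
`D(v; g2) = D(g1; g2) + T * T(g1, g2, g2) + T² D(g2; g2) = 0` (`T(g1, g2, g2) = 2 D(g2; g1)`,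
`D(g2; g2) = 3 F(g2)`) and `D(g2; v) = D(g2; g1) + T D(g2; g2) = 0`. By homogeneity the same holds with
`yh χ = m⁻¹ v`; `starOdd` gives that `g2` is a multiple of `yh χ`, hence of `g1 + T g2`: contradiction to
linear independence. -/
theorem typeB_even {N : ℕ} (hN : 2 ≤ N) {F : MvPolynomial (Fin (N + 1)) ℂ} (hF : VG F)
    {L : Type*} [Field L] [Algebra ℂ L] (y x : Fin (N + 1) → L) (hy0 : y 0 = 1)
    (hy : Gp F (ev y)) (hfd : fd (ev y) ≠ 0) (hlin : LinearIndependent L ![y, x])
    (O : ValuationSubring (MM L)) (hO : Over (dh ℂ N F) (psi y x) O) (a : L)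
    (ha : cM L a ∉ O) : ¬ Odd (fd (rh (psi y x) O hO.1)) := by
  classical
  intro hodd
  obtain ⟨g1, g2, φ, T, hφ, hli, hgp, m, hm, hmv⟩ := reduce_line hN hF y x hy0 hlin O hO
  set χ := rh (psi y x) O hO.1 with hχ
  have hVtop : O.comap (cM L) ≠ ⊤ := by
    intro h
    apply ha
    have : a ∈ (O.comap (cM L)) := by rw [h]; exact ValuationSubring.mem_top a
    exact this
  -- constants
  have hψC : ∀ c : ℂ, psi y x (C c) = cM L (algebraMap ℂ L c) := by
    intro c
    rw [psi, coe_eval₂Hom, eval₂_C]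
    rfl
  have hevC : ∀ c : ℂ, ev y (C c) = algebraMap ℂ L c := by
    intro c
    change (aeval (fun i : Fin N => y i.succ / y 0) : MvPolynomial (Fin N) ℂ →ₐ[ℂ] L) (C c) = _
    rw [aeval_C]
  have hCO : ∀ c : ℂ, cM L (algebraMap ℂ L c) ∈ O := by
    intro c
    rw [← hψC]
    exact hO.1 _
  have hC : ∀ c : ℂ, ev y (C c) ∈ (O.comap (cM L)) := by
    intro c
    rw [hevC]
    exact hCO c
  have hχC : ∀ c : ℂ, χ (C c) = φ (IsLocalRing.residue (O.comap (cM L)) ⟨ev y (C c), hC c⟩) := by
    intro c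
    rw [hφ ⟨ev y (C c), hC c⟩ (by
      change cM L (ev y (C c)) ∈ O
      rw [hevC]
      exact hCO c)]
    rw [hχ, rh, RingHom.comp_apply]
    congr 1
    apply Subtype.ext
    change psi y x (C c) = cM L (ev y (C c))
    rw [hψC, hevC]
  -- transcendence of `T`
  have hTtr : ¬ IsAlgebraic φ.fieldRange T := by
    intro hT
    obtain ⟨G, hG⟩ := typeB_trdeg (dh ℂ N F) (prime_dh hN hF) (ev y) hy hfd (O.comap (cM L)) hVtop hC φ χ hgp hχC
    apply hG
    have halg : ∀ z : IsLocalRing.ResidueField (O.comap (cM L)), IsAlgebraic φ.fieldRange (φ z) := by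
      intro z
      have : φ z = algebraMap φ.fieldRange (IsLocalRing.ResidueField O)
          ⟨φ z, RingHom.mem_fieldRange.mpr ⟨z, rfl⟩⟩ := rfl
      rw [this]
      exact isAlgebraic_algebraMap _
    have hv : ∀ i, IsAlgebraic φ.fieldRange (m * yh χ i) := by
      intro i
      rw [hmv i]
      exact (halg _).add (hT.mul (halg _))
    have hm' : IsAlgebraic φ.fieldRange m := by
      have := hv 0
      simp only [yh, Fin.cons_zero, mul_one] at this
      exact this
    have hyh : ∀ i, IsAlgebraic φ.fieldRange (yh χ i) := by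
      intro i
      have h1 : yh χ i = m⁻¹ * (m * yh χ i) := by
        rw [← mul_assoc, inv_mul_cancel₀ hm, one_mul]
      rw [h1]
      exact (hm'.inv).mul (hv i)
    induction G using MvPolynomial.induction_on with
    | C c =>
      rw [hχC]
      exact halg _
    | add p q hp hq =>
      rw [map_add]
      by_cases h1 : IsAlgebraic φ.fieldRange (χ p)
      · by_cases h2 : IsAlgebraic φ.fieldRange (χ q)
        · exact h1.add h2
        · exact absurd (hq h2) h2
      · exact absurd (hp h1) h1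
    | mul_X p i hp =>
      rw [map_mul]
      have h2 : IsAlgebraic φ.fieldRange (χ (X i)) := by
        have := hyh i.succ
        simp only [yh, Fin.cons_succ] at this
        exact this
      by_cases h1 : IsAlgebraic φ.fieldRange (χ p)
      · exact h1.mul h2
      · exact absurd (hp h1) h1
  -- the vectors
  set h1v : Fin (N + 1) → IsLocalRing.ResidueField O :=
    fun i => φ (IsLocalRing.residue (O.comap (cM L)) (g1 i)) with hh1
  set h2v : Fin (N + 1) → IsLocalRing.ResidueField O :=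
    fun i => φ (IsLocalRing.residue (O.comap (cM L)) (g2 i)) with hh2
  have hv : m • yh χ = h1v + T • h2v := by
    funext i
    simp only [Pi.smul_apply, Pi.add_apply, smul_eq_mul]
    exact hmv i
  -- coefficients in the small field
  let c0 : Fin (N + 1) → Fin (N + 1) → Fin (N + 1) → IsLocalRing.ResidueField (O.comap (cM L)) :=
    fun i j k => IsLocalRing.residue (O.comap (cM L)) ⟨ev y (C (cub F i j k)), hC _⟩
  have hcc : cc F χ = cm φ c0 := by
    funext i j k
    simp only [cc, cm, RingHom.comp_apply, c0]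
    exact hχC _
  have hFv : Fc (cc F χ) (yh χ) = 0 := by
    rw [← chi_dh hF.1 χ]
    exact (hgp _).mpr (dvd_refl _)
  have hFv' : Fc (cc F χ) (h1v + T • h2v) = 0 := by
    rw [← hv, Fc_smul, hFv, mul_zero]
  have hexp : Fc (cc F χ) h1v + T * Dc (cc F χ) h1v h2v + T ^ 2 * Dc (cc F χ) h2v h1v
      + T ^ 3 * Fc (cc F χ) h2v = 0 := by
    rw [← hFv', Fc_add, Dc_smul_left, Dc_smul_right, Fc_smul]
  have hmem : ∀ z, φ z ∈ φ.fieldRange := fun z => RingHom.mem_fieldRange.mpr ⟨z, rfl⟩
  have e1 : Fc (cc F χ) h1v = φ (Fc c0 (fun i => IsLocalRing.residue (O.comap (cM L)) (g1 i))) := by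
    rw [hcc, ← Fc_cm]
  have e2 : Dc (cc F χ) h1v h2v = φ (Dc c0 (fun i => IsLocalRing.residue (O.comap (cM L)) (g1 i))
      (fun i => IsLocalRing.residue (O.comap (cM L)) (g2 i))) := by
    rw [hcc, ← Dc_cm]
  have e3 : Dc (cc F χ) h2v h1v = φ (Dc c0 (fun i => IsLocalRing.residue (O.comap (cM L)) (g2 i))
      (fun i => IsLocalRing.residue (O.comap (cM L)) (g1 i))) := by
    rw [hcc, ← Dc_cm]
  have e4 : Fc (cc F χ) h2v = φ (Fc c0 (fun i => IsLocalRing.residue (O.comap (cM L)) (g2 i))) := by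
    rw [hcc, ← Fc_cm]
  rw [e1, e2, e3, e4] at hexp
  obtain ⟨k1, k2, k3, k4⟩ := P8b_coeffs φ.fieldRange T hTtr ⟨_, hmem _⟩ ⟨_, hmem _⟩ ⟨_, hmem _⟩
    ⟨_, hmem _⟩ hexp
  have f1 := congrArg Subtype.val k1
  have f2 := congrArg Subtype.val k2
  have f3 := congrArg Subtype.val k3
  have f4 := congrArg Subtype.val k4
  simp only at f1 f2 f3 f4
  rw [← e1] at f1
  rw [← e2] at f2
  rw [← e3] at f3
  rw [← e4] at f4
  change Fc (cc F χ) h1v = 0 at f1
  change Dc (cc F χ) h1v h2v = 0 at f2
  change Dc (cc F χ) h2v h1v = 0 at f3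
  change Fc (cc F χ) h2v = 0 at f4
  -- tangent and asymptotic
  have hyv : yh χ = m⁻¹ • (h1v + T • h2v) := by
    rw [← hv, smul_smul, inv_mul_cancel₀ hm, one_smul]
  have t1 : Dc (cc F χ) (yh χ) h2v = 0 := by
    rw [hyv, Dc_smul_left, Dc_add_left, Dc_smul_left, Dc_self, f2, f4]
    have : Tc (cc F χ) h1v (T • h2v) h2v = 0 := by
      rw [Tc_comm, Tc_smul_left, Tc_comm', Tc_self, f3]
      ring
    rw [this]
    ring
  have t2 : Dc (cc F χ) h2v (yh χ) = 0 := by
    rw [hyv, Dc_smul_right, Dc_add_right, Dc_smul_right, Dc_self, f3, f4]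
    ring
  have hst := starOdd hN hF χ hgp hodd h2v t1 t2
  -- contradiction with linear independence
  rw [LinearIndependent.pair_iff] at hli
  have h3 : (h2v 0 * m⁻¹) • h1v + (h2v 0 * m⁻¹ * T - 1) • h2v = 0 := by
    have h4 : h2v = (h2v 0 * m⁻¹) • (h1v + T • h2v) := by
      conv_lhs => rw [hst, hyv, smul_smul]
    have h5 : (h2v 0 * m⁻¹) • h1v + (h2v 0 * m⁻¹ * T - 1) • h2v
        = (h2v 0 * m⁻¹) • (h1v + T • h2v) - h2v := by
      rw [sub_smul, smul_add, smul_smul, one_smul]
      abel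
    rw [h5, ← h4, sub_self]
  obtain ⟨l1, l2⟩ := hli _ _ h3
  rw [l1, zero_mul, zero_sub] at l2
  exact one_ne_zero (neg_eq_zero.mp l2)

end Pool.Agent.Lib.MP_2619d0_ag.T
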