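import Pool.Agent.Lib.MP_2619d0_ag.T.P1
import Pool.Agent.Lib.MP_2619d0_ag.T.P1b
import Pool.Agent.Lib.MP_2619d0_ag.T.P2
import Pool.Agent.Lib.MP_2619d0_ag.T.P5b
import Pool.Agent.Lib.MP_2619d0_ag.T.P6
import Pool.Agent.Lib.MP_2619d0_ag.T.P7
import Pool.Agent.Lib.MP_2619d0_ag.T.P7b
import Pool.Agent.Lib.MP_2619d0_ag.T.P8b
import Pool.Agent.Lib.MP_2619d0_ag.T.LT3

/-!
Row P9: the parity lemma for lines.
-/

set_option autoImplicit false

namespace Pool.Agent.Lib.MP_2619d0_ag.T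

open MvPolynomial

/-- the third point of `X` on the line through `y` and `x` -/
def third {R : Type*} [CommRing R] {n : ℕ} (c : Fin n → Fin n → Fin n → R) (y x : Fin n → R) :
    Fin n → R :=
  fun i => Dc c x y * y i - Dc c y x * x i

theorem P9_mul_lt {K : Type*} [Field K] (O : ValuationSubring K) {a b : K}
    (ha : O.valuation a < 1) (hb : b ∈ O) : O.valuation (a * b) < 1 := by
  rw [map_mul]
  exact mul_lt_one_of_lt_of_le ha ((O.valuation_le_one_iff b).mpr hb)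

theorem P9_yh {N : ℕ} {L : Type*} [Field L] [Algebra ℂ L] (y : Fin (N + 1) → L) (hy0 : y 0 = 1) :
    yh (ev y) = y := by
  funext i
  refine Fin.cases ?_ (fun j => ?_) i
  · simp [yh, hy0]
  · simp [yh, ev, hy0]

theorem P9_cc {N : ℕ} {L : Type*} [Field L] [Algebra ℂ L] (F : MvPolynomial (Fin (N + 1)) ℂ)
    (y : Fin (N + 1) → L) : cc F (ev y) = cL L F := by
  unfold cc cL
  congr 1
  ext a
  simp [ev]

theorem P9_ev_smul {N : ℕ} {L : Type*} [Field L] [Algebra ℂ L] (y z : Fin (N + 1) → L) (c : L)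
    (hc : c ≠ 0) (h : ∀ i, z i = c * y i) : ev z = ev y := by
  unfold ev
  have : (fun i : Fin N => z i.succ / z 0) = fun i : Fin N => y i.succ / y 0 := by
    funext i
    rw [h, h, mul_div_mul_left _ _ hc]
  rw [this]

theorem P9_odd_sum {ι : Type*} [DecidableEq ι] (s : Finset ι) (g : ι → ℕ) (a : ι) (ha : a ∈ s)
    (h1 : Odd (g a)) (h2 : ∀ b ∈ s, b ≠ a → ¬ Odd (g b)) : Odd (∑ b ∈ s, g b) := by
  rw [← Finset.add_sum_erase s g ha]
  refine h1.add_even (Finset.even_sum _ fun b hb => ?_)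
  rw [Finset.mem_erase] at hb
  exact Nat.not_odd_iff_even.mp (h2 b hb.2 hb.1)

/-- Notation `δ1 = D(y; x)`, `δ2 = D(x; y)`, `f = dh ℂ N F`, `ψ = psi y x`.
`F(y) = 0` (`Fc_of_Gp`). `(δ1, δ2) ≠ (0, 0)`: otherwise `starOdd` for `χ = ev y` (with `yh (ev y) = y`)
gives `x = x 0 • y`. So `ψ` is injective (`psi_injective`) and `fd ψ ≠ 0` (`psi_finite`; `hdep` with
`G = f`). Suppose `fd ψ` is even. Take `s, e, d` from `places` (`prime_dh`).
For `O ∈ s` with `cM L a ∉ O` for some `a`: `d O` is not odd (`typeB_even`). For the others use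
`trichotomy` and the uniqueness in `place_at`: `O` is one of `O_0` (`τ = s`), `O_b`
(`τ = s + δ1 / δ2`, only if `δ2 ≠ 0`), `O_∞` (`τ = s⁻¹`).
`place_over` for `O_0` (`l = 1`, `P = y`): `O_0 ∈ s` and `d O_0 = fd (ev y)` is odd.
`place_over` for `O_∞` (`l = s⁻¹`, `P = x`): if `O_∞ ∈ s` then `x 0 ≠ 0`, `Gp F (ev x)`,
`d O_∞ = fd (ev x)`. `place_over` for `O_b` (`l = δ2`, `P = third … = δ2 y - δ1 x`): the same for `b`.
Case `δ1 = 0` (so `δ2 ≠ 0`): `b = δ2 y`, `ev b = ev y` (ratios), so the third alternative holds.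
Case `δ1 ≠ 0`, `δ2 = 0`: `e O_0 = 1` (`ord_zero`, `hasOrd_unique`), `e O_∞ = 2` if `O_∞ ∈ s`
(`ord_infty`); so exactly one summand of `fd ψ = ∑ O ∈ s, e O * d O` is odd: contradiction.
Case `δ1 ≠ 0`, `δ2 ≠ 0`: the places `O_0`, `O_b`, `O_∞` are different (`s ≡ 0`, `s ≡ -δ1/δ2 ≠ 0`,
`s ∉ O`), the summand of `O_0` is odd, so another summand is odd, and it is that of `O_b` or `O_∞`;
a product is odd iff both factors are odd. -/
theorem parity {N : ℕ} (hN : 2 ≤ N) {F : MvPolynomial (Fin (N + 1)) ℂ} (hF : VG F)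
    {L : Type*} [Field L] [Algebra ℂ L] (y x : Fin (N + 1) → L) (hy0 : y 0 = 1)
    (hy : Gp F (ev y)) (hodd : Odd (fd (ev y))) (hlin : LinearIndependent L ![y, x])
    (hx : Fc (cL L F) x = 0) :
    Function.Injective (psi y x) ∧
      (Odd (fd (psi y x)) ∨ (Dc (cL L F) x y ≠ 0 ∧
        ((x 0 ≠ 0 ∧ Gp F (ev x) ∧ Odd (fd (ev x))) ∨
          (third (cL L F) y x 0 ≠ 0 ∧ Gp F (ev (third (cL L F) y x)) ∧
            Odd (fd (ev (third (cL L F) y x))))))) := by
  classical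
  have hF3 := hF.1
  have hFy : Fc (cL L F) y = 0 := Fc_of_Gp hF3 y hy0 hy
  have hfd : fd (ev y) ≠ 0 := by
    intro h
    rw [h] at hodd
    exact absurd hodd (by decide)
  have hy_ne : y ≠ 0 := hlin.ne_zero 0
  have hx_ne : x ≠ 0 := hlin.ne_zero 1
  have hpair := LinearIndependent.pair_iff.mp hlin
  have hd : Dc (cL L F) y x ≠ 0 ∨ Dc (cL L F) x y ≠ 0 := by
    by_contra hcon
    push Not at hcon
    have h := starOdd hN hF (ev y) hy hodd x (by rw [P9_cc, P9_yh y hy0]; exact hcon.1)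
      (by rw [P9_cc, P9_yh y hy0]; exact hcon.2)
    rw [P9_yh y hy0] at h
    have h2 := (hpair (-(x 0)) 1 (by
      rw [one_smul, neg_smul, ← h]
      exact neg_add_cancel x)).2
    exact one_ne_zero h2
  have hinj := psi_injective hN hF y x hy0 hy hx hd
  refine ⟨hinj, ?_⟩
  by_cases hoddpsi : Odd (fd (psi y x))
  · exact Or.inl hoddpsi
  right
  have hprime := prime_dh hN hF
  have hfdpsi : fd (psi y x) ≠ 0 :=
    psi_finite y x ⟨dh ℂ N F, hprime.ne_zero, (hy _).mpr dvd_rfl⟩ hfd hinj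
  obtain ⟨s, e, d, hs, he, hdd, hsum⟩ := places (psi y x) hinj hfdpsi (dh ℂ N F) hprime
  have hu := uu_zero_ne y x hy0
  -- the place `s = 0`
  obtain ⟨hs0, O0, hL0, hv0, hgen0, hres0, huniq0⟩ :=
    place_at (sv L) (Or.inl ⟨0, by rw [map_zero, sub_zero]⟩)
  have hpo0 := place_over (F := F) O0 hL0 hres0 y x hu 1 y hy_ne (fun i => by
    have : 1 * uu y x i - cM L (y i) = sv L * cM L (x i) := by
      simp only [uu]
      ring
    rw [this]
    exact P9_mul_lt O0 hv0 (hL0 _))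
  have hy0' : y 0 ≠ 0 := by rw [hy0]; exact one_ne_zero
  have hOver0 : Over (dh ℂ N F) (psi y x) O0 := hpo0.1.mpr ⟨hy0', hy⟩
  have hO0s : O0 ∈ s := (hs O0).mpr hOver0
  have hd0 : Odd (d O0) := by
    rw [← hdd O0 hO0s hOver0.1, hpo0.2 hOver0.1 hy0']
    exact hodd
  -- the case `δ1 = 0`
  by_cases hδ1 : Dc (cL L F) y x = 0
  · have hδ2 : Dc (cL L F) x y ≠ 0 := hd.resolve_left (fun h => h hδ1)
    have hth : ∀ i, third (cL L F) y x i = Dc (cL L F) x y * y i := by
      intro i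
      simp only [third, hδ1]
      ring
    refine ⟨hδ2, Or.inr ⟨?_, ?_, ?_⟩⟩
    · rw [hth, hy0, mul_one]
      exact hδ2
    · rw [P9_ev_smul y _ _ hδ2 hth]
      exact hy
    · rw [P9_ev_smul y _ _ hδ2 hth]
      exact hodd
  -- the order at the place `s = 0`
  have he0 : e O0 = 1 :=
    hasOrd_unique (he O0 hO0s) (ord_zero hF3 y x hy0 hFy hx hδ1 O0 hL0 hv0 hgen0)
  have hodd0 : Odd (e O0 * d O0) := by
    rw [he0, one_mul]
    exact hd0
  -- another odd summand
  obtain ⟨O, hOs, hOne, hOodd⟩ : ∃ O ∈ s, O ≠ O0 ∧ Odd (e O * d O) := by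
    by_contra hcon
    push Not at hcon
    apply hoddpsi
    rw [← hsum]
    exact P9_odd_sum s (fun O => e O * d O) O0 hO0s hodd0 (fun O h1 h2 => by
      have := hcon O h1 h2
      exact this)
  have heO : Odd (e O) := (Nat.odd_mul.mp hOodd).1
  have hdO : Odd (d O) := (Nat.odd_mul.mp hOodd).2
  have hOver : Over (dh ℂ N F) (psi y x) O := (hs O).mp hOs
  have hLO : ∀ a, cM L a ∈ O := by
    intro a
    by_contra ha
    apply typeB_even hN hF y x hy0 hy hfd hlin O hOver a ha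
    rw [hdd O hOs hOver.1]
    exact hdO
  rcases trichotomy hF3 y x hy0 hFy hx hd O hOver hLO with h | h | ⟨hδ2, h⟩
  · exact absurd (huniq0 O hLO h) hOne
  · -- the place `s = ∞`
    obtain ⟨-, O1, hL1, hv1, hgen1, hres1, huniq1⟩ := place_at (sv L)⁻¹ (Or.inr rfl)
    have hOO : O = O1 := huniq1 O hLO h
    subst hOO
    have hpo1 := place_over (F := F) O hL1 hres1 y x hu (sv L)⁻¹ x hx_ne (fun i => by
      have : (sv L)⁻¹ * uu y x i - cM L (x i) = (sv L)⁻¹ * cM L (y i) := by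
        simp only [uu]
        rw [mul_add, ← mul_assoc, inv_mul_cancel₀ hs0]
        ring
      rw [this]
      exact P9_mul_lt O hv1 (hL1 _))
    obtain ⟨hx0, hGx⟩ := hpo1.1.mp hOver
    have hoddx : Odd (fd (ev x)) := by
      rw [← hpo1.2 hOver.1 hx0, hdd O hOs hOver.1]
      exact hdO
    refine ⟨fun hδ2 => ?_, Or.inl ⟨hx0, hGx, hoddx⟩⟩
    have he1 : e O = 2 := hasOrd_unique (he O hOs)
      (ord_infty hF3 y x hy0 hFy hx hδ1 hδ2 hx0 O hL1 hv1 hgen1)
    rw [he1] at heO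
    exact absurd heO (by decide)
  · -- the third place
    obtain ⟨-, O2, hL2, hv2, hgen2, hres2, huniq2⟩ :=
      place_at (sv L - cM L (-(Dc (cL L F) y x) / Dc (cL L F) x y)) (Or.inl ⟨_, rfl⟩)
    have hOO : O = O2 := huniq2 O hLO h
    subst hOO
    have hth0 : third (cL L F) y x ≠ 0 := by
      intro h0
      apply hδ2
      refine (hpair (Dc (cL L F) x y) (-(Dc (cL L F) y x)) ?_).1
      funext i
      have := congrFun h0 i
      simp only [third, Pi.zero_apply] at this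
      simp only [Pi.add_apply, Pi.smul_apply, smul_eq_mul, Pi.zero_apply]
      linear_combination this
    have hpo2 := place_over (F := F) O hL2 hres2 y x hu (cM L (Dc (cL L F) x y))
      (third (cL L F) y x) hth0 (fun i => by
      have h1 : cM L (-(Dc (cL L F) y x) / Dc (cL L F) x y) * cM L (Dc (cL L F) x y) =
          -cM L (Dc (cL L F) y x) := by
        rw [← map_mul, div_mul_cancel₀ _ hδ2, map_neg]
      have : cM L (Dc (cL L F) x y) * uu y x i - cM L (third (cL L F) y x i) =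
          (sv L - cM L (-(Dc (cL L F) y x) / Dc (cL L F) x y)) *
            cM L (Dc (cL L F) x y * x i) := by
        simp only [uu, third, map_sub, map_mul]
        linear_combination (cM L (x i)) * h1
      rw [this]
      exact P9_mul_lt O hv2 (hL2 _))
    obtain ⟨hz0, hGz⟩ := hpo2.1.mp hOver
    refine ⟨hδ2, Or.inr ⟨hz0, hGz, ?_⟩⟩
    rw [← hpo2.2 hOver.1 hz0, hdd O hOs hOver.1]
    exact hdO

end Pool.Agent.Lib.MP_2619d0_ag.T
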