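import Pool.Agent.Lib.MP_2619d0_ag.T.B3

/-!
Row S1: no lines through the generic point, over odd degree extensions.
-/

set_option autoImplicit false

namespace Pool.Agent.Lib.MP_2619d0_ag.T

open MvPolynomial

/-- auxiliary: `starOdd` with `N = N' + 2` -/
theorem S1_starOdd {N : ℕ} {F : MvPolynomial (Fin (N + 2 + 1)) ℂ} (hF : VG F)
    {κ : Type*} [Field κ] (χ : MvPolynomial (Fin (N + 2)) ℂ →+* κ) (hχ : Gp F χ)
    (hodd : Odd (fd χ)) (v : Fin (N + 2 + 1) → κ) (h1 : Dc (cc F χ) (yh χ) v = 0)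
    (h2 : Dc (cc F χ) v (yh χ) = 0) : v = v 0 • yh χ := by
  classical
  obtain ⟨hstar, hprime, hone⟩ := generic_star (N := N) F hF.1 hF.2
  set f : MvPolynomial (Fin (N + 2)) ℂ := dh ℂ (N + 2) F with hf
  have hfin : FiniteDimensional (cl χ) κ := by
    refine Module.finite_of_finrank_pos ?_
    rcases hodd with ⟨r, hr⟩
    have : Module.finrank (cl χ) κ = fd χ := rfl
    omega
  have hcharκ : CharZero κ := charZero_of_injective_ringHom (χ.comp C).injective
  have hchar : CharZero (cl χ) := by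
    refine ⟨fun a b hab => ?_⟩
    have h3 := congrArg (Subtype.val : cl χ → κ) hab
    exact_mod_cast h3
  let χK : MvPolynomial (Fin (N + 2)) ℂ →+* cl χ :=
    χ.codRestrict (cl χ) (fun g => Subfield.subset_closure ⟨g, rfl⟩)
  have hχK : ∀ g, ((χK g : cl χ) : κ) = χ g := fun g => rfl
  let φ : (MvPolynomial (Fin (N + 2)) ℂ ⧸ Ideal.span {f}) →+* cl χ :=
    Ideal.Quotient.lift (Ideal.span {f}) χK (by
      intro g hg
      rw [Ideal.mem_span_singleton] at hg
      have h3 := (hχ g).mpr hg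
      exact Subtype.ext h3)
  have hφ : ∀ g, φ (Ideal.Quotient.mk (Ideal.span {f}) g) = χK g := fun g => rfl
  have hφinj : Function.Injective φ := by
    rw [injective_iff_map_eq_zero]
    intro z hz
    obtain ⟨g, rfl⟩ := Ideal.Quotient.mk_surjective z
    rw [hφ] at hz
    rw [Ideal.Quotient.eq_zero_iff_mem, Ideal.mem_span_singleton]
    refine (hχ g).mp ?_
    rw [← hχK, hz]; rfl
  let : Algebra (MvPolynomial (Fin (N + 2)) ℂ ⧸ Ideal.span {f}) (cl χ) := φ.toAlgebra
  have hdom : IsDomain (MvPolynomial (Fin (N + 2)) ℂ ⧸ Ideal.span {f}) :=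
    isDomain_quotient hprime hone
  have hmap : ∀ z, algebraMap (MvPolynomial (Fin (N + 2)) ℂ ⧸ Ideal.span {f}) (cl χ) z = φ z :=
    fun z => rfl
  have hfrac : IsFractionRing (MvPolynomial (Fin (N + 2)) ℂ ⧸ Ideal.span {f}) (cl χ) := by
    have : FaithfulSMul (MvPolynomial (Fin (N + 2)) ℂ ⧸ Ideal.span {f}) (cl χ) :=
      (faithfulSMul_iff_algebraMap_injective _ _).mpr hφinj
    refine IsFractionRing.of_field _ _ fun z => ?_
    have hz : (z : κ) ∈ Subfield.closure (Set.range χ) := z.2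
    rw [Subfield.mem_closure_iff] at hz
    have hcl : Subring.closure (Set.range χ) = χ.range := by
      rw [← RingHom.coe_range, Subring.closure_eq]
    rw [hcl] at hz
    obtain ⟨y1, ⟨r, hr⟩, y2, ⟨t, ht⟩, hy⟩ := hz
    refine ⟨Ideal.Quotient.mk _ r, Ideal.Quotient.mk _ t, ?_⟩
    rw [hmap, hmap, hφ, hφ]
    apply Subtype.ext
    have h3 : ((χK r / χK t : cl χ) : κ) = χ r / χ t := rfl
    rw [h3, hr, ht, hy]
  -- the vector
  have hy0 : Fc (cc F χ) (yh χ) = 0 := by
    rw [← chi_dh hF.1 χ]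
    exact (hχ _).mpr (dvd_refl _)
  set a : κ := - v 0 with ha
  set v' : Fin (N + 2) → κ := fun i => v i.succ + a * χ (X i) with hv'
  have hcons : (Fin.cons 0 v' : Fin (N + 2 + 1) → κ) = v + a • yh χ := by
    funext i
    refine Fin.cases ?_ (fun j => ?_) i
    · simp [yh, ha]
    · simp [yh, hv']
  have hyy : Dc (cc F χ) (yh χ) (yh χ) = 0 := by rw [Dc_self, hy0, mul_zero]
  have hq1 : Dc (cc F χ) (yh χ) (Fin.cons 0 v' : Fin (N + 2 + 1) → κ) = 0 := by
    rw [hcons, Dc_add_right, Dc_smul_right, h1, hyy, mul_zero, add_zero]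
  have hq2 : Dc (cc F χ) (Fin.cons 0 v' : Fin (N + 2 + 1) → κ) (yh χ) = 0 := by
    rw [hcons, Dc_add_left, Dc_smul_left, h2, hyy, mul_zero, add_zero, zero_add, Tc_comm,
      Tc_smul_left, Tc_comm', Tc_self, h1, mul_zero, mul_zero]
  have hzero : v' = 0 := by
    refine springer (K := cl χ) (L := κ) hodd (fun i => χK (pderiv i f))
      (fun i j => χK (pderiv i (pderiv j f))) ?_ v' ?_ ?_
    · intro w hw1 hw2
      exact fraction_anisotropic hstar (K := cl χ) w hw1 hw2
    · rw [← hq1, ← sum_pderiv hF.1 χ v']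
      rfl
    · have h3 := sum_pderiv2 hF.1 χ v'
      rw [hq2, mul_zero] at h3
      exact h3
  funext i
  refine Fin.cases ?_ (fun j => ?_) i
  · simp [yh]
  · have h3 := congrFun hzero j
    simp only [hv', ha, Pi.zero_apply] at h3
    simp only [yh, Pi.smul_apply, Fin.cons_succ, smul_eq_mul]
    linear_combination h3

/-- Let `f = dh ℂ N F`, `K = cl χ` (a subfield of `κ`). By `generic_star` (file `Generic.lean`; write
`N = N' + 2`) `Star f` holds and `f` is prime; `χ` induces an injection of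
`MvPolynomial (Fin N) ℂ ⧸ Ideal.span {f}` into `K` which makes `K` a fraction field (see the proof of
`point_even` in `MainPoint.lean`: `IsFractionRing.of_field`; elements of `Subfield.closure (range χ)`
are quotients of elements of `range χ`). `fraction_anisotropic` (file `FunField.lean`) and `springer`
(file `OddDegree.lean`, for `K ⊂ κ`, `CharZero`) give: `v : Fin N → κ` with
`∑ i, χ(∂_i f) v i = 0` and `∑ i j, χ(∂_i ∂_j f) v i v j = 0` is zero. Apply this to
`v' i = v i.succ - v 0 * χ (X i)`; `Fin.cons 0 v' = v - v 0 • yh χ` and by `B1`, `B3`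
`D(y; v - v₀ y) = D(y; v) - 3 v₀ F(y) = 0`,
`D(v - v₀ y; y) = D(v; y) - v₀ T(v, y, y) + v₀² D(y; y) = 0` with `T(v, y, y) = 2 D(y; v) = 0`. -/
theorem starOdd {N : ℕ} (hN : 2 ≤ N) {F : MvPolynomial (Fin (N + 1)) ℂ} (hF : VG F)
    {κ : Type*} [Field κ] (χ : MvPolynomial (Fin N) ℂ →+* κ) (hχ : Gp F χ) (hodd : Odd (fd χ))
    (v : Fin (N + 1) → κ) (h1 : Dc (cc F χ) (yh χ) v = 0) (h2 : Dc (cc F χ) v (yh χ) = 0) :
    v = v 0 • yh χ := by
  obtain ⟨N', rfl⟩ := Nat.exists_eq_add_of_le' hN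
  exact S1_starOdd hF χ hχ hodd v h1 h2

/-- `f = dh ℂ N F` is prime (part of `generic_star`). -/
theorem prime_dh {N : ℕ} (hN : 2 ≤ N) {F : MvPolynomial (Fin (N + 1)) ℂ} (hF : VG F) :
    Prime (dh ℂ N F) := by
  obtain ⟨N', rfl⟩ := Nat.exists_eq_add_of_le' hN
  obtain ⟨hstar, hprime, hone⟩ := generic_star (N := N') F hF.1 hF.2
  refine ⟨?_, ?_, hprime⟩
  · intro h0
    rw [h0] at hstar
    have h1 := hstar (fun _ => 1) (by simp) (by simp) 0
    rw [zero_dvd_iff] at h1
    exact one_ne_zero h1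
  · intro hu
    exact hone (hu.dvd)

end Pool.Agent.Lib.MP_2619d0_ag.T
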