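import Mathlib

/-!
Row SG5a (MP_2619d0_ag, theorem S_G).
-/

set_option autoImplicit false

namespace Pool.Agent.Lib.MP_2619d0_ag.T

open MvPolynomial

universe u

/-- `k0(x)` is countable, so its algebraic closure in `ℂ` is countable
(`Algebraic.cardinalMk_le_max`, `Algebra.IsAlgebraic.cardinalMk_le_max` or similar) and there is a
transcendental `t` over it (`ℂ` is uncountable: `Cardinal.mk_complex`, `Cardinal.not_countable_complex`).
Then use e.g. `algebraicIndependent_option`-type lemmas (Mathlib/RingTheory/AlgebraicIndependent/Adjoin.lean or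
Transcendental.lean: the family on `Option κ` is algebraically independent iff the family `x` is and `t`
is transcendental over `Algebra.adjoin k0 (range x)`). -/
theorem exists_t (k0 : Subfield ℂ) (hk0 : Countable k0) {κ : Type} [Finite κ] (x : κ → ℂ)
    (hx : AlgebraicIndependent k0 x) :
    ∃ t : ℂ, AlgebraicIndependent k0 (fun o : Option κ => o.elim t x) := by
  have h1 : Countable (MvPolynomial κ k0) := by
    rw [← Cardinal.mk_le_aleph0_iff]
    refine (MvPolynomial.cardinalMk_le_max (σ := κ) (R := k0)).trans ?_
    have hk : Cardinal.mk k0 ≤ Cardinal.aleph0 := Cardinal.mk_le_aleph0_iff.2 hk0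
    have hκ : Cardinal.mk κ ≤ Cardinal.aleph0 := Cardinal.mk_le_aleph0_iff.2 inferInstance
    exact max_le (max_le hk hκ) le_rfl
  have h2 : Countable (Algebra.adjoin k0 (Set.range x)) :=
    hx.aevalEquiv.toEquiv.countable_iff.1 h1
  have h3 : Set.Countable {y : ℂ | IsAlgebraic (Algebra.adjoin k0 (Set.range x)) y} :=
    Algebraic.countable _ _
  have h4 : ∃ t : ℂ, ¬ IsAlgebraic (Algebra.adjoin k0 (Set.range x)) t := by
    by_contra hcon
    push Not at hcon
    apply not_countable_complex
    refine h3.mono fun y _ => hcon y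
  obtain ⟨t, ht⟩ := h4
  exact ⟨t, (hx.option_iff_transcendental t).2 ht⟩

end Pool.Agent.Lib.MP_2619d0_ag.T
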