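import Mathlib

/-!
Row SG5b (MP_2619d0_ag, theorem S_G).
-/

set_option autoImplicit false

namespace Pool.Agent.Lib.MP_2619d0_ag.T

open MvPolynomial

universe u

open scoped IntermediateField.algebraAdjoinAdjoin

private lemma SG5b_infinite (k0 : Subfield ℂ) (hk0 : Countable k0) (s : Set ℂ)
    (hs : IsTranscendenceBasis k0 ((↑) : s → ℂ)) : Infinite s := by
  have h1 : Cardinal.mk ℂ = Cardinal.mk s :=
    IsAlgClosed.cardinal_eq_cardinal_transcendence_basis_of_aleph0_lt' ((↑) : s → ℂ) hs
      (Cardinal.mk_le_aleph0_iff.mpr hk0) (by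
        rw [Cardinal.mk_complex]
        exact Cardinal.aleph0_lt_continuum)
  rw [Cardinal.infinite_iff, ← h1, Cardinal.mk_complex]
  exact Cardinal.aleph0_le_continuum

private lemma SG5b_equiv (s : Set ℂ) [Infinite s] (t : ℂ) (ht : t ∈ s) :
    Nonempty (s ≃ (s \ {t} : Set ℂ)) := by
  have h1 : Cardinal.mk (s \ {t} : Set ℂ) = Cardinal.mk s := by
    have h2 : Cardinal.mk (({(⟨t, ht⟩ : s)} : Set s)ᶜ : Set s) = Cardinal.mk s := by
      apply Cardinal.mk_compl_of_infinite
      rw [Cardinal.mk_singleton]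
      exact lt_of_lt_of_le Cardinal.one_lt_aleph0 (Cardinal.aleph0_le_mk s)
    rw [← h2]
    refine Cardinal.mk_congr ⟨fun a => ⟨⟨a.1, a.2.1⟩, fun h => a.2.2 ?_⟩,
      fun a => ⟨a.1.1, a.1.2, fun h => a.2 ?_⟩, fun a => rfl, fun a => rfl⟩
    · exact congrArg Subtype.val (Set.mem_singleton_iff.mp h)
    · exact Set.mem_singleton_iff.mpr (Subtype.ext (Set.mem_singleton_iff.mp h))
  exact (Cardinal.eq.mp h1.symm)

private lemma SG5b_main (k0 : Subfield ℂ) (s : Set ℂ)
    (hs : IsTranscendenceBasis k0 ((↑) : s → ℂ)) (t : ℂ) (ht : t ∈ s)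
    (e : s ≃ (s \ {t} : Set ℂ)) :
    ∃ i : ℂ →ₐ[k0] ℂ, (∀ y ∈ s \ {t}, ∃ c, i c = y) ∧
      Function.Injective (Polynomial.eval₂RingHom i.toRingHom t) ∧
      ∀ c : ℂ, ∃ p : Polynomial (Polynomial ℂ), p ≠ 0 ∧
        p.eval₂ (Polynomial.eval₂RingHom i.toRingHom t) c = 0 := by
  classical
  set w : s → ℂ := fun a => (e a : ℂ) with hwdef
  have hw : AlgebraicIndependent k0 w := by
    have h1 := hs.1.comp (fun a : s => (⟨(e a : ℂ), (e a).2.1⟩ : s)) (fun a b hab => by
      apply e.injective
      exact Subtype.ext (congrArg (Subtype.val : s → ℂ) hab))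
    exact h1
  have hrange : Set.range w = s \ {t} := by
    ext y
    constructor
    · rintro ⟨a, rfl⟩
      exact (e a).2
    · intro hy
      exact ⟨e.symm ⟨y, hy⟩, by rw [hwdef]; simp⟩
  let R1 := Algebra.adjoin k0 (Set.range ((↑) : s → ℂ))
  let R2 := Algebra.adjoin k0 (Set.range w)
  let F1 := IntermediateField.adjoin k0 (Set.range w)
  let K1 := algebraicClosure F1 ℂ
  let ψ : R1 ≃ₐ[k0] R2 := hs.1.aevalEquiv.symm.trans hw.aevalEquiv
  have : IsAlgClosure R1 ℂ := IsAlgClosed.isAlgClosure_of_transcendence_basis _ hs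
  have h0 : IsAlgClosure F1 K1 := algebraicClosure.isAlgClosure F1 ℂ
  have : IsAlgClosed K1 := h0.isAlgClosed
  have : Algebra.IsAlgebraic F1 K1 := h0.isAlgebraic
  have : IsScalarTower R2 F1 K1 := inferInstance
  have : Algebra.IsAlgebraic R2 K1 := Algebra.IsAlgebraic.trans R2 F1 K1
  have hinj : Function.Injective (algebraMap R2 K1) := fun a b hab =>
    Subtype.ext (congrArg (algebraMap K1 ℂ) hab)
  have : Module.IsTorsionFree R2 K1 := Module.isTorsionFree_iff_algebraMap_injective.mpr hinj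
  have : IsAlgClosure R2 K1 := ⟨inferInstance, inferInstance⟩
  let iK : ℂ ≃+* K1 := IsAlgClosure.equivOfEquiv ℂ K1 (ψ : R1 ≃+* R2)
  have hiK : ∀ r : R1, iK (algebraMap R1 ℂ r) = algebraMap R2 K1 (ψ r) := fun r =>
    IsAlgClosure.equivOfEquiv_algebraMap ℂ K1 (ψ : R1 ≃+* R2) r
  let i : ℂ →ₐ[k0] ℂ :=
    { toRingHom := (algebraMap K1 ℂ).comp (iK : ℂ →+* K1)
      commutes' := fun r => by
        change algebraMap K1 ℂ (iK (algebraMap R1 ℂ (algebraMap k0 R1 r))) = _
        rw [hiK, ψ.commutes]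
        rfl }
  have hi : ∀ c, i c = (iK c : ℂ) := fun c => rfl
  have hrangei : ∀ y : K1, ∃ c, i c = y := fun y => ⟨iK.symm y, by rw [hi, iK.apply_symm_apply]⟩
  have hmem : ∀ y ∈ s \ {t}, ∃ c, i c = y := by
    intro y hy
    rw [← hrange] at hy
    obtain ⟨c, hc⟩ := hrangei (algebraMap R2 K1 ⟨y, Algebra.subset_adjoin hy⟩)
    exact ⟨c, hc⟩
  -- `t` is transcendental over `K1`
  have htr : Transcendental K1 t := by
    apply Transcendental.algebraicClosure
    rw [IntermediateField.transcendental_adjoin_iff]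
    have h1 := hs.1.transcendental_adjoin (s := {a : s | (a : ℂ) ≠ t}) (i := ⟨t, ht⟩)
      (fun h => h rfl)
    have h2 : ((↑) : s → ℂ) '' {a : s | (a : ℂ) ≠ t} = Set.range w := by
      rw [hrange]
      ext y
      constructor
      · rintro ⟨a, ha, rfl⟩
        exact ⟨a.2, ha⟩
      · rintro ⟨hy, hyt⟩
        exact ⟨⟨y, hy⟩, hyt, rfl⟩
    rw [h2] at h1
    exact h1
  refine ⟨i, hmem, ?_, ?_⟩
  · intro p q hpq
    have h1 : ∀ p : Polynomial ℂ, Polynomial.eval₂RingHom i.toRingHom t p =
        Polynomial.aeval t (p.map (iK : ℂ →+* K1)) := by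
      intro p
      rw [Polynomial.aeval_def, Polynomial.eval₂_map]
      rfl
    rw [h1, h1] at hpq
    have h2 := transcendental_iff_injective.mp htr hpq
    exact Polynomial.map_injective _ iK.injective h2
  · intro c
    obtain ⟨q, hq0, hq⟩ := (hs.isAlgebraic).isAlgebraic c
    have hcoef : ∀ r : R1, (r : ℂ) ∈ (Polynomial.eval₂RingHom i.toRingHom t).range := by
      rintro ⟨r, hr⟩
      change r ∈ (Polynomial.eval₂RingHom i.toRingHom t).range
      induction hr using Algebra.adjoin_induction with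
      | mem x hx =>
        rw [Subtype.range_coe] at hx
        by_cases hxt : x = t
        · exact ⟨Polynomial.X, by rw [hxt]; simp⟩
        · obtain ⟨c, hc⟩ := hmem x ⟨hx, hxt⟩
          exact ⟨Polynomial.C c, by simpa using hc⟩
      | algebraMap r =>
        exact ⟨Polynomial.C (algebraMap k0 ℂ r), by
          rw [Polynomial.coe_eval₂RingHom, Polynomial.eval₂_C]
          exact i.commutes r⟩
      | add x y _ _ hx hy => exact add_mem hx hy
      | mul x y _ _ hx hy => exact mul_mem hx hy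
    have hlift : q.map (algebraMap R1 ℂ) ∈
        Polynomial.lifts (Polynomial.eval₂RingHom i.toRingHom t) := by
      rw [Polynomial.lifts_iff_coeff_lifts]
      intro n
      rw [Polynomial.coeff_map]
      exact hcoef (q.coeff n)
    obtain ⟨p, hp⟩ := (Polynomial.mem_lifts _).mp hlift
    refine ⟨p, ?_, ?_⟩
    · rintro rfl
      rw [Polynomial.map_zero] at hp
      exact hq0 ((Polynomial.map_eq_zero_iff Subtype.val_injective).mp hp.symm)
    · rw [← Polynomial.eval_map, hp, Polynomial.eval_map]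
      exact hq

/-- Proof. The range of the family extends to a transcendence basis `s ⊂ ℂ` of `ℂ` over `k0`
(`exists_isTranscendenceBasis_superset`). `s` is infinite (uncountable:
`IsAlgClosed.cardinal_eq_cardinal_transcendence_basis_of_aleph0_lt'` or: otherwise `ℂ` would be countable).
Let `k1 = integralClosure / algebraicClosure` in `ℂ` of `IntermediateField.adjoin k0 (s \ {t})`
(an intermediate field, algebraically closed: `algebraicClosure.isAlgClosed` or similar). `s \ {t}` is a
transcendence basis of `k1` over `k0`, and `s \ {t} ≃ s` (infinite set minus a point, cardinality). By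
`IsAlgClosed.equivOfTranscendenceBasis` (Mathlib/FieldTheory/IsAlgClosed/Classification.lean) there is an
isomorphism `ℂ ≃ₐ[k0] k1`; `i` is its composition with the inclusion `k1 → ℂ`. Its range is `k1`, so it
contains the `x j` (`x j ≠ t` by injectivity of the family). `t` is transcendental over `k1` (`s` is
algebraically independent), so `Polynomial.eval₂RingHom i t` is injective; and `ℂ` is algebraic over
`k0(s) ⊂ k1(t)`: a polynomial over `k1(t)` can be multiplied by a denominator to get coefficients in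
`k1[t]`, the image of `ℂ[X]`. -/
theorem embed_gen (k0 : Subfield ℂ) (hk0 : Countable k0) {κ : Type} [Finite κ] (x : κ → ℂ)
    (t : ℂ) (hx : AlgebraicIndependent k0 (fun o : Option κ => o.elim t x)) :
    ∃ i : ℂ →ₐ[k0] ℂ, (∀ j, ∃ c, i c = x j) ∧
      Function.Injective (Polynomial.eval₂RingHom i.toRingHom t) ∧
      ∀ c : ℂ, ∃ p : Polynomial (Polynomial ℂ), p ≠ 0 ∧
        p.eval₂ (Polynomial.eval₂RingHom i.toRingHom t) c = 0 := by
  obtain ⟨s, hsub, hs⟩ := exists_isTranscendenceBasis_superset hx.coe_range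
  have := SG5b_infinite k0 hk0 s hs
  have ht : t ∈ s := hsub ⟨none, rfl⟩
  obtain ⟨e⟩ := SG5b_equiv s t ht
  obtain ⟨i, h1, h2, h3⟩ := SG5b_main k0 s hs t ht e
  refine ⟨i, fun j => h1 (x j) ⟨hsub ⟨some j, rfl⟩, fun h => ?_⟩, h2, h3⟩
  have h4 : (some j : Option κ) = none := hx.injective (Set.mem_singleton_iff.mp h)
  exact Option.some_ne_none j h4

end Pool.Agent.Lib.MP_2619d0_ag.T
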