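import Pool.Agent.Lib.MP_2619d0_ag.VeryGeneral

/-!
Row SG5c (MP_2619d0_ag, theorem S_G).
-/

set_option autoImplicit false

namespace Pool.Agent.Lib.MP_2619d0_ag.T

open MvPolynomial

universe u

/-- the linear change of coordinates `x ↦ x_0 v + t (x - x_0 v)`, `v_0 = 1` -/
noncomputable def shiftF {N : ℕ} (t : ℂ) (v : Fin (N + 1) → ℂ)
    (F : MvPolynomial (Fin (N + 1)) ℂ) : MvPolynomial (Fin (N + 1)) ℂ :=
  bind₁ (fun l => C t * X l + C ((1 - t) * v l) * X 0) F

section SG5cAux

variable {N : ℕ} {k0 : Subfield ℂ}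

/-- substitution of linear forms with coefficients in `A` -/
private lemma SG5c_bind (A : IntermediateField k0 ℂ) {F : MvPolynomial (Fin (N + 1)) ℂ}
    (hF : ∀ d, coeff d F ∈ A) (G : Fin (N + 1) → MvPolynomial (Fin (N + 1)) A) (d : Fin (N + 1) →₀ ℕ) :
    coeff d (bind₁ (fun i => map (algebraMap A ℂ) (G i)) F) ∈ A := by
  obtain ⟨F0, hF0⟩ : F ∈ Set.range (MvPolynomial.map (σ := Fin (N + 1)) (algebraMap A ℂ)) := by
    rw [mem_range_map_iff_coeffs_subset]
    intro c hc
    obtain ⟨n, -, rfl⟩ := mem_coeffs_iff.mp hc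
    exact ⟨⟨coeff n F, hF n⟩, rfl⟩
  rw [← hF0, ← map_bind₁, coeff_map]
  exact (coeff d (bind₁ G F0)).2

/-- coefficients of a cubic form -/
private lemma SG5c_all (A : IntermediateField k0 ℂ) {F : MvPolynomial (Fin (N + 1)) ℂ}
    (hF : F.IsHomogeneous 3) (h : ∀ j : Exp3 (N + 1), coeff j.1 F ∈ A) (d : Fin (N + 1) →₀ ℕ) :
    coeff d F ∈ A := by
  by_cases hd : d.degree = 3
  · exact h ⟨d, hd⟩
  · rw [hF.coeff_eq_zero hd]
    exact A.zero_mem

private lemma SG5c_hom {F : MvPolynomial (Fin (N + 1)) ℂ} (hF : F.IsHomogeneous 3) (t : ℂ)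
    (v : Fin (N + 1) → ℂ) : (shiftF t v F).IsHomogeneous 3 := by
  have h1 := hF.aeval (n := 1) (fun l => C t * X l + C ((1 - t) * v l) * X 0)
    (fun l => ((isHomogeneous_X ℂ l).C_mul t).add ((isHomogeneous_X ℂ 0).C_mul _))
  rw [one_mul] at h1
  exact h1

private lemma SG5c_basis_of_top {ι : Type*} {k K : Type*} [Field k] [Field K] [Algebra k K]
    {a : ι → K} (htop : IntermediateField.adjoin k (Set.range a) = ⊤) :
    Algebra.IsAlgebraic (Algebra.adjoin k (Set.range a)) K := by
  have h1 : Algebra.IsAlgebraic (IntermediateField.adjoin k (Set.range a)) K := by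
    refine ⟨fun z => ?_⟩
    have hz : z ∈ IntermediateField.adjoin k (Set.range a) := by rw [htop]; trivial
    exact isAlgebraic_algebraMap (⟨z, hz⟩ : IntermediateField.adjoin k (Set.range a))
  open scoped IntermediateField.algebraAdjoinAdjoin in
  exact Algebra.IsAlgebraic.trans (Algebra.adjoin k (Set.range a))
    (IntermediateField.adjoin k (Set.range a)) K

private lemma SG5c_top {ι : Type*} {k E : Type*} [Field k] [Field E] [Algebra k E]
    (A : IntermediateField k E) {a : ι → A}
    (h : A ≤ IntermediateField.adjoin k (Set.range fun i => (a i : E))) :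
    IntermediateField.adjoin k (Set.range a) = ⊤ := by
  rw [eq_top_iff]
  intro z _
  have h1 : (IntermediateField.adjoin k (Set.range a)).map (IntermediateField.val A) =
      IntermediateField.adjoin k (Set.range fun i => (a i : E)) := by
    rw [IntermediateField.adjoin_map, ← Set.range_comp]
    rfl
  have h2 : (z : E) ∈ (IntermediateField.adjoin k (Set.range a)).map
      (IntermediateField.val A) := by
    rw [h1]
    exact h z.2
  obtain ⟨w, hw, hwz⟩ := h2
  have h3 : w = z := Subtype.ext hwz
  rw [← h3]
  exact hw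

/-- Two families indexed by the same finite type which generate the same field. -/
private lemma SG5c_swap {ι : Type} [Finite ι] {k : Type} {E : Type} [Field k] [Field E] [Algebra k E]
    {x y : ι → E} (hx : AlgebraicIndependent k x)
    (hyx : ∀ i, y i ∈ IntermediateField.adjoin k (Set.range x))
    (hxy : ∀ i, x i ∈ IntermediateField.adjoin k (Set.range y)) : AlgebraicIndependent k y := by
  set A := IntermediateField.adjoin k (Set.range x) with hA
  let x' : ι → A := fun i => ⟨x i, IntermediateField.subset_adjoin k _ ⟨i, rfl⟩⟩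
  let y' : ι → A := fun i => ⟨y i, hyx i⟩
  have hx' : AlgebraicIndependent k x' := by
    have h1 : (IntermediateField.val A) ∘ x' = x := rfl
    exact AlgebraicIndependent.of_comp (IntermediateField.val A) (by rw [h1]; exact hx)
  have htopx : IntermediateField.adjoin k (Set.range x') = ⊤ := SG5c_top A le_rfl
  have htopy : IntermediateField.adjoin k (Set.range y') = ⊤ := by
    apply SG5c_top A
    have h1 : IntermediateField.adjoin k (Set.range x) ≤
        IntermediateField.adjoin k (Set.range y) := by
      rw [IntermediateField.adjoin_le_iff]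
      rintro _ ⟨i, rfl⟩
      exact hxy i
    exact h1
  have halgx := SG5c_basis_of_top htopx
  have halgy := SG5c_basis_of_top htopy
  have hbx : IsTranscendenceBasis k x' := hx'.isTranscendenceBasis_iff_isAlgebraic.mpr halgx
  have hby : IsTranscendenceBasis k y' :=
    Algebra.IsAlgebraic.isTranscendenceBasis_of_lift_le_trdeg_of_finite k y'
      hbx.lift_cardinalMk_eq_trdeg.le
  exact hby.1.map' (f := IntermediateField.val A) Subtype.val_injective

end SG5cAux

/-- Let `x` be the first family, `y` the second, `A = IntermediateField.adjoin k0 (range x) ⊂ ℂ`. The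
coefficients of `shiftF t v F` are linear combinations of the coefficients of `F` with coefficients
in `k0[t]`, so `range y ⊂ A`; conversely `t^3 F = shiftF`-like expression: with
`F' = shiftF t v F` one has `t³ F(x) = F'(t x_0, x_l - (1 - t) v_l x_0)` (`v_0 = 1`; the substitution
`x_0 ↦ t x_0`, `x_l ↦ x_l - (1 - t) v_l x_0` followed by the first one is multiplication by `t`, `F` is
homogeneous of degree three, `t ≠ 0`), so `range x ⊂ IntermediateField.adjoin k0 (range y)`. Hence both
families generate the same field `A`. The family `x` is a transcendence basis of `A` (as a family in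
`A`), so `trdeg k0 A = #(Option (Exp3 (N + 1)))` (`IsTranscendenceBasis.cardinalMk_eq_trdeg`), and the
family `y` in `A` is a transcendence basis by `Algebra.IsAlgebraic.isTranscendenceBasis_of_le_trdeg_of_finite`
(Mathlib/RingTheory/AlgebraicIndependent/TranscendenceBasis.lean), in particular algebraically
independent. -/
theorem shift_indep {N : ℕ} (k0 : Subfield ℂ) (F : MvPolynomial (Fin (N + 1)) ℂ)
    (hF : F.IsHomogeneous 3) (v : Fin (N + 1) → ℂ) (hv : ∀ l, v l ∈ k0) (hv0 : v 0 = 1) (t : ℂ)
    (h : AlgebraicIndependent k0 (fun o : Option (Exp3 (N + 1)) =>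
      o.elim t (fun j => coeff j.1 F))) :
    AlgebraicIndependent k0 (fun o : Option (Exp3 (N + 1)) =>
      o.elim t (fun j => coeff j.1 (shiftF t v F))) := by
  set x : Option (Exp3 (N + 1)) → ℂ := fun o => o.elim t (fun j => coeff j.1 F) with hx
  set y : Option (Exp3 (N + 1)) → ℂ := fun o => o.elim t (fun j => coeff j.1 (shiftF t v F)) with hy
  have ht0 : t ≠ 0 := h.ne_zero none
  have hF' : (shiftF t v F).IsHomogeneous 3 := SG5c_hom hF t v
  have hmem : ∀ (z : Option (Exp3 (N + 1)) → ℂ) (i), z i ∈ IntermediateField.adjoin k0 (Set.range z) :=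
    fun z i => IntermediateField.subset_adjoin k0 _ ⟨i, rfl⟩
  refine SG5c_swap h ?_ ?_
  · -- the coefficients of the new form
    set A := IntermediateField.adjoin k0 (Set.range x) with hA
    have htA : t ∈ A := hmem x none
    have hvA : ∀ l, v l ∈ A := fun l => A.algebraMap_mem ⟨v l, hv l⟩
    have hall : ∀ d, coeff d F ∈ A := SG5c_all A hF fun j => hmem x (some j)
    have h1A : ∀ l, (1 - t) * v l ∈ A := fun l => A.mul_mem (A.sub_mem A.one_mem htA) (hvA l)
    have hb := SG5c_bind A hall (fun l => C ⟨t, htA⟩ * X l + C ⟨(1 - t) * v l, h1A l⟩ * X 0)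
    have he : (fun l => map (algebraMap A ℂ)
        ((C ⟨t, htA⟩ * X l + C ⟨(1 - t) * v l, h1A l⟩ * X 0 : MvPolynomial (Fin (N + 1)) A))) =
        fun l => (C t * X l + C ((1 - t) * v l) * X 0 : MvPolynomial (Fin (N + 1)) ℂ) := by
      funext l
      rw [map_add, map_mul, map_mul, map_C, map_C, map_X, map_X]
      rfl
    rw [he] at hb
    rintro (_ | j)
    · exact htA
    · exact hb j.1
  · -- the coefficients of the old form
    set A := IntermediateField.adjoin k0 (Set.range y) with hA
    have htA : t ∈ A := hmem y none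
    have hvA : ∀ l, v l ∈ A := fun l => A.algebraMap_mem ⟨v l, hv l⟩
    have hall : ∀ d, coeff d (shiftF t v F) ∈ A := SG5c_all A hF' fun j => hmem y (some j)
    have h1A : ∀ l, (1 - t) * v l ∈ A := fun l => A.mul_mem (A.sub_mem A.one_mem htA) (hvA l)
    have hb := SG5c_bind A hall (fun l => X l - C ⟨(1 - t) * v l, h1A l⟩ * X 0)
    have he : (fun l => map (algebraMap A ℂ)
        ((X l - C ⟨(1 - t) * v l, h1A l⟩ * X 0 : MvPolynomial (Fin (N + 1)) A))) =
        fun l => (X l - C ((1 - t) * v l) * X 0 : MvPolynomial (Fin (N + 1)) ℂ) := by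
      funext l
      rw [map_sub, map_mul, map_C, map_X, map_X]
      rfl
    rw [he] at hb
    -- the composite is multiplication by `t`
    have hcomp : bind₁ (fun l => (X l - C ((1 - t) * v l) * X 0 : MvPolynomial (Fin (N + 1)) ℂ))
        (shiftF t v F) = C (t ^ 3) * F := by
      rw [shiftF, bind₁_bind₁]
      have h2 : (fun l => bind₁ (fun l => (X l - C ((1 - t) * v l) * X 0 :
          MvPolynomial (Fin (N + 1)) ℂ)) (C t * X l + C ((1 - t) * v l) * X 0)) =
          fun l => C t * X l := by
        funext l
        rw [map_add, map_mul, map_mul, bind₁_C_right, bind₁_C_right, bind₁_X_right,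
          bind₁_X_right, hv0, mul_one]
        have h3 : (C (1 - t) : MvPolynomial (Fin (N + 1)) ℂ) = 1 - C t := by rw [map_sub, map_one]
        rw [map_mul C (1 - t) (v l), h3]
        ring
      rw [h2]
      conv_rhs => rw [F.as_sum, Finset.mul_sum]
      conv_lhs => rw [F.as_sum, map_sum]
      refine Finset.sum_congr rfl fun d hd => ?_
      rw [bind₁_monomial, C_mul_monomial]
      have hd3 : d.degree = 3 := by
        by_contra hne
        rw [mem_support_iff] at hd
        exact hd (hF.coeff_eq_zero hne)
      have h4 : ∏ i ∈ d.support, (C t * X i : MvPolynomial (Fin (N + 1)) ℂ) ^ d i =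
          C (t ^ 3) * monomial d 1 := by
        rw [monomial_eq, C_1, one_mul]
        simp only [mul_pow, Finset.prod_mul_distrib]
        rw [Finset.prod_pow_eq_pow_sum]
        have h5 : ∑ i ∈ d.support, d i = 3 := hd3
        rw [h5, map_pow]
        rfl
      rw [h4, C_mul_monomial, C_mul_monomial, mul_one, mul_comm]
    rintro (_ | j)
    · exact htA
    · have h2 := hb j.1
      rw [hcomp, coeff_C_mul] at h2
      have h3 : x (some j) = (t ^ 3)⁻¹ * (t ^ 3 * coeff j.1 F) := by
        change coeff j.1 F = _
        rw [inv_mul_cancel_left₀ (pow_ne_zero 3 ht0)]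
      rw [h3]
      exact A.mul_mem (A.inv_mem (A.pow_mem htA 3)) h2

end Pool.Agent.Lib.MP_2619d0_ag.T
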