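import Pool.Agent.Lib.MP_2619d0_ag.T.SG4
import Pool.Agent.Lib.MP_2619d0_ag.T.SG5a
import Pool.Agent.Lib.MP_2619d0_ag.T.SG5b
import Pool.Agent.Lib.MP_2619d0_ag.T.SG5c
import Pool.Agent.Lib.MP_2619d0_ag.T.SH2

/-!
Row SG6: anisotropy on a fixed hypersurface.
-/

set_option autoImplicit false

namespace Pool.Agent.Lib.MP_2619d0_ag.T

open MvPolynomial

universe u

theorem SG6_eval_smul {R S : Type*} [CommRing R] [CommRing S] (φ : R →+* S) {n d : ℕ}
    {G : MvPolynomial (Fin n) R} (hG : G.IsHomogeneous d) (c : S) (x : Fin n → S) :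
    eval₂ φ (fun i => c * x i) G = c ^ d * eval₂ φ x G := by
  rw [eval₂_eq', eval₂_eq', Finset.mul_sum]
  refine Finset.sum_congr rfl fun e he => ?_
  have h1 : d = ∑ i, e i := by
    rw [← degree_of_mem hG he, Finsupp.degree_eq_sum]
  have h2 : ∏ i, (c * x i) ^ e i = c ^ d * ∏ i, x i ^ e i := by
    rw [h1, ← Finset.prod_pow_eq_pow_sum, ← Finset.prod_mul_distrib]
    refine Finset.prod_congr rfl fun i _ => ?_
    rw [mul_pow]
  rw [h2]
  ring

theorem SG6_v {N d : ℕ} (G : MvPolynomial (Fin (N + 1)) ℂ) (hG : G.IsHomogeneous d)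
    (hG0 : G ≠ 0) : ∃ v : Fin (N + 1) → ℚ, v 0 = 1 ∧ eval (fun l => (v l : ℂ)) G ≠ 0 := by
  have h1 : G * X 0 ≠ 0 := mul_ne_zero hG0 (X_ne_zero 0)
  have h2 : ∃ x ∈ Set.pi Set.univ (fun _ : Fin (N + 1) => Set.range ((↑) : ℚ → ℂ)),
      eval x (G * X 0) ≠ 0 := by
    by_contra hcon
    push Not at hcon
    apply h1
    refine funext_set (fun _ : Fin (N + 1) => Set.range ((↑) : ℚ → ℂ)) ?_ ?_
    · intro _
      exact Set.infinite_range_of_injective Rat.cast_injective
    · intro x hx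
      rw [hcon x hx, map_zero]
  obtain ⟨x, hx, hx0⟩ := h2
  have h3 : ∀ l, ∃ w : ℚ, (w : ℂ) = x l := fun l => hx l (Set.mem_univ _)
  choose w hw using h3
  rw [map_mul, eval_X] at hx0
  have hw0 : w 0 ≠ 0 := by
    intro h
    have h4 := hw 0
    rw [h, Rat.cast_zero] at h4
    rw [← h4, mul_zero] at hx0
    exact hx0 rfl
  refine ⟨fun l => (w 0)⁻¹ * w l, inv_mul_cancel₀ hw0, ?_⟩
  have h5 : (fun l => (((w 0)⁻¹ * w l : ℚ) : ℂ)) = fun l => ((w 0 : ℂ))⁻¹ * x l := by
    funext l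
    push_cast
    rw [hw l]
  rw [h5]
  have h6 := SG6_eval_smul (RingHom.id ℂ) hG ((w 0 : ℂ))⁻¹ x
  have h7 : ∀ y : Fin (N + 1) → ℂ, eval₂ (RingHom.id ℂ) y G = eval y G := fun y => rfl
  rw [h7, h7] at h6
  rw [h6]
  have h8 : (w 0 : ℂ) ≠ 0 := by exact_mod_cast hw0
  exact mul_ne_zero (pow_ne_zero _ (inv_ne_zero h8)) (left_ne_zero_of_mul hx0)

section polar

variable {ι R : Type*} [Fintype ι] [Field R] [CharZero R]

theorem SG6_polar (c : ι → ι → ι → R) (x y : ι → R) :
    Dc c x y = (Fc c (x + y) - Fc c (x - y)) / 2 - Fc c y := by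
  have h1 : x - y = x + (-1 : R) • y := by
    funext i
    simp [sub_eq_add_neg]
  rw [h1, Fc_add, Fc_add, Dc_smul_right, Dc_smul_left, Fc_smul]
  field_simp
  ring

theorem SG6_Dc (c c' : ι → ι → ι → R) (g : (ι → R) → (ι → R))
    (hadd : ∀ x y, g (x + y) = g x + g y) (hsub : ∀ x y, g (x - y) = g x - g y)
    (hF : ∀ x, Fc c (g x) = Fc c' x) (x y : ι → R) : Dc c (g x) (g y) = Dc c' x y := by
  rw [SG6_polar, SG6_polar c', ← hadd, ← hsub, hF, hF, hF]

end polar

/-- the linear map `x ↦ x_0 ν + τ (x - x_0 ν)` -/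
def gl {R : Type*} [CommRing R] {N : ℕ} (τ : R) (ν x : Fin (N + 1) → R) : Fin (N + 1) → R :=
  fun l => τ * x l + (1 - τ) * ν l * x 0

theorem gl_add {R : Type*} [CommRing R] {N : ℕ} (τ : R) (ν x y : Fin (N + 1) → R) :
    gl τ ν (x + y) = gl τ ν x + gl τ ν y := by
  funext l
  simp only [gl, Pi.add_apply]
  ring

theorem gl_sub {R : Type*} [CommRing R] {N : ℕ} (τ : R) (ν x y : Fin (N + 1) → R) :
    gl τ ν (x - y) = gl τ ν x - gl τ ν y := by
  funext l
  simp only [gl, Pi.sub_apply]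
  ring

/-- its inverse -/
theorem gl_inv {R : Type*} [Field R] {N : ℕ} (τ : R) (hτ : τ ≠ 0) (ν z : Fin (N + 1) → R)
    (hν : ν 0 = 1) : gl τ ν (fun l => (z l - (1 - τ) * ν l * z 0) / τ) = z := by
  funext l
  simp only [gl]
  rw [hν, mul_one]
  field_simp
  ring

theorem shiftF_hom {N : ℕ} (t : ℂ) (v : Fin (N + 1) → ℂ) {F : MvPolynomial (Fin (N + 1)) ℂ}
    (hF : F.IsHomogeneous 3) : (shiftF t v F).IsHomogeneous 3 := by
  have h := IsHomogeneous.aeval (R := ℂ) hF
    (fun l => C t * X l + C ((1 - t) * v l) * X 0) (n := 1) (fun l => by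
      refine IsHomogeneous.add ?_ ?_
      · exact isHomogeneous_C_mul_X t l
      · exact isHomogeneous_C_mul_X _ 0)
  rw [one_mul] at h
  exact h

theorem shiftF_Fc {N : ℕ} (t : ℂ) (v : Fin (N + 1) → ℂ) {F : MvPolynomial (Fin (N + 1)) ℂ}
    (hF : F.IsHomogeneous 3) {M : Type*} [Field M] (θ : ℂ →+* M) (x : Fin (N + 1) → M) :
    Fc (cm θ (cub F)) (gl (θ t) (fun l => θ (v l)) x) = Fc (cm θ (cub (shiftF t v F))) x := by
  let _ : Algebra ℂ M := θ.toAlgebra
  have h1 := aeval_eq_Fc (A := M) hF (gl (θ t) (fun l => θ (v l)) x)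
  have h2 := aeval_eq_Fc (A := M) (shiftF_hom t v hF) x
  change _ = Fc (cm θ (cub F)) _ at h1
  change _ = Fc (cm θ (cub (shiftF t v F))) _ at h2
  have h4 : gl (θ t) (fun l => θ (v l)) x =
      fun l => aeval x (C t * X l + C ((1 - t) * v l) * X 0 : MvPolynomial (Fin (N + 1)) ℂ) := by
    funext l
    have h3 : algebraMap ℂ M ((1 - t) * v l) = (1 - θ t) * θ (v l) := by
      change θ ((1 - t) * v l) = _
      rw [map_mul, map_sub, map_one]
    simp only [map_add, map_mul, aeval_X, aeval_C, gl] at h3 ⊢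
    rw [h3]
    rfl
  rw [← h1, ← h2, shiftF, aeval_bind₁, h4]

theorem cub_map {R S : Type*} [CommRing R] [CommRing S] {n : ℕ} (φ : R →+* S)
    (F : MvPolynomial (Fin n) R) : cub (map φ F) = cm φ (cub F) := by
  funext i j k
  by_cases h : i ≤ j ∧ j ≤ k
  · simp only [cub, cm, if_pos h, coeff_map]
  · simp only [cub, cm, if_neg h, map_zero]

/-- anisotropy on the hyperplane `x_0 = 0` -/
theorem anisoH {N : ℕ} {F : MvPolynomial (Fin (N + 1)) ℂ} (hF : VG F)
    {M : Type*} [Field M] (ψ : MvPolynomial (Fin N) ℂ →+* M) (hψ : Function.Injective ψ)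
    (hodd : Odd (fd ψ)) (σ : M) (z : Fin (N + 1) → M) (hz0 : z 0 = 0)
    (h : σ ^ 2 * Fc (cc F ψ) (yh ψ) + σ * Dc (cc F ψ) (yh ψ) z + Dc (cc F ψ) z (yh ψ) = 0) :
    σ = 0 ∧ z = 0 := by
  classical
  set e : Fin N → Fin (N + 1) → ℂ := fun k => Pi.single k.succ 1 with he
  have hlin : LinearIndependent ℂ e := by
    rw [Fintype.linearIndependent_iff]
    intro g hg k
    have h1 := congrFun hg k.succ
    rw [Finset.sum_apply, Finset.sum_eq_single k] at h1
    · simpa [he] using h1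
    · intro j _ hj
      have h2 : (Pi.single j.succ (1 : ℂ) : Fin (N + 1) → ℂ) k.succ = 0 :=
        Pi.single_eq_of_ne (fun h3 => hj (Fin.succ_injective _ h3).symm) _
      simp only [he, Pi.smul_apply, h2, smul_zero]
    · intro h2
      exact absurd (Finset.mem_univ _) h2
  have hgood : GoodSub (Submodule.span ℂ (Set.range e)) := by
    apply goodSub_hyperplane
    intro w hw
    refine Submodule.span_induction (p := fun w _ => w 0 = 0) ?_ rfl ?_ ?_ hw
    · rintro _ ⟨k, rfl⟩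
      exact Pi.single_eq_of_ne (Fin.succ_ne_zero k).symm _
    · intro x y _ _ hx hy
      rw [Pi.add_apply, hx, hy, add_zero]
    · intro c x _ hx
      rw [Pi.smul_apply, hx, smul_zero]
  have hzz : (fun i => ∑ k : Fin N, z k.succ * ψ (C (e k i))) = z := by
    funext i
    refine Fin.cases ?_ (fun j => ?_) i
    · rw [hz0]
      refine Finset.sum_eq_zero fun k _ => ?_
      have h2 : e k 0 = 0 := Pi.single_eq_of_ne (Fin.succ_ne_zero k).symm _
      rw [h2, map_zero, map_zero, mul_zero]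
    · rw [Finset.sum_eq_single j]
      · have h2 : e j j.succ = 1 := Pi.single_eq_same _ _
        rw [h2, map_one, map_one, mul_one]
      · intro k _ hk
        have h2 : e k j.succ = 0 :=
          Pi.single_eq_of_ne (fun h3 => hk (Fin.succ_injective _ h3).symm) _
        rw [h2, map_zero, map_zero, mul_zero]
      · intro h2
        exact absurd (Finset.mem_univ _) h2
  obtain ⟨h1, h2⟩ := anisoM2 hF e hlin hgood ψ hψ hodd σ (fun k => z k.succ) (by
    rw [hzz]; exact h)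
  refine ⟨h1, ?_⟩
  funext i
  refine Fin.cases hz0 (fun j => congrFun h2 j) i

/-- the change of the affine chart -/
theorem SG6_chart {N : ℕ} {M : Type u} [Field M] (ψ : MvPolynomial (Fin N) ℂ →+* M)
    (hψ : Function.Injective ψ) (t : ℂ) (ht0 : t ≠ 0) (v : Fin (N + 1) → ℂ) (hv0 : v 0 = 1) :
    ∃ ψ' : MvPolynomial (Fin N) ℂ →+* M, Function.Injective ψ' ∧ fd ψ' = fd ψ ∧
      (∀ c, ψ' (C c) = ψ (C c)) ∧ gl (ψ (C t)) (fun l => ψ (C (v l))) (yh ψ') = yh ψ := by
  set γ' : MvPolynomial (Fin N) ℂ →ₐ[ℂ] MvPolynomial (Fin N) ℂ :=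
    aeval (fun l => C t⁻¹ * (X l - C ((1 - t) * v l.succ))) with hγ'
  set γ : MvPolynomial (Fin N) ℂ →ₐ[ℂ] MvPolynomial (Fin N) ℂ :=
    aeval (fun l => C t * X l + C ((1 - t) * v l.succ)) with hγ
  have h1 : ∀ p, γ (γ' p) = p := by
    have h2 : γ.comp γ' = AlgHom.id ℂ _ := by
      apply algHom_ext
      intro l
      rw [AlgHom.comp_apply, AlgHom.id_apply, hγ', aeval_X, map_mul, map_sub, hγ, aeval_X,
        algHom_C, algHom_C]
      simp only [algebraMap_eq]
      rw [add_sub_cancel_right, ← mul_assoc, ← C_mul, inv_mul_cancel₀ ht0, C_1, one_mul]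
    intro p
    have h3 := DFunLike.congr_fun h2 p
    exact h3
  have h2 : ∀ p, γ' (γ p) = p := by
    have h2 : γ'.comp γ = AlgHom.id ℂ _ := by
      apply algHom_ext
      intro l
      rw [AlgHom.comp_apply, AlgHom.id_apply, hγ, aeval_X, map_add, map_mul, hγ', aeval_X,
        algHom_C, algHom_C]
      simp only [algebraMap_eq]
      rw [← mul_assoc, ← C_mul, mul_inv_cancel₀ ht0, C_1, one_mul, sub_add_cancel]
    intro p
    have h3 := DFunLike.congr_fun h2 p
    exact h3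
  have hr : Set.range (ψ.comp γ'.toRingHom) = Set.range ψ := by
    apply Set.Subset.antisymm
    · rintro _ ⟨p, rfl⟩
      exact ⟨γ' p, rfl⟩
    · rintro _ ⟨p, rfl⟩
      refine ⟨γ p, ?_⟩
      change ψ (γ' (γ p)) = ψ p
      rw [h2]
  refine ⟨ψ.comp γ'.toRingHom, ?_, ?_, ?_, ?_⟩
  · intro a b hab
    have h3 : γ' a = γ' b := hψ hab
    rw [← h1 a, h3, h1]
  · unfold fd cl
    rw [hr]
  · intro c
    change ψ (γ' (C c)) = ψ (C c)
    rw [algHom_C]
    rfl
  · have hyC : ∀ c, ψ (γ' (C c)) = ψ (C c) := by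
      intro c
      rw [algHom_C]
      rfl
    have ht1 : ψ (C t) ≠ 0 := by
      intro h3
      have h4 : (C t : MvPolynomial (Fin N) ℂ) = 0 := hψ (by rw [h3, map_zero])
      exact ht0 (C_eq_zero.mp h4)
    funext l
    refine Fin.cases ?_ (fun j => ?_) l
    · simp only [gl, yh, Fin.cons_zero, hv0, map_one, mul_one]
      ring
    · simp only [gl, yh, Fin.cons_zero, Fin.cons_succ, mul_one]
      have h3 : (ψ.comp γ'.toRingHom) (X j) = ψ (C t⁻¹) * (ψ (X j) - ψ (C ((1 - t) * v j.succ))) := by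
        change ψ (γ' (X j)) = _
        rw [hγ', aeval_X, map_mul, map_sub]
      have h4 : ψ (C ((1 - t) * v j.succ)) = (1 - ψ (C t)) * ψ (C (v j.succ)) := by
        rw [C_mul, map_mul, C_sub, map_sub, C_1, map_one]
      have h5 : ψ (C t) * ψ (C t⁻¹) = 1 := by
        rw [← map_mul, ← C_mul, mul_inv_cancel₀ ht0, C_1, map_one]
      rw [h3, h4, ← mul_assoc, h5, one_mul]
      ring

/-- the specialisation step -/
theorem SG6_spec {N d : ℕ} {F1 : MvPolynomial (Fin (N + 1)) ℂ} (hVG : VG F1)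
    {G : MvPolynomial (Fin (N + 1)) ℂ} (hG : G.IsHomogeneous d) (v : Fin (N + 1) → ℂ)
    (hvG : eval v G ≠ 0) {K : Type u} [Field K] (ψ2 : MvPolynomial (Fin N) ℂ →+* K)
    (O : ValuationSubring K) (hO : ∀ G, ψ2 G ∈ O) (t2 : K) (hvt : O.valuation t2 < 1)
    (hinj : Function.Injective (rh ψ2 O hO)) (hodd : Odd (fd (rh ψ2 O hO))) (σ : K)
    (z : Fin (N + 1) → K) (hE : σ ^ 2 * Fc (cc F1 ψ2) (yh ψ2) + σ * Dc (cc F1 ψ2) (yh ψ2) z +
      Dc (cc F1 ψ2) z (yh ψ2) = 0)
    (hGz : eval₂ (ψ2.comp C) (gl t2 (fun l => ψ2 (C (v l))) z) G = 0) : σ = 0 ∧ z = 0 := by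
  classical
  by_contra hcon
  set p : Option (Fin (N + 1)) → K := fun o => o.elim σ z with hp
  have hex : ∃ j, p j ≠ 0 := by
    by_contra hall
    push Not at hall
    exact hcon ⟨hall none, funext fun l => hall (some l)⟩
  obtain ⟨o, ho⟩ := Finite.exists_max (fun j => O.valuation (p j))
  have hpo : p o ≠ 0 := by
    intro h0
    obtain ⟨j, hj⟩ := hex
    have h1 := ho j
    rw [h0, map_zero, le_zero_iff, map_eq_zero] at h1
    exact hj h1
  set e : K := (p o)⁻¹ with he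
  have hq : ∀ j, e * p j ∈ O := by
    intro j
    rw [← O.valuation_le_one_iff, he, map_mul, map_inv₀]
    have h1 : O.valuation (p o) ≠ 0 := by rwa [ne_eq, map_eq_zero]
    calc (O.valuation (p o))⁻¹ * O.valuation (p j) ≤ (O.valuation (p o))⁻¹ * O.valuation (p o) :=
          mul_le_mul_right (ho j) _
      _ = 1 := inv_mul_cancel₀ h1
  set q : Option (Fin (N + 1)) → O := fun j => ⟨e * p j, hq j⟩ with hqdef
  set ψO : MvPolynomial (Fin N) ℂ →+* O := ψ2.codRestrict O hO with hψO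
  set cO : Fin (N + 1) → Fin (N + 1) → Fin (N + 1) → O := cm (ψO.comp C) (cub F1) with hcO
  set uO : Fin (N + 1) → O := Fin.cons 1 (fun l => ψO (X l)) with huO
  set zO : Fin (N + 1) → O := fun l => q (some l) with hzO
  have hc1 : cm O.subtype cO = cc F1 ψ2 := by
    funext i j k
    rfl
  have hu1 : (fun i => O.subtype (uO i)) = yh ψ2 := by
    funext i
    refine Fin.cases ?_ (fun j => ?_) i
    · rw [huO, Fin.cons_zero, map_one]
      rfl
    · rw [huO, Fin.cons_succ]
      rfl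
  have hz1 : (fun i => O.subtype (zO i)) = e • z := by
    funext i
    rfl
  have hσ1 : O.subtype (q none) = e * σ := rfl
  have hsub : Function.Injective O.subtype := O.subtype_injective
  have hEO : (q none) ^ 2 * Fc cO uO + q none * Dc cO uO zO + Dc cO zO uO = 0 := by
    apply hsub
    rw [map_zero, map_add, map_add, map_mul, map_mul, map_pow, ← Fc_cm, ← Dc_cm, ← Dc_cm, hc1,
      hu1, hz1, hσ1, Dc_smul_right, Dc_smul_left]
    linear_combination e ^ 2 * hE
  set r : O →+* IsLocalRing.ResidueField O := IsLocalRing.residue O with hr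
  set χ := rh ψ2 O hO with hχ
  have hχr : ∀ g, χ g = r (ψO g) := fun g => rfl
  have hc2 : cm r cO = cc F1 χ := by
    funext i j k
    rfl
  have hu2 : (fun i => r (uO i)) = yh χ := by
    funext i
    refine Fin.cases ?_ (fun j => ?_) i
    · rw [huO, Fin.cons_zero, map_one]
      rfl
    · rw [huO, Fin.cons_succ]
      rfl
  have hER : (r (q none)) ^ 2 * Fc (cc F1 χ) (yh χ) +
      r (q none) * Dc (cc F1 χ) (yh χ) (fun i => r (zO i)) +
      Dc (cc F1 χ) (fun i => r (zO i)) (yh χ) = 0 := by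
    have h1 := congrArg r hEO
    rw [map_zero, map_add, map_add, map_mul, map_mul, map_pow, ← Fc_cm, ← Dc_cm, ← Dc_cm, hc2,
      hu2] at h1
    exact h1
  have htO : t2 ∈ O := (O.valuation_le_one_iff _).mp hvt.le
  set tO : O := ⟨t2, htO⟩ with htOdef
  have hrt : r tO = 0 := by
    rw [hr, IsLocalRing.residue_eq_zero_iff, ValuationSubring.valuation_lt_one_iff]
    exact hvt
  have hGO : eval₂ (ψO.comp C) (gl tO (fun l => ψO (C (v l))) zO) G = 0 := by
    apply hsub
    rw [eval₂_comp_left, map_zero]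
    have h1 : (O.subtype).comp (ψO.comp C) = ψ2.comp C := by
      ext c
      rfl
    have h2 : (O.subtype ∘ gl tO (fun l => ψO (C (v l))) zO) =
        fun i => e * gl t2 (fun l => ψ2 (C (v l))) z i := by
      funext i
      simp only [Function.comp_apply, gl, map_add, map_mul, map_sub, map_one]
      change t2 * (e * z i) + (1 - t2) * ψ2 (C (v i)) * (e * z 0) = _
      ring
    rw [h1, h2, SG6_eval_smul _ hG, hGz, mul_zero]
  have hz0 : r (zO 0) = 0 := by
    have h1 := congrArg r hGO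
    rw [eval₂_comp_left, map_zero] at h1
    have h2 : (r ∘ gl tO (fun l => ψO (C (v l))) zO) =
        fun i => r (zO 0) * (χ.comp C) (v i) := by
      funext i
      simp only [Function.comp_apply, gl, map_add, map_mul, map_sub, map_one, hrt]
      change 0 * r (zO i) + (1 - 0) * r (ψO (C (v i))) * r (zO 0) = r (zO 0) * r (ψO (C (v i)))
      ring
    have h3 : r.comp (ψO.comp C) = χ.comp C := by
      ext c
      rfl
    rw [h2, h3, SG6_eval_smul _ hG] at h1
    have h4 : eval₂ (χ.comp C) (fun i => (χ.comp C) (v i)) G = (χ.comp C) (eval v G) := by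
      have h5 := eval₂_comp_left (χ.comp C) (RingHom.id ℂ) v G
      rw [RingHom.comp_id] at h5
      exact h5.symm
    rw [h4] at h1
    by_contra hne
    rcases mul_eq_zero.mp h1 with h5 | h5
    · exact pow_ne_zero d hne h5
    · exact hvG (((χ.comp C)).injective (by rw [h5, map_zero]))
  obtain ⟨h1, h2⟩ := anisoH hVG χ hinj hodd (r (q none)) (fun i => r (zO i)) hz0 hER
  have hall : ∀ j, r (q j) = 0 := by
    intro j
    cases j with
    | none => exact h1
    | some l => exact congrFun h2 l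
  have hq1 : q o = 1 := by
    apply Subtype.ext
    change e * p o = 1
    rw [he, inv_mul_cancel₀ hpo]
  have h3 := hall o
  rw [hq1, map_one] at h3
  exact one_ne_zero h3

/-- Anisotropy on a fixed hypersurface `G = 0`: the coefficients of `F` are algebraically independent
over a countable field `k0` which contains the coefficients of `G`. -/
theorem anisoG {N d : ℕ} {F : MvPolynomial (Fin (N + 1)) ℂ} (hF : F.IsHomogeneous 3)
    (k0 : Subfield ℂ) (hk0 : Countable k0)
    (hind : AlgebraicIndependent k0 (fun j : Exp3 (N + 1) => coeff j.1 F))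
    {G : MvPolynomial (Fin (N + 1)) ℂ} (hG : G.IsHomogeneous d) (hG0 : G ≠ 0)
    (hGk : ∀ e, coeff e G ∈ k0) {M : Type u} [Field M] (ψ : MvPolynomial (Fin N) ℂ →+* M)
    (hψ : Function.Injective ψ) (hodd : Odd (fd ψ)) (σ : M) (z : Fin (N + 1) → M)
    (h : σ ^ 2 * Fc (cc F ψ) (yh ψ) + σ * Dc (cc F ψ) (yh ψ) z + Dc (cc F ψ) z (yh ψ) = 0)
    (hGz : eval₂ (ψ.comp C) z G = 0) : σ = 0 ∧ z = 0 := by
  classical
  have hchar : CharZero M := charZero_of_injective_ringHom (f := ψ.comp C) (ψ.comp C).injective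
  obtain ⟨v0, hv00, hv0G⟩ := SG6_v G hG hG0
  set v : Fin (N + 1) → ℂ := fun l => (v0 l : ℂ) with hv
  have hv0 : v 0 = 1 := by rw [hv]; simp [hv00]
  have hvk : ∀ l, v l ∈ k0 := fun l => SubfieldClass.ratCast_mem k0 (v0 l)
  obtain ⟨t, ht⟩ := exists_t k0 hk0 _ hind
  have ht' := shift_indep k0 F hF v hvk hv0 t ht
  obtain ⟨i, hix, hφ, hΩ⟩ := embed_gen k0 hk0 _ t ht'
  have ht0 : t ≠ 0 := ht.ne_zero none
  have hr : shiftF t v F ∈ Set.range (MvPolynomial.map i.toRingHom) := by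
    rw [mem_range_map_iff_coeffs_subset]
    intro x hx
    have hx' : x ∈ (shiftF t v F).coeffs := hx
    rw [mem_coeffs_iff] at hx'
    obtain ⟨e, he, rfl⟩ := hx'
    have hdeg : e.degree = 3 := degree_of_mem (shiftF_hom t v hF) he
    obtain ⟨c, hc⟩ := hix ⟨e, hdeg⟩
    exact ⟨c, hc⟩
  obtain ⟨F1, hF1⟩ := hr
  have hF1h : F1.IsHomogeneous 3 :=
    IsHomogeneous.of_map i.toRingHom.injective (by rw [hF1]; exact shiftF_hom t v hF)
  have hVG : VG F1 := by
    refine ⟨hF1h, ?_⟩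
    have h1 : AlgebraicIndependent k0 (i ∘ fun j : Exp3 (N + 1) => coeff j.1 F1) := by
      have h2 := ht'.comp some (Option.some_injective _)
      have h3 : (i ∘ fun j : Exp3 (N + 1) => coeff j.1 F1) =
          ((fun o : Option (Exp3 (N + 1)) => o.elim t (fun j => coeff j.1 (shiftF t v F))) ∘
            some) := by
        funext j
        simp only [Function.comp_apply, Option.elim_some]
        rw [← hF1, coeff_map]
        rfl
      rw [h3]
      exact h2
    have h2 := AlgebraicIndependent.of_comp i h1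
    exact h2.restrictScalars (algebraMap ℚ k0).injective
  have hGi : map i.toRingHom G = G := by
    ext e
    rw [coeff_map]
    exact i.commutes ⟨coeff e G, hGk e⟩
  have hvi : ∀ l, i (v l) = v l := fun l => i.commutes ⟨v l, hvk l⟩
  obtain ⟨ψ', hψ'inj, hfd, hψ'C, hgl⟩ := SG6_chart ψ hψ t ht0 v hv0
  have hψ'Ceq : ψ'.comp C = ψ.comp C := RingHom.ext hψ'C
  set θ : ℂ →+* M := ψ.comp C with hθ
  set τ : M := ψ (C t) with hτ
  have hτ0 : τ ≠ 0 := by
    intro h3
    have h4 : (C t : MvPolynomial (Fin N) ℂ) = 0 := hψ (by rw [← hτ, h3, map_zero])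
    exact ht0 (C_eq_zero.mp h4)
  set ν : Fin (N + 1) → M := fun l => ψ (C (v l)) with hν
  have hν0 : ν 0 = 1 := by
    rw [hν]
    simp only [hv0, C_1, map_one]
  set z' : Fin (N + 1) → M := fun l => (z l - (1 - τ) * ν l * z 0) / τ with hz'
  have hzz : gl τ ν z' = z := gl_inv τ hτ0 ν z hν0
  -- the equation for `F' = shiftF t v F`
  have hF' : ∀ x, Fc (cc F ψ) (gl τ ν x) = Fc (cm θ (cub (shiftF t v F))) x := fun x =>
    shiftF_Fc t v hF θ x
  have hD' : ∀ x y, Dc (cc F ψ) (gl τ ν x) (gl τ ν y) = Dc (cm θ (cub (shiftF t v F))) x y :=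
    SG6_Dc _ _ (gl τ ν) (gl_add τ ν) (gl_sub τ ν) hF'
  have hE : σ ^ 2 * Fc (cm θ (cub (shiftF t v F))) (yh ψ') +
      σ * Dc (cm θ (cub (shiftF t v F))) (yh ψ') z' +
      Dc (cm θ (cub (shiftF t v F))) z' (yh ψ') = 0 := by
    rw [← hF', ← hD', ← hD', hgl, hzz]
    exact h
  by_contra hcon
  obtain ⟨M2, ψ2, O, hO, t2, hψ2, ht2, hp, hvt, hinj, hoddr⟩ :=
    odd_place i.toRingHom t hφ hΩ ψ' hψ'inj (by rw [hfd]; exact hodd)
      (fun o : Option (Fin (N + 1)) => o.elim σ z')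
  set σ2 : M2 := ⟨σ, hp none⟩ with hσ2
  set z2 : Fin (N + 1) → M2 := fun l => ⟨z' l, hp (some l)⟩ with hz2
  have hsub : Function.Injective M2.subtype := M2.subtype.injective
  have hψ2C : ∀ c, M2.subtype (ψ2 (C c)) = θ (i c) := by
    intro c
    have h1 := hψ2 (C c)
    rw [map_C] at h1
    exact h1.trans (hψ'C _)
  have hc1 : cm M2.subtype (cc F1 ψ2) = cm θ (cub (shiftF t v F)) := by
    rw [← hF1, cub_map]
    funext a b c
    exact hψ2C _
  have hu1 : (fun l => M2.subtype (yh ψ2 l)) = yh ψ' := by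
    funext l
    refine Fin.cases ?_ (fun j => ?_) l
    · rw [yh, Fin.cons_zero, map_one]
      rfl
    · rw [yh, Fin.cons_succ]
      have h1 := hψ2 (X j)
      rw [map_X] at h1
      exact h1
  have hz1 : (fun l => M2.subtype (z2 l)) = z' := rfl
  have hσ1 : M2.subtype σ2 = σ := rfl
  have ht1 : M2.subtype t2 = τ := ht2.trans (hψ'C t)
  have hE2 : σ2 ^ 2 * Fc (cc F1 ψ2) (yh ψ2) + σ2 * Dc (cc F1 ψ2) (yh ψ2) z2 +
      Dc (cc F1 ψ2) z2 (yh ψ2) = 0 := by
    apply hsub
    rw [map_zero, map_add, map_add, map_mul, map_mul, map_pow, ← Fc_cm, ← Dc_cm, ← Dc_cm, hc1,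
      hu1, hz1, hσ1]
    exact hE
  have hG2 : eval₂ (ψ2.comp C) (gl t2 (fun l => ψ2 (C (v l))) z2) G = 0 := by
    apply hsub
    rw [eval₂_comp_left, map_zero]
    have h1 : (M2.subtype).comp (ψ2.comp C) = θ.comp i.toRingHom := by
      ext c
      exact hψ2C c
    have h2 : (M2.subtype ∘ gl t2 (fun l => ψ2 (C (v l))) z2) = z := by
      rw [← hzz]
      funext l
      simp only [Function.comp_apply, gl, map_add, map_mul, map_sub, map_one, ht1]
      have h3 : M2.subtype (ψ2 (C (v l))) = ν l := by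
        rw [hψ2C, hvi]
        rfl
      rw [h3]
      rfl
    rw [h1, h2, ← eval₂_map, hGi]
    exact hGz
  obtain ⟨h1, h2⟩ := SG6_spec hVG hG v hv0G ψ2 O hO t2 hvt hinj hoddr σ2 z2 hE2 hG2
  apply hcon
  refine ⟨congrArg M2.subtype h1, ?_⟩
  have h3 : z' = 0 := by
    funext l
    exact congrArg M2.subtype (congrFun h2 l)
  rw [← hzz, h3]
  funext l
  simp [gl]

end Pool.Agent.Lib.MP_2619d0_ag.T
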