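import Pool.Agent.Lib.MP_2619d0_ag.T.A1

/-!
The key lemma in characteristic two, homogeneous version: no condition on the coordinates of `b`.
-/

set_option autoImplicit false

namespace Pool.Agent.Lib.MP_2619d0_ag.T

open MvPolynomial

section SH1

variable {n : ℕ} {k : Type*} [Field k]

/-- The inductive step, homogeneous version. -/
theorem SH1_step (h2 : (2 : k) = 0) (b : Fin n → k)
    (s : MvPolynomial (Fin n) k) (z x : Fin n → MvPolynomial (Fin n) k) (ρ : ℕ)
    (hs : A1_ord ρ s) (hz : ∀ i, A1_ord ρ (z i))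
    (h : ∑ i, x i ^ 2 * (C (b i) + X i) + s ^ 2 * ∑ i, X i ^ 2 *
      (C (b i) + X i) + s * ∑ i, X i ^ 2 * z i = 0) :
    ∀ d : Fin n →₀ ℕ, d.degree = ρ → ∀ i, coeff d (x i) = 0 := by
  classical
  have hX2 : ∀ i : Fin n, A1_ord (1 + 1) ((X i : MvPolynomial (Fin n) k) ^ 2) := by
    intro i
    rw [pow_two]
    exact A1_ord_mul (A1_ord_X i) (A1_ord_X i)
  have ho1 : A1_ord (2 * ρ + 2) (s ^ 2 * ∑ i, X i ^ 2 * (C (b i) + X i)) := by
    have h1 : A1_ord (ρ + ρ) (s ^ 2) := by rw [pow_two]; exact A1_ord_mul hs hs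
    have h3 : A1_ord 2 (∑ i, (X i : MvPolynomial (Fin n) k) ^ 2 * (C (b i) + X i)) :=
      A1_ord_sum _ (fun i _ => A1_ord_mul (hX2 i) (A1_ord_zero _))
    have h5 := A1_ord_mul h1 h3
    have h6 : ρ + ρ + 2 = 2 * ρ + 2 := by ring
    rw [← h6]; exact h5
  have ho2 : A1_ord (2 * ρ + 2) (s * ∑ i, X i ^ 2 * z i) := by
    have h3 : A1_ord (2 + ρ) (∑ i, (X i : MvPolynomial (Fin n) k) ^ 2 * z i) :=
      A1_ord_sum _ (fun i _ => A1_ord_mul (hX2 i) (hz i))
    have h5 := A1_ord_mul hs h3
    have h6 : ρ + (2 + ρ) = 2 * ρ + 2 := by ring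
    rw [← h6]; exact h5
  have hco : ∀ e : Fin n →₀ ℕ, e.degree < 2 * ρ + 2 →
      ∑ i, coeff e (x i ^ 2) * b i + ∑ j, coeff e (x j ^ 2 * X j) = 0 := by
    intro e he
    have h1 := congrArg (coeff e) h
    rw [coeff_add, coeff_add, ho1 e he, ho2 e he, add_zero, add_zero, coeff_zero, coeff_sum] at h1
    rw [← h1]
    have h3 : ∀ i, coeff e (x i ^ 2 * (C (b i) + X i))
        = coeff e (x i ^ 2) * b i + coeff e (x i ^ 2 * X i) := by
      intro i
      rw [mul_add, coeff_add, A1_coeff_mul_C]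
    rw [Finset.sum_congr rfl (fun i _ => h3 i), Finset.sum_add_distrib]
  intro d hd j
  have h1 := hco (2 • d + Finsupp.single j 1) (by
    rw [map_add, map_nsmul, hd, Finsupp.degree_single]
    simp)
  have h3 : ∑ i, coeff (2 • d + Finsupp.single j 1) (x i ^ 2) * b i = 0 := by
    refine Finset.sum_eq_zero (fun i _ => ?_)
    rw [coeff_sq_char2 h2 (x i) _ j (by simp), zero_mul]
  rw [h3, zero_add, Finset.sum_eq_single j] at h1
  · rw [coeff_mul_X, A1_coeff_two h2] at h1
    exact pow_eq_zero_iff (two_ne_zero) |>.mp h1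
  · intro l _ hlj
    rw [coeff_mul_X']
    split_ifs with h4
    · refine coeff_sq_char2 h2 _ _ j ?_
      have : Finsupp.single l 1 j = 0 := Finsupp.single_eq_of_ne (by exact fun h => hlj h.symm)
      simp [this]
    · rfl
  · intro hj; exact absurd (Finset.mem_univ j) hj

/-- translation by `b` -/
noncomputable def SH1_T (b : Fin n → k) : MvPolynomial (Fin n) k →ₐ[k] MvPolynomial (Fin n) k :=
  aeval (fun i => X i + C (b i))

theorem SH1_TT (h2 : (2 : k) = 0) (b : Fin n → k) (p : MvPolynomial (Fin n) k) :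
    SH1_T b (SH1_T b p) = p := by
  have h1 : (SH1_T b).comp (SH1_T b) = AlgHom.id k _ := by
    apply algHom_ext
    intro i
    simp only [SH1_T, AlgHom.comp_apply, aeval_X, map_add, AlgHom.id_apply]
    rw [← algebraMap_eq, AlgHom.commutes, algebraMap_eq, add_assoc, ← C_add]
    have h3 : b i + b i = 0 := by
      rw [← two_mul, h2, zero_mul]
    rw [h3, C_0, add_zero]
  have h3 := DFunLike.congr_fun h1 p
  simpa using h3

theorem SH1_T_mem (b : Fin n → k) (W : Submodule k (Fin n → k))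
    (z : Fin n → MvPolynomial (Fin n) k) (hz : ∀ d, (fun i => coeff d (z i)) ∈ W)
    (d : Fin n →₀ ℕ) : (fun i => coeff d (SH1_T b (z i))) ∈ W := by
  classical
  let S : Finset (Fin n →₀ ℕ) := Finset.univ.biUnion (fun i => (z i).support)
  have h1 : (fun i => coeff d (SH1_T b (z i)))
      = ∑ e ∈ S, coeff d (SH1_T b (monomial e 1)) • (fun i => coeff e (z i)) := by
    funext i
    rw [Finset.sum_apply]
    have h3 : z i = ∑ e ∈ S, coeff e (z i) • monomial e (1 : k) := by
      conv_lhs => rw [(z i).as_sum]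
      have h4 : (z i).support ⊆ S := Finset.subset_biUnion_of_mem (fun i => (z i).support)
        (Finset.mem_univ i)
      rw [Finset.sum_subset h4]
      · refine Finset.sum_congr rfl (fun e _ => ?_)
        rw [smul_monomial, smul_eq_mul, mul_one]
      · intro e _ he
        rw [notMem_support_iff] at he
        rw [he]; simp
    conv_lhs => rw [h3]
    rw [map_sum, coeff_sum]
    refine Finset.sum_congr rfl (fun e _ => ?_)
    rw [map_smul, coeff_smul, Pi.smul_apply, smul_eq_mul, smul_eq_mul, mul_comm]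
  rw [h1]
  exact Submodule.sum_mem _ (fun e _ => Submodule.smul_mem _ _ (hz e))

theorem SH1_split (W : Submodule k (Fin n → k)) (b : Fin n → k) (hb : b ∉ W) (a : k)
    (w : Fin n → k) (hw : w ∈ W) (h : ∀ i, a * b i + w i = 0) : a = 0 ∧ w = 0 := by
  have ha : a = 0 := by
    by_contra ha
    apply hb
    have h1 : b = (-a⁻¹) • w := by
      funext i
      have h3 := h i
      simp only [Pi.smul_apply, smul_eq_mul]
      field_simp
      linear_combination h3
    rw [h1]; exact W.smul_mem _ hw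
  refine ⟨ha, ?_⟩
  funext i
  have h3 := h i
  rw [ha, zero_mul, zero_add] at h3
  exact h3

end SH1

/-- Homogeneous version of `aniso_char2`: `u = (X_0, …, X_{n-1})`. -/
theorem aniso_char2_hom {k : Type*} [Field k] (h2 : (2 : k) = 0) {n : ℕ}
    (W : Submodule k (Fin n → k)) (b : Fin n → k) (hb : b ∉ W)
    (hbW : ∀ w ∈ W, ∑ i, b i ^ 2 * w i = 0) (s : MvPolynomial (Fin n) k)
    (z : Fin n → MvPolynomial (Fin n) k) (hz : ∀ d, (fun i => coeff d (z i)) ∈ W)
    (h : s ^ 2 * ∑ i, X i ^ 3 + s * ∑ i, X i ^ 2 * z i + ∑ i, z i ^ 2 * X i = 0) :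
    s = 0 ∧ ∀ i, z i = 0 := by
  classical
  have h2' : ∀ p : MvPolynomial (Fin n) k, p + p = 0 := by
    intro p
    rw [← two_mul]
    have : (2 : MvPolynomial (Fin n) k) = C (2 : k) := (map_ofNat C 2).symm
    rw [this, h2, C_0, zero_mul]
  set s' := SH1_T b s with hs'
  set z' : Fin n → MvPolynomial (Fin n) k := fun i => SH1_T b (z i) with hz'
  have hzW : ∀ d, (fun i => coeff d (z' i)) ∈ W := SH1_T_mem b W z hz
  have hgv : ∀ i, SH1_T b (X i) = C (b i) + X i := by
    intro i
    simp only [SH1_T, aeval_X]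
    rw [add_comm]
  have hE : s' ^ 2 * ∑ i, (C (b i) + X i) ^ 3 + s' * ∑ i, (C (b i) + X i) ^ 2 * z' i +
      ∑ i, z' i ^ 2 * (C (b i) + X i) = 0 := by
    have h1 := congrArg (SH1_T b) h
    simp only [map_add, map_mul, map_pow, map_sum, map_zero, hgv] at h1
    exact h1
  have hbz : ∑ i, C (b i) ^ 2 * z' i = 0 := by
    ext d
    rw [coeff_sum, coeff_zero]
    have h1 := hbW _ (hzW d)
    rw [← h1]
    refine Finset.sum_congr rfl (fun i _ => ?_)
    rw [← C_pow, coeff_C_mul]
  set x : Fin n → MvPolynomial (Fin n) k := fun i => s' * C (b i) + z' i with hx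
  have hE2 : ∑ i, x i ^ 2 * (C (b i) + X i) + s' ^ 2 * ∑ i, X i ^ 2 *
      (C (b i) + X i) + s' * ∑ i, X i ^ 2 * z' i = 0 := by
    have h1 : ∑ i, x i ^ 2 * (C (b i) + X i) + s' ^ 2 * ∑ i, X i ^ 2 *
        (C (b i) + X i) + s' * ∑ i, X i ^ 2 * z' i
        = (s' ^ 2 * ∑ i, (C (b i) + X i) ^ 3 +
          s' * ∑ i, (C (b i) + X i) ^ 2 * z' i +
          ∑ i, z' i ^ 2 * (C (b i) + X i)) - s' * ∑ i, C (b i) ^ 2 * z' i := by
      simp only [Finset.mul_sum, ← Finset.sum_add_distrib, ← Finset.sum_sub_distrib]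
      refine Finset.sum_congr rfl (fun i _ => ?_)
      have h3 : (2 : MvPolynomial (Fin n) k) = 0 := by
        have := h2' 1
        rw [← this]; norm_num
      simp only [hx]
      linear_combination (s' * z' i * C (b i) * (C (b i) + X i)
        - s' ^ 2 * C (b i) * X i * (C (b i) + X i)
        - s' * C (b i) * X i * z' i) * h3
    rw [h1, hE, hbz, mul_zero, sub_zero]
  have hmain : ∀ ρ : ℕ, ∀ d : Fin n →₀ ℕ, d.degree = ρ → ∀ i, coeff d (x i) = 0 := by
    intro ρ
    induction ρ using Nat.strong_induction_on with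
    | _ ρ ih =>
      have hsp : ∀ d : Fin n →₀ ℕ, d.degree < ρ → coeff d s' = 0 ∧
          (fun i => coeff d (z' i)) = 0 := by
        intro d hd
        refine SH1_split W b hb _ _ (hzW d) (fun i => ?_)
        have h1 := ih d.degree hd d rfl i
        rw [hx] at h1
        simp only [coeff_add, A1_coeff_mul_C] at h1
        exact h1
      refine SH1_step h2 b s' z' x ρ (fun d hd => (hsp d hd).1)
        (fun i d hd => congrFun (hsp d hd).2 i) hE2
  have hall : ∀ d : Fin n →₀ ℕ, coeff d s' = 0 ∧ (fun i => coeff d (z' i)) = 0 := by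
    intro d
    refine SH1_split W b hb _ _ (hzW d) (fun i => ?_)
    have h1 := hmain d.degree d rfl i
    rw [hx] at h1
    simp only [coeff_add, A1_coeff_mul_C] at h1
    exact h1
  have hs0 : s' = 0 := by
    ext d; rw [(hall d).1, coeff_zero]
  have hz0 : ∀ i, z' i = 0 := by
    intro i
    ext d
    rw [coeff_zero]
    exact congrFun (hall d).2 i
  refine ⟨?_, fun i => ?_⟩
  · rw [← SH1_TT h2 b s, ← hs', hs0, map_zero]
  · rw [← SH1_TT h2 b (z i)]
    have := hz0 i
    rw [hz'] at this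
    simp only at this
    rw [this, map_zero]

section homog

variable {N : ℕ} {k : Type*} [Field k]

/-- homogenisation in degree `D` -/
noncomputable def SH1_hom (D : ℕ) (p : MvPolynomial (Fin N) k) : MvPolynomial (Fin (N + 1)) k :=
  ∑ d ∈ p.support, monomial (Finsupp.cons (D - d.degree) d) (coeff d p)

theorem SH1_hom_coeff (D : ℕ) (p : MvPolynomial (Fin N) k) (e : Fin (N + 1) →₀ ℕ) :
    coeff e (SH1_hom D p) = if e 0 = D - e.tail.degree then coeff e.tail p else 0 := by
  classical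
  rw [SH1_hom, coeff_sum]
  simp only [coeff_monomial]
  by_cases h : e 0 = D - e.tail.degree
  · rw [if_pos h]
    by_cases hs : e.tail ∈ p.support
    · rw [Finset.sum_eq_single e.tail]
      · rw [if_pos]
        rw [← h, Finsupp.cons_tail]
      · intro d _ hd
        rw [if_neg]
        intro he
        apply hd
        rw [← he, Finsupp.tail_cons]
      · intro h1
        exact absurd hs h1
    · rw [notMem_support_iff.mp hs]
      refine Finset.sum_eq_zero fun d hd => ?_
      rw [if_neg]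
      intro he
      apply hs
      rw [← he, Finsupp.tail_cons]
      exact hd
  · rw [if_neg h]
    refine Finset.sum_eq_zero fun d hd => ?_
    rw [if_neg]
    intro he
    apply h
    rw [← he, Finsupp.cons_zero, Finsupp.tail_cons]

theorem SH1_hom_zero (D : ℕ) (p : MvPolynomial (Fin N) k) (h : SH1_hom D p = 0) : p = 0 := by
  ext d
  rw [coeff_zero]
  have h1 := SH1_hom_coeff D p (Finsupp.cons (D - d.degree) d)
  rw [h, coeff_zero, Finsupp.cons_zero, Finsupp.tail_cons, if_pos rfl] at h1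
  exact h1.symm

/-- the homomorphism `X_i ↦ x_{i+1} / x_0` -/
noncomputable def SH1_rho (N : ℕ) (k : Type*) [Field k] :
    MvPolynomial (Fin N) k →ₐ[k] FractionRing (MvPolynomial (Fin (N + 1)) k) :=
  aeval (fun i => algebraMap (MvPolynomial (Fin (N + 1)) k)
    (FractionRing (MvPolynomial (Fin (N + 1)) k)) (X i.succ) /
    algebraMap (MvPolynomial (Fin (N + 1)) k) (FractionRing (MvPolynomial (Fin (N + 1)) k)) (X 0))

theorem SH1_rho_hom (D : ℕ) (p : MvPolynomial (Fin N) k) (hD : ∀ d ∈ p.support, d.degree ≤ D) :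
    algebraMap (MvPolynomial (Fin (N + 1)) k) (FractionRing (MvPolynomial (Fin (N + 1)) k))
      (SH1_hom D p) =
      algebraMap (MvPolynomial (Fin (N + 1)) k) (FractionRing (MvPolynomial (Fin (N + 1)) k))
        (X 0) ^ D * SH1_rho N k p := by
  classical
  set φ := algebraMap (MvPolynomial (Fin (N + 1)) k)
    (FractionRing (MvPolynomial (Fin (N + 1)) k)) with hφ
  have hX0 : φ (X 0) ≠ 0 := by
    intro h
    have h1 : φ (X 0) = φ 0 := by rw [h, map_zero]
    exact X_ne_zero (R := k) (0 : Fin (N + 1)) (IsFractionRing.injective _ _ h1)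
  conv_rhs => rw [p.as_sum]
  rw [SH1_hom, map_sum, map_sum, Finset.mul_sum]
  refine Finset.sum_congr rfl fun d hd => ?_
  have h1 : monomial (Finsupp.cons (D - d.degree) d) (coeff d p) =
      C (coeff d p) * (X 0 ^ (D - d.degree) * ∏ i : Fin N, X i.succ ^ d i) := by
    rw [monomial_eq, Finsupp.prod_fintype _ _ (by simp), Fin.prod_univ_succ]
    simp
  have h2 : SH1_rho N k (monomial d (coeff d p)) = algebraMap k _ (coeff d p) *
      ∏ i : Fin N, (φ (X i.succ) / φ (X 0)) ^ d i := by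
    rw [SH1_rho, aeval_monomial, Finsupp.prod_fintype _ _ (by simp)]
  have h3 : φ (C (coeff d p)) = algebraMap k _ (coeff d p) := by
    rw [hφ, IsScalarTower.algebraMap_apply k (MvPolynomial (Fin (N + 1)) k), algebraMap_eq]
  have h4 : ∏ i : Fin N, (φ (X i.succ) / φ (X 0)) ^ d i =
      (∏ i : Fin N, φ (X i.succ) ^ d i) / φ (X 0) ^ d.degree := by
    simp only [div_pow]
    rw [Finset.prod_div_distrib, Finset.prod_pow_eq_pow_sum]
    congr 2
    rw [Finsupp.degree_eq_sum]
  have h5 : φ (X 0) ^ D = φ (X 0) ^ (D - d.degree) * φ (X 0) ^ d.degree := by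
    rw [← pow_add, Nat.sub_add_cancel (hD d hd)]
  rw [h1, h2, h4, map_mul, h3, map_mul, map_pow, map_prod]
  simp only [map_pow]
  rw [h5]
  field_simp

end homog

/-- `aniso_char2` without the condition `b 0 = 1`. -/
theorem aniso_char2' {k : Type*} [Field k] (h2 : (2 : k) = 0) {N : ℕ}
    (W : Submodule k (Fin (N + 1) → k)) (b : Fin (N + 1) → k) (hb : b ∉ W)
    (hbW : ∀ w ∈ W, ∑ i, b i ^ 2 * w i = 0) (s : MvPolynomial (Fin N) k)
    (z : Fin (N + 1) → MvPolynomial (Fin N) k) (hz : ∀ d, (fun i => coeff d (z i)) ∈ W)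
    (h : s ^ 2 * ∑ i, gv N k i ^ 3 + s * ∑ i, gv N k i ^ 2 * z i + ∑ i, z i ^ 2 * gv N k i = 0) :
    s = 0 ∧ ∀ i, z i = 0 := by
  classical
  set φ := algebraMap (MvPolynomial (Fin (N + 1)) k)
    (FractionRing (MvPolynomial (Fin (N + 1)) k)) with hφ
  have hinj : Function.Injective φ := IsFractionRing.injective _ _
  have hX0 : φ (X 0) ≠ 0 := by
    intro h
    have h1 : φ (X 0) = φ 0 := by rw [h, map_zero]
    exact X_ne_zero (R := k) (0 : Fin (N + 1)) (hinj h1)
  obtain ⟨D, hDs, hDz⟩ : ∃ D : ℕ, (∀ d ∈ s.support, d.degree ≤ D) ∧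
      ∀ i, ∀ d ∈ (z i).support, d.degree ≤ D := by
    refine ⟨s.support.sup (fun d => d.degree) +
      ∑ i, (z i).support.sup (fun d => d.degree), ?_, ?_⟩
    · intro d hd
      exact (Finset.le_sup (f := fun d : Fin N →₀ ℕ => d.degree) hd).trans (Nat.le_add_right _ _)
    · intro i d hd
      refine (Finset.le_sup (f := fun d : Fin N →₀ ℕ => d.degree) hd).trans ?_
      refine le_trans ?_ (Nat.le_add_left _ _)
      exact Finset.single_le_sum (f := fun i => (z i).support.sup (fun d => d.degree))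
        (fun _ _ => Nat.zero_le _) (Finset.mem_univ i)
  set S := SH1_hom D s with hS
  set Z : Fin (N + 1) → MvPolynomial (Fin (N + 1)) k := fun i => SH1_hom (D + 1) (z i) with hZ
  have hSr : φ S = φ (X 0) ^ D * SH1_rho N k s := SH1_rho_hom D s hDs
  have hZr : ∀ i, φ (Z i) = φ (X 0) ^ (D + 1) * SH1_rho N k (z i) := fun i =>
    SH1_rho_hom (D + 1) (z i) (fun d hd => (hDz i d hd).trans (Nat.le_succ D))
  have hgr : ∀ i, φ (X 0) * SH1_rho N k (gv N k i) = φ (X i) := by
    intro i
    refine Fin.cases ?_ (fun j => ?_) i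
    · simp [gv]
    · simp only [gv, Fin.cons_succ, SH1_rho, aeval_X]
      rw [mul_div_cancel₀ _ hX0]
  have hE : S ^ 2 * ∑ i, X i ^ 3 + S * ∑ i, X i ^ 2 * Z i + ∑ i, Z i ^ 2 * X i = 0 := by
    apply hinj
    rw [map_zero, map_add, map_add, map_mul, map_mul, map_pow, map_sum, map_sum, map_sum]
    simp only [map_mul, map_pow]
    have h1 := congrArg (SH1_rho N k) h
    rw [map_zero, map_add, map_add, map_mul, map_mul, map_pow, map_sum, map_sum, map_sum] at h1
    simp only [map_mul, map_pow] at h1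
    have e1 : ∀ i, φ (X i) ^ 3 = φ (X 0) ^ 3 * SH1_rho N k (gv N k i) ^ 3 := by
      intro i
      rw [← hgr i]; ring
    have e2 : ∀ i, φ (X i) ^ 2 * φ (Z i) =
        φ (X 0) ^ (D + 3) * (SH1_rho N k (gv N k i) ^ 2 * SH1_rho N k (z i)) := by
      intro i
      rw [hZr i, ← hgr i]; ring
    have e3 : ∀ i, φ (Z i) ^ 2 * φ (X i) =
        φ (X 0) ^ (2 * D + 3) * (SH1_rho N k (z i) ^ 2 * SH1_rho N k (gv N k i)) := by
      intro i
      rw [hZr i, ← hgr i]; ring
    rw [Finset.sum_congr rfl (fun i _ => e1 i), Finset.sum_congr rfl (fun i _ => e2 i),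
      Finset.sum_congr rfl (fun i _ => e3 i), ← Finset.mul_sum, ← Finset.mul_sum,
      ← Finset.mul_sum, hSr]
    linear_combination (φ (X 0) ^ (2 * D + 3)) * h1
  have hZW : ∀ e, (fun i => coeff e (Z i)) ∈ W := by
    intro e
    simp only [hZ, SH1_hom_coeff]
    by_cases he : e 0 = D + 1 - e.tail.degree
    · simp only [if_pos he]
      exact hz _
    · simp only [if_neg he]
      exact W.zero_mem
  obtain ⟨hS0, hZ0⟩ := aniso_char2_hom h2 W b hb hbW S Z hZW hE
  exact ⟨SH1_hom_zero D s hS0, fun i => SH1_hom_zero (D + 1) (z i) (hZ0 i)⟩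

end Pool.Agent.Lib.MP_2619d0_ag.T
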