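import Pool.Agent.Lib.MP_2619d0_ag.T.P9
import Pool.Agent.Lib.MP_2619d0_ag.T.A6

/-!
Row T1: the tangent theorem and the secant theorem.
-/

set_option autoImplicit false

namespace Pool.Agent.Lib.MP_2619d0_ag.T

open MvPolynomial

variable {N : ℕ} {F : MvPolynomial (Fin (N + 1)) ℂ} {L : Type*} [Field L] [Algebra ℂ L]

/-- Suppose `x` is not a multiple of `y`; then `![y, x]` is linearly independent (`y 0 = 1`), and `parity`
gives `Odd (fd (psi y x))` (the other alternative contradicts `h`). With `u = uu y x`
`D(x; u) = D(x; y) + s D(x; x) = 3 s F(x) = 0` (in `L(s)`, `Dc_cm`), so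
`D(cM x; yh ψ) = 0` (`yh_psi`, `cc_psi`, `Dc_smul_right`), and `polarM` gives `x = 0`. -/
theorem tangentM (hN : 2 ≤ N) (hF : VG F) (y x : Fin (N + 1) → L) (hy0 : y 0 = 1)
    (hy : Gp F (ev y)) (hodd : Odd (fd (ev y))) (hx : Fc (cL L F) x = 0)
    (h : Dc (cL L F) x y = 0) : x = x 0 • y := by
  by_contra hne
  have hlin : LinearIndependent L ![y, x] := by
    rw [LinearIndependent.pair_iff]
    intro s t hst
    have ht : t = 0 := by
      by_contra ht
      apply hne
      have h0 := congrFun hst 0
      simp only [Pi.add_apply, Pi.smul_apply, smul_eq_mul, hy0, mul_one, Pi.zero_apply] at h0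
      funext i
      have hi := congrFun hst i
      simp only [Pi.add_apply, Pi.smul_apply, smul_eq_mul, Pi.zero_apply] at hi
      rw [Pi.smul_apply, smul_eq_mul]
      have h1 : s = -(t * x 0) := by linear_combination h0
      rw [h1] at hi
      have h2 : t * (x i - x 0 * y i) = 0 := by linear_combination hi
      rcases mul_eq_zero.mp h2 with h3 | h3
      · exact absurd h3 ht
      · linear_combination h3
    refine ⟨?_, ht⟩
    have h0 := congrFun hst 0
    simpa [ht, hy0] using h0
  obtain ⟨hinj, hpar⟩ := parity hN hF y x hy0 hy hodd hlin hx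
  have hoddψ : Odd (fd (psi y x)) := by
    rcases hpar with h1 | ⟨h1, -⟩
    · exact h1
    · exact absurd h h1
  have hu := uu_zero_ne y x hy0
  have hxM : Fc (cm (cM L) (cL L F)) (fun i => cM L (x i)) = 0 := by
    rw [Fc_cm, hx, map_zero]
  have hyM : Dc (cm (cM L) (cL L F)) (fun i => cM L (x i)) (fun i => cM L (y i)) = 0 := by
    rw [Dc_cm, h, map_zero]
  have huu : uu y x = (fun i => cM L (y i)) + sv L • (fun i => cM L (x i)) := by
    funext i
    rfl
  have hD : Dc (cc F (psi y x)) (fun i => cM L (x i)) (yh (psi y x)) = 0 := by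
    rw [cc_psi, yh_psi y x hu, Dc_smul_right, huu, Dc_add_right, Dc_smul_right, hyM, Dc_self, hxM]
    simp
  have hz := polarM hF (psi y x) hinj hoddψ (fun i => cM L (x i)) hD
  apply hne
  have hx0 : ∀ i, x i = 0 := by
    intro i
    have := congrFun hz i
    simpa using this
  funext i
  rw [Pi.smul_apply, hx0 i, hx0 0, smul_eq_mul, zero_mul]

/-- Points of a linear subspace on `X` are not generic: the span of the `e k` is a proper subspace
(`w < N + 1`), so there is a nonzero linear form `ℓ` over `ℂ` which vanishes on it, and the polynomial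
`G = ℓ(1, X_0, …, X_{N-1})` of degree at most one satisfies `ev a G = ℓ(a) / a 0 = 0`, so `f ∣ G` by `Gp`;
`G ≠ 0`, because otherwise `ℓ = 0`; but `f = dh ℂ N F` is a polynomial of total degree 3 (it contains
`X i ^ 3` with nonzero coefficient; `dvd` and degrees). -/
theorem not_gp_of_linear (hN : 2 ≤ N) (hF : VG F) {w : ℕ} (e : Fin w → Fin (N + 1) → ℂ)
    (hw : w < N + 1) (α : Fin w → L)
    (h0 : (fun i => ∑ k, α k * algebraMap ℂ L (e k i)) 0 ≠ 0)
    (hg : Gp F (ev (fun i => ∑ k, α k * algebraMap ℂ L (e k i)))) : False := by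
  classical
  set a : Fin (N + 1) → L := fun i => ∑ k, α k * algebraMap ℂ L (e k i) with ha
  -- a linear form which vanishes on the subspace
  let Λ : (Fin (N + 1) → ℂ) →ₗ[ℂ] (Fin w → ℂ) :=
    { toFun := fun ℓ k => ∑ i, ℓ i * e k i
      map_add' := by
        intro u v
        funext k
        simp only [Pi.add_apply, add_mul, Finset.sum_add_distrib]
      map_smul' := by
        intro c v
        funext k
        simp only [Pi.smul_apply, smul_eq_mul, RingHom.id_apply, Finset.mul_sum, mul_assoc] }
  have hker : LinearMap.ker Λ ≠ ⊥ := LinearMap.ker_ne_bot_of_finrank_lt (by simpa using hw)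
  obtain ⟨ℓ, hℓ, hℓ0⟩ := (Submodule.ne_bot_iff _).mp hker
  have hℓk : ∀ k, ∑ i, ℓ i * e k i = 0 := fun k => congrFun (LinearMap.mem_ker.mp hℓ) k
  set G : MvPolynomial (Fin N) ℂ := C (ℓ 0) + ∑ i : Fin N, C (ℓ i.succ) * X i with hG
  have hevG : ev a G = 0 := by
    have h1 : ∑ i, algebraMap ℂ L (ℓ i) * a i = 0 := by
      have h2 : ∑ i, algebraMap ℂ L (ℓ i) * a i =
          ∑ k, α k * algebraMap ℂ L (∑ i, ℓ i * e k i) := by
        simp only [ha, Finset.mul_sum, map_sum, map_mul]
        rw [Finset.sum_comm]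
        refine Finset.sum_congr rfl fun k _ => Finset.sum_congr rfl fun i _ => ?_
        ring
      rw [h2]
      simp only [hℓk, map_zero, mul_zero, Finset.sum_const_zero]
    have h3 : ev a G = (∑ i, algebraMap ℂ L (ℓ i) * a i) / a 0 := by
      have h4 : ev a G = algebraMap ℂ L (ℓ 0) +
          ∑ i : Fin N, algebraMap ℂ L (ℓ i.succ) * (a i.succ / a 0) := by
        change aeval (fun i : Fin N => a i.succ / a 0) G = _
        simp [hG]
      rw [h4, Fin.sum_univ_succ, add_div, mul_div_assoc, div_self h0, mul_one, Finset.sum_div]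
      simp only [mul_div_assoc]
    rw [h3, h1, zero_div]
  obtain ⟨q, hq⟩ := (hg G).mp hevG
  have hG0 : G ≠ 0 := by
    intro h
    apply hℓ0
    have hc0 : coeff 0 G = ℓ 0 := by
      rw [hG, coeff_add, coeff_zero_C, coeff_sum, Finset.sum_eq_zero, add_zero]
      intro i _
      rw [coeff_C_mul, coeff_X, if_neg, mul_zero]
      intro h1
      have := DFunLike.congr_fun h1 i
      simp at this
    have hci : ∀ i : Fin N, coeff (Finsupp.single i 1) G = ℓ i.succ := by
      intro i
      rw [hG, coeff_add, coeff_C, if_neg, zero_add, coeff_sum, Finset.sum_eq_single i]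
      · rw [coeff_C_mul, coeff_X, if_pos rfl, mul_one]
      · intro j _ hj
        rw [coeff_C_mul, coeff_X, if_neg, mul_zero]
        intro h1
        exact hj (Finsupp.single_left_injective one_ne_zero h1)
      · intro h1
        exact absurd (Finset.mem_univ i) h1
      · intro h1
        have := DFunLike.congr_fun h1 i
        simp at this
    funext j
    refine Fin.cases ?_ (fun i => ?_) j
    · rw [← hc0, h]
      simp
    · rw [← hci i, h]
      simp
  have hq0 : q ≠ 0 := by
    rintro rfl
    rw [mul_zero] at hq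
    exact hG0 hq
  have hdh0 : dh ℂ N F ≠ 0 := by
    intro h
    rw [h, zero_mul] at hq
    exact hG0 hq
  have hGdeg : G.totalDegree ≤ 1 := by
    rw [hG]
    refine (totalDegree_add _ _).trans (max_le ?_ ?_)
    · rw [totalDegree_C]
      omega
    · refine (totalDegree_finsetSum _ _).trans (Finset.sup_le fun i _ => ?_)
      refine (totalDegree_mul _ _).trans ?_
      rw [totalDegree_C, totalDegree_X, zero_add]
  have hdeg3 : 3 ≤ (dh ℂ N F).totalDegree := by
    set i0 : Fin N := ⟨0, by omega⟩ with hi0
    have hd : (Finsupp.single i0 3 : Fin N →₀ ℕ).degree = 3 := Finsupp.degree_single _ _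
    have hco : coeff (Finsupp.single i0 3) (dh ℂ N F) ≠ 0 := by
      rw [coeff_dh_of_eq hF.1 hd]
      have h1 : (Finsupp.cons 0 (Finsupp.single i0 3) : Fin (N + 1) →₀ ℕ).degree = 3 := by
        rw [degree_eq_cons, Finsupp.cons_zero, Finsupp.tail_cons, hd, zero_add]
      exact hF.2.ne_zero ⟨_, h1⟩
    have := le_totalDegree (mem_support_iff.mpr hco)
    simpa using this
  have := totalDegree_mul_of_isDomain hdh0 hq0
  rw [← hq] at this
  omega

end Pool.Agent.Lib.MP_2619d0_ag.T
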