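import Pool.Agent.Lib.MP_2619d0_ag.T.SH2
import Pool.Agent.Lib.MP_2619d0_ag.T.LC

/-!
# The third point theorem for an arbitrary hyperplane
-/

set_option autoImplicit false

namespace Pool.Agent.Lib.MP_2619d0_ag.T

open MvPolynomial

/-- The third point theorem: `x` in a linear subspace of small dimension or in the hyperplane
`l = 0`, where `h` is a matrix with first row `l` and `F(h⁻¹ x)` is very general. -/
theorem third_hyp {N : ℕ} {F : MvPolynomial (Fin (N + 1)) ℂ} {L : Type*} [Field L] [Algebra ℂ L]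
    (hN : 2 ≤ N) (hF : VG F) (g h : Matrix (Fin (N + 1)) (Fin (N + 1)) ℂ) (hg : g * h = 1)
    (hh : h * g = 1) (hFg : VG (lc g F)) (y : Fin (N + 1) → L) (hy : IsGP F y)
    (hodd : Odd (Module.finrank (ratioF y) L)) (x : Fin (N + 1) → L) (hx : aeval x F = 0)
    (hxy : ∀ c : L, x ≠ c • y) :
    pol F x y ≠ 0 ∧
      ((mv h x 0 = 0 ∨ ∃ W : Submodule ℂ (Fin (N + 1) → ℂ),
        2 * Module.finrank ℂ W < N + 1 ∧ x ∈ extend L W) →
          IsGP F (fun i => pol F x y * y i - pol F y x * x i) ∧
          Odd (Module.finrank (ratioF (fun i => pol F x y * y i - pol F y x * x i)) L)) := by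
  obtain ⟨h1, h2⟩ := third_hom2 hN hF y hy hodd x hx hxy
  refine ⟨h1, ?_⟩
  rintro (h0 | hW)
  · have hy1 : mv g (mv h y) = y := by rw [mv_mv, hg, mv_one]
    have hx1 : mv g (mv h x) = x := by rw [mv_mv, hg, mv_one]
    have hGP : IsGP (lc g F) (mv h y) := by
      rw [isGP_lc g h hg hh, hy1]
      exact hy
    have hrat : ratioF (mv h y) = ratioF y := ratioF_mv h g hg y
    have hodd' : Odd (Module.finrank (ratioF (mv h y)) L) := by
      rw [hrat]
      exact hodd
    have hx' : aeval (mv h x) (lc g F) = 0 := by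
      rw [aeval_lc, hx1]
      exact hx
    have hxy' : ∀ c : L, mv h x ≠ c • mv h y := by
      intro c hc
      apply hxy c
      have h3 := congrArg (mv g) hc
      rw [mv_smul, hx1, hy1] at h3
      exact h3
    obtain ⟨h3, h4⟩ := third_hom2 hN hFg (mv h y) hGP hodd' (mv h x) hx' hxy'
    obtain ⟨h5, h6⟩ := h4 (Or.inl h0)
    have h7 : mv g (fun i => pol (lc g F) (mv h x) (mv h y) * mv h y i -
        pol (lc g F) (mv h y) (mv h x) * mv h x i) =
        fun i => pol F x y * y i - pol F y x * x i := by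
      rw [third_lc, hx1, hy1]
    have h8 : IsGP (lc g F) (fun i => pol (lc g F) (mv h x) (mv h y) * mv h y i -
        pol (lc g F) (mv h y) (mv h x) * mv h x i) := h5
    rw [isGP_lc g h hg hh, h7] at h8
    have h9 : Odd (Module.finrank (ratioF (fun i => pol (lc g F) (mv h x) (mv h y) * mv h y i -
        pol (lc g F) (mv h y) (mv h x) * mv h x i)) L) := h6
    rw [← ratioF_mv g h hh, h7] at h9
    exact ⟨h8, h9⟩
  · exact h2 (Or.inr hW)

end Pool.Agent.Lib.MP_2619d0_ag.T
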